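import Mathlib

/-!
Definitions for the 2-adic rank bound (problem MP_28d749_ag).
`curve a2 a4 a6` is the cubic y^2 = x^3 + a2 x^2 + a4 x + a6.
-/

namespace RD

open MvPolynomial

/-- the Weierstrass cubic y^2 = x^3 + a2 x^2 + a4 x + a6 -/
abbrev curve {K : Type*} [Field K] (a2 a4 a6 : K) : WeierstrassCurve.Affine K :=
  { a₁ := 0, a₂ := a2, a₃ := 0, a₄ := a4, a₆ := a6 }

/-- A group endomorphism of the points which is given by rational functions: outside finitely many
abscissas it sends (x, y) to (A(x)/B(x), y C(x)/D(x)), and A/B has a pole at infinity. -/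
def IsAlgEndo {K : Type*} [Field K] [DecidableEq K] (W : WeierstrassCurve.Affine K)
    (ω : W.Point →+ W.Point) : Prop :=
  ∃ (A B C D : Polynomial K) (s : Finset K), B ≠ 0 ∧ D ≠ 0 ∧ B.natDegree < A.natDegree ∧
    ∀ (x y : K) (h : W.Nonsingular x y), x ∉ s →
      ∃ h' : W.Nonsingular (A.eval x / B.eval x) (y * (C.eval x / D.eval x)),
        ω (WeierstrassCurve.Affine.Point.some x y h) =
          WeierstrassCurve.Affine.Point.some (A.eval x / B.eval x) (y * (C.eval x / D.eval x)) h'

/-- `P` satisfies `e` independent integral relations up to torsion. -/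
def IntRel {K : Type*} [Field K] [DecidableEq K] (W : WeierstrassCurve.Affine K) {g : ℕ} (e : ℕ)
    (P : Fin g → W.Point) : Prop :=
  ∃ M : Fin e → Fin g → ℤ, LinearIndependent ℤ M ∧ ∀ k, IsOfFinAddOrder (∑ i, M k i • P i)

/-- `P` satisfies `e` independent relations up to torsion with coefficients in `ℤ[ω]`, where `ω` is
an algebraic endomorphism with `ω ^ 2 = t ω - n`, `t ^ 2 < 4 n` (complex multiplication).
Independence is tested after replacing `ω` by a root `α` in `K` of `X ^ 2 - t X + n`. -/
def CMRel {K : Type*} [Field K] [DecidableEq K] (W : WeierstrassCurve.Affine K) {g : ℕ} (e : ℕ)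
    (P : Fin g → W.Point) : Prop :=
  ∃ (ω : W.Point →+ W.Point) (t n : ℤ) (α : K) (M N : Fin e → Fin g → ℤ),
    IsAlgEndo W ω ∧ t ^ 2 < 4 * n ∧ (∀ Q, ω (ω Q) = t • ω Q - n • Q) ∧
    α ^ 2 = t * α - n ∧
    LinearIndependent K (fun (k : Fin e) (i : Fin g) => (M k i : K) + (N k i : K) * α) ∧
    ∀ k, IsOfFinAddOrder (∑ i, (M k i • P i + N k i • ω (P i)))

/-- exponents of the monomials of degree at most `D` in `d` variables -/
abbrev Mon (d D : ℕ) : Type := {α : Fin d → Fin (D + 1) // ∑ j, (α j : ℕ) ≤ D}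

/-- value at `p` of the polynomial of degree at most `D` with coefficients `c` -/
def polyVal {R : Type*} [CommSemiring R] {d D : ℕ} (c : Mon d D → R) (p : Fin d → R) : R :=
  ∑ α : Mon d D, c α * ∏ j, p j ^ (α.1 j : ℕ)

/-- value at `p` of the part of degree exactly `D` -/
def topVal {R : Type*} [CommSemiring R] {d D : ℕ} (c : Mon d D → R) (p : Fin d → R) : R :=
  ∑ α : Mon d D, if (∑ j, (α.1 j : ℕ)) = D then c α * ∏ j, p j ^ (α.1 j : ℕ) else 0

/-- the local parameter x / y -/
noncomputable def zz {K : Type*} [Field K] {W : WeierstrassCurve.Affine K} : W.Point → K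
  | .zero => 0
  | .some x y _ => x / y

/-- the point is zero or its abscissa has absolute value larger than `R` -/
def InE {K : Type*} [Field K] {W : WeierstrassCurve.Affine K} (v : AbsoluteValue K ℝ) (R : ℝ) :
    W.Point → Prop
  | .zero => True
  | .some x _ _ => R < v x

/-- standing assumptions on the absolute value and the coefficients -/
structure Ctx {K : Type*} [Field K] (v : AbsoluteValue K ℝ) (R : ℝ) (a2 a4 a6 : K) : Prop where
  na : IsNonarchimedean v
  two : v 2 < 1
  one_le : 1 ≤ R
  h2 : v a2 ≤ R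
  h4 : v a4 ≤ R ^ 2
  h6 : v a6 ≤ R ^ 3

/-- the cubic polynomial -/
def ff {K : Type*} [Field K] (a2 a4 a6 x : K) : K := x ^ 3 + a2 * x ^ 2 + a4 * x + a6

/-- its derivative -/
def fd {K : Type*} [Field K] (a2 a4 x : K) : K := 3 * x ^ 2 + 2 * a2 * x + a4

end RD
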