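import Mathlib
import Pool.Agent.RD.Defs

/-!
Targets (statements as propositions) for the 2-adic rank bound.
Each job proves one of them in its own file `Pool/Agent/RD/<NAME>.lean` as
`theorem <name> : T_<NAME>`.
-/

namespace RD

open MvPolynomial WeierstrassCurve.Affine

universe u

/-- SYM: symmetric relations for chord and tangent: with `x3 = ℓ^2 - a2 - x1 - x2` and `n = y1 - ℓ x1`
the sum is `(x3, -(ℓ x3 + n))` and the line meets the cubic in x1, x2, x3. -/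
def T_SYM : Prop := ∀ (K : Type u) [Field K] [DecidableEq K] (a2 a4 a6 : K)
  (x1 y1 x2 y2 : K) (h1 : (curve a2 a4 a6).Nonsingular x1 y1)
  (h2 : (curve a2 a4 a6).Nonsingular x2 y2), ¬ (x1 = x2 ∧ y1 = - y2) →
  ∃ (l n x3 y3 : K) (h3 : (curve a2 a4 a6).Nonsingular x3 y3),
    WeierstrassCurve.Affine.Point.some x1 y1 h1 + WeierstrassCurve.Affine.Point.some x2 y2 h2
      = WeierstrassCurve.Affine.Point.some x3 y3 h3 ∧
    y1 = l * x1 + n ∧ y2 = l * x2 + n ∧ y3 = - (l * x3 + n) ∧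
    x1 + x2 + x3 = l ^ 2 - a2 ∧ x1 * x2 + x1 * x3 + x2 * x3 = a4 - 2 * l * n ∧
    x1 * x2 * x3 = n ^ 2 - a6

/-- EST: the key estimate, pure field arithmetic -/
def T_EST : Prop := ∀ (K : Type u) [Field K] (v : AbsoluteValue K ℝ) (R : ℝ) (a2 a4 a6 : K),
  Ctx v R a2 a4 a6 → ∀ (l n x1 x2 x3 y1 y2 y3 : K), R < v x1 → R < v x2 →
    y1 = l * x1 + n → y2 = l * x2 + n → y3 = - (l * x3 + n) →
    x1 + x2 + x3 = l ^ 2 - a2 → x1 * x2 + x1 * x3 + x2 * x3 = a4 - 2 * l * n →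
    x1 * x2 * x3 = n ^ 2 - a6 →
    y1 ^ 2 = ff a2 a4 a6 x1 → y2 ^ 2 = ff a2 a4 a6 x2 → y3 ^ 2 = ff a2 a4 a6 x3 →
    R < v x3 ∧ v (x3 / y3 - x1 / y1 - x2 / y2) ≤ R * (max (v (x1 / y1)) (v (x2 / y2))) ^ 3

/-- ADD: additivity of the local parameter on E_R with cubic error -/
def T_ADD : Prop := ∀ (K : Type u) [Field K] [DecidableEq K] (v : AbsoluteValue K ℝ) (R : ℝ)
  (a2 a4 a6 : K), Ctx v R a2 a4 a6 → ∀ (P Q : (curve a2 a4 a6).Point), InE v R P → InE v R Q →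
    InE v R (P + Q) ∧
      v (zz (P + Q) - zz P - zz Q) ≤ R * (max (v (zz P)) (v (zz Q))) ^ 3

/-- DBL: duplication of a point which is not near the critical set of the cubic modulo 2 -/
def T_DBL : Prop := ∀ (K : Type u) [Field K] [CharZero K] [DecidableEq K] (v : AbsoluteValue K ℝ)
  (R : ℝ) (a2 a4 a6 : K), Ctx v R a2 a4 a6 → ∀ (x y : K) (h : (curve a2 a4 a6).Nonsingular x y),
    v (4 * ff a2 a4 a6 x) * max R (v x) < v (fd a2 a4 x) ^ 2 →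
    InE v R (2 • WeierstrassCurve.Affine.Point.some x y h) ∧
      ((y = 0 ∧ 2 • WeierstrassCurve.Affine.Point.some x y h = 0) ∨
        v (zz (2 • WeierstrassCurve.Affine.Point.some x y h) + 2 * y / fd a2 a4 x)
          < v (2 * y / fd a2 a4 x))

/-- NSM: multiplication by integers on E_R -/
def T_NSM : Prop := ∀ (K : Type u) [Field K] [CharZero K] [DecidableEq K] (v : AbsoluteValue K ℝ)
  (R : ℝ) (a2 a4 a6 : K), Ctx v R a2 a4 a6 → ∀ (P : (curve a2 a4 a6).Point), InE v R P →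
    (∀ n : ℕ, InE v R (n • P)) ∧
    (∀ n : ℤ, InE v R (n • P) ∧ v (zz (n • P) - (n : K) * zz P) ≤ R * v (zz P) ^ 3) ∧
    (∀ n : ℕ, n ≠ 0 → P ≠ 0 → v (zz (n • P) - (n : K) * zz P) < v (n : K) * v (zz P))

/-- SUM: finite sums on E_R -/
def T_SUM : Prop := ∀ (K : Type u) [Field K] [DecidableEq K] (v : AbsoluteValue K ℝ) (R : ℝ)
  (a2 a4 a6 : K), Ctx v R a2 a4 a6 → ∀ (ι : Type) (S : Finset ι)
    (Q : ι → (curve a2 a4 a6).Point) (μ : ℝ), 0 ≤ μ →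
    (∀ i ∈ S, InE v R (Q i) ∧ v (zz (Q i)) ≤ μ) →
    R * μ ^ 2 ≤ 1 →
    InE v R (∑ i ∈ S, Q i) ∧ v (zz (∑ i ∈ S, Q i)) ≤ μ ∧
      v (zz (∑ i ∈ S, Q i) - ∑ i ∈ S, zz (Q i)) ≤ R * μ ^ 3

/-- END: the multiplier of an algebraic endomorphism -/
def T_END : Prop := ∀ (K : Type u) [Field K] [CharZero K] [DecidableEq K] (v : AbsoluteValue K ℝ)
  (R : ℝ) (a2 a4 a6 : K), Ctx v R a2 a4 a6 →
  ∀ (ω : (curve a2 a4 a6).Point →+ (curve a2 a4 a6).Point), IsAlgEndo (curve a2 a4 a6) ω →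
    (∃ P : (curve a2 a4 a6).Point, P ≠ 0 ∧ InE v R P) →
    ∃ (a : K) (B C : ℝ), a ≠ 0 ∧ R ≤ B ∧ 0 ≤ C ∧
      ∀ P : (curve a2 a4 a6).Point, P ≠ 0 → InE v B P →
        InE v R (ω P) ∧ ω P ≠ 0 ∧ v (zz (ω P) - a * zz P) ≤ C * v (zz P) ^ 3

/-- QUA: the multiplier satisfies the quadratic equation of the endomorphism -/
def T_QUA : Prop := ∀ (K : Type u) [Field K] [CharZero K] [DecidableEq K] (v : AbsoluteValue K ℝ)
  (R : ℝ) (a2 a4 a6 : K), Ctx v R a2 a4 a6 →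
  ∀ (ω : (curve a2 a4 a6).Point →+ (curve a2 a4 a6).Point) (t n : ℤ),
    (∀ Q, ω (ω Q) = t • ω Q - n • Q) →
    (∃ P : (curve a2 a4 a6).Point, P ≠ 0 ∧ InE v R P) →
    ∀ (a : K) (B C : ℝ), a ≠ 0 → R ≤ B → 0 ≤ C →
      (∀ P : (curve a2 a4 a6).Point, P ≠ 0 → InE v B P →
        InE v R (ω P) ∧ ω P ≠ 0 ∧ v (zz (ω P) - a * zz P) ≤ C * v (zz P) ^ 3) →
      a ^ 2 = t * a - n

/-- LEM: a relation over ℤ[ω] gives a congruence between the leading terms -/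
def T_LEM : Prop := ∀ (K : Type u) [Field K] [CharZero K] [DecidableEq K] (v : AbsoluteValue K ℝ)
  (R : ℝ) (a2 a4 a6 : K), Ctx v R a2 a4 a6 →
  ∀ (ω : (curve a2 a4 a6).Point →+ (curve a2 a4 a6).Point) (a : K) (B C : ℝ), R ≤ B → 0 ≤ C →
    (∀ P : (curve a2 a4 a6).Point, P ≠ 0 → InE v B P →
        InE v R (ω P) ∧ v (zz (ω P) - a * zz P) ≤ C * v (zz P) ^ 3) →
  ∀ (g : ℕ) (P : Fin g → (curve a2 a4 a6).Point) (S : Finset (Fin g)) (M N : Fin g → ℤ)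
    (G : Fin g → K) (Γ Θ : ℝ), 0 < Γ → 0 < Θ →
    (∀ i ∈ S, InE v R (2 • P i) ∧ v (G i) ≤ Γ ∧ v (zz (2 • P i) ^ 2 - 4 * G i) < v 4 * Γ) →
    (∀ i ∈ S, v ((M i : K) + (N i : K) * a) ≤ Θ) →
    IsOfFinAddOrder (∑ i ∈ S, (M i • P i + N i • ω (P i))) →
    v (∑ i ∈ S, ((M i : K) + (N i : K) * a) ^ 2 * G i) < Θ ^ 2 * Γ

/-- PIV: pivot basis with bounded entries for a subspace over a valued field -/
def T_PIV : Prop := ∀ (F : Type u) [Field F] (v : F → ℝ), v 0 = 0 → (∀ x, x ≠ 0 → 0 < v x) →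
    (∀ x y, v (x * y) = v x * v y) → (∀ x y, v (x + y) ≤ max (v x) (v y)) →
  ∀ (g : ℕ) (U : Submodule F (Fin g → F)),
    ∃ (J : Finset (Fin g)) (τ : Fin g → Fin g → F), J.card = Module.finrank F U ∧
      ∀ j ∈ J, τ j ∈ U ∧ τ j j = 1 ∧ (∀ j' ∈ J, j' ≠ j → τ j j' = 0) ∧ ∀ i, v (τ j i) ≤ 1

/-- DIM: vectors of a subspace which vanish on a set of coordinates -/
def T_DIM : Prop := ∀ (F : Type u) [Field F] (g : ℕ) (U : Submodule F (Fin g → F))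
  (D : Finset (Fin g)),
    Module.finrank F U ≤
      Module.finrank F (U ⊓ (⨅ i ∈ D, LinearMap.ker (LinearMap.proj i : (Fin g → F) →ₗ[F] F)) :
        Submodule F (Fin g → F)) + D.card

/-- RES: integral elements of a quadratic field have residues in the field with four elements -/
def T_RES : Prop := ∀ (K : Type u) [Field K] [CharZero K] (v : AbsoluteValue K ℝ),
  IsNonarchimedean v → v 2 < 1 → ∀ (a w : K) (t n q r s : ℤ), a ^ 2 = t * a - n → q ≠ 0 →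
    (q : K) * w = r + s * a → v w ≤ 1 → v (w ^ 4 - w) < 1

/-- CNJ: independence of the relation matrix does not depend on the choice of the root -/
def T_CNJ : Prop := ∀ (K : Type u) [Field K] [CharZero K] (t n : ℤ) (α a : K), t ^ 2 < 4 * n →
    α ^ 2 = t * α - n → a ^ 2 = t * a - n → ∀ (e g : ℕ) (M N : Fin e → Fin g → ℤ),
    LinearIndependent K (fun (k : Fin e) (i : Fin g) => (M k i : K) + (N k i : K) * α) →
    LinearIndependent K (fun (k : Fin e) (i : Fin g) => (M k i : K) + (N k i : K) * a)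

/-- QFD: elements of the field generated by a quadratic integer -/
def T_QFD : Prop := ∀ (K : Type u) [Field K] [CharZero K] (a : K) (t n : ℤ), a ^ 2 = t * a - n →
  ∀ x ∈ IntermediateField.adjoin ℚ {a}, ∃ q r s : ℤ, q ≠ 0 ∧ (q : K) * x = r + s * a

/-- ZLI: integral vectors which are independent over ℤ are independent over K -/
def T_ZLI : Prop := ∀ (K : Type u) [Field K] [CharZero K] (e g : ℕ) (M : Fin e → Fin g → ℤ),
  LinearIndependent ℤ M → LinearIndependent K (fun (k : Fin e) (i : Fin g) => (M k i : K))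

/-- LOCU: unified local statement: many independent relations give a pivot system of congruences -/
def T_LOCU : Prop := ∀ (K : Type u) [Field K] [CharZero K] [DecidableEq K] (v : AbsoluteValue K ℝ)
  (R : ℝ) (a2 a4 a6 : K), Ctx v R a2 a4 a6 →
  ∀ (ω : (curve a2 a4 a6).Point →+ (curve a2 a4 a6).Point) (a : K) (t n : ℤ) (B C : ℝ),
    R ≤ B → 0 ≤ C → a ^ 2 = t * a - n → (∀ Q, ω (ω Q) = t • ω Q - n • Q) →
    (∀ P : (curve a2 a4 a6).Point, P ≠ 0 → InE v B P →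
        InE v R (ω P) ∧ v (zz (ω P) - a * zz P) ≤ C * v (zz P) ^ 3) →
    (∀ r s : ℤ, (r : K) + s * a = 0 → ∀ P, r • P + s • ω P = 0) →
  ∀ (g e : ℕ) (P : Fin g → (curve a2 a4 a6).Point) (M N : Fin e → Fin g → ℤ),
    LinearIndependent K (fun (k : Fin e) (i : Fin g) => (M k i : K) + (N k i : K) * a) →
    (∀ k, IsOfFinAddOrder (∑ i, (M k i • P i + N k i • ω (P i)))) →
  ∀ (D : Finset (Fin g)) (G : Fin g → K) (Γ : ℝ), 0 < Γ →
    (∀ i, i ∉ D → InE v R (2 • P i) ∧ v (G i) ≤ Γ ∧ v (zz (2 • P i) ^ 2 - 4 * G i) < v 4 * Γ) →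
    ∃ (J : Finset (Fin g)) (w : Fin g → Fin g → K), Disjoint J D ∧ e ≤ J.card + D.card ∧
      (∀ j ∈ J, ∀ i, v (w j i) ≤ 1 ∧ v (w j i ^ 4 - w j i) < 1) ∧
      ∀ j ∈ J, v (G j - ∑ i ∈ (J ∪ D)ᶜ, w j i * G i) < Γ

/-- LOC: the local statement -/
def T_LOC : Prop := ∀ (K : Type u) [Field K] [CharZero K] [DecidableEq K] (v : AbsoluteValue K ℝ)
  (R : ℝ) (a2 a4 a6 : K), Ctx v R a2 a4 a6 →
  ∀ (g e : ℕ) (P : Fin g → (curve a2 a4 a6).Point),
    (IntRel (curve a2 a4 a6) e P ∨ CMRel (curve a2 a4 a6) e P) →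
  ∀ (D : Finset (Fin g)) (G : Fin g → K) (Γ : ℝ), 0 < Γ →
    (∀ i, i ∉ D → InE v R (2 • P i) ∧ v (G i) ≤ Γ ∧ v (zz (2 • P i) ^ 2 - 4 * G i) < v 4 * Γ) →
    ∃ (J : Finset (Fin g)) (w : Fin g → Fin g → K), Disjoint J D ∧ e ≤ J.card + D.card ∧
      (∀ j ∈ J, ∀ i, v (w j i) ≤ 1 ∧ v (w j i ^ 4 - w j i) < 1) ∧
      ∀ j ∈ J, v (G j - ∑ i ∈ (J ∪ D)ᶜ, w j i * G i) < Γ

/-- TRD: counting transcendence degrees -/
def T_TRD : Prop := ∀ (k L : Type u) [Field k] [Field L] [Algebra k L] (ι : Type) [Fintype ι]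
  [DecidableEq ι] (c : ι → L), AlgebraicIndependent k c → ∀ (d : ℕ) (p : Fin d → L)
  (B : Finset ι), d < B.card →
  ¬ ∀ u ∈ B, IsAlgebraic (IntermediateField.adjoin k (Set.range p ∪ c '' {w | w ∉ B})) (c u)

/-- ELM: elimination -/
def T_ELM : Prop := ∀ (k : Type u) [Field k] (ι κ : Type) [Finite ι]
  (sys : Set (MvPolynomial (ι ⊕ κ) k)),
  (∀ (L : Type u) [Field L] [Algebra k L] (c : ι → L) (y : κ → L), AlgebraicIndependent k c →
    ∃ f ∈ sys, aeval (Sum.elim c y) f ≠ 0) →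
  ∃ Φ : MvPolynomial ι k, Φ ≠ 0 ∧ ∀ c : ι → k, eval c Φ ≠ 0 → ∀ y : κ → k,
    ∃ f ∈ sys, eval (Sum.elim c y) f ≠ 0

/-- the pivot system over the residue field, integral parameters -/
def BadMain {k : Type u} [Field k] {d D g : ℕ} (b2 b4 b6 : MvPolynomial (Fin d) k)
    (c : Fin g × Mon d D → k) (p : Fin d → k) (S J : Finset (Fin g)) (w : Fin g → Fin g → k) :
    Prop :=
  Disjoint J S ∧ d + 1 ≤ J.card + S.card ∧
  (∀ i ∈ S, polyVal (fun α => c (i, α)) p ^ 2 + eval p b4 = 0) ∧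
  (∀ i, i ∉ S → polyVal (fun α => c (i, α)) p ^ 2 + eval p b4 ≠ 0) ∧
  (∀ j ∈ J, ∀ i, w j i ^ 4 = w j i) ∧
  ∀ j ∈ J, ff (eval p b2) (eval p b4) (eval p b6) (polyVal (fun α => c (j, α)) p) /
        (polyVal (fun α => c (j, α)) p ^ 2 + eval p b4) ^ 2 =
      ∑ i ∈ (J ∪ S)ᶜ, w j i *
        (ff (eval p b2) (eval p b4) (eval p b6) (polyVal (fun α => c (i, α)) p) /
          (polyVal (fun α => c (i, α)) p ^ 2 + eval p b4) ^ 2)

/-- the pivot system over the residue field, parameters at infinity -/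
def BadInf {k : Type u} [Field k] {d D g : ℕ}
    (c : Fin g × Mon d D → k) (p : Fin d → k) (S J : Finset (Fin g)) (w : Fin g → Fin g → k) :
    Prop :=
  Disjoint J S ∧ d + 1 ≤ J.card + S.card ∧ (∃ m, p m = 1) ∧
  (∀ i ∈ S, topVal (fun α => c (i, α)) p = 0) ∧
  (∀ i, i ∉ S → topVal (fun α => c (i, α)) p ≠ 0) ∧
  (∀ j ∈ J, ∀ i, w j i ^ 4 = w j i) ∧
  ∀ j ∈ J, (topVal (fun α => c (j, α)) p)⁻¹ =
      ∑ i ∈ (J ∪ S)ᶜ, w j i * (topVal (fun α => c (i, α)) p)⁻¹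

/-- PHM: the generic coefficient vector has no bad main system -/
def T_PHM : Prop := ∀ (k : Type u) [Field k] (d D g : ℕ) (b2 b4 b6 : MvPolynomial (Fin d) k),
  ∃ Φ : MvPolynomial (Fin g × Mon d D) k, Φ ≠ 0 ∧ ∀ c : Fin g × Mon d D → k, eval c Φ ≠ 0 →
    ∀ p S J w, ¬ BadMain b2 b4 b6 c p S J w

/-- PHI: the generic coefficient vector has no bad system at infinity -/
def T_PHI : Prop := ∀ (k : Type u) [Field k] (d D g : ℕ),
  ∃ Φ : MvPolynomial (Fin g × Mon d D) k, Φ ≠ 0 ∧ ∀ c : Fin g × Mon d D → k, eval c Φ ≠ 0 →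
    ∀ p S J w, ¬ BadInf c p S J w

/-- RFD: the residue field -/
def T_RFD : Prop := ∀ (K : Type u) [Field K] (v : AbsoluteValue K ℝ), IsNonarchimedean v →
  v 2 < 1 → ∃ (O : Subring K) (k : Type u) (_ : Field k) (_ : CharP k 2) (r : O →+* k),
    (∀ x, x ∈ O ↔ v x ≤ 1) ∧ Function.Surjective r ∧ ∀ x : O, r x = 0 ↔ v (x : K) < 1

/-- MAI: from a bad point with integral parameters to the main system in the residue field -/
def T_MAI : Prop := ∀ (K : Type u) [Field K] [CharZero K] [DecidableEq K] (v : AbsoluteValue K ℝ),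
  IsNonarchimedean v → v 2 < 1 → ∀ (O : Subring K) (k : Type u) [Field k] [CharP k 2]
  (r : O →+* k), (∀ x, x ∈ O ↔ v x ≤ 1) → (∀ x : O, r x = 0 ↔ v (x : K) < 1) →
  ∀ (d D g : ℕ) (A2 A4 A6 : MvPolynomial (Fin d) O) (c : Fin g × Mon d D → O) (p : Fin d → O)
    (P : Fin g → (curve (eval p A2 : K) (eval p A4 : K) (eval p A6 : K)).Point),
    (∀ i, ∃ y h, P i = WeierstrassCurve.Affine.Point.some
      (polyVal (fun α => (c (i, α) : K)) (fun j => (p j : K))) y h) →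
    (IntRel _ (d + 1) P ∨ CMRel _ (d + 1) P) →
    ∃ S J w, BadMain (map r A2) (map r A4) (map r A6) (fun u => r (c u)) (fun j => r (p j)) S J w

/-- INF: from a bad point with large parameters to the system at infinity -/
def T_INF : Prop := ∀ (K : Type u) [Field K] [CharZero K] [DecidableEq K] (v : AbsoluteValue K ℝ),
  IsNonarchimedean v → v 2 < 1 → ∀ (O : Subring K) (k : Type u) [Field k] [CharP k 2]
  (r : O →+* k), (∀ x, x ∈ O ↔ v x ≤ 1) → (∀ x : O, r x = 0 ↔ v (x : K) < 1) →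
  ∀ (d m D g : ℕ), m < D → ∀ (A2 A4 A6 : MvPolynomial (Fin d) K),
    (∀ s, v (A2.coeff s) ≤ 1 ∧ v (A4.coeff s) ≤ 1 ∧ v (A6.coeff s) ≤ 1) →
    A2.totalDegree ≤ m → A4.totalDegree ≤ 2 * m → A6.totalDegree ≤ 3 * m →
  ∀ (c : Fin g × Mon d D → O) (p : Fin d → K) (P : Fin g → (curve (eval p A2) (eval p A4)
      (eval p A6)).Point), (∃ j, 1 < v (p j)) →
    (∀ i, ∃ y h, P i = WeierstrassCurve.Affine.Point.some
      (polyVal (fun α => (c (i, α) : K)) p) y h) →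
    (IntRel _ (d + 1) P ∨ CMRel _ (d + 1) P) →
    ∃ p' S J w, BadInf (fun u => r (c u)) p' S J w

/-- FIN: the final theorem -/
def T_FIN : Prop := ∀ (K : Type u) [Field K] [CharZero K] [DecidableEq K]
  (v : AbsoluteValue K ℝ), IsNonarchimedean v → v 2 < 1 →
  ∀ (d m D g : ℕ), m < D → ∀ (A2 A4 A6 : MvPolynomial (Fin d) K),
    (∀ s, v (A2.coeff s) ≤ 1 ∧ v (A4.coeff s) ≤ 1 ∧ v (A6.coeff s) ≤ 1) →
    A2.totalDegree ≤ m → A4.totalDegree ≤ 2 * m → A6.totalDegree ≤ 3 * m →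
  ∃ Φ : MvPolynomial (Fin g × Mon d D) K, (∀ s, v (Φ.coeff s) ≤ 1) ∧ (∃ s, v (Φ.coeff s) = 1) ∧
    ∀ c : Fin g × Mon d D → K, (∀ u, v (c u) ≤ 1) → v (eval c Φ) = 1 →
    ∀ (p : Fin d → K) (P : Fin g → (curve (eval p A2) (eval p A4) (eval p A6)).Point),
      (∀ i, ∃ y h, P i = WeierstrassCurve.Affine.Point.some
        (polyVal (fun α => c (i, α)) p) y h) →
      ¬ (IntRel _ (d + 1) P ∨ CMRel _ (d + 1) P)

end RD
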