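import Mathlib
import Pool.Agent.RD.Targets

/-!
Second version of the last targets: arbitrary base in Noether coordinates (p, s) (p free
parameters, s integral over them), arbitrary fixed functions `F i` on the base, and only the
`(d + 1) g` coefficients `c (i, 0)` (constant term) and `c (i, m + 1)` (coefficient of `p_m ^ D`)
are generic.
-/

namespace RD

open MvPolynomial WeierstrassCurve.Affine

universe u

/-- the abscissas of the multisections -/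
noncomputable def absc {R : Type*} [CommRing R] {d n g : ℕ} (D : ℕ)
    (F : Fin g → MvPolynomial (Fin d ⊕ Fin n) R) (c : Fin g × Fin (d + 1) → R)
    (p : Fin d → R) (s : Fin n → R) (i : Fin g) : R :=
  eval (Sum.elim p s) (F i) + c (i, 0) + ∑ m : Fin d, c (i, m.succ) * p m ^ D

/-- the same without the constant term `c (i, 0)` -/
noncomputable def absc0 {R : Type*} [CommRing R] {d n g : ℕ} (D : ℕ)
    (F : Fin g → MvPolynomial (Fin d ⊕ Fin n) R) (c : Fin g × Fin (d + 1) → R)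
    (p : Fin d → R) (s : Fin n → R) (i : Fin g) : R :=
  eval (Sum.elim p s) (F i) + ∑ m : Fin d, c (i, m.succ) * p m ^ D

/-- (p, s) is a point of the base: every s_j satisfies its monic equation over p -/
def OnBase {R : Type*} [CommRing R] {d n : ℕ} (r : Fin n → ℕ)
    (b : Fin n → ℕ → MvPolynomial (Fin d) R) (p : Fin d → R) (s : Fin n → R) : Prop :=
  ∀ j, s j ^ r j + ∑ l ∈ Finset.range (r j), eval p (b j l) * s j ^ l = 0

/-- pivot system over the residue field, integral parameters, general base -/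
def BadMain2 {k : Type u} [Field k] {d n g : ℕ} (D : ℕ) (r : Fin n → ℕ)
    (b : Fin n → ℕ → MvPolynomial (Fin d) k) (b2 b4 b6 : MvPolynomial (Fin d ⊕ Fin n) k)
    (F : Fin g → MvPolynomial (Fin d ⊕ Fin n) k) (c : Fin g × Fin (d + 1) → k)
    (p : Fin d → k) (s : Fin n → k) (S J : Finset (Fin g)) (w : Fin g → Fin g → k) : Prop :=
  OnBase r b p s ∧ Disjoint J S ∧ d + 1 ≤ J.card + S.card ∧
  (∀ i ∈ S, absc D F c p s i ^ 2 + eval (Sum.elim p s) b4 = 0) ∧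
  (∀ i, i ∉ S → absc D F c p s i ^ 2 + eval (Sum.elim p s) b4 ≠ 0) ∧
  (∀ j ∈ J, ∀ i, w j i ^ 4 = w j i) ∧
  ∀ j ∈ J, ff (eval (Sum.elim p s) b2) (eval (Sum.elim p s) b4) (eval (Sum.elim p s) b6)
        (absc D F c p s j) / (absc D F c p s j ^ 2 + eval (Sum.elim p s) b4) ^ 2 =
      ∑ i ∈ (J ∪ S)ᶜ, w j i *
        (ff (eval (Sum.elim p s) b2) (eval (Sum.elim p s) b4) (eval (Sum.elim p s) b6)
          (absc D F c p s i) / (absc D F c p s i ^ 2 + eval (Sum.elim p s) b4) ^ 2)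

/-- pivot system over the residue field, parameters at infinity, general base -/
def BadInf2 {k : Type u} [Field k] {d n g : ℕ} (D : ℕ) (r : Fin n → ℕ)
    (b : Fin n → ℕ → MvPolynomial (Fin d) k)
    (F : Fin g → MvPolynomial (Fin d ⊕ Fin n) k) (c : Fin g × Fin (d + 1) → k)
    (p : Fin d → k) (s : Fin n → k) (S J : Finset (Fin g)) (w : Fin g → Fin g → k) : Prop :=
  OnBase r b p s ∧ Disjoint J S ∧ d + 1 ≤ J.card + S.card ∧ (∃ m, p m = 1) ∧
  (∀ i ∈ S, absc0 D F c p s i = 0) ∧ (∀ i, i ∉ S → absc0 D F c p s i ≠ 0) ∧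
  (∀ j ∈ J, ∀ i, w j i ^ 4 = w j i) ∧
  ∀ j ∈ J, (absc0 D F c p s j)⁻¹ = ∑ i ∈ (J ∪ S)ᶜ, w j i * (absc0 D F c p s i)⁻¹

/-- PHM2 -/
def T_PHM2 : Prop := ∀ (k : Type u) [Field k] (d n D g : ℕ) (r : Fin n → ℕ)
  (b : Fin n → ℕ → MvPolynomial (Fin d) k) (b2 b4 b6 : MvPolynomial (Fin d ⊕ Fin n) k)
  (F : Fin g → MvPolynomial (Fin d ⊕ Fin n) k),
  ∃ Φ : MvPolynomial (Fin g × Fin (d + 1)) k, Φ ≠ 0 ∧
    ∀ c : Fin g × Fin (d + 1) → k, eval c Φ ≠ 0 →
    ∀ p s S J w, ¬ BadMain2 D r b b2 b4 b6 F c p s S J w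

/-- PHI2 -/
def T_PHI2 : Prop := ∀ (k : Type u) [Field k] (d n D g : ℕ) (r : Fin n → ℕ)
  (b : Fin n → ℕ → MvPolynomial (Fin d) k) (F : Fin g → MvPolynomial (Fin d ⊕ Fin n) k),
  ∃ Φ : MvPolynomial (Fin g × Fin (d + 1)) k, Φ ≠ 0 ∧
    ∀ c : Fin g × Fin (d + 1) → k, eval c Φ ≠ 0 →
    ∀ p s S J w, ¬ BadInf2 D r b F c p s S J w

/-- MAI2 -/
def T_MAI2 : Prop := ∀ (K : Type u) [Field K] [CharZero K] [DecidableEq K]
  (v : AbsoluteValue K ℝ), IsNonarchimedean v → v 2 < 1 → ∀ (O : Subring K) (k : Type u) [Field k]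
  [CharP k 2] (r : O →+* k), (∀ x, x ∈ O ↔ v x ≤ 1) → (∀ x : O, r x = 0 ↔ v (x : K) < 1) →
  ∀ (d n D g : ℕ) (ρ : Fin n → ℕ) (b : Fin n → ℕ → MvPolynomial (Fin d) O)
    (A2 A4 A6 : MvPolynomial (Fin d ⊕ Fin n) O) (F : Fin g → MvPolynomial (Fin d ⊕ Fin n) O)
    (c : Fin g × Fin (d + 1) → O) (p : Fin d → O) (s : Fin n → O), OnBase ρ b p s →
  ∀ (P : Fin g → (curve (eval (Sum.elim p s) A2 : K) (eval (Sum.elim p s) A4 : K)
      (eval (Sum.elim p s) A6 : K)).Point),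
    (∀ i, ∃ y h, P i = WeierstrassCurve.Affine.Point.some
      ((absc D F c p s i : O) : K) y h) →
    (IntRel _ (d + 1) P ∨ CMRel _ (d + 1) P) →
    ∃ S J w, BadMain2 D ρ (fun j l => map r (b j l)) (map r A2) (map r A4) (map r A6)
      (fun i => map r (F i)) (fun u => r (c u)) (fun j => r (p j)) (fun j => r (s j)) S J w

/-- INF2 -/
def T_INF2 : Prop := ∀ (K : Type u) [Field K] [CharZero K] [DecidableEq K]
  (v : AbsoluteValue K ℝ), IsNonarchimedean v → v 2 < 1 → ∀ (O : Subring K) (k : Type u) [Field k]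
  [CharP k 2] (r : O →+* k), (∀ x, x ∈ O ↔ v x ≤ 1) → (∀ x : O, r x = 0 ↔ v (x : K) < 1) →
  ∀ (d n m D g : ℕ), m < D → ∀ (ρ : Fin n → ℕ) (b : Fin n → ℕ → MvPolynomial (Fin d) O),
    (∀ j l, l < ρ j → (b j l).totalDegree ≤ ρ j - l) →
  ∀ (A2 A4 A6 : MvPolynomial (Fin d ⊕ Fin n) O) (F : Fin g → MvPolynomial (Fin d ⊕ Fin n) O),
    A2.totalDegree ≤ m → A4.totalDegree ≤ 2 * m → A6.totalDegree ≤ 3 * m →
    (∀ i, (F i).totalDegree ≤ D) →
  ∀ (c : Fin g × Fin (d + 1) → O) (p : Fin d → K) (s : Fin n → K),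
    OnBase ρ (fun j l => map O.subtype (b j l)) p s →
  ∀ (P : Fin g → (curve (eval (Sum.elim p s) (map O.subtype A2))
      (eval (Sum.elim p s) (map O.subtype A4)) (eval (Sum.elim p s) (map O.subtype A6))).Point),
    (∃ j, 1 < v (p j)) →
    (∀ i, ∃ y h, P i = WeierstrassCurve.Affine.Point.some
      (absc D (fun i => map O.subtype (F i)) (fun u => (c u : K)) p s i) y h) →
    (IntRel _ (d + 1) P ∨ CMRel _ (d + 1) P) →
    ∃ p' s' S J w, BadInf2 D ρ (fun j l => homogeneousComponent (ρ j - l) (map r (b j l)))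
      (fun i => homogeneousComponent D (map r (F i))) (fun u => r (c u)) p' s' S J w

/-- the final theorem, general base -/
def T_FIN2 : Prop := ∀ (K : Type u) [Field K] [CharZero K] [DecidableEq K]
  (v : AbsoluteValue K ℝ), IsNonarchimedean v → v 2 < 1 →
  ∀ (d n m D g : ℕ), m < D → ∀ (ρ : Fin n → ℕ) (b : Fin n → ℕ → MvPolynomial (Fin d) K),
    (∀ j l, l < ρ j → (b j l).totalDegree ≤ ρ j - l ∧ ∀ t, v ((b j l).coeff t) ≤ 1) →
  ∀ (A2 A4 A6 : MvPolynomial (Fin d ⊕ Fin n) K) (F : Fin g → MvPolynomial (Fin d ⊕ Fin n) K),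
    (∀ t, v (A2.coeff t) ≤ 1 ∧ v (A4.coeff t) ≤ 1 ∧ v (A6.coeff t) ≤ 1) →
    A2.totalDegree ≤ m → A4.totalDegree ≤ 2 * m → A6.totalDegree ≤ 3 * m →
    (∀ i, (F i).totalDegree ≤ D ∧ ∀ t, v ((F i).coeff t) ≤ 1) →
  ∃ Φ : MvPolynomial (Fin g × Fin (d + 1)) K, (∀ t, v (Φ.coeff t) ≤ 1) ∧
    (∃ t, v (Φ.coeff t) = 1) ∧
    ∀ c : Fin g × Fin (d + 1) → K, (∀ u, v (c u) ≤ 1) → v (eval c Φ) = 1 →
    ∀ (p : Fin d → K) (s : Fin n → K), OnBase ρ b p s →
    ∀ (P : Fin g → (curve (eval (Sum.elim p s) A2) (eval (Sum.elim p s) A4)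
        (eval (Sum.elim p s) A6)).Point),
      (∀ i, ∃ y h, P i = WeierstrassCurve.Affine.Point.some (absc D F c p s i) y h) →
      ¬ (IntRel _ (d + 1) P ∨ CMRel _ (d + 1) P)

end RD
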