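import Pool.Agent.RD.Targets

/-!
Symmetric relations for chord and tangent.
-/

namespace RD

open MvPolynomial WeierstrassCurve.Affine

universe u

theorem p_SYM : T_SYM.{u} := by
  intro K _ _ a2 a4 a6 x1 y1 x2 y2 h1 h2 hne
  have hxy : ¬ (x1 = x2 ∧ y1 = (curve a2 a4 a6).negY x2 y2) := by
    intro h
    apply hne
    refine ⟨h.1, ?_⟩
    rw [h.2, negY]
    simp
  set l := (curve a2 a4 a6).slope x1 x2 y1 y2 with hl
  have hp := addPolynomial_slope h1.1 h2.1 hxy
  rw [addPolynomial_eq, neg_inj, Cubic.prod_X_sub_C_eq, Cubic.toPoly_injective] at hp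
  have hb := congrArg Cubic.b hp
  have hc := congrArg Cubic.c hp
  have hd := congrArg Cubic.d hp
  simp only [addX] at hb hc hd
  refine ⟨l, y1 - l * x1, _, _, nonsingular_add h1 h2 hxy, Point.add_some hxy, ?_, ?_, ?_, ?_,
    ?_, ?_⟩
  · ring
  · by_cases hx : x1 = x2
    · have hy : y1 ≠ (curve a2 a4 a6).negY x2 y2 := fun h => hxy ⟨hx, h⟩
      have := Y_eq_of_Y_ne h1.1 h2.1 hx hy
      rw [← this, hx]
      ring
    · rw [hl, slope_of_X_ne hx]
      have hx' : x1 - x2 ≠ 0 := sub_ne_zero.2 hx
      field_simp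
      ring
  · simp only [addY, negAddY, negY, addX]
    ring
  · simp only [addX]
    linear_combination hb
  · simp only [addX]
    linear_combination -hc
  · simp only [addX]
    linear_combination hd

end RD
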