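import Pool.Agent.RD.Targets

/-!
The residue field of a nonarchimedean absolute value (RFD).
-/

universe u

namespace RD

namespace RFD_

variable {K : Type u} [Field K] (v : AbsoluteValue K ℝ)

/-- the valuation ring -/
def OO (hv : IsNonarchimedean v) : Subring K where
  carrier := {x | v x ≤ 1}
  mul_mem' {a b} ha hb := by
    have ha' : v a ≤ 1 := ha
    have hb' : v b ≤ 1 := hb
    change v (a * b) ≤ 1
    rw [map_mul]
    exact mul_le_one₀ ha' (v.nonneg b) hb'
  one_mem' := by
    change v 1 ≤ 1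
    rw [map_one]
  add_mem' {a b} ha hb := (hv a b).trans (max_le ha hb)
  zero_mem' := by
    change v 0 ≤ 1
    rw [map_zero]
    exact zero_le_one
  neg_mem' {a} ha := by
    have ha' : v a ≤ 1 := ha
    change v (-a) ≤ 1
    rwa [AbsoluteValue.map_neg]

/-- the maximal ideal -/
def II (hv : IsNonarchimedean v) : Ideal (OO v hv) where
  carrier := {x | v (x : K) < 1}
  add_mem' {a b} ha hb := lt_of_le_of_lt (hv (a : K) b) (max_lt ha hb)
  zero_mem' := by
    change v ((0 : OO v hv) : K) < 1
    rw [Subring.coe_zero, map_zero]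
    exact zero_lt_one
  smul_mem' c x hx := by
    have hx' : v (x : K) < 1 := hx
    have hc : v (c : K) ≤ 1 := c.2
    change v ((c * x : OO v hv) : K) < 1
    rw [Subring.coe_mul, map_mul]
    calc v (c : K) * v (x : K) ≤ 1 * v (x : K) :=
          mul_le_mul_of_nonneg_right hc (v.nonneg _)
      _ < 1 := by rwa [one_mul]

theorem isMaximal (hv : IsNonarchimedean v) : (II v hv).IsMaximal := by
  rw [Ideal.isMaximal_iff]
  constructor
  · intro h
    have h' : v ((1 : OO v hv) : K) < 1 := h
    rw [Subring.coe_one, map_one] at h'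
    exact lt_irrefl _ h'
  · intro J x _ hx hxJ
    have hx1 : v (x : K) = 1 := le_antisymm x.2 (not_lt.mp hx)
    have hx0 : (x : K) ≠ 0 := by
      intro h
      rw [h, map_zero] at hx1
      exact zero_ne_one hx1
    have hinv : v ((x : K)⁻¹) ≤ 1 := by
      rw [map_inv₀, hx1, inv_one]
    have h1 : (1 : OO v hv) = ⟨(x : K)⁻¹, hinv⟩ * x := by
      apply Subtype.ext
      rw [Subring.coe_mul, Subring.coe_one]
      exact (inv_mul_cancel₀ hx0).symm
    rw [h1]
    exact J.mul_mem_left _ hxJ

end RFD_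

open RFD_ in
/-- RFD -/
theorem p_RFD : T_RFD.{u} := by
  intro K _ v hv h2
  have hmax := isMaximal v hv
  let _ : Field (OO v hv ⧸ II v hv) := Ideal.Quotient.field (II v hv)
  have hchar : CharP (OO v hv ⧸ II v hv) 2 := by
    refine CharTwo.of_one_ne_zero_of_two_eq_zero one_ne_zero ?_
    have h3 : (Ideal.Quotient.mk (II v hv)) (2 : OO v hv) = 0 := by
      rw [Ideal.Quotient.eq_zero_iff_mem]
      exact h2
    rw [map_ofNat] at h3
    exact h3
  refine ⟨OO v hv, OO v hv ⧸ II v hv, inferInstance, hchar, Ideal.Quotient.mk (II v hv),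
    fun x => Iff.rfl, Ideal.Quotient.mk_surjective, fun x => ?_⟩
  rw [Ideal.Quotient.eq_zero_iff_mem]
  exact Iff.rfl

end RD
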