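import Pool.Agent.RD.Targets

set_option autoImplicit false

/-!
# DIM: vectors of a subspace which vanish on a set of coordinates (MP_28d749_ag)
-/

namespace RD

universe u

/-- DIM. -/
theorem p_DIM : T_DIM.{u} := by
  intro F _ g U D
  set L : (Fin g → F) →ₗ[F] (D → F) :=
    LinearMap.pi (fun i : D => (LinearMap.proj (i : Fin g) : (Fin g → F) →ₗ[F] F)) with hL
  set ψ : U →ₗ[F] (D → F) := L.domRestrict U with hψ
  have h1 : Module.finrank F (LinearMap.range ψ) + Module.finrank F (LinearMap.ker ψ)
      = Module.finrank F U := LinearMap.finrank_range_add_finrank_ker ψ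
  have h2 : Module.finrank F (LinearMap.range ψ) ≤ D.card := by
    have h := Submodule.finrank_le (LinearMap.range ψ)
    rwa [Module.finrank_fintype_fun_eq_card, Fintype.card_coe] at h
  have h3 : Module.finrank F (LinearMap.ker ψ) ≤ Module.finrank F
      (U ⊓ (⨅ i ∈ D, LinearMap.ker (LinearMap.proj i : (Fin g → F) →ₗ[F] F)) :
        Submodule F (Fin g → F)) := by
    rw [← Submodule.finrank_map_subtype_eq U (LinearMap.ker ψ)]
    apply Submodule.finrank_mono
    rintro x ⟨y, hy, rfl⟩
    refine ⟨y.2, ?_⟩
    have hy' : ψ y = 0 := hy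
    rw [SetLike.mem_coe, Submodule.mem_iInf]
    intro i
    rw [Submodule.mem_iInf]
    intro hi
    have h := congrFun hy' ⟨i, hi⟩
    rw [LinearMap.mem_ker]
    exact h
  omega

end RD
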