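import Pool.Agent.RD.Targets

universe u

namespace RD

namespace PIV_

variable {F : Type u} [Field F]

lemma v_one (v : F → ℝ) (hpos : ∀ x, x ≠ 0 → 0 < v x) (hmul : ∀ x y, v (x * y) = v x * v y) :
    v 1 = 1 := by
  have h1 : v 1 = v 1 * v 1 := by
    rw [← hmul, mul_one]
  have h2 : 0 < v 1 := hpos 1 one_ne_zero
  nlinarith

lemma v_neg (v : F → ℝ) (hpos : ∀ x, x ≠ 0 → 0 < v x) (hmul : ∀ x y, v (x * y) = v x * v y)
    (x : F) : v (-x) = v x := by
  have h1 : v (-1) * v (-1) = 1 := by
    rw [← hmul, neg_mul_neg, one_mul, v_one v hpos hmul]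
  have h2 : 0 < v (-1) := hpos _ (neg_ne_zero.mpr one_ne_zero)
  have h3 : v (-1) = 1 := by nlinarith
  rw [neg_eq_neg_one_mul, hmul, h3, one_mul]

lemma v_nonneg (v : F → ℝ) (h0 : v 0 = 0) (hpos : ∀ x, x ≠ 0 → 0 < v x) (x : F) : 0 ≤ v x := by
  by_cases hx : x = 0
  · rw [hx, h0]
  · exact (hpos x hx).le

lemma v_sum (v : F → ℝ) (h0 : v 0 = 0) (hadd : ∀ x y, v (x + y) ≤ max (v x) (v y))
    {ι : Type*} (s : Finset ι) (f : ι → F) (h : ∀ i ∈ s, v (f i) ≤ 1) : v (∑ i ∈ s, f i) ≤ 1 := by
  classical
  induction s using Finset.induction_on with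
  | empty => simp [h0]
  | insert a s ha ih =>
    rw [Finset.sum_insert ha]
    refine (hadd _ _).trans (max_le (h a (Finset.mem_insert_self a s)) (ih ?_))
    intro i hi
    exact h i (Finset.mem_insert_of_mem hi)

lemma main (v : F → ℝ) (h0 : v 0 = 0) (hpos : ∀ x, x ≠ 0 → 0 < v x)
    (hmul : ∀ x y, v (x * y) = v x * v y) (hadd : ∀ x y, v (x + y) ≤ max (v x) (v y)) (g : ℕ) :
    ∀ (n : ℕ) (U : Submodule F (Fin g → F)), Module.finrank F U = n →
    ∃ (J : Finset (Fin g)) (τ : Fin g → Fin g → F), J.card = n ∧
      ∀ j ∈ J, τ j ∈ U ∧ τ j j = 1 ∧ (∀ j' ∈ J, j' ≠ j → τ j j' = 0) ∧ ∀ i, v (τ j i) ≤ 1 := by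
  classical
  intro n
  induction n with
  | zero =>
    intro U _
    exact ⟨∅, 0, rfl, by simp⟩
  | succ n ih =>
    intro U hU
    have hne : U ≠ ⊥ := by
      rintro rfl
      simp at hU
    obtain ⟨u, huU, hu0⟩ := U.exists_mem_ne_zero_of_ne_bot hne
    obtain ⟨k, hk⟩ : ∃ k, u k ≠ 0 := by
      by_contra hcon
      push Not at hcon
      exact hu0 (funext hcon)
    obtain ⟨i, -, hi⟩ := Finset.exists_max_image (Finset.univ : Finset (Fin g)) (fun k => v (u k))
      ⟨k, Finset.mem_univ k⟩
    have hui : 0 < v (u i) := (hpos _ hk).trans_le (hi k (Finset.mem_univ k))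
    have hui0 : u i ≠ 0 := by
      intro h
      rw [h, h0] at hui
      exact lt_irrefl _ hui
    set w : Fin g → F := (u i)⁻¹ • u with hw
    have hwU : w ∈ U := U.smul_mem _ huU
    have hwi : w i = 1 := by
      simp [hw, hui0]
    have hwv : ∀ k, v (w k) ≤ 1 := by
      intro k
      have h1 : v (u i) * v (w k) = v (u k) := by
        rw [← hmul]
        congr 1
        simp [hw, hui0]
      have h2 := hi k (Finset.mem_univ k)
      rw [← h1] at h2
      have h3 : v (u i) * v (w k) ≤ v (u i) * 1 := by rwa [mul_one]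
      exact le_of_mul_le_mul_left h3 hui
    set U' : Submodule F (Fin g → F) :=
      U ⊓ LinearMap.ker (LinearMap.proj i : (Fin g → F) →ₗ[F] F) with hU'
    have hfin : Module.finrank F U' = n := by
      -- rank nullity for U → F
      let f : U →ₗ[F] F := (LinearMap.proj i : (Fin g → F) →ₗ[F] F).comp U.subtype
      have h1 := f.finrank_range_add_finrank_ker
      have h2 : LinearMap.range f = ⊤ := by
        rw [LinearMap.range_eq_top]
        intro c
        refine ⟨⟨c • w, U.smul_mem c hwU⟩, ?_⟩
        simp [f, hwi]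
      rw [h2, finrank_top, Module.finrank_self, hU] at h1
      have h3 : Module.finrank F (LinearMap.ker f) = Module.finrank F U' := by
        have h4 : (LinearMap.ker f).map U.subtype = U' := by
          ext x
          simp only [Submodule.mem_map, LinearMap.mem_ker, hU', Submodule.mem_inf]
          constructor
          · rintro ⟨y, hy, rfl⟩
            exact ⟨y.2, by simpa [f] using hy⟩
          · rintro ⟨hx, hx'⟩
            exact ⟨⟨x, hx⟩, by simpa [f] using hx', rfl⟩
        rw [← h4]
        exact (Submodule.equivMapOfInjective U.subtype (Submodule.subtype_injective U)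
          (LinearMap.ker f)).finrank_eq
      omega
    obtain ⟨J, τ, hJ, hτ⟩ := ih U' hfin
    have hτi : ∀ j ∈ J, τ j i = 0 := by
      intro j hj
      have := (hτ j hj).1
      rw [hU', Submodule.mem_inf] at this
      simpa using this.2
    have hiJ : i ∉ J := by
      intro h
      have h1 := hτi i h
      rw [(hτ i h).2.1] at h1
      exact one_ne_zero h1
    set z : Fin g → F := w - ∑ j ∈ J, w j • τ j with hz
    have hzv : ∀ k, z k = w k - ∑ j ∈ J, w j * τ j k := by
      intro k
      simp [hz, Finset.sum_apply]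
    refine ⟨insert i J, Function.update τ i z, ?_, ?_⟩
    · rw [Finset.card_insert_of_notMem hiJ, hJ]
    · intro j hj0
      rcases Finset.mem_insert.mp hj0 with rfl | hj
      · rw [Function.update_self]
        refine ⟨?_, ?_, ?_, ?_⟩
        · rw [hz]
          refine U.sub_mem hwU (U.sum_mem fun l hl => U.smul_mem _ ?_)
          have := (hτ l hl).1
          rw [hU', Submodule.mem_inf] at this
          exact this.1
        · rw [hzv, hwi, Finset.sum_eq_zero, sub_zero]
          intro l hl
          rw [hτi l hl, mul_zero]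
        · intro j' hj' hne'
          rcases Finset.mem_insert.mp hj' with h | hj'
          · exact absurd h hne'
          rw [hzv, Finset.sum_eq_single j', (hτ j' hj').2.1, mul_one, sub_self]
          · intro l hl hl'
            rw [(hτ l hl).2.2.1 j' hj' (Ne.symm hl'), mul_zero]
          · intro h
            exact absurd hj' h
        · intro k
          rw [hzv, sub_eq_add_neg]
          refine (hadd _ _).trans (max_le (hwv k) ?_)
          rw [v_neg v hpos hmul]
          refine v_sum v h0 hadd J _ ?_
          intro l hl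
          rw [hmul]
          exact mul_le_one₀ (hwv l) (v_nonneg v h0 hpos _) ((hτ l hl).2.2.2 k)
      · have hji : j ≠ i := by
          rintro rfl
          exact hiJ hj
        rw [Function.update_of_ne hji]
        obtain ⟨h1, h2, h3, h4⟩ := hτ j hj
        refine ⟨?_, h2, ?_, h4⟩
        · rw [hU', Submodule.mem_inf] at h1
          exact h1.1
        · intro j' hj1 hne'
          rcases Finset.mem_insert.mp hj1 with rfl | hj'
          · exact hτi j hj
          · exact h3 j' hj' hne'

end PIV_

theorem p_PIV : T_PIV.{u} := by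
  intro F _ v h0 hpos hmul hadd g U
  exact PIV_.main v h0 hpos hmul hadd g _ U rfl

end RD
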