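import Pool.Agent.RD.Targets

/-!
# RD-QFD: elements of the field generated by a quadratic integer
-/

namespace RD

universe u

/-- **RD-QFD** -/
theorem p_QFD : T_QFD.{u} := by
  intro K _ _ a t n ha x hx
  induction hx using IntermediateField.adjoin_induction with
  | mem x hx =>
    rw [Set.mem_singleton_iff] at hx
    subst hx
    exact ⟨1, 0, 1, one_ne_zero, by push_cast; ring⟩
  | algebraMap x =>
    refine ⟨x.den, x.num, 0, by exact_mod_cast x.den_ne_zero, ?_⟩
    have h1 : (x.den : K) ≠ 0 := by exact_mod_cast x.den_ne_zero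
    have h2 : (algebraMap ℚ K) x = (x.num : K) / (x.den : K) := by
      rw [eq_ratCast, Rat.cast_def]
    rw [h2]
    push_cast
    field_simp
    ring
  | add x y _ _ hx hy =>
    obtain ⟨q, r, s, hq, h⟩ := hx
    obtain ⟨q', r', s', hq', h'⟩ := hy
    refine ⟨q * q', q' * r + q * r', q' * s + q * s', mul_ne_zero hq hq', ?_⟩
    push_cast
    linear_combination (q' : K) * h + (q : K) * h'
  | inv x _ hx =>
    obtain ⟨q, r, s, hq, h⟩ := hx
    by_cases hx0 : x = 0
    · subst hx0
      exact ⟨1, 0, 0, one_ne_zero, by simp⟩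
    have hqK : (q : K) ≠ 0 := by exact_mod_cast hq
    have hN : ((r : K) + s * a) * (r + s * t - s * a) = r ^ 2 + r * s * t + s ^ 2 * n := by
      linear_combination (-(s : K) ^ 2) * ha
    by_cases h0 : r ^ 2 + r * s * t + s ^ 2 * n = 0
    · have h0' : (r : K) ^ 2 + r * s * t + s ^ 2 * n = 0 := by exact_mod_cast h0
      rw [h0'] at hN
      rcases mul_eq_zero.mp hN with h1 | h1
      · exfalso
        rw [h1] at h
        exact (mul_ne_zero hqK hx0) h
      · -- `s a = r + s t`
        have h2 : (q : K) * x = ((2 * r + s * t : ℤ) : K) := by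
          rw [h]
          push_cast
          linear_combination -h1
        have h3 : (2 * r + s * t : ℤ) ≠ 0 := by
          intro h4
          rw [h4, Int.cast_zero] at h2
          exact (mul_ne_zero hqK hx0) h2
        refine ⟨2 * r + s * t, q, 0, h3, ?_⟩
        rw [← h2]
        field_simp
        push_cast
        ring
    · refine ⟨r ^ 2 + r * s * t + s ^ 2 * n, q * (r + s * t), -(q * s), h0, ?_⟩
      have h1 : (((r ^ 2 + r * s * t + s ^ 2 * n : ℤ) : K)) =
          (q * x) * (r + s * t - s * a) := by
        rw [h, hN]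
        push_cast
        ring
      rw [h1]
      field_simp
      push_cast
      ring
  | mul x y _ _ hx hy =>
    obtain ⟨q, r, s, hq, h⟩ := hx
    obtain ⟨q', r', s', hq', h'⟩ := hy
    refine ⟨q * q', r * r' - n * s * s', r * s' + r' * s + t * s * s', mul_ne_zero hq hq', ?_⟩
    have h1 : ((q * q' : ℤ) : K) * (x * y) = (q * x) * (q' * y) := by
      push_cast
      ring
    rw [h1, h, h']
    push_cast
    linear_combination ((s : K) * s') * ha

end RD
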