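import Pool.Agent.RD.Targets

/-!
# LEM: a relation over `ℤ[ω]` gives a congruence between the leading terms
-/

namespace RD

open WeierstrassCurve.Affine

universe u

namespace LEM_

section val

variable {K : Type u} [Field K] {v : AbsoluteValue K ℝ}

theorem natCast_le (na : IsNonarchimedean v) (n : ℕ) : v (n : K) ≤ 1 := by
  induction n with
  | zero => simp
  | succ n ih =>
    push_cast
    refine (na _ _).trans ?_
    rw [map_one]
    exact max_le ih le_rfl

theorem intCast_le (na : IsNonarchimedean v) (n : ℤ) : v (n : K) ≤ 1 := by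
  rcases Int.eq_nat_or_neg n with ⟨m, rfl | rfl⟩
  · simpa using natCast_le na m
  · push_cast
    rw [v.map_neg]
    exact natCast_le na m

theorem sub_le (na : IsNonarchimedean v) (x y : K) : v (x - y) ≤ max (v x) (v y) := by
  rw [sub_eq_add_neg]
  refine (na _ _).trans ?_
  rw [v.map_neg]

theorem sum_le (na : IsNonarchimedean v) {ι : Type*} (S : Finset ι) (f : ι → K) (b : ℝ)
    (hb : 0 ≤ b) (h : ∀ i ∈ S, v (f i) ≤ b) : v (∑ i ∈ S, f i) ≤ b := by
  classical
  induction S using Finset.induction_on with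
  | empty => simpa using hb
  | insert i S hi ih =>
    rw [Finset.sum_insert hi]
    refine (na _ _).trans (max_le ?_ ?_)
    · exact h i (Finset.mem_insert_self _ _)
    · exact ih fun j hj => h j (Finset.mem_insert_of_mem hj)

theorem sum_lt (na : IsNonarchimedean v) {ι : Type*} (S : Finset ι) (f : ι → K) (b : ℝ)
    (hb : 0 < b) (h : ∀ i ∈ S, v (f i) < b) : v (∑ i ∈ S, f i) < b := by
  classical
  induction S using Finset.induction_on with
  | empty => simpa using hb
  | insert i S hi ih =>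
    rw [Finset.sum_insert hi]
    refine (na _ _).trans_lt (max_lt ?_ ?_)
    · exact h i (Finset.mem_insert_self _ _)
    · exact ih fun j hj => h j (Finset.mem_insert_of_mem hj)

/-- Modulo `2` the square of a sum is the sum of the squares. -/
theorem sq_sum (na : IsNonarchimedean v) {ι : Type*} (S : Finset ι) (f : ι → K) (b : ℝ)
    (hb : 0 ≤ b) (h : ∀ i ∈ S, v (f i) ≤ b) :
    v ((∑ i ∈ S, f i) ^ 2 - ∑ i ∈ S, f i ^ 2) ≤ v 2 * b ^ 2 := by
  classical
  induction S using Finset.induction_on with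
  | empty => simp; positivity
  | insert i S hi ih =>
    rw [Finset.sum_insert hi, Finset.sum_insert hi]
    have h1 : v (f i) ≤ b := h i (Finset.mem_insert_self _ _)
    have h2 : ∀ j ∈ S, v (f j) ≤ b := fun j hj => h j (Finset.mem_insert_of_mem hj)
    have h3 := ih h2
    have h4 := sum_le na S f b hb h2
    have e : (f i + ∑ x ∈ S, f x) ^ 2 - (f i ^ 2 + ∑ x ∈ S, f x ^ 2) =
        ((∑ x ∈ S, f x) ^ 2 - ∑ x ∈ S, f x ^ 2) + 2 * (f i * ∑ x ∈ S, f x) := by ring
    rw [e]
    refine (na _ _).trans (max_le h3 ?_)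
    rw [map_mul, map_mul, pow_two]
    gcongr

theorem eq_of_lt (na : IsNonarchimedean v) {x y : K} (h : v y < v x) : v (x + y) = v x := by
  apply le_antisymm
  · exact (na _ _).trans (max_le le_rfl h.le)
  · have h1 : v x ≤ max (v (x + y)) (v y) := by
      have := sub_le na (x + y) y
      rwa [add_sub_cancel_right] at this
    rcases le_max_iff.1 h1 with h2 | h2
    · exact h2
    · exact absurd h2 (not_le.2 h)

/-- On `E_R` one has `v y ^ 2 = v x ^ 3`. -/
theorem y_sq {R : ℝ} {a2 a4 a6 : K} (hc : Ctx v R a2 a4 a6) {x y : K} (hx : R < v x)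
    (h : y ^ 2 = ff a2 a4 a6 x) : v y ^ 2 = v x ^ 3 := by
  have hR : 0 < R := by linarith [hc.one_le]
  have hx0 : 0 < v x := hR.trans hx
  have h1 : v (a2 * x ^ 2) < v (x ^ 3) := by
    rw [map_mul, map_pow, map_pow]
    calc v a2 * v x ^ 2 ≤ R * v x ^ 2 := by gcongr; exact hc.h2
      _ < v x * v x ^ 2 := by gcongr
      _ = v x ^ 3 := by ring
  have h2 : v (a4 * x) < v (x ^ 3) := by
    rw [map_mul, map_pow]
    calc v a4 * v x ≤ R ^ 2 * v x := by gcongr; exact hc.h4
      _ < v x ^ 2 * v x := by gcongr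
      _ = v x ^ 3 := by ring
  have h3 : v a6 < v (x ^ 3) := by
    rw [map_pow]
    calc v a6 ≤ R ^ 3 := hc.h6
      _ < v x ^ 3 := by gcongr
  have h4 : v (a2 * x ^ 2 + a4 * x + a6) < v (x ^ 3) := by
    refine (hc.na _ _).trans_lt (max_lt ((hc.na _ _).trans_lt (max_lt h1 h2)) h3)
  rw [← map_pow, h, ff]
  have e : x ^ 3 + a2 * x ^ 2 + a4 * x + a6 = x ^ 3 + (a2 * x ^ 2 + a4 * x + a6) := by ring
  rw [e, eq_of_lt hc.na h4, map_pow]

theorem eqn {a2 a4 a6 : K} {x y : K} (h : (curve a2 a4 a6).Nonsingular x y) :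
    y ^ 2 = ff a2 a4 a6 x := by
  have h1 := (WeierstrassCurve.Affine.equation_iff x y).1 h.1
  simp only [zero_mul, add_zero] at h1
  rw [h1, ff]

/-- A point of `E_R` with small local parameter is in `E_B`. -/
theorem inE_of_zz {R B : ℝ} {a2 a4 a6 : K} (hc : Ctx v R a2 a4 a6)
    (P : (curve a2 a4 a6).Point) (hP : InE v R P) (h : B * v (zz P) ^ 2 < 1) : InE v B P := by
  rcases P with _ | ⟨x, y, hxy⟩
  · trivial
  · have hx : R < v x := hP
    have hR : 0 < R := by linarith [hc.one_le]
    have hx0 : 0 < v x := hR.trans hx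
    have h1 := y_sq hc hx (eqn hxy)
    have h2 : v (zz (WeierstrassCurve.Affine.Point.some x y hxy)) ^ 2 = 1 / v x := by
      show v (x / y) ^ 2 = 1 / v x
      rw [map_div₀, div_pow, h1]
      field_simp
    rw [h2, mul_one_div, div_lt_one hx0] at h
    exact h

end val

theorem zz_zero {K : Type u} [Field K] {W : WeierstrassCurve.Affine K} :
    zz (0 : W.Point) = 0 := rfl

theorem inE_zero {K : Type u} [Field K] {W : WeierstrassCurve.Affine K} (v : AbsoluteValue K ℝ)
    (R : ℝ) : InE v R (0 : W.Point) := trivial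

end LEM_

open LEM_ in
theorem p_LEM (h1 : T_NSM.{u}) (h2 : T_SUM.{u}) : T_LEM.{u} := by
  intro K _ _ _ v R a2 a4 a6 hc ω a B C hRB hC0 hω g P S M N G Γ Θ hΓ hΘ hS hθ hfin
  classical
  have na := hc.na
  have hR : 0 < R := by linarith [hc.one_le]
  have hv2 : v (2 : K) < 1 := hc.two
  have hv20 : 0 < v (2 : K) := v.pos two_ne_zero
  have hv4 : v (4 : K) = v 2 ^ 2 := by
    rw [← map_pow]; norm_num
  have hv40 : 0 < v (4 : K) := by rw [hv4]; positivity
  -- the number that kills the sum
  obtain ⟨q, hq, hq0⟩ := isOfFinAddOrder_iff_nsmul_eq_zero.1 hfin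
  have hqK : (q : K) ≠ 0 := by exact_mod_cast hq.ne'
  have hvq : 0 < v (q : K) := v.pos hqK
  -- the bound for the local parameters of `2 P i`
  set β : ℝ := v 2 * Real.sqrt Γ with hβ
  have hβ0 : 0 < β := mul_pos hv20 (Real.sqrt_pos.2 hΓ)
  have hβ2 : β ^ 2 = v 4 * Γ := by
    rw [hβ, mul_pow, Real.sq_sqrt hΓ.le, hv4]
  set b : Fin g → K := fun i => zz (2 • P i) with hb
  have hbβ : ∀ i ∈ S, v (b i) ≤ β := by
    intro i hi
    obtain ⟨-, hG, hd⟩ := hS i hi
    have h3 : v (b i ^ 2) ≤ v 4 * Γ := by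
      have e : b i ^ 2 = (zz (2 • P i) ^ 2 - 4 * G i) + 4 * G i := by
        rw [hb]; ring
      rw [e]
      refine (na _ _).trans (max_le hd.le ?_)
      rw [map_mul]
      gcongr
    rw [map_pow, ← hβ2] at h3
    exact (pow_le_pow_iff_left₀ (v.nonneg _) hβ0.le two_ne_zero).1 h3
  -- constants
  set c : ℝ := v a + C + 1 with hcdef
  have hc1 : 1 ≤ c := by
    have := v.nonneg a
    linarith
  set D : ℝ := R * c ^ 3 + C with hD
  have hD0 : 0 < D := by positivity
  -- choice of `l`
  have htend : Filter.Tendsto (fun l : ℕ => v (2 : K) ^ l) Filter.atTop (nhds 0) :=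
    tendsto_pow_atTop_nhds_zero_of_lt_one (v.nonneg _) hv2
  have hsmall : ∀ ε : ℝ, 0 < ε → ∀ᶠ l : ℕ in Filter.atTop, v (2 : K) ^ l < ε := fun ε hε =>
    htend.eventually (gt_mem_nhds hε)
  -- conditions: put `t = v 2 ^ l * β`
  obtain ⟨l, hl1, hl2, hl3, hl4⟩ : ∃ l : ℕ, v (2 : K) ^ l * β ≤ 1 ∧
      B * (v (2 : K) ^ l * β) ^ 2 < 1 ∧ R * (c * (v (2 : K) ^ l * β)) ^ 2 ≤ 1 ∧
      D * (v (2 : K) ^ l * β) ^ 3 < v (2 : K) ^ l * v (q : K) * (Θ * β) := by
    have t1 : Filter.Tendsto (fun l : ℕ => v (2 : K) ^ l * β) Filter.atTop (nhds 0) := by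
      simpa using htend.mul_const β
    have t2 : Filter.Tendsto (fun l : ℕ => B * (v (2 : K) ^ l * β) ^ 2) Filter.atTop (nhds 0) := by
      simpa using (t1.pow 2).const_mul B
    have t3 : Filter.Tendsto (fun l : ℕ => R * (c * (v (2 : K) ^ l * β)) ^ 2) Filter.atTop
        (nhds 0) := by
      simpa using ((t1.const_mul c).pow 2).const_mul R
    have t4 : Filter.Tendsto (fun l : ℕ => D * (v (2 : K) ^ l * β) ^ 2 * β) Filter.atTop
        (nhds 0) := by
      simpa using ((t1.pow 2).const_mul D).mul_const β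
    have e1 := t1.eventually (gt_mem_nhds (zero_lt_one))
    have e2 := t2.eventually (gt_mem_nhds (zero_lt_one))
    have e3 := t3.eventually (gt_mem_nhds (zero_lt_one))
    have e4 := t4.eventually (gt_mem_nhds (show (0 : ℝ) < v (q : K) * (Θ * β) by positivity))
    obtain ⟨l, h1, h2, h3, h4⟩ := (e1.and (e2.and (e3.and e4))).exists
    refine ⟨l, h1.le, h2, h3.le, ?_⟩
    have hp : 0 < v (2 : K) ^ l := by positivity
    calc D * (v (2 : K) ^ l * β) ^ 3 = v (2 : K) ^ l * (D * (v (2 : K) ^ l * β) ^ 2 * β) := by ring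
      _ < v (2 : K) ^ l * (v (q : K) * (Θ * β)) := by gcongr
      _ = v (2 : K) ^ l * v (q : K) * (Θ * β) := by ring
  set t : ℝ := v (2 : K) ^ l * β with ht
  have ht0 : 0 < t := by positivity
  set m : ℕ := 2 ^ l * q with hm
  have hm0 : m ≠ 0 := by positivity
  have hmK : (m : K) ≠ 0 := by exact_mod_cast hm0
  have hvm : v (m : K) = v 2 ^ l * v (q : K) := by
    rw [hm]; push_cast; rw [map_mul, map_pow]
  have hvm0 : 0 < v (m : K) := v.pos hmK
  set Q : Fin g → (curve a2 a4 a6).Point := fun i => m • (2 • P i) with hQ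
  have hQE : ∀ i ∈ S, InE v R (Q i) := fun i hi =>
    (h1 K v R a2 a4 a6 hc (2 • P i) (hS i hi).1).1 m
  -- `zz (Q i) = m (b i + η i)`
  set η : Fin g → K := fun i => zz (Q i) / m - b i with hη
  have hzQ : ∀ i, zz (Q i) = m * (b i + η i) := by
    intro i
    rw [hη]
    field_simp
    ring
  have hηlt : ∀ i ∈ S, v (η i) < β := by
    intro i hi
    by_cases h0 : 2 • P i = 0
    · have : η i = 0 := by
        show zz (m • (2 • P i)) / (m : K) - zz (2 • P i) = 0
        rw [h0, smul_zero, zz_zero]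
        simp
      rw [this, map_zero]
      exact hβ0
    · have h3 := (h1 K v R a2 a4 a6 hc (2 • P i) (hS i hi).1).2.2 m hm0 h0
      have h4 : v (m : K) * v (η i) < v (m : K) * v (b i) := by
        rw [← map_mul]
        have e : (m : K) * η i = zz (m • 2 • P i) - m * zz (2 • P i) := by
          show (m : K) * (zz (m • (2 • P i)) / (m : K) - zz (2 • P i)) = _
          field_simp
        rw [e]
        exact h3
      exact (lt_of_mul_lt_mul_left h4 hvm0.le).trans_le (hbβ i hi)
  have hzt : ∀ i ∈ S, v (zz (Q i)) ≤ t := by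
    intro i hi
    rw [hzQ, map_mul]
    have h3 : v (b i + η i) ≤ β := (na _ _).trans (max_le (hbβ i hi) (hηlt i hi).le)
    calc v (m : K) * v (b i + η i) ≤ v (m : K) * β := by gcongr
      _ = v 2 ^ l * β * v (q : K) := by rw [hvm]; ring
      _ ≤ v 2 ^ l * β * 1 := by gcongr; exact natCast_le na q
      _ = t := by rw [mul_one]
  have hQB : ∀ i ∈ S, InE v B (Q i) := by
    intro i hi
    apply inE_of_zz hc _ (hQE i hi)
    by_cases hB : 0 ≤ B
    · calc B * v (zz (Q i)) ^ 2 ≤ B * t ^ 2 := by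
            have := hzt i hi
            gcongr
        _ < 1 := hl2
    · exact absurd (hR.le.trans hRB) hB
  -- properties of `ω (Q i)`
  have hωQ : ∀ i ∈ S, InE v R (ω (Q i)) ∧ v (zz (ω (Q i)) - a * zz (Q i)) ≤ C * t ^ 3 ∧
      v (zz (ω (Q i))) ≤ c * t := by
    intro i hi
    by_cases h0 : Q i = 0
    · rw [h0, map_zero]
      refine ⟨inE_zero _ _, ?_, ?_⟩
      · rw [zz_zero]
        simp only [mul_zero, sub_zero, map_zero]
        positivity
      · rw [zz_zero, map_zero]
        positivity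
    · obtain ⟨h3, h4⟩ := hω (Q i) h0 (hQB i hi)
      have h5 : v (zz (ω (Q i)) - a * zz (Q i)) ≤ C * t ^ 3 := by
        refine h4.trans ?_
        have := hzt i hi
        gcongr
      refine ⟨h3, h5, ?_⟩
      have e : zz (ω (Q i)) = (zz (ω (Q i)) - a * zz (Q i)) + a * zz (Q i) := by ring
      rw [e]
      refine (na _ _).trans (max_le (h5.trans ?_) ?_)
      · have ht3 : t ^ 3 ≤ t := by
          calc t ^ 3 = t * t ^ 2 := by ring
            _ ≤ t * 1 := by
              gcongr
              exact pow_le_one₀ ht0.le hl1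
            _ = t := mul_one t
        calc C * t ^ 3 ≤ C * t := by gcongr
          _ ≤ c * t := by
            gcongr
            have := v.nonneg a
            linarith
      · rw [map_mul]
        calc v a * v (zz (Q i)) ≤ v a * t := by
              have := hzt i hi
              gcongr
          _ ≤ c * t := by
            gcongr
            linarith
  -- the points of the sum
  let Y : Fin g × Bool → (curve a2 a4 a6).Point := fun p =>
    if p.2 then M p.1 • Q p.1 else N p.1 • ω (Q p.1)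
  let y : Fin g × Bool → K := fun p =>
    if p.2 then (M p.1 : K) * zz (Q p.1) else (N p.1 : K) * (a * zz (Q p.1))
  have hY : ∀ p ∈ S ×ˢ (Finset.univ : Finset Bool), InE v R (Y p) ∧ v (zz (Y p)) ≤ c * t ∧
      v (zz (Y p) - y p) ≤ D * t ^ 3 := by
    rintro ⟨i, o⟩ hp
    have hi : i ∈ S := (Finset.mem_product.1 hp).1
    cases o with
    | true =>
      obtain ⟨h3, h4⟩ := (h1 K v R a2 a4 a6 hc (Q i) (hQE i hi)).2.1 (M i)
      have h5 : v (zz (Y (i, true)) - y (i, true)) ≤ R * t ^ 3 := by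
        refine (show v (zz (M i • Q i) - (M i : K) * zz (Q i)) ≤ _ from h4).trans ?_
        have := hzt i hi
        gcongr
      refine ⟨h3, ?_, h5.trans ?_⟩
      · have e : zz (Y (i, true)) = (zz (Y (i, true)) - y (i, true)) + y (i, true) := by ring
        rw [e]
        have hyt : v (y (i, true)) ≤ t := by
          show v ((M i : K) * zz (Q i)) ≤ t
          rw [map_mul]
          calc v (M i : K) * v (zz (Q i)) ≤ 1 * t := by
                apply mul_le_mul (intCast_le na _) (hzt i hi) (v.nonneg _) zero_le_one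
            _ = t := one_mul t
        have hRt : R * t ^ 3 ≤ t := by
          have h6 : R * t ^ 2 ≤ 1 := by
            refine le_trans ?_ hl3
            rw [mul_pow c t]
            have : 1 ≤ c ^ 2 := one_le_pow₀ hc1
            calc R * t ^ 2 = R * (1 * t ^ 2) := by ring
              _ ≤ R * (c ^ 2 * t ^ 2) := by gcongr
          calc R * t ^ 3 = (R * t ^ 2) * t := by ring
            _ ≤ 1 * t := by gcongr
            _ = t := one_mul t
        have htc : t ≤ c * t := by
          calc t = 1 * t := (one_mul t).symm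
            _ ≤ c * t := by gcongr
        exact (na _ _).trans (max_le (h5.trans (hRt.trans htc)) (hyt.trans htc))
      · rw [hD]
        have : 1 ≤ c ^ 3 := one_le_pow₀ hc1
        calc R * t ^ 3 = R * 1 * t ^ 3 := by ring
          _ ≤ R * c ^ 3 * t ^ 3 := by gcongr
          _ ≤ (R * c ^ 3 + C) * t ^ 3 := by gcongr; linarith
    | false =>
      obtain ⟨hw1, hw2, hw3⟩ := hωQ i hi
      obtain ⟨h3, h4⟩ := (h1 K v R a2 a4 a6 hc (ω (Q i)) hw1).2.1 (N i)
      have h5 : v (zz (N i • ω (Q i)) - (N i : K) * zz (ω (Q i))) ≤ R * (c * t) ^ 3 := by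
        refine h4.trans ?_
        gcongr
      refine ⟨h3, ?_, ?_⟩
      · have e : zz (N i • ω (Q i)) = (zz (N i • ω (Q i)) - (N i : K) * zz (ω (Q i))) +
            (N i : K) * zz (ω (Q i)) := by ring
        show v (zz (N i • ω (Q i))) ≤ c * t
        rw [e]
        refine (na _ _).trans (max_le (h5.trans ?_) ?_)
        · calc R * (c * t) ^ 3 = (R * (c * t) ^ 2) * (c * t) := by ring
            _ ≤ 1 * (c * t) := by gcongr
            _ = c * t := one_mul _
        · rw [map_mul]
          calc v (N i : K) * v (zz (ω (Q i))) ≤ 1 * (c * t) := by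
                apply mul_le_mul (intCast_le na _) hw3 (v.nonneg _) zero_le_one
            _ = c * t := one_mul _
      · show v (zz (N i • ω (Q i)) - (N i : K) * (a * zz (Q i))) ≤ D * t ^ 3
        have e : zz (N i • ω (Q i)) - (N i : K) * (a * zz (Q i)) =
            (zz (N i • ω (Q i)) - (N i : K) * zz (ω (Q i))) +
            (N i : K) * (zz (ω (Q i)) - a * zz (Q i)) := by ring
        rw [e]
        refine (na _ _).trans (max_le (h5.trans ?_) ?_)
        · rw [hD]
          calc R * (c * t) ^ 3 = R * c ^ 3 * t ^ 3 := by ring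
            _ ≤ (R * c ^ 3 + C) * t ^ 3 := by gcongr; linarith
        · rw [map_mul]
          calc v (N i : K) * v (zz (ω (Q i)) - a * zz (Q i)) ≤ 1 * (C * t ^ 3) := by
                apply mul_le_mul (intCast_le na _) hw2 (v.nonneg _) zero_le_one
            _ = C * t ^ 3 := one_mul _
            _ ≤ (R * c ^ 3 + C) * t ^ 3 := by
              gcongr
              have : 0 ≤ R * c ^ 3 := by positivity
              linarith
  have hsum0 : ∑ p ∈ S ×ˢ (Finset.univ : Finset Bool), Y p = 0 := by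
    rw [Finset.sum_product]
    have h3 : ∀ i, ∑ o : Bool, Y (i, o) = (m * 2) • (M i • P i + N i • ω (P i)) := by
      intro i
      rw [Fintype.sum_bool]
      show M i • (m • (2 • P i)) + N i • ω (m • (2 • P i)) = _
      rw [map_nsmul, map_nsmul, smul_add, smul_smul m 2, smul_smul m 2, smul_comm (M i),
        smul_comm (N i)]
    simp only [h3]
    rw [← Finset.smul_sum]
    have h4 : m * 2 = (2 ^ l * 2) * q := by rw [hm]; ring
    rw [h4, mul_smul, hq0, smul_zero]
  have hmain : v (∑ p ∈ S ×ˢ (Finset.univ : Finset Bool), zz (Y p)) ≤ R * (c * t) ^ 3 := by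
    have h3 := (h2 K v R a2 a4 a6 hc (Fin g × Bool) (S ×ˢ (Finset.univ : Finset Bool)) Y (c * t)
      (by positivity) (fun p hp => ⟨(hY p hp).1, (hY p hp).2.1⟩) hl3).2.2
    rw [hsum0, zz_zero, zero_sub, v.map_neg] at h3
    exact h3
  have hmain2 : v (∑ i ∈ S, ((M i : K) + (N i : K) * a) * zz (Q i)) ≤ D * t ^ 3 := by
    have e1 : ∑ i ∈ S, ((M i : K) + (N i : K) * a) * zz (Q i) =
        ∑ p ∈ S ×ˢ (Finset.univ : Finset Bool), y p := by
      rw [Finset.sum_product]
      apply Finset.sum_congr rfl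
      intro i _
      rw [Fintype.sum_bool]
      show _ = (M i : K) * zz (Q i) + (N i : K) * (a * zz (Q i))
      ring
    have e2 : ∑ p ∈ S ×ˢ (Finset.univ : Finset Bool), y p =
        ∑ p ∈ S ×ˢ (Finset.univ : Finset Bool), zz (Y p) -
          ∑ p ∈ S ×ˢ (Finset.univ : Finset Bool), (zz (Y p) - y p) := by
      rw [Finset.sum_sub_distrib]
      ring
    rw [e1, e2]
    refine (sub_le na _ _).trans (max_le (hmain.trans ?_) ?_)
    · rw [hD]
      calc R * (c * t) ^ 3 = R * c ^ 3 * t ^ 3 := by ring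
        _ ≤ (R * c ^ 3 + C) * t ^ 3 := by gcongr; linarith
    · exact sum_le na _ _ _ (by positivity) fun p hp => (hY p hp).2.2
  -- divide by `m`
  set θ : Fin g → K := fun i => (M i : K) + (N i : K) * a with hθdef
  have hθle : ∀ i ∈ S, v (θ i) ≤ Θ := hθ
  have h3 : v (∑ i ∈ S, θ i * (b i + η i)) < Θ * β := by
    have e : ∑ i ∈ S, θ i * zz (Q i) = (m : K) * ∑ i ∈ S, θ i * (b i + η i) := by
      rw [Finset.mul_sum]
      apply Finset.sum_congr rfl
      intro i _
      rw [hzQ]
      ring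
    have h4 : v (m : K) * v (∑ i ∈ S, θ i * (b i + η i)) < v (m : K) * (Θ * β) := by
      rw [← map_mul, ← e, hvm]
      exact hmain2.trans_lt hl4
    exact lt_of_mul_lt_mul_left h4 hvm0.le
  have h4 : v (∑ i ∈ S, θ i * η i) < Θ * β := by
    apply sum_lt na _ _ _ (by positivity)
    intro i hi
    rw [map_mul]
    calc v (θ i) * v (η i) ≤ Θ * v (η i) := by
          have := hθle i hi
          gcongr
      _ < Θ * β := by
          have := hηlt i hi
          gcongr
  have h5 : v (∑ i ∈ S, θ i * b i) < Θ * β := by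
    have e : ∑ i ∈ S, θ i * b i = ∑ i ∈ S, θ i * (b i + η i) - ∑ i ∈ S, θ i * η i := by
      rw [← Finset.sum_sub_distrib]
      apply Finset.sum_congr rfl
      intro i _
      ring
    rw [e]
    exact (sub_le na _ _).trans_lt (max_lt h3 h4)
  -- square
  have hΘβ : 0 < Θ * β := by positivity
  have h6 : v (∑ i ∈ S, (θ i * b i) ^ 2) < (Θ * β) ^ 2 := by
    have h7 := sq_sum na S (fun i => θ i * b i) (Θ * β) hΘβ.le (by
      intro i hi
      rw [map_mul]
      exact mul_le_mul (hθle i hi) (hbβ i hi) (v.nonneg _) hΘ.le)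
    have h8 : v ((∑ i ∈ S, θ i * b i) ^ 2) < (Θ * β) ^ 2 := by
      rw [map_pow]
      gcongr
    have h9 : v 2 * (Θ * β) ^ 2 < (Θ * β) ^ 2 := by
      have : 0 < (Θ * β) ^ 2 := by positivity
      nlinarith
    have e : ∑ i ∈ S, (θ i * b i) ^ 2 = (∑ i ∈ S, θ i * b i) ^ 2 -
        ((∑ i ∈ S, θ i * b i) ^ 2 - ∑ i ∈ S, (θ i * b i) ^ 2) := by ring
    rw [e]
    exact (sub_le na _ _).trans_lt (max_lt h8 (h7.trans_lt h9))
  have hsq : (Θ * β) ^ 2 = v 4 * (Θ ^ 2 * Γ) := by
    rw [mul_pow, hβ2]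
    ring
  have h7 : v (∑ i ∈ S, θ i ^ 2 * (b i ^ 2 - 4 * G i)) < (Θ * β) ^ 2 := by
    apply sum_lt na _ _ _ (by positivity)
    intro i hi
    rw [map_mul, map_pow, mul_pow, hβ2]
    calc v (θ i) ^ 2 * v (b i ^ 2 - 4 * G i) ≤ Θ ^ 2 * v (b i ^ 2 - 4 * G i) := by
          have := hθle i hi
          gcongr
      _ < Θ ^ 2 * (v 4 * Γ) := by
          have := (hS i hi).2.2
          gcongr
  have h8 : v (4 * ∑ i ∈ S, θ i ^ 2 * G i) < (Θ * β) ^ 2 := by
    have e : 4 * ∑ i ∈ S, θ i ^ 2 * G i = ∑ i ∈ S, (θ i * b i) ^ 2 -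
        ∑ i ∈ S, θ i ^ 2 * (b i ^ 2 - 4 * G i) := by
      rw [← Finset.sum_sub_distrib, Finset.mul_sum]
      apply Finset.sum_congr rfl
      intro i _
      ring
    rw [e]
    exact (sub_le na _ _).trans_lt (max_lt h6 h7)
  rw [map_mul, hsq] at h8
  exact lt_of_mul_lt_mul_left h8 hv40.le

end RD
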