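import Mathlib
import Pool.Agent.RD.Targets

namespace RD

universe u

namespace EST_

variable {K : Type u} [Field K] {v : AbsoluteValue K ℝ}

lemma vneg (x : K) : v (-x) = v x := v.map_neg x

lemma vadd (h : IsNonarchimedean v) (x y : K) : v (x + y) ≤ max (v x) (v y) := h x y

lemma vsub (h : IsNonarchimedean v) (x y : K) : v (x - y) ≤ max (v x) (v y) := by
  rw [sub_eq_add_neg, ← vneg y]; exact h x (-y)

lemma vadd_le (h : IsNonarchimedean v) {x y : K} {r : ℝ} (hx : v x ≤ r) (hy : v y ≤ r) :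
    v (x + y) ≤ r := (vadd h x y).trans (max_le hx hy)

lemma vadd_lt (h : IsNonarchimedean v) {x y : K} {r : ℝ} (hx : v x < r) (hy : v y < r) :
    v (x + y) < r := (vadd h x y).trans_lt (max_lt hx hy)

lemma vsub_le (h : IsNonarchimedean v) {x y : K} {r : ℝ} (hx : v x ≤ r) (hy : v y ≤ r) :
    v (x - y) ≤ r := (vsub h x y).trans (max_le hx hy)

lemma vsub_lt (h : IsNonarchimedean v) {x y : K} {r : ℝ} (hx : v x < r) (hy : v y < r) :
    v (x - y) < r := (vsub h x y).trans_lt (max_lt hx hy)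

lemma vadd_eq (h : IsNonarchimedean v) {x y : K} (hxy : v y < v x) : v (x + y) = v x := by
  apply le_antisymm
  · exact vadd_le h le_rfl hxy.le
  · by_contra hc
    push Not at hc
    have : v ((x + y) - y) < v x := vsub_lt h hc hxy
    rw [add_sub_cancel_right] at this
    exact lt_irrefl _ this

lemma vsub_eq (h : IsNonarchimedean v) {x y : K} (hxy : v y < v x) : v (x - y) = v x := by
  rw [sub_eq_add_neg]; exact vadd_eq h (by rwa [vneg])

lemma vnat (h : IsNonarchimedean v) (n : ℕ) : v (n : K) ≤ 1 := by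
  induction n with
  | zero => simp
  | succ n ih => push_cast; exact vadd_le h ih (by simp)

lemma vthree (h : IsNonarchimedean v) (_h2 : v 2 < 1) : v (3 : K) ≤ 1 := by
  have := vnat h (v := v) 3
  simpa using this

/-- points of E_R -/
lemma vy {R : ℝ} {a2 a4 a6 : K} (H : Ctx v R a2 a4 a6) {x y : K} (hx : R < v x)
    (hy : y ^ 2 = ff a2 a4 a6 x) : v y ^ 2 = v x ^ 3 := by
  have h1 := H.one_le
  have hx0 : 0 < v x := by linarith
  have hna := H.na
  have hd : v (a2 * x ^ 2 + a4 * x + a6) < v (x ^ 3) := by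
    have hX : v (x ^ 3) = v x ^ 3 := map_pow _ _ _
    rw [hX]
    have b1 : v (a2 * x ^ 2) < v x ^ 3 := by
      rw [map_mul, map_pow]
      calc v a2 * v x ^ 2 ≤ R * v x ^ 2 := by gcongr; exact H.h2
        _ < v x * v x ^ 2 := by gcongr
        _ = v x ^ 3 := by ring
    have b2 : v (a4 * x) < v x ^ 3 := by
      rw [map_mul]
      calc v a4 * v x ≤ R ^ 2 * v x := by gcongr; exact H.h4
        _ < v x ^ 2 * v x := by gcongr
        _ = v x ^ 3 := by ring
    have b3 : v a6 < v x ^ 3 := H.h6.trans_lt (by gcongr)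
    exact vadd_lt hna (vadd_lt hna b1 b2) b3
  have : v (y ^ 2) = v (x ^ 3) := by
    rw [hy, ff, show x ^ 3 + a2 * x ^ 2 + a4 * x + a6 = x ^ 3 + (a2 * x ^ 2 + a4 * x + a6) by ring]
    exact vadd_eq hna hd
  rwa [map_pow, map_pow] at this

lemma key {R : ℝ} {a2 a4 a6 : K} (H : Ctx v R a2 a4 a6) {l n x1 x2 x3 : K}
    (hx1 : R < v x1) (hle : v x1 ≤ v x2)
    (e1 : x1 + x2 + x3 = l ^ 2 - a2) (e2 : x1 * x2 + x1 * x3 + x2 * x3 = a4 - 2 * l * n)
    (e3 : x1 * x2 * x3 = n ^ 2 - a6) :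
    v x1 ≤ v x3 ∧ v n ^ 2 = v x1 * v x2 * v x3 ∧ v l ^ 2 ≤ max (v x2) (v x3) := by
  have hna := H.na
  have h1 := H.one_le
  have hR0 : 0 < R := by linarith
  have p1 : 0 < v x1 := by linarith
  have p2 : 0 < v x2 := by linarith
  have p3 : 0 ≤ v x3 := v.nonneg _
  have hl : v l ^ 2 ≤ max (v x2) (v x3) := by
    have : l ^ 2 = x1 + x2 + x3 + a2 := by rw [e1]; ring
    rw [← map_pow, this]
    refine vadd_le hna (vadd_le hna (vadd_le hna ?_ ?_) ?_) ?_
    · exact hle.trans (le_max_left _ _)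
    · exact le_max_left _ _
    · exact le_max_right _ _
    · exact (H.h2.trans (hx1.le.trans hle)).trans (le_max_left _ _)
  have h13 : v x1 ≤ v x3 := by
    by_contra hc
    push Not at hc
    have hl' : v l ^ 2 ≤ v x2 := by
      refine hl.trans (max_le le_rfl (hc.le.trans hle))
    have hn2 : v n ^ 2 < v x1 ^ 2 * v x2 := by
      have : n ^ 2 = x1 * x2 * x3 + a6 := by rw [e3]; ring
      rw [← map_pow, this]
      refine vadd_lt hna ?_ ?_
      · rw [map_mul, map_mul]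
        calc v x1 * v x2 * v x3 < v x1 * v x2 * v x1 := by gcongr
          _ = v x1 ^ 2 * v x2 := by ring
      · calc v a6 ≤ R ^ 3 := H.h6
          _ = R ^ 2 * R := by ring
          _ < v x1 ^ 2 * v x2 := by
            have : R < v x2 := hx1.trans_le hle
            gcongr
    have hln : v (2 * l * n) < v x1 * v x2 := by
      have hsq : v (2 * l * n) ^ 2 < (v x1 * v x2) ^ 2 := by
        rw [map_mul, map_mul]
        have q1 : v 2 ^ 2 ≤ 1 := by
          have := v.nonneg 2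
          nlinarith [H.two]
        calc (v 2 * v l * v n) ^ 2 = v 2 ^ 2 * (v l ^ 2 * v n ^ 2) := by ring
          _ ≤ 1 * (v l ^ 2 * v n ^ 2) := by gcongr
          _ ≤ 1 * (v x2 * v n ^ 2) := by gcongr
          _ < 1 * (v x2 * (v x1 ^ 2 * v x2)) := by gcongr
          _ = (v x1 * v x2) ^ 2 := by ring
      exact lt_of_pow_lt_pow_left₀ 2 (by positivity) hsq
    have h4 : v a4 < v x1 * v x2 := by
      calc v a4 ≤ R ^ 2 := H.h4
        _ = R * R := by ring
        _ < v x1 * v x2 := by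
          have : R < v x2 := hx1.trans_le hle
          gcongr
    have h13' : v (x1 * x3) < v x1 * v x2 := by
      rw [map_mul]
      have : v x3 < v x2 := hc.trans_le hle
      gcongr
    have h23' : v (x2 * x3) < v x1 * v x2 := by
      rw [map_mul, mul_comm (v x1)]
      gcongr
    have : x1 * x2 = a4 - 2 * l * n - x1 * x3 - x2 * x3 := by rw [← e2]; ring
    have h12 : v (x1 * x2) < v x1 * v x2 := by
      rw [this]
      exact vsub_lt hna (vsub_lt hna (vsub_lt hna h4 hln) h13') h23'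
    rw [map_mul] at h12
    exact lt_irrefl _ h12
  refine ⟨h13, ?_, hl⟩
  have hlt : v a6 < v (x1 * x2 * x3) := by
    rw [map_mul, map_mul]
    calc v a6 ≤ R ^ 3 := H.h6
      _ = R * R * R := by ring
      _ < v x1 * v x2 * v x3 := by
        have : R < v x2 := hx1.trans_le hle
        have : R < v x3 := hx1.trans_le h13
        gcongr
  have : n ^ 2 = x1 * x2 * x3 + a6 := by rw [e3]; ring
  rw [← map_pow, this, vadd_eq hna hlt, map_mul, map_mul]

lemma ident {a2 a4 a6 l n x1 x2 x3 : K} (hn : n ≠ 0)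
    (e1 : x1 + x2 + x3 = l ^ 2 - a2) (e2 : x1 * x2 + x1 * x3 + x2 * x3 = a4 - 2 * l * n)
    (e3 : x1 * x2 * x3 = n ^ 2 - a6) (h1 : l * x1 + n ≠ 0) (h2 : l * x2 + n ≠ 0)
    (h3 : l * x3 + n ≠ 0) :
    (x1 / (l * x1 + n) + x2 / (l * x2 + n) + x3 / (l * x3 + n)) *
      (1 + a2 * (-l / n) + a4 * (-l / n) ^ 2 + a6 * (-l / n) ^ 3) =
      -(1 / n) * (a2 + 2 * a4 * (-l / n) + 3 * a6 * (-l / n) ^ 2) := by
  have hprod : (l * x1 + n) * (l * x2 + n) * (l * x3 + n) =
      n ^ 3 - a2 * l * n ^ 2 + a4 * l ^ 2 * n - a6 * l ^ 3 := by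
    linear_combination l ^ 3 * e3 + l ^ 2 * n * e2 + l * n ^ 2 * e1
  have hnum : x1 * ((l * x2 + n) * (l * x3 + n)) + x2 * ((l * x1 + n) * (l * x3 + n)) +
      x3 * ((l * x1 + n) * (l * x2 + n)) = -(n ^ 2 * a2 - 2 * a4 * l * n + 3 * a6 * l ^ 2) := by
    linear_combination 3 * l ^ 2 * e3 + 2 * l * n * e2 + n ^ 2 * e1
  have hL : x1 / (l * x1 + n) + x2 / (l * x2 + n) + x3 / (l * x3 + n) =
      (x1 * ((l * x2 + n) * (l * x3 + n)) + x2 * ((l * x1 + n) * (l * x3 + n)) +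
      x3 * ((l * x1 + n) * (l * x2 + n))) / ((l * x1 + n) * (l * x2 + n) * (l * x3 + n)) := by
    generalize l * x1 + n = A at h1 ⊢
    generalize l * x2 + n = B at h2 ⊢
    generalize l * x3 + n = C at h3 ⊢
    field_simp
  have hp0 : n ^ 3 - a2 * l * n ^ 2 + a4 * l ^ 2 * n - a6 * l ^ 3 ≠ 0 := by
    rw [← hprod]
    exact mul_ne_zero (mul_ne_zero h1 h2) h3
  rw [hL, hnum, hprod, div_mul_eq_mul_div, div_eq_iff hp0]
  field_simp
  ring

lemma main {R : ℝ} {a2 a4 a6 : K} (H : Ctx v R a2 a4 a6) {l n x1 x2 x3 y1 y2 y3 : K}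
    (hx1 : R < v x1) (hle : v x1 ≤ v x2)
    (hy1 : y1 = l * x1 + n) (hy2 : y2 = l * x2 + n) (hy3 : y3 = - (l * x3 + n))
    (e1 : x1 + x2 + x3 = l ^ 2 - a2) (e2 : x1 * x2 + x1 * x3 + x2 * x3 = a4 - 2 * l * n)
    (e3 : x1 * x2 * x3 = n ^ 2 - a6)
    (q1 : y1 ^ 2 = ff a2 a4 a6 x1) (q2 : y2 ^ 2 = ff a2 a4 a6 x2)
    (q3 : y3 ^ 2 = ff a2 a4 a6 x3) :
    R < v x3 ∧ v (x3 / y3 - x1 / y1 - x2 / y2) ≤ R * (max (v (x1 / y1)) (v (x2 / y2))) ^ 3 := by
  obtain ⟨k1, k2, k3⟩ := key H hx1 hle e1 e2 e3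
  have hna := H.na
  have hone := H.one_le
  have hR0 : 0 < R := by linarith
  have hx2 : R < v x2 := hx1.trans_le hle
  have hx3 : R < v x3 := hx1.trans_le k1
  have p1 : 0 < v x1 := by linarith
  have p2 : 0 < v x2 := by linarith
  have p3 : 0 < v x3 := by linarith
  have w1 := vy H hx1 q1
  have w2 := vy H hx2 q2
  have w3 := vy H hx3 q3
  have hyne : ∀ {x y : K}, 0 < v x → v y ^ 2 = v x ^ 3 → y ≠ 0 := by
    intro x y hx hy h0
    rw [h0] at hy
    have h3 : 0 < v x ^ 3 := by positivity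
    rw [map_zero] at hy
    norm_num at hy
    linarith
  have y1n := hyne p1 w1
  have y2n := hyne p2 w2
  have y3n := hyne p3 w3
  have hn : n ≠ 0 := by
    intro h0
    rw [h0] at k2
    simp only [map_zero, ne_eq, OfNat.ofNat_ne_zero, not_false_eq_true, zero_pow] at k2
    have : 0 < v x1 * v x2 * v x3 := by positivity
    linarith
  have pn : 0 < v n := v.pos hn
  -- μ
  set μ := max (v (x1 / y1)) (v (x2 / y2)) with hμ
  have z1 : v (x1 / y1) ^ 2 * v x1 = 1 := by
    rw [map_div₀, div_pow, w1]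
    field_simp
  have pz1 : 0 < v (x1 / y1) := by
    rcases (v.nonneg (x1 / y1)).lt_or_eq with h | h
    · exact h
    · rw [← h] at z1; simp at z1
  have hμ1 : v (x1 / y1) ≤ μ := le_max_left _ _
  have pμ : 0 < μ := pz1.trans_le hμ1
  -- 1 / v x1 = z1^2
  have hx1' : v x1 = 1 / v (x1 / y1) ^ 2 := by
    field_simp
    linarith [z1]
  -- α β bounds in terms of z := v (x1/y1)
  set z := v (x1 / y1) with hz
  have hRz : R * z ^ 2 < 1 := by
    have : z ^ 2 = 1 / v x1 := by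
      field_simp
      linarith [z1]
    rw [this, mul_one_div, div_lt_one p1]
    exact hx1
  have hal : v (-l / n) ≤ z ^ 2 := by
    have hsq : v (-l / n) ^ 2 ≤ (z ^ 2) ^ 2 := by
      rw [map_div₀, vneg, div_pow, k2]
      rw [div_le_iff₀ (by positivity)]
      have hz2 : z ^ 2 = 1 / v x1 := by
        field_simp
        linarith [z1]
      rw [hz2]
      have : (1 / v x1) ^ 2 * (v x1 * v x2 * v x3) = v x2 * v x3 / v x1 := by
        field_simp
      rw [this]
      refine k3.trans (max_le ?_ ?_)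
      · rw [le_div_iff₀ p1]
        gcongr
      · rw [le_div_iff₀ p1, mul_comm (v x2)]
        gcongr
    exact le_of_sq_le_sq hsq (by positivity)
  have hbe : v (1 / n) ≤ z ^ 3 := by
    have hsq : v (1 / n) ^ 2 ≤ (z ^ 3) ^ 2 := by
      rw [map_div₀, map_one, div_pow, k2, one_pow]
      have hz2 : z ^ 2 = 1 / v x1 := by
        field_simp
        linarith [z1]
      have : (z ^ 3) ^ 2 = (z ^ 2) ^ 3 := by ring
      rw [this, hz2, div_pow, one_pow]
      apply one_div_le_one_div_of_le (by positivity)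
      calc v x1 ^ 3 = v x1 * v x1 * v x1 := by ring
        _ ≤ v x1 * v x2 * v x3 := by gcongr
    exact le_of_sq_le_sq hsq (by positivity)
  have hid := ident hn e1 e2 e3 (by rw [← hy1]; exact y1n) (by rw [← hy2]; exact y2n)
    (by
      intro h0
      apply y3n
      rw [hy3, h0, neg_zero])
  have hden : v (1 + a2 * (-l / n) + a4 * (-l / n) ^ 2 + a6 * (-l / n) ^ 3) = 1 := by
    have t1 : v (a2 * (-l / n)) < 1 := by
      rw [map_mul]
      calc v a2 * v (-l / n) ≤ R * z ^ 2 := by gcongr; exact H.h2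
        _ < 1 := hRz
    have t2 : v (a4 * (-l / n) ^ 2) < 1 := by
      rw [map_mul, map_pow]
      calc v a4 * v (-l / n) ^ 2 ≤ R ^ 2 * (z ^ 2) ^ 2 := by gcongr; exact H.h4
        _ = (R * z ^ 2) ^ 2 := by ring
        _ < 1 := pow_lt_one₀ (by positivity) hRz (by norm_num)
    have t3 : v (a6 * (-l / n) ^ 3) < 1 := by
      rw [map_mul, map_pow]
      calc v a6 * v (-l / n) ^ 3 ≤ R ^ 3 * (z ^ 2) ^ 3 := by gcongr; exact H.h6
        _ = (R * z ^ 2) ^ 3 := by ring
        _ < 1 := pow_lt_one₀ (by positivity) hRz (by norm_num)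
    have : v (a2 * (-l / n) + a4 * (-l / n) ^ 2 + a6 * (-l / n) ^ 3) < v (1 : K) := by
      rw [map_one]
      exact vadd_lt hna (vadd_lt hna t1 t2) t3
    rw [show (1 : K) + a2 * (-l / n) + a4 * (-l / n) ^ 2 + a6 * (-l / n) ^ 3 =
      1 + (a2 * (-l / n) + a4 * (-l / n) ^ 2 + a6 * (-l / n) ^ 3) by ring, vadd_eq hna this,
      map_one]
  have hnumb : v (a2 + 2 * a4 * (-l / n) + 3 * a6 * (-l / n) ^ 2) ≤ R := by
    have h2le : v (2 : K) ≤ 1 := H.two.le
    have h3le : v (3 : K) ≤ 1 := vthree hna H.two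
    refine vadd_le hna (vadd_le hna H.h2 ?_) ?_
    · rw [map_mul, map_mul]
      calc v 2 * v a4 * v (-l / n) ≤ 1 * R ^ 2 * z ^ 2 := by gcongr; exact H.h4
        _ = R * (R * z ^ 2) := by ring
        _ ≤ R * 1 := by gcongr
        _ = R := mul_one R
    · rw [map_mul, map_mul, map_pow]
      calc v 3 * v a6 * v (-l / n) ^ 2 ≤ 1 * R ^ 3 * (z ^ 2) ^ 2 := by gcongr; exact H.h6
        _ = R * (R * z ^ 2) ^ 2 := by ring
        _ ≤ R * 1 ^ 2 := by gcongr
        _ = R := by ring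
  refine ⟨hx3, ?_⟩
  have hS : x3 / y3 - x1 / y1 - x2 / y2 =
      -(x1 / (l * x1 + n) + x2 / (l * x2 + n) + x3 / (l * x3 + n)) := by
    rw [hy1, hy2, hy3, div_neg]
    ring
  have hval : v (x1 / (l * x1 + n) + x2 / (l * x2 + n) + x3 / (l * x3 + n)) ≤ R * z ^ 3 := by
    have := congrArg v hid
    rw [map_mul, hden, mul_one, map_mul, vneg] at this
    rw [this]
    calc v (1 / n) * v (a2 + 2 * a4 * (-l / n) + 3 * a6 * (-l / n) ^ 2) ≤ z ^ 3 * R := by gcongr
      _ = R * z ^ 3 := by ring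
  rw [hS, vneg]
  refine hval.trans ?_
  gcongr

end EST_

open EST_ in
theorem p_EST : T_EST.{u} := by
  intro K _ v R a2 a4 a6 H l n x1 x2 x3 y1 y2 y3 hx1 hx2 hy1 hy2 hy3 e1 e2 e3 q1 q2 q3
  rcases le_total (v x1) (v x2) with hle | hle
  · exact main H hx1 hle hy1 hy2 hy3 e1 e2 e3 q1 q2 q3
  · have := main H hx2 hle hy2 hy1 hy3 (by rw [← e1]; ring) (by rw [← e2]; ring)
      (by rw [← e3]; ring) q2 q1 q3
    refine ⟨this.1, ?_⟩
    rw [max_comm, show x3 / y3 - x1 / y1 - x2 / y2 = x3 / y3 - x2 / y2 - x1 / y1 by ring]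
    exact this.2

end RD
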