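import Pool.Agent.RD.Targets

/-!
# RD: NSM -- integer multiples on `E_R`
-/

namespace RD

universe u

namespace NSM_

variable {K : Type u} [Field K] {v : AbsoluteValue K ℝ}

lemma vneg (x : K) : v (-x) = v x := v.map_neg x

lemma vadd_le (h : IsNonarchimedean v) {x y : K} {r : ℝ} (hx : v x ≤ r) (hy : v y ≤ r) :
    v (x + y) ≤ r := (h x y).trans (max_le hx hy)

lemma vadd_lt (h : IsNonarchimedean v) {x y : K} {r : ℝ} (hx : v x < r) (hy : v y < r) :
    v (x + y) < r := (h x y).trans_lt (max_lt hx hy)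

lemma vsub_le (h : IsNonarchimedean v) {x y : K} {r : ℝ} (hx : v x ≤ r) (hy : v y ≤ r) :
    v (x - y) ≤ r := by
  rw [sub_eq_add_neg]
  exact vadd_le h hx (by rwa [vneg])

lemma vsub_lt (h : IsNonarchimedean v) {x y : K} {r : ℝ} (hx : v x < r) (hy : v y < r) :
    v (x - y) < r := by
  rw [sub_eq_add_neg]
  exact vadd_lt h hx (by rwa [vneg])

lemma vadd_eq (h : IsNonarchimedean v) {x y : K} (hxy : v y < v x) : v (x + y) = v x := by
  apply le_antisymm
  · exact vadd_le h le_rfl hxy.le
  · by_contra hc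
    push Not at hc
    have : v ((x + y) - y) < v x := vsub_lt h hc hxy
    rw [add_sub_cancel_right] at this
    exact lt_irrefl _ this

lemma vnat (h : IsNonarchimedean v) (n : ℕ) : v (n : K) ≤ 1 := by
  induction n with
  | zero => simp
  | succ n ih => push_cast; exact vadd_le h ih (by simp)

lemma vodd (h : IsNonarchimedean v) (h2 : v 2 < 1) (m : ℕ) : v ((2 * m + 1 : ℕ) : K) = 1 := by
  have e : ((2 * m + 1 : ℕ) : K) = 1 + 2 * (m : K) := by push_cast; ring
  rw [e, vadd_eq h, map_one]
  rw [map_one, map_mul]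
  have h3 := vnat h m
  have h4 := v.nonneg 2
  have h5 := v.nonneg (m : K)
  nlinarith

lemma vthree (h : IsNonarchimedean v) (h2 : v 2 < 1) : v (3 : K) = 1 := by
  have := vodd h h2 (v := v) 1
  norm_num at this
  exact this

lemma eqn {a2 a4 a6 x y : K} (h : (curve a2 a4 a6).Nonsingular x y) : y ^ 2 = ff a2 a4 a6 x := by
  have h1 := (WeierstrassCurve.Affine.equation_iff _ _).1 h.1
  unfold ff
  simp only [curve, zero_mul, add_zero] at h1
  exact h1

/-- points of `E_R` -/
lemma vy {R : ℝ} {a2 a4 a6 : K} (H : Ctx v R a2 a4 a6) {x y : K} (hx : R < v x)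
    (hy : y ^ 2 = ff a2 a4 a6 x) : v (ff a2 a4 a6 x) = v x ^ 3 ∧ v y ^ 2 = v x ^ 3 := by
  have h1 := H.one_le
  have hx0 : 0 < v x := by linarith
  have hna := H.na
  have hd : v (a2 * x ^ 2 + a4 * x + a6) < v (x ^ 3) := by
    have hX : v (x ^ 3) = v x ^ 3 := map_pow _ _ _
    rw [hX]
    have b1 : v (a2 * x ^ 2) < v x ^ 3 := by
      rw [map_mul, map_pow]
      calc v a2 * v x ^ 2 ≤ R * v x ^ 2 := by gcongr; exact H.h2
        _ < v x * v x ^ 2 := by gcongr
        _ = v x ^ 3 := by ring
    have b2 : v (a4 * x) < v x ^ 3 := by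
      rw [map_mul]
      calc v a4 * v x ≤ R ^ 2 * v x := by gcongr; exact H.h4
        _ < v x ^ 2 * v x := by gcongr
        _ = v x ^ 3 := by ring
    have b3 : v a6 < v x ^ 3 := H.h6.trans_lt (by gcongr)
    exact vadd_lt hna (vadd_lt hna b1 b2) b3
  have h3 : v (ff a2 a4 a6 x) = v x ^ 3 := by
    rw [ff, show x ^ 3 + a2 * x ^ 2 + a4 * x + a6 = x ^ 3 + (a2 * x ^ 2 + a4 * x + a6) by ring,
      vadd_eq hna hd, map_pow]
  refine ⟨h3, ?_⟩
  rw [← map_pow, hy, h3]

section

variable [DecidableEq K]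

lemma inE_neg {R : ℝ} {a2 a4 a6 : K} {P : (curve a2 a4 a6).Point} (h : InE v R P) :
    InE v R (-P) := by
  cases P with
  | zero => exact h
  | some x y hxy => exact h

lemma zz_neg {a2 a4 a6 : K} (P : (curve a2 a4 a6).Point) : zz (-P) = - zz P := by
  cases P with
  | zero =>
    show (0 : K) = - 0
    rw [neg_zero]
  | some x y hxy =>
    show x / (curve a2 a4 a6).negY x y = -(x / y)
    have : (curve a2 a4 a6).negY x y = -y := by
      simp [WeierstrassCurve.Affine.negY, curve]
    rw [this, div_neg]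

lemma zz_zero {a2 a4 a6 : K} : zz (0 : (curve a2 a4 a6).Point) = 0 := rfl

/-- size of the local parameter -/
lemma zz_sq {R : ℝ} {a2 a4 a6 : K} (H : Ctx v R a2 a4 a6) {P : (curve a2 a4 a6).Point}
    (hP : InE v R P) : R * v (zz P) ^ 2 < 1 ∧ (P ≠ 0 → 0 < v (zz P)) := by
  cases P with
  | zero =>
    refine ⟨?_, fun h => absurd rfl h⟩
    show R * v (0 : K) ^ 2 < 1
    rw [map_zero]
    norm_num
  | some x y hxy =>
    have hx : R < v x := hP
    have h1 := H.one_le
    have hx0 : 0 < v x := by linarith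
    have h2 := (vy H hx (eqn hxy)).2
    have hy0 : 0 < v y := by
      rcases (v.nonneg y).lt_or_eq with h | h
      · exact h
      · rw [← h] at h2
        have : 0 < v x ^ 3 := by positivity
        nlinarith
    have hz : v (zz (WeierstrassCurve.Affine.Point.some x y hxy)) = v x / v y := by
      show v (x / y) = _
      rw [map_div₀]
    rw [hz]
    refine ⟨?_, fun _ => by positivity⟩
    rw [div_pow, h2, ← mul_div_assoc, div_lt_one (by positivity)]
    calc R * v x ^ 2 < v x * v x ^ 2 := by gcongr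
      _ = v x ^ 3 := by ring

/-- the basic induction -/
lemma base (h1 : T_ADD.{u}) {R : ℝ} {a2 a4 a6 : K} (H : Ctx v R a2 a4 a6)
    {P : (curve a2 a4 a6).Point} (hP : InE v R P) (n : ℕ) :
    InE v R (n • P) ∧ v (zz (n • P)) ≤ v (zz P) ∧
      v (zz (n • P) - (n : K) * zz P) ≤ R * v (zz P) ^ 3 := by
  have hR := H.one_le
  have hz := (zz_sq H hP).1
  have hz0 := v.nonneg (zz P)
  have hR3 : R * v (zz P) ^ 3 ≤ v (zz P) := by
    have : R * v (zz P) ^ 3 = (R * v (zz P) ^ 2) * v (zz P) := by ring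
    rw [this]
    nlinarith
  have hR3' : 0 ≤ R * v (zz P) ^ 3 := by positivity
  induction n with
  | zero =>
    rw [zero_smul, zz_zero, Nat.cast_zero, zero_mul, sub_zero, map_zero]
    exact ⟨trivial, hz0, hR3'⟩
  | succ n ih =>
    obtain ⟨i1, i2, i3⟩ := ih
    rw [succ_nsmul]
    obtain ⟨j1, j2⟩ := h1 K v R a2 a4 a6 H (n • P) P i1 hP
    rw [max_eq_right i2] at j2
    refine ⟨j1, ?_, ?_⟩
    · have e : zz (n • P + P) = (zz (n • P + P) - zz (n • P) - zz P) + (zz (n • P) + zz P) := by
        ring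
      rw [e]
      exact vadd_le H.na (j2.trans hR3) (vadd_le H.na i2 le_rfl)
    · have e : zz (n • P + P) - ((n + 1 : ℕ) : K) * zz P =
          (zz (n • P + P) - zz (n • P) - zz P) + (zz (n • P) - (n : K) * zz P) := by
        push_cast
        ring
      rw [e]
      exact vadd_le H.na j2 i3

/-- duplication -/
lemma dbl [CharZero K] (h2 : T_DBL.{u}) {R : ℝ} {a2 a4 a6 : K} (H : Ctx v R a2 a4 a6)
    {P : (curve a2 a4 a6).Point} (hP : InE v R P) (hP0 : P ≠ 0) :
    v (zz (2 • P) - 2 * zz P) < v 2 * v (zz P) := by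
  cases P with
  | zero => exact absurd rfl hP0
  | some x y hxy =>
    have hx : R < v x := hP
    have hR := H.one_le
    have hx0 : 0 < v x := by linarith
    have hna := H.na
    have v2 := H.two
    have v20 : 0 < v 2 := v.pos (by norm_num)
    obtain ⟨hf, hy2⟩ := vy H hx (eqn hxy)
    have hy0 : 0 < v y := by
      rcases (v.nonneg y).lt_or_eq with h | h
      · exact h
      · rw [← h] at hy2
        have : 0 < v x ^ 3 := by positivity
        nlinarith
    have hyne : y ≠ 0 := fun h => by rw [h, map_zero] at hy0; exact lt_irrefl _ hy0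
    have hxne : x ≠ 0 := fun h => by rw [h, map_zero] at hx0; exact lt_irrefl _ hx0
    have hfd : v (fd a2 a4 x) = v x ^ 2 := by
      have e : fd a2 a4 x = 3 * x ^ 2 + (2 * a2 * x + a4) := by unfold fd; ring
      have hm : v (3 * x ^ 2) = v x ^ 2 := by
        rw [map_mul, map_pow, vthree hna v2, one_mul]
      rw [e, vadd_eq hna, hm]
      rw [hm]
      refine vadd_lt hna ?_ ?_
      · rw [map_mul, map_mul]
        calc v 2 * v a2 * v x ≤ 1 * R * v x := by
              gcongr
              exact H.h2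
          _ < v x * v x := by
              rw [one_mul]
              gcongr
          _ = v x ^ 2 := by ring
      · calc v a4 ≤ R ^ 2 := H.h4
          _ < v x ^ 2 := by gcongr
    have v4 : v (4 : K) = v 2 ^ 2 := by
      rw [← map_pow]
      norm_num
    have v4lt : v (4 : K) < 1 := by
      rw [v4]
      nlinarith
    have hcond : v (4 * ff a2 a4 a6 x) * max R (v x) < v (fd a2 a4 x) ^ 2 := by
      rw [map_mul, hf, hfd, max_eq_right hx.le]
      calc v 4 * v x ^ 3 * v x = v 4 * v x ^ 4 := by ring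
        _ < 1 * v x ^ 4 := by gcongr
        _ = (v x ^ 2) ^ 2 := by ring
    obtain ⟨-, h | h⟩ := h2 K v R a2 a4 a6 H x y hxy hcond
    · exact absurd h.1 hyne
    have hfdne : fd a2 a4 x ≠ 0 := fun h => by
      rw [h, map_zero] at hfd
      have : 0 < v x ^ 2 := by positivity
      linarith
    have hz : zz (WeierstrassCurve.Affine.Point.some x y hxy) = x / y := rfl
    -- v (2 y / fd) = v 2 * v (x / y)
    have hyz : v y / v x ^ 2 = v x / v y := by
      rw [div_eq_div_iff (by positivity) (by positivity)]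
      calc v y * v y = v y ^ 2 := by ring
        _ = v x ^ 3 := hy2
        _ = v x * v x ^ 2 := by ring
    have hv : v (2 * y / fd a2 a4 x) = v 2 * v (x / y) := by
      rw [map_div₀, map_mul, map_div₀, hfd, ← hyz]
      ring
    rw [hv] at h
    have hnum : v (4 * x ^ 3 + 3 * a2 * x ^ 2 + 2 * a4 * x + a6) < v x ^ 3 := by
      refine vadd_lt hna (vadd_lt hna (vadd_lt hna ?_ ?_) ?_) ?_
      · rw [map_mul, map_pow]
        calc v 4 * v x ^ 3 < 1 * v x ^ 3 := by gcongr
          _ = v x ^ 3 := one_mul _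
      · rw [map_mul, map_mul, map_pow, vthree hna v2, one_mul]
        calc v a2 * v x ^ 2 ≤ R * v x ^ 2 := by gcongr; exact H.h2
          _ < v x * v x ^ 2 := by gcongr
          _ = v x ^ 3 := by ring
      · rw [map_mul, map_mul]
        calc v 2 * v a4 * v x ≤ 1 * R ^ 2 * v x := by
              gcongr
              exact H.h4
          _ < v x ^ 2 * v x := by
              rw [one_mul]
              gcongr
          _ = v x ^ 3 := by ring
      · exact H.h6.trans_lt (by gcongr)
    have hdiff : v (y / fd a2 a4 x + x / y) < v (x / y) := by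
      have e : y / fd a2 a4 x + x / y =
          (4 * x ^ 3 + 3 * a2 * x ^ 2 + 2 * a4 * x + a6) / (y * fd a2 a4 x) := by
        rw [div_add_div _ _ hfdne hyne, mul_comm (fd a2 a4 x) y]
        congr 1
        have := eqn hxy
        have h3 : y * y = ff a2 a4 a6 x := by rw [← this]; ring
        rw [h3]
        unfold ff fd
        ring
      rw [e, map_div₀, map_mul, map_div₀, hfd, div_lt_div_iff₀ (by positivity) hy0]
      calc v (4 * x ^ 3 + 3 * a2 * x ^ 2 + 2 * a4 * x + a6) * v y < v x ^ 3 * v y := by gcongr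
        _ = v x * (v y * v x ^ 2) := by ring
    rw [hz]
    have e : zz (2 • WeierstrassCurve.Affine.Point.some x y hxy) - 2 * (x / y) =
        (zz (2 • WeierstrassCurve.Affine.Point.some x y hxy) + 2 * y / fd a2 a4 x) -
          2 * (y / fd a2 a4 x + x / y) := by
      ring
    rw [e]
    refine vsub_lt hna h ?_
    rw [map_mul]
    gcongr

lemma rel [CharZero K] (h1 : T_ADD.{u}) (h2 : T_DBL.{u}) {R : ℝ} {a2 a4 a6 : K}
    (H : Ctx v R a2 a4 a6) {P : (curve a2 a4 a6).Point} (hP : InE v R P) (hP0 : P ≠ 0) (n : ℕ)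
    (hn : n ≠ 0) : v (zz (n • P) - (n : K) * zz P) < v (n : K) * v (zz P) := by
  induction n using Nat.strong_induction_on with
  | _ n ih =>
    obtain ⟨hz, hzp⟩ := zz_sq H hP
    have hz0 := hzp hP0
    rcases Nat.even_or_odd' n with ⟨k, hk | hk⟩
    · subst hk
      have hk0 : k ≠ 0 := by omega
      have h3 := ih k (by omega) hk0
      have hkv : v (zz (k • P)) = v (k : K) * v (zz P) := by
        have e : zz (k • P) = (k : K) * zz P + (zz (k • P) - (k : K) * zz P) := by ring
        rw [e, vadd_eq H.na, map_mul]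
        rw [map_mul]
        exact h3
      have hkK : (k : K) ≠ 0 := by exact_mod_cast hk0
      have hkpos : 0 < v (k : K) := v.pos hkK
      have hkP0 : k • P ≠ 0 := by
        intro h0
        rw [h0, zz_zero, map_zero] at hkv
        have : 0 < v (k : K) * v (zz P) := by positivity
        linarith
      have h4 := dbl h2 H (base h1 H hP k).1 hkP0
      rw [hkv] at h4
      have e2 : (2 * k) • P = 2 • (k • P) := by rw [mul_smul]
      rw [e2]
      have e : zz (2 • (k • P)) - ((2 * k : ℕ) : K) * zz P =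
          (zz (2 • (k • P)) - 2 * zz (k • P)) + 2 * (zz (k • P) - (k : K) * zz P) := by
        push_cast
        ring
      have v20 : 0 < v (2 : K) := v.pos (by norm_num)
      rw [e, Nat.cast_mul, map_mul v ((2 : ℕ) : K), Nat.cast_ofNat, mul_assoc]
      refine vadd_lt H.na h4 ?_
      rw [map_mul]
      gcongr
    · subst hk
      rw [vodd H.na H.two k, one_mul]
      refine (base h1 H hP (2 * k + 1)).2.2.trans_lt ?_
      have : R * v (zz P) ^ 3 = (R * v (zz P) ^ 2) * v (zz P) := by ring
      rw [this]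
      nlinarith

end

end NSM_

open NSM_ in
theorem p_NSM (h1 : T_ADD.{u}) (h2 : T_DBL.{u}) : T_NSM.{u} := by
  intro K _ _ _ v R a2 a4 a6 H P hP
  refine ⟨fun n => (base h1 H hP n).1, fun n => ?_, fun n hn hP0 => rel h1 h2 H hP hP0 n hn⟩
  obtain ⟨m, rfl | rfl⟩ := n.eq_nat_or_neg
  · rw [natCast_zsmul, Int.cast_natCast]
    exact ⟨(base h1 H hP m).1, (base h1 H hP m).2.2⟩
  · rw [neg_smul, natCast_zsmul, Int.cast_neg, Int.cast_natCast, zz_neg]
    refine ⟨inE_neg (base h1 H hP m).1, ?_⟩
    have e : - zz (m • P) - -(m : K) * zz P = -(zz (m • P) - (m : K) * zz P) := by ring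
    rw [e, vneg]
    exact (base h1 H hP m).2.2

end RD
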