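import Pool.Agent.RD.Targets

set_option autoImplicit false

/-!
# CNJ: independence of the relation matrix for conjugate roots (MP_28d749_ag)
-/

namespace RD

universe u

namespace CNJ_

lemma irr {K : Type u} [Field K] [CharZero K] {t n : ℤ} {a : K} (htn : t ^ 2 < 4 * n)
    (ha : a ^ 2 = t * a - n) {A B : ℤ} (h : (A : K) + B * a = 0) : A = 0 ∧ B = 0 := by
  have h1 : (A : K) ^ 2 + t * A * B + n * B ^ 2 = 0 := by
    have h2 : (A : K) = -(B * a) := by linear_combination h
    rw [h2]
    linear_combination (B : K) ^ 2 * ha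
  have h2 : A ^ 2 + t * A * B + n * B ^ 2 = 0 := by exact_mod_cast h1
  have h3 : (2 * A + t * B) ^ 2 + (4 * n - t ^ 2) * B ^ 2 = 0 := by linear_combination 4 * h2
  have hB : B = 0 := by
    by_contra hB
    have h4 : 0 < B ^ 2 := by positivity
    nlinarith [sq_nonneg (2 * A + t * B), mul_pos (sub_pos.2 htn) h4]
  subst hB
  refine ⟨?_, rfl⟩
  have h5 : A ^ 2 = 0 := by linear_combination h2
  exact pow_eq_zero_iff (two_ne_zero) |>.1 h5

end CNJ_

open CNJ_ in
/-- CNJ. -/
theorem p_CNJ (h1 : T_QFD.{u}) : T_CNJ.{u} := by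
  intro K _ _ t n α a htn hα ha e g M N hli
  rw [Fintype.linearIndependent_iff] at hli ⊢
  intro φ hφ
  by_contra hne
  push Not at hne
  obtain ⟨k0, hk0⟩ := hne
  obtain ⟨l, hl⟩ : ∃ l : Module.Dual (IntermediateField.adjoin ℚ {a}) K, l (φ k0) ≠ 0 := by
    by_contra hcon
    push Not at hcon
    exact hk0 ((Module.forall_dual_apply_eq_zero_iff (IntermediateField.adjoin ℚ {a}) _).1 hcon)
  have haF : a ∈ IntermediateField.adjoin ℚ {a} := IntermediateField.mem_adjoin_simple_self ℚ a
  have hw : ∀ k i, (M k i : K) + (N k i : K) * a ∈ IntermediateField.adjoin ℚ {a} := by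
    intro k i
    refine add_mem (intCast_mem _ _) (mul_mem (intCast_mem _ _) haF)
  have hcoord : ∀ i, ∑ k, φ k * ((M k i : K) + (N k i : K) * a) = 0 := by
    intro i
    have h := congrFun hφ i
    simpa [Finset.sum_apply, smul_eq_mul] using h
  have hlin : ∀ i, ∑ k, ((l (φ k) : IntermediateField.adjoin ℚ {a}) : K) *
      ((M k i : K) + (N k i : K) * a) = 0 := by
    intro i
    have h := congrArg l (hcoord i)
    rw [map_sum, map_zero] at h
    have h2 : ∀ k, l (φ k * ((M k i : K) + (N k i : K) * a))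
        = (⟨(M k i : K) + (N k i : K) * a, hw k i⟩ : IntermediateField.adjoin ℚ {a}) * l (φ k) := by
      intro k
      have h3 : φ k * ((M k i : K) + (N k i : K) * a)
          = (⟨(M k i : K) + (N k i : K) * a, hw k i⟩ : IntermediateField.adjoin ℚ {a}) • φ k := by
        rw [IntermediateField.smul_def, smul_eq_mul]
        ring
      rw [h3, map_smul, smul_eq_mul]
    rw [Finset.sum_congr rfl fun k _ => h2 k] at h
    have h4 := congrArg (fun x : IntermediateField.adjoin ℚ {a} => (x : K)) h
    simp only [AddSubmonoidClass.coe_finsetSum, MulMemClass.coe_mul, ZeroMemClass.coe_zero] at h4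
    rw [← h4]
    exact Finset.sum_congr rfl fun k _ => mul_comm _ _
  choose q r s hq hqrs using fun k => h1 K a t n ha _ (l (φ k)).2
  set Q : Fin e → ℤ := fun k => ∏ j ∈ Finset.univ.erase k, q j with hQ
  have hQq : ∀ k, Q k * q k = ∏ j, q j := fun k =>
    Finset.prod_erase_mul _ _ (Finset.mem_univ k)
  have hQ0 : ∀ k, Q k ≠ 0 := fun k => Finset.prod_ne_zero_iff.2 fun j _ => hq j
  have hx : ∀ k, ((Q k * r k : ℤ) : K) + ((Q k * s k : ℤ) : K) * a
      = ((∏ j, q j : ℤ) : K) * ((l (φ k) : IntermediateField.adjoin ℚ {a}) : K) := by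
    intro k
    rw [← hQq k]
    push_cast
    linear_combination (-(Q k : K)) * hqrs k
  have hexp : ∀ (z : K), z ^ 2 = t * z - n → ∀ i,
      ∑ k, (((Q k * r k : ℤ) : K) + ((Q k * s k : ℤ) : K) * z) * ((M k i : K) + (N k i : K) * z)
      = ((∑ k, (Q k * r k * M k i - n * (Q k * s k) * N k i) : ℤ) : K) +
        ((∑ k, (Q k * r k * N k i + Q k * s k * M k i + t * (Q k * s k) * N k i) : ℤ) : K) * z := by
    intro z hz i
    push_cast
    rw [Finset.sum_mul, ← Finset.sum_add_distrib]
    refine Finset.sum_congr rfl fun k _ => ?_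
    linear_combination ((Q k : K) * s k * N k i) * hz
  have hzero : ∀ i, (∑ k, (Q k * r k * M k i - n * (Q k * s k) * N k i) = 0) ∧
      (∑ k, (Q k * r k * N k i + Q k * s k * M k i + t * (Q k * s k) * N k i) = 0) := by
    intro i
    apply irr htn ha
    rw [← hexp a ha i]
    rw [Finset.sum_congr rfl fun k _ => by rw [hx k, mul_assoc]]
    rw [← Finset.mul_sum, hlin i, mul_zero]
  have hfin := hli (fun k => ((Q k * r k : ℤ) : K) + ((Q k * s k : ℤ) : K) * α) (by
    funext i
    rw [Finset.sum_apply, Pi.zero_apply]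
    have h := hexp α hα i
    rw [(hzero i).1, (hzero i).2] at h
    simp only [Int.cast_zero, zero_mul, add_zero] at h
    rw [← h]
    exact Finset.sum_congr rfl fun k _ => rfl)
  obtain ⟨hr0, hs0⟩ := irr htn hα (hfin k0)
  have h6 := hx k0
  rw [hr0, hs0] at h6
  simp only [Int.cast_zero, zero_mul, add_zero] at h6
  rcases mul_eq_zero.1 h6.symm with h | h
  · have h7 : (∏ j, q j : ℤ) = 0 := by exact_mod_cast h
    exact (Finset.prod_ne_zero_iff.2 fun j _ => hq j) h7
  · exact hl (by exact_mod_cast h)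

end RD
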