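import Mathlib
import Pool.Agent.RD.Targets

/-!
LOC: the local statement for integral and for complex multiplication relations.
-/

namespace RD

open MvPolynomial WeierstrassCurve.Affine

universe u

namespace LOC_

variable {K : Type u} [Field K] [CharZero K]

lemma form_zero {t n : ℤ} (htn : t ^ 2 < 4 * n) {a : K} (ha : a ^ 2 = t * a - n) {r s : ℤ}
    (h : (r : K) + s * a = 0) : r = 0 ∧ s = 0 := by
  have h1 : ((r ^ 2 + t * r * s + n * s ^ 2 : ℤ) : K) = 0 := by
    have hr : (r : K) = - (s * a) := by linear_combination h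
    push_cast
    rw [hr]
    linear_combination (s : K) ^ 2 * ha
  have h2 : r ^ 2 + t * r * s + n * s ^ 2 = 0 := by exact_mod_cast h1
  have h3 : (2 * r + t * s) ^ 2 + (4 * n - t ^ 2) * s ^ 2 = 0 := by linear_combination 4 * h2
  have hs : s = 0 := by
    by_contra hs
    have h4 : 0 < s ^ 2 := by positivity
    nlinarith [sq_nonneg (2 * r + t * s)]
  subst hs
  refine ⟨?_, rfl⟩
  have h5 : r ^ 2 = 0 := by linear_combination h2
  exact pow_eq_zero_iff (two_ne_zero) |>.1 h5

end LOC_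

theorem p_LOC (h1 : T_LOCU.{u}) (h2 : T_END.{u}) (h3 : T_QUA.{u}) (h4 : T_CNJ.{u})
    (h5 : T_ZLI.{u}) : T_LOC.{u} := by
  intro K _ _ _ v R a2 a4 a6 hctx g e P hrel D G Γ hΓ hD
  rcases hrel with ⟨M, hM, htor⟩ | ⟨ω, t, n, α, M, N, halg, htn, hω, hα, hLI, htor⟩
  · refine h1 K v R a2 a4 a6 hctx 0 0 0 0 R 0 le_rfl le_rfl (by simp) (fun Q => by simp) ?_ ?_
      g e P M (fun _ _ => 0) ?_ ?_ D G Γ hΓ hD
    · intro Q _ _
      refine ⟨trivial, ?_⟩
      have hz : zz ((0 : (curve a2 a4 a6).Point →+ (curve a2 a4 a6).Point) Q) = 0 := rfl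
      rw [hz]
      simp
    · intro r s hrs Q
      have hr : (r : K) = 0 := by simpa using hrs
      have hr' : r = 0 := by exact_mod_cast hr
      rw [hr']
      simp
    · have h := h5 K e g M hM
      simpa using h
    · intro k
      have h := htor k
      simpa using h
  · by_cases hex : ∃ Q : (curve a2 a4 a6).Point, Q ≠ 0 ∧ InE v R Q
    · obtain ⟨a, B, C, ha0, hB, hC, hest⟩ := h2 K v R a2 a4 a6 hctx ω halg hex
      have ha := h3 K v R a2 a4 a6 hctx ω t n hω hex a B C ha0 hB hC hest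
      refine h1 K v R a2 a4 a6 hctx ω a t n B C hB hC ha hω
        (fun Q hQ hQB => ⟨(hest Q hQ hQB).1, (hest Q hQ hQB).2.2⟩) ?_ g e P M N
        (h4 K t n α a htn hα ha e g M N hLI) htor D G Γ hΓ hD
      intro r s hrs Q
      obtain ⟨hr, hs⟩ := LOC_.form_zero htn ha hrs
      rw [hr, hs, zero_smul, zero_smul, add_zero]
    · refine h1 K v R a2 a4 a6 hctx ω α t n R 0 le_rfl le_rfl hα hω
        (fun Q hQ hQB => (hex ⟨Q, hQ, hQB⟩).elim) ?_ g e P M N hLI htor D G Γ hΓ hD
      intro r s hrs Q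
      obtain ⟨hr, hs⟩ := LOC_.form_zero htn hα hrs
      rw [hr, hs, zero_smul, zero_smul, add_zero]

end RD
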