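import Mathlib
import Pool.Agent.RD.Targets

/-!
LOCU: many independent relations give a pivot system of congruences.
-/

namespace RD

open MvPolynomial WeierstrassCurve.Affine

universe u

namespace LOCU_

/-- clearing denominators of finitely many elements of the field generated by `a` -/
theorem common {K : Type u} [Field K] [CharZero K] (hQ : T_QFD.{u}) (a : K) (t n : ℤ)
    (ha : a ^ 2 = t * a - n) (e : ℕ) (φ : Fin e → IntermediateField.adjoin ℚ {a}) :
    ∃ (q : ℤ) (U V : Fin e → ℤ), q ≠ 0 ∧ ∀ k, (q : K) * (φ k : K) = U k + V k * a := by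
  have h := fun k => hQ K a t n ha (φ k : K) (φ k).2
  choose q r s hq hqr using h
  refine ⟨∏ k, q k, fun k => (∏ l ∈ Finset.univ.erase k, q l) * r k,
    fun k => (∏ l ∈ Finset.univ.erase k, q l) * s k, ?_, ?_⟩
  · exact Finset.prod_ne_zero_iff.2 fun k _ => hq k
  · intro k
    have h1 : (∏ l, q l) = q k * ∏ l ∈ Finset.univ.erase k, q l :=
      (Finset.mul_prod_erase _ _ (Finset.mem_univ k)).symm
    rw [h1]
    have h2 := hqr k
    push_cast
    calc (q k : K) * (∏ l ∈ Finset.univ.erase k, (q l : K)) * (φ k : K)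
        = (∏ l ∈ Finset.univ.erase k, (q l : K)) * ((q k : K) * (φ k : K)) := by ring
      _ = _ := by rw [h2]; ring

/-- a sum of multiples of torsion elements is torsion -/
theorem torsion_sum {A : Type*} [AddCommGroup A] (ω : A →+ A) (e : ℕ) (X : Fin e → A)
    (hX : ∀ k, IsOfFinAddOrder (X k)) (U V : Fin e → ℤ) :
    IsOfFinAddOrder (∑ k, (U k • X k + V k • ω (X k))) := by
  have hmem : ∀ x : A, IsOfFinAddOrder x ↔ x ∈ AddCommGroup.torsion A := by
    intro x; rfl
  rw [hmem]
  refine sum_mem fun k _ => add_mem (zsmul_mem ((hmem _).1 (hX k)) _) (zsmul_mem ?_ _)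
  exact (hmem _).1 (AddMonoidHom.isOfFinAddOrder ω (hX k))

/-- the combined relation -/
theorem combine {A : Type*} [AddCommGroup A] (ω : A →+ A) (t n : ℤ)
    (hω : ∀ Q, ω (ω Q) = t • ω Q - n • Q) (g e : ℕ) (P : Fin g → A) (M N : Fin e → Fin g → ℤ)
    (U V : Fin e → ℤ) :
    ∑ i, ((∑ k, (U k * M k i - n * (V k * N k i))) • P i +
        (∑ k, (U k * N k i + V k * M k i + t * (V k * N k i))) • ω (P i)) =
      ∑ k, (U k • (∑ i, (M k i • P i + N k i • ω (P i))) +
        V k • ω (∑ i, (M k i • P i + N k i • ω (P i)))) := by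
  have h1 : ∀ k, U k • (∑ i, (M k i • P i + N k i • ω (P i))) +
        V k • ω (∑ i, (M k i • P i + N k i • ω (P i))) =
      ∑ i, ((U k * M k i - n * (V k * N k i)) • P i +
        (U k * N k i + V k * M k i + t * (V k * N k i)) • ω (P i)) := by
    intro k
    rw [map_sum, Finset.smul_sum, Finset.smul_sum, ← Finset.sum_add_distrib]
    refine Finset.sum_congr rfl fun i _ => ?_
    rw [map_add, map_zsmul, map_zsmul, hω]
    module
  simp_rw [h1]
  rw [Finset.sum_comm]
  refine Finset.sum_congr rfl fun i _ => ?_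
  rw [Finset.sum_smul, Finset.sum_smul, ← Finset.sum_add_distrib]

end LOCU_

open LOCU_ in
theorem p_LOCU (h1 : T_LEM.{u}) (h2 : T_PIV.{u}) (h3 : T_DIM.{u}) (h4 : T_RES.{u})
    (h5 : T_QFD.{u}) : T_LOCU.{u} := by
  intro K _ _ _ v R a2 a4 a6 hctx ω a t n B C hRB hC0 ha hω hest hker g e P M N hind htor D G Γ hΓ
    hG
  -- the field generated by a
  set F := IntermediateField.adjoin ℚ {a} with hF
  have haF : a ∈ F := IntermediateField.mem_adjoin_simple_self ℚ a
  let aF : F := ⟨a, haF⟩
  let row : Fin e → (Fin g → F) := fun k i => (M k i : F) + (N k i : F) * aF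
  have hrow : ∀ k i, ((row k i : F) : K) = (M k i : K) + (N k i : K) * a := by
    intro k i
    simp [row, aF]
  let f : (Fin g → F) →ₗ[F] (Fin g → K) :=
    LinearMap.pi fun i => (Algebra.linearMap F K).comp (LinearMap.proj i)
  have hindF : LinearIndependent F row := by
    have hK : LinearIndependent F (fun (k : Fin e) (i : Fin g) => (M k i : K) + (N k i : K) * a) :=
      hind.restrict_scalars (by
        intro x y hxy
        have : ((x : F) : K) * 1 = ((y : F) : K) * 1 := by
          simpa [Algebra.smul_def] using hxy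
        exact Subtype.ext (by simpa using this))
    have hcomp : (fun (k : Fin e) (i : Fin g) => (M k i : K) + (N k i : K) * a) = f ∘ row := by
      funext k i
      simp only [Function.comp, f, LinearMap.pi_apply, LinearMap.comp_apply, LinearMap.proj_apply,
        Algebra.linearMap_apply]
      exact (hrow k i).symm
    rw [hcomp] at hK
    exact LinearIndependent.of_comp f hK
  let U : Submodule F (Fin g → F) := Submodule.span F (Set.range row)
  have hU : Module.finrank F U = e := by
    simpa using finrank_span_eq_card hindF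
  let UD : Submodule F (Fin g → F) :=
    U ⊓ (⨅ i ∈ D, LinearMap.ker (LinearMap.proj i : (Fin g → F) →ₗ[F] F))
  have hdim : Module.finrank F U ≤ Module.finrank F UD + D.card := h3 F g U D
  obtain ⟨J, τ, hJ, hτ⟩ := h2 F (fun x => v (x : K)) (by simp)
    (by
      intro x hx
      exact v.pos (by simpa using hx))
    (by intro x y; simp) (by intro x y; simpa using hctx.na (x : K) (y : K)) g UD
  have hzero : ∀ j ∈ J, ∀ i ∈ D, τ j i = 0 := by
    intro j hj i hi
    have h := (hτ j hj).1.2
    simp only [Submodule.mem_iInf, LinearMap.mem_ker, LinearMap.proj_apply, SetLike.mem_coe] at h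
    exact h i hi
  have hdisj : Disjoint J D := by
    rw [Finset.disjoint_left]
    intro j hj hjD
    have e1 := hzero j hj j hjD
    rw [(hτ j hj).2.1] at e1
    exact one_ne_zero e1
  have hv0 : 0 < v 2 := v.pos two_ne_zero
  have hv2 : v 2 < 1 := hctx.two
  -- integral relations
  have hrel : ∀ j ∈ J, ∃ (q : ℤ) (M' N' : Fin g → ℤ), q ≠ 0 ∧
      (∀ i, (q : K) * (τ j i : K) = M' i + N' i * a) ∧
      IsOfFinAddOrder (∑ i, (M' i • P i + N' i • ω (P i))) := by
    intro j hj
    have hmem : τ j ∈ U := (hτ j hj).1.1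
    obtain ⟨φ, hφ⟩ := (Submodule.mem_span_range_iff_exists_fun F).1 hmem
    obtain ⟨q, A, A', hq, hqA⟩ := common h5 a t n ha e φ
    refine ⟨q, fun i => ∑ k, (A k * M k i - n * (A' k * N k i)),
      fun i => ∑ k, (A k * N k i + A' k * M k i + t * (A' k * N k i)), hq, ?_, ?_⟩
    · intro i
      have e1 : (τ j i : K) = ∑ k, (φ k : K) * ((M k i : K) + (N k i : K) * a) := by
        rw [← hφ]
        simp only [Finset.sum_apply, Pi.smul_apply, smul_eq_mul]
        push_cast
        refine Finset.sum_congr rfl fun k _ => ?_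
        rw [hrow]
      rw [e1, Finset.mul_sum]
      push_cast
      rw [Finset.sum_mul, ← Finset.sum_add_distrib]
      refine Finset.sum_congr rfl fun k _ => ?_
      have e2 := hqA k
      calc (q : K) * ((φ k : K) * ((M k i : K) + (N k i : K) * a))
          = ((q : K) * (φ k : K)) * ((M k i : K) + (N k i : K) * a) := by ring
        _ = ((A k : K) + A' k * a) * ((M k i : K) + (N k i : K) * a) := by rw [e2]
        _ = (A k : K) * M k i + (A k * N k i + A' k * M k i) * a + A' k * N k i * a ^ 2 := by ring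
        _ = _ := by rw [ha]; ring
    · rw [combine ω t n hω]
      exact torsion_sum ω e _ htor A A'
  -- the congruences
  have hcong : ∀ j ∈ J, v (∑ i ∈ Dᶜ, (τ j i : K) ^ 2 * G i) < Γ := by
    intro j hj
    obtain ⟨q, M', N', hq, hqτ, hfin⟩ := hrel j hj
    have hvq : 0 < v (q : K) := v.pos (by exact_mod_cast hq)
    have hfin' : IsOfFinAddOrder (∑ i ∈ Dᶜ, (M' i • P i + N' i • ω (P i))) := by
      have e1 : ∑ i, (M' i • P i + N' i • ω (P i)) =
          ∑ i ∈ Dᶜ, (M' i • P i + N' i • ω (P i)) := by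
        symm
        refine Finset.sum_subset (Finset.subset_univ _) fun i _ hi => ?_
        have hiD : i ∈ D := by simpa using hi
        refine hker _ _ ?_ _
        rw [← hqτ i, hzero j hj i hiD]
        simp
      rwa [e1] at hfin
    have hL := h1 K v R a2 a4 a6 hctx ω a B C hRB hC0 hest g P Dᶜ M' N' G Γ (v (q : K)) hΓ hvq
      (fun i hi => hG i (by simpa using hi))
      (fun i _ => by
        rw [← hqτ i, map_mul]
        exact mul_le_of_le_one_right hvq.le ((hτ j hj).2.2.2 i)) hfin'
    have e2 : ∑ i ∈ Dᶜ, ((M' i : K) + (N' i : K) * a) ^ 2 * G i =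
        (q : K) ^ 2 * ∑ i ∈ Dᶜ, (τ j i : K) ^ 2 * G i := by
      rw [Finset.mul_sum]
      refine Finset.sum_congr rfl fun i _ => ?_
      rw [← hqτ i]; ring
    rw [e2, map_mul, map_pow] at hL
    exact lt_of_mul_lt_mul_left hL (by positivity)
  refine ⟨J, fun j i => -(τ j i : K) ^ 2, hdisj, ?_, ?_, ?_⟩
  · rw [hJ, ← hU]; exact hdim
  · intro j hj i
    have hle : v (τ j i : K) ≤ 1 := (hτ j hj).2.2.2 i
    obtain ⟨q, M', N', hq, hqτ, -⟩ := hrel j hj
    have hres := h4 K v hctx.na hctx.two a (τ j i : K) t n q (M' i) (N' i) ha hq (hqτ i) hle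
    have hsq : v ((τ j i : K) ^ 2) ≤ 1 := by
      rw [map_pow]; exact pow_le_one₀ (v.nonneg _) hle
    refine ⟨by rw [AbsoluteValue.map_neg]; exact hsq, ?_⟩
    have e1 : (-(τ j i : K) ^ 2) ^ 4 - -(τ j i : K) ^ 2 =
        ((τ j i : K) ^ 4 - τ j i) * ((τ j i : K) ^ 4 + τ j i) + 2 * (τ j i : K) ^ 2 := by ring
    rw [e1]
    refine lt_of_le_of_lt (hctx.na _ _) (max_lt ?_ ?_)
    · rw [map_mul]
      have h6 : v ((τ j i : K) ^ 4 + τ j i) ≤ 1 := by
        refine (hctx.na _ _).trans (max_le ?_ hle)
        rw [map_pow]; exact pow_le_one₀ (v.nonneg _) hle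
      exact lt_of_le_of_lt (mul_le_of_le_one_right (v.nonneg _) h6) hres
    · rw [map_mul]
      exact lt_of_le_of_lt (mul_le_of_le_one_right hv0.le hsq) hv2
  · intro j hj
    have h6 := hcong j hj
    have hsplit : ∑ i ∈ Dᶜ, (τ j i : K) ^ 2 * G i =
        G j - ∑ i ∈ (J ∪ D)ᶜ, -(τ j i : K) ^ 2 * G i := by
      have hun : Dᶜ = J ∪ (J ∪ D)ᶜ := by
        ext i
        have hd : i ∈ J → i ∉ D := fun h => Finset.disjoint_left.1 hdisj h
        simp only [Finset.mem_compl, Finset.mem_union, not_or]
        tauto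
      have hdj : Disjoint J (J ∪ D)ᶜ := by
        rw [Finset.disjoint_left]
        intro i hi hi'
        simp only [Finset.mem_compl, Finset.mem_union, not_or] at hi'
        exact hi'.1 hi
      rw [hun, Finset.sum_union hdj, Finset.sum_eq_single_of_mem j hj]
      · rw [(hτ j hj).2.1]
        simp only [neg_mul, Finset.sum_neg_distrib]
        simp
      · intro i hi hij
        rw [(hτ j hj).2.2.1 i hi hij]
        simp
    rw [← hsplit]
    exact h6

end RD
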