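import Mathlib
import Pool.Agent.RD.Targets

set_option autoImplicit false

/-! RD-ZLI: integral vectors which are independent over ℤ are independent over K. -/

namespace RD

universe u

theorem p_ZLI : T_ZLI.{u} := by
  intro K _ _ e g M hM
  have h1 : LinearIndependent ℤ (fun (k : Fin e) (i : Fin g) => (M k i : ℚ)) := by
    have h := hM.map' (LinearMap.compLeft (Algebra.linearMap ℤ ℚ) (Fin g)) (by
      rw [LinearMap.ker_eq_bot]
      intro x y hxy
      funext i
      have h2 := congrFun hxy i
      simpa using h2)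
    exact h
  have h2 : LinearIndependent ℚ (fun (k : Fin e) (i : Fin g) => (M k i : ℚ)) :=
    (LinearIndependent.iff_fractionRing ℤ ℚ).1 h1
  rw [Fintype.linearIndependent_iff] at h2 ⊢
  intro φ hφ k0
  by_contra h0
  obtain ⟨f, hf⟩ : ∃ f : Module.Dual ℚ K, f (φ k0) ≠ 0 := by
    by_contra hcon
    push Not at hcon
    exact h0 ((Module.forall_dual_apply_eq_zero_iff ℚ (φ k0)).1 hcon)
  apply hf
  apply h2 (fun k => f (φ k)) ?_ k0
  funext i
  have h3 := congrArg f (congrFun hφ i)
  simp only [Finset.sum_apply, Pi.smul_apply, smul_eq_mul, Pi.zero_apply, map_sum, map_zero]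
    at h3 ⊢
  rw [← h3]
  apply Finset.sum_congr rfl
  intro k _
  rw [mul_comm (φ k), ← zsmul_eq_mul, map_zsmul, zsmul_eq_mul, mul_comm]

end RD
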