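import Pool.Agent.RD.Targets

set_option autoImplicit false

/-!
Elimination by a prime ideal.
-/

namespace RD

open MvPolynomial

universe u

namespace ELM_

variable {k : Type u} [Field k] {ι κ : Type}

/-- the nonzero polynomials in the first group of variables -/
noncomputable def M (k : Type u) [Field k] (ι κ : Type) : Submonoid (MvPolynomial (ι ⊕ κ) k) :=
  (nonZeroDivisors (MvPolynomial ι k)).map
    ((rename Sum.inl : MvPolynomial ι k →ₐ[k] MvPolynomial (ι ⊕ κ) k) :
      MvPolynomial ι k →* MvPolynomial (ι ⊕ κ) k)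

theorem mem_M {Φ : MvPolynomial ι k} (h : Φ ≠ 0) :
    (rename Sum.inl Φ : MvPolynomial (ι ⊕ κ) k) ∈ M k ι κ :=
  ⟨Φ, mem_nonZeroDivisors_of_ne_zero h, rfl⟩

theorem exists_of_mem {f : MvPolynomial (ι ⊕ κ) k} (h : f ∈ M k ι κ) :
    ∃ Φ : MvPolynomial ι k, Φ ≠ 0 ∧ rename Sum.inl Φ = f := by
  obtain ⟨Φ, h1, h2⟩ := h
  exact ⟨Φ, nonZeroDivisors.ne_zero h1, h2⟩

end ELM_

open ELM_ in
theorem p_ELM : T_ELM.{u} := by
  intro k _ ι κ _ sys hsys
  by_cases hdis : Disjoint (Ideal.span sys : Set (MvPolynomial (ι ⊕ κ) k)) (M k ι κ)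
  · exfalso
    obtain ⟨p, hp, hle, hpM⟩ := Ideal.exists_le_prime_disjoint (Ideal.span sys) (M k ι κ) hdis
    set A := MvPolynomial (ι ⊕ κ) k ⧸ p with hA
    have key : ∀ f : MvPolynomial (ι ⊕ κ) k,
        aeval (fun s => algebraMap A (FractionRing A) (Ideal.Quotient.mk p (X s))) f =
          algebraMap A (FractionRing A) (Ideal.Quotient.mk p f) := by
      intro f
      have h1 : (aeval (fun s => algebraMap A (FractionRing A) (Ideal.Quotient.mk p (X s))) :
          MvPolynomial (ι ⊕ κ) k →ₐ[k] FractionRing A) =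
          (IsScalarTower.toAlgHom k A (FractionRing A)).comp (Ideal.Quotient.mkₐ k p) := by
        apply MvPolynomial.algHom_ext
        intro s
        rw [aeval_X]
        rfl
      exact congrArg (fun g : MvPolynomial (ι ⊕ κ) k →ₐ[k] FractionRing A => g f) h1
    have hinj : Function.Injective (algebraMap A (FractionRing A)) :=
      IsFractionRing.injective A (FractionRing A)
    obtain ⟨f, hf, hne⟩ := hsys (FractionRing A)
      (fun i => algebraMap A (FractionRing A) (Ideal.Quotient.mk p (X (Sum.inl i))))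
      (fun j => algebraMap A (FractionRing A) (Ideal.Quotient.mk p (X (Sum.inr j)))) (by
        rw [algebraicIndependent_iff]
        intro Φ hΦ
        by_contra hΦ0
        have h1 := key (rename Sum.inl Φ)
        rw [aeval_rename] at h1
        have h2 : algebraMap A (FractionRing A) (Ideal.Quotient.mk p (rename Sum.inl Φ)) = 0 := by
          rw [← h1]
          exact hΦ
        have h3 : Ideal.Quotient.mk p (rename Sum.inl Φ) = 0 := by
          apply hinj
          rw [h2, map_zero]
        rw [Ideal.Quotient.eq_zero_iff_mem] at h3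
        exact Set.disjoint_left.1 hpM h3 (mem_M hΦ0))
    apply hne
    have h1 := key f
    have h2 : (Sum.elim
        (fun i => algebraMap A (FractionRing A) (Ideal.Quotient.mk p (X (Sum.inl i))))
        (fun j => algebraMap A (FractionRing A) (Ideal.Quotient.mk p (X (Sum.inr j)))) :
        ι ⊕ κ → FractionRing A) =
        fun s => algebraMap A (FractionRing A) (Ideal.Quotient.mk p (X s)) := by
      funext s
      rcases s with i | j <;> rfl
    rw [h2, h1, Ideal.Quotient.eq_zero_iff_mem.2 (hle (Ideal.subset_span hf)), map_zero]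
  · rw [Set.not_disjoint_iff] at hdis
    obtain ⟨f, hfI, hfM⟩ := hdis
    obtain ⟨Φ, hΦ, rfl⟩ := exists_of_mem hfM
    refine ⟨Φ, hΦ, fun c hc y => ?_⟩
    by_contra hcon
    push Not at hcon
    apply hc
    have h1 : Ideal.span sys ≤ RingHom.ker (eval (Sum.elim c y)) :=
      Ideal.span_le.2 fun g hg => hcon g hg
    have h2 := h1 hfI
    rw [RingHom.mem_ker, eval_rename] at h2
    exact h2

end RD
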