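import Pool.Agent.RD.Targets

namespace RD

universe u

theorem TRD_alg_iff {k L : Type u} [Field k] [Field L] [Algebra k L] (S : Set L) (a : L) :
    IsAlgebraic (IntermediateField.adjoin k S) a ↔ a ∈ (AlgebraicIndependent.matroid k L).closure S := by
  rw [AlgebraicIndependent.matroid_closure_eq]
  rw [SetLike.mem_coe, Subalgebra.mem_algebraicClosure]
  open IntermediateField.algebraAdjoinAdjoin in
  exact (IsFractionRing.isAlgebraic_iff (Algebra.adjoin k S) (IntermediateField.adjoin k S) L).symm

theorem p_TRD : T_TRD.{u} := by
  intro k L _ _ _ ι _ _ c hc d p B hB hall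
  set M := AlgebraicIndependent.matroid k L with hM
  set S : Set L := Set.range p ∪ c '' {w | w ∉ B} with hS
  have h1 : Set.range c ⊆ M.closure S := by
    rintro _ ⟨u, rfl⟩
    by_cases hu : u ∈ B
    · exact (TRD_alg_iff S (c u)).1 (hall u hu)
    · exact M.mem_closure_of_mem' (Or.inr ⟨u, hu, rfl⟩) (by simp [hM])
  have h2 : M.eRk (Set.range c) ≤ M.eRk S := by
    rw [← M.eRk_closure_eq S]
    exact M.eRk_mono h1
  have h3 : M.Indep (Set.range c) := by
    rw [hM, AlgebraicIndependent.matroid_indep_iff]
    exact hc.coe_range
  rw [h3.eRk_eq_encard] at h2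
  have h4 : S.encard ≤ d + (Finset.univ.filter (fun w => w ∉ B)).card := by
    refine (Set.encard_union_le _ _).trans ?_
    refine add_le_add ?_ ?_
    · rw [← Set.image_univ]
      refine (Set.encard_image_le _ _).trans ?_
      simp
    · refine (Set.encard_image_le _ _).trans ?_
      have : {w | w ∉ B} = ((Finset.univ.filter (fun w => w ∉ B) : Finset ι) : Set ι) := by
        ext w; simp
      rw [this, Set.encard_coe_eq_coe_finsetCard]
  have h5 : (Set.range c).encard = Fintype.card ι := by
    rw [← Set.image_univ, hc.injective.encard_image, Set.encard_univ]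
    simp
  rw [h5] at h2
  have h6 := h2.trans ((M.eRk_le_encard S).trans h4)
  have h7 : Fintype.card ι ≤ d + (Finset.univ.filter (fun w => w ∉ B)).card := by exact_mod_cast h6
  have h8 : B.card + (Finset.univ.filter (fun w => w ∉ B)).card = Fintype.card ι := by
    have := Finset.card_filter_add_card_filter_not (s := (Finset.univ : Finset ι)) (fun w => w ∈ B)
    simpa using this
  omega

end RD
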