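import Pool.Agent.RD.Targets

set_option autoImplicit false

/-!
# The stratum at infinity (T_INF)
-/

namespace RD

open MvPolynomial WeierstrassCurve.Affine

universe u

namespace INF_

variable {K : Type u} [Field K] {v : AbsoluteValue K ℝ}

theorem sum_le (hna : IsNonarchimedean v) {ι : Type*} (S : Finset ι) (f : ι → K) (C : ℝ)
    (hC : 0 ≤ C) (h : ∀ i ∈ S, v (f i) ≤ C) : v (∑ i ∈ S, f i) ≤ C := by
  classical
  induction S using Finset.induction_on with
  | empty => simpa using hC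
  | insert a S ha ih =>
    rw [Finset.sum_insert ha]
    exact (hna _ _).trans (max_le (h a (Finset.mem_insert_self a S))
      (ih fun i hi => h i (Finset.mem_insert_of_mem hi)))

theorem sum_lt (hna : IsNonarchimedean v) {ι : Type*} (S : Finset ι) (f : ι → K) (C : ℝ)
    (hC : 0 < C) (h : ∀ i ∈ S, v (f i) < C) : v (∑ i ∈ S, f i) < C := by
  classical
  induction S using Finset.induction_on with
  | empty => simpa using hC
  | insert a S ha ih =>
    rw [Finset.sum_insert ha]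
    exact (hna _ _).trans_lt (max_lt (h a (Finset.mem_insert_self a S))
      (ih fun i hi => h i (Finset.mem_insert_of_mem hi)))

theorem add_lt (hna : IsNonarchimedean v) {a b : K} {C : ℝ} (ha : v a < C) (hb : v b < C) :
    v (a + b) < C := (hna _ _).trans_lt (max_lt ha hb)

theorem sub_lt (hna : IsNonarchimedean v) {a b : K} {C : ℝ} (ha : v a < C) (hb : v b < C) :
    v (a - b) < C := by
  rw [sub_eq_add_neg]
  exact add_lt hna ha (by rwa [v.map_neg])

theorem eq_of_sub_lt (hna : IsNonarchimedean v) {a b : K} (h : v (a - b) < v b) : v a = v b := by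
  refine le_antisymm ?_ ?_
  · have := hna (a - b) b
    rw [sub_add_cancel] at this
    exact this.trans (max_le h.le le_rfl)
  · by_contra hlt
    push Not at hlt
    have h1 : v (a - (a - b)) < v b := sub_lt hna hlt h
    rw [sub_sub_cancel] at h1
    exact lt_irrefl _ h1

theorem eval_le (hna : IsNonarchimedean v) {d : ℕ} (A : MvPolynomial (Fin d) K) (n : ℕ)
    (hA : ∀ s, v (A.coeff s) ≤ 1) (hdeg : A.totalDegree ≤ n) (p : Fin d → K) (V : ℝ)
    (hV : 1 ≤ V) (hp : ∀ j, v (p j) ≤ V) : v (eval p A) ≤ V ^ n := by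
  rw [MvPolynomial.eval_eq']
  refine sum_le hna _ _ _ (by positivity) fun s hs => ?_
  rw [map_mul, map_prod]
  have h1 : ∏ i, v (p i ^ s i) ≤ V ^ n := by
    calc ∏ i, v (p i ^ s i) ≤ ∏ i, V ^ s i := by
          refine Finset.prod_le_prod (fun i _ => v.nonneg _) fun i _ => ?_
          rw [map_pow]
          exact pow_le_pow_left₀ (v.nonneg _) (hp i) _
      _ = V ^ (∑ i, s i) := by rw [Finset.prod_pow_eq_pow_sum]
      _ ≤ V ^ n := by
          refine pow_le_pow_right₀ hV ?_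
          have h2 := MvPolynomial.le_totalDegree hs
          rw [Finsupp.sum_fintype _ _ (fun _ => rfl)] at h2
          exact h2.trans hdeg
  calc v (A.coeff s) * ∏ i, v (p i ^ s i) ≤ 1 * V ^ n :=
        mul_le_mul (hA s) h1 (Finset.prod_nonneg fun i _ => v.nonneg _) zero_le_one
    _ = V ^ n := one_mul _

theorem topVal_map {A B : Type*} [CommSemiring A] [CommSemiring B] (f : A →+* B) {d D : ℕ}
    (c : Mon d D → A) (p : Fin d → A) :
    f (topVal c p) = topVal (fun α => f (c α)) (fun j => f (p j)) := by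
  unfold topVal
  rw [map_sum]
  refine Finset.sum_congr rfl fun α _ => ?_
  split_ifs
  · rw [map_mul, map_prod]
    simp only [map_pow]
  · exact map_zero f

theorem poly_top (hna : IsNonarchimedean v) {d D : ℕ} (c : Mon d D → K) (p p' : Fin d → K)
    (s : K) (hs : 1 < v s) (hc : ∀ α, v (c α) ≤ 1) (hp : ∀ j, p j = s * p' j)
    (hp' : ∀ j, v (p' j) ≤ 1) :
    v (polyVal c p / s ^ D - topVal c p') ≤ (v s)⁻¹ := by
  unfold polyVal topVal
  rw [Finset.sum_div, ← Finset.sum_sub_distrib]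
  have hs0 : s ≠ 0 := by
    rintro rfl
    rw [map_zero] at hs
    linarith
  have hV : 0 < v s := by linarith
  refine sum_le hna _ _ _ (inv_nonneg.2 hV.le) fun α _ => ?_
  have h1 : ∏ j, p j ^ (α.1 j : ℕ) = s ^ (∑ j, (α.1 j : ℕ)) * ∏ j, p' j ^ (α.1 j : ℕ) := by
    simp only [hp, mul_pow, Finset.prod_mul_distrib, Finset.prod_pow_eq_pow_sum]
  split_ifs with h
  · rw [h1, h]
    have h2 : c α * (s ^ D * ∏ j, p' j ^ (α.1 j : ℕ)) / s ^ D
        - c α * ∏ j, p' j ^ (α.1 j : ℕ) = 0 := by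
      field_simp
      ring
    rw [h2, map_zero]
    exact inv_nonneg.2 hV.le
  · have h3 : (∑ j, (α.1 j : ℕ)) + 1 ≤ D := by
      have := α.2
      omega
    rw [sub_zero, h1, map_div₀, map_mul, map_mul, map_pow, map_pow, map_prod]
    have h4 : ∏ j, v (p' j ^ (α.1 j : ℕ)) ≤ 1 := by
      refine Finset.prod_le_one (fun i _ => v.nonneg _) fun i _ => ?_
      rw [map_pow]
      exact pow_le_one₀ (v.nonneg _) (hp' i)
    have h5 : 0 ≤ ∏ j, v (p' j ^ (α.1 j : ℕ)) := Finset.prod_nonneg fun i _ => v.nonneg _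
    rw [div_le_iff₀ (by positivity)]
    calc v (c α) * (v s ^ (∑ j, (α.1 j : ℕ)) * ∏ j, v (p' j ^ (α.1 j : ℕ)))
        ≤ 1 * (v s ^ (∑ j, (α.1 j : ℕ)) * 1) := by
          refine mul_le_mul (hc α) ?_ (by positivity) zero_le_one
          exact mul_le_mul_of_nonneg_left h4 (by positivity)
      _ = v s ^ (∑ j, (α.1 j : ℕ)) := by ring
      _ ≤ (v s)⁻¹ * v s ^ D := by
          rw [← div_eq_inv_mul, le_div_iff₀ hV, ← pow_succ]
          exact pow_le_pow_right₀ hs.le h3

/-- the local parameter of a point far from the origin -/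
theorem zz_sq (hna : IsNonarchimedean v) (R : ℝ) (a2 a4 a6 x y : K) (hR : 1 ≤ R)
    (h2 : v a2 ≤ R) (h4 : v a4 ≤ R ^ 2) (h6 : v a6 ≤ R ^ 3) (hx : R < v x)
    (hy : y ^ 2 = ff a2 a4 a6 x) :
    v ((x / y) ^ 2 - x⁻¹) < (v x)⁻¹ ∧ v (x / y) ^ 2 = (v x)⁻¹ := by
  have hx0 : 0 < v x := by linarith
  have hxne : x ≠ 0 := by
    rintro rfl
    rw [map_zero] at hx0
    exact lt_irrefl _ hx0
  have hR0 : 0 < R := by linarith
  have e1 : v (y ^ 2 - x ^ 3) < v (x ^ 3) := by
    rw [hy]
    unfold ff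
    have : x ^ 3 + a2 * x ^ 2 + a4 * x + a6 - x ^ 3 = a2 * x ^ 2 + a4 * x + a6 := by ring
    rw [this, map_pow]
    refine add_lt hna (add_lt hna ?_ ?_) ?_
    · rw [map_mul, map_pow]
      calc v a2 * v x ^ 2 ≤ R * v x ^ 2 := mul_le_mul_of_nonneg_right h2 (by positivity)
        _ < v x * v x ^ 2 := mul_lt_mul_of_pos_right hx (by positivity)
        _ = v x ^ 3 := by ring
    · rw [map_mul]
      calc v a4 * v x ≤ R ^ 2 * v x := mul_le_mul_of_nonneg_right h4 (by positivity)
        _ < v x ^ 2 * v x := mul_lt_mul_of_pos_right (pow_lt_pow_left₀ hx hR0.le (by norm_num))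
            (by positivity)
        _ = v x ^ 3 := by ring
    · exact h6.trans_lt (pow_lt_pow_left₀ hx hR0.le (by norm_num))
  have e2 : v (y ^ 2) = v (x ^ 3) := eq_of_sub_lt hna e1
  have hy0 : 0 < v (y ^ 2) := by
    rw [e2, map_pow]
    positivity
  have hyne : y ≠ 0 := by
    rintro rfl
    rw [zero_pow two_ne_zero, map_zero] at hy0
    exact lt_irrefl _ hy0
  constructor
  · have e3 : (x / y) ^ 2 - x⁻¹ = -((y ^ 2 - x ^ 3) / (x * y ^ 2)) := by
      field_simp
      ring
    rw [e3, v.map_neg, map_div₀, map_mul, inv_eq_one_div, div_lt_div_iff₀ (by positivity) hx0,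
      one_mul]
    calc v (y ^ 2 - x ^ 3) * v x < v (x ^ 3) * v x := mul_lt_mul_of_pos_right e1 hx0
      _ = v x * v (y ^ 2) := by rw [e2]; ring
  · rw [map_div₀, div_pow, ← map_pow v y, e2, map_pow]
    field_simp

theorem zz_two (hna : IsNonarchimedean v) (z t x : K) (hx : 0 < v x)
    (h1 : v (z ^ 2 - x⁻¹) < (v x)⁻¹) (h2 : v z ^ 2 = (v x)⁻¹) (h3 : v (t - 2 * z) < v 2 * v z)
    (h4 : 0 < v (2 : K)) :
    v (t ^ 2 - 4 * x⁻¹) < v 4 * (v x)⁻¹ := by
  have e4 : (4 : K) = 2 * 2 := by norm_num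
  have v4 : v (4 : K) = v 2 * v 2 := by rw [e4, map_mul]
  have hz : 0 < v z := by
    have : 0 < v z ^ 2 := by rw [h2]; positivity
    rcases (v.nonneg z).eq_or_lt with h | h
    · rw [← h] at this
      norm_num at this
    · exact h
  have e5 : t ^ 2 - 4 * x⁻¹ = (t - 2 * z) ^ 2 + 2 * ((2 * z) * (t - 2 * z)) + 4 * (z ^ 2 - x⁻¹) := by
    ring
  have hv2 : v (2 : K) ≤ 1 := by
    have := hna 1 1
    rw [map_one, max_self, one_add_one_eq_two] at this
    exact this
  rw [e5]
  refine add_lt hna (add_lt hna ?_ ?_) ?_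
  · rw [map_pow, v4, ← h2]
    calc v (t - 2 * z) ^ 2 < (v 2 * v z) ^ 2 := pow_lt_pow_left₀ h3 (v.nonneg _) (by norm_num)
      _ = v 2 * v 2 * v z ^ 2 := by ring
  · rw [map_mul, map_mul, map_mul, v4, ← h2]
    have h6 : v 2 * v z * v (t - 2 * z) < v 2 * v z * (v 2 * v z) :=
      mul_lt_mul_of_pos_left h3 (by positivity)
    have h7 : 0 ≤ v 2 * v z * v (t - 2 * z) := by
      have := v.nonneg (t - 2 * z)
      positivity
    nlinarith
  · rw [map_mul]
    exact mul_lt_mul_of_pos_left h1 (by rw [v4]; positivity)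

theorem inv_close (hna : IsNonarchimedean v) (a b : K) (hb : v b = 1) (h : v (a - b) < 1) :
    v (a⁻¹ - b⁻¹) < 1 := by
  have ha : v a = 1 := by rw [← hb]; exact eq_of_sub_lt hna (by rw [hb]; exact h)
  have ha0 : a ≠ 0 := by
    rintro rfl
    rw [map_zero] at ha
    norm_num at ha
  have hb0 : b ≠ 0 := by
    rintro rfl
    rw [map_zero] at hb
    norm_num at hb
  have : a⁻¹ - b⁻¹ = -((a - b) / (a * b)) := by
    field_simp
    ring
  rw [this, v.map_neg, map_div₀, map_mul, ha, hb]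
  simpa using h

end INF_

open INF_ in
theorem p_INF (h1 : T_NSM.{u}) (h2 : T_LOC.{u}) : T_INF.{u} := by
  intro K _ _ _ v hna hv2 O k _ _ r hO hr d m D g hmD A2 A4 A6 hA hd2 hd4 hd6 c p P hbig hP hrel
  classical
  -- the largest coordinate
  obtain ⟨j1, hj1⟩ := hbig
  obtain ⟨j0, -, hj0⟩ := Finset.exists_max_image Finset.univ (fun j => v (p j))
    ⟨j1, Finset.mem_univ j1⟩
  have hs1 : 1 < v (p j0) := lt_of_lt_of_le hj1 (hj0 j1 (Finset.mem_univ j1))
  set s : K := p j0 with hsdef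
  have hV0 : 0 < v s := by linarith
  have hs0 : s ≠ 0 := v.pos_iff.1 hV0
  have hple : ∀ j, v (p j) ≤ v s := fun j => hj0 j (Finset.mem_univ j)
  have hp'O : ∀ j, p j / s ∈ O := by
    intro j
    rw [hO, map_div₀, div_le_one hV0]
    exact hple j
  set q : Fin d → O := fun j => ⟨p j / s, hp'O j⟩ with hq
  have hqv : ∀ j, v (q j : K) ≤ 1 := fun j => (hO _).1 (q j).2
  have hpq : ∀ j, p j = s * (q j : K) := fun j => by
    change p j = s * (p j / s)
    field_simp
  have hv2pos : 0 < v (2 : K) := v.pos two_ne_zero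
  -- the context
  have hctx : Ctx v (v s ^ m) (eval p A2) (eval p A4) (eval p A6) := by
    refine ⟨hna, hv2, one_le_pow₀ hs1.le, ?_, ?_, ?_⟩
    · exact eval_le hna A2 m (fun s => (hA s).1) hd2 p _ hs1.le hple
    · rw [← pow_mul, mul_comm m 2]
      exact eval_le hna A4 _ (fun s => (hA s).2.1) hd4 p _ hs1.le hple
    · rw [← pow_mul, mul_comm m 3]
      exact eval_le hna A6 _ (fun s => (hA s).2.2) hd6 p _ hs1.le hple
  -- the abscissas
  set X : Fin g → K := fun i => polyVal (fun α => (c (i, α) : K)) p with hX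
  set T : Fin g → O := fun i => topVal (fun α => c (i, α)) q with hT
  have hTK : ∀ i, (T i : K) = topVal (fun α => (c (i, α) : K)) (fun j => (q j : K)) := by
    intro i
    exact topVal_map O.subtype (fun α => c (i, α)) q
  have hTv : ∀ i, v (T i : K) ≤ 1 := fun i => (hO _).1 (T i).2
  have hXT : ∀ i, v (X i / s ^ D - T i) < 1 := by
    intro i
    rw [hTK i]
    refine lt_of_le_of_lt (poly_top hna (fun α => (c (i, α) : K)) p (fun j => (q j : K)) s hs1
      (fun α => (hO _).1 (c (i, α)).2) hpq hqv) ?_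
    exact inv_lt_one_of_one_lt₀ hs1
  set S : Finset (Fin g) := Finset.univ.filter fun i => v (T i : K) < 1 with hS
  have hTS : ∀ i, i ∉ S → v (T i : K) = 1 := by
    intro i hi
    rw [hS, Finset.mem_filter] at hi
    push Not at hi
    exact le_antisymm (hTv i) (hi (Finset.mem_univ i))
  have hXS : ∀ i, i ∉ S → v (X i) = v s ^ D := by
    intro i hi
    have h5 : v (X i / s ^ D) = 1 := by
      rw [← hTS i hi]
      refine eq_of_sub_lt hna ?_
      rw [hTS i hi]
      exact hXT i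
    rw [map_div₀, map_pow, div_eq_one_iff_eq (by positivity)] at h5
    exact h5
  have hRD : v s ^ m < v s ^ D := pow_lt_pow_right₀ hs1 hmD
  have hloc := h2 K v (v s ^ m) _ _ _ hctx g (d + 1) P hrel S (fun i => (X i)⁻¹) ((v s ^ D)⁻¹)
    (by positivity) (by
      intro i hi
      obtain ⟨y, hns, hPi⟩ := hP i
      have hxR : v s ^ m < v (X i) := by rw [hXS i hi]; exact hRD
      have hInE : InE v (v s ^ m) (P i) := by
        rw [hPi]
        exact hxR
      have hne : P i ≠ 0 := by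
        rw [hPi]
        exact WeierstrassCurve.Affine.Point.some_ne_zero _
      obtain ⟨hn1, -, hn3⟩ := h1 K v (v s ^ m) _ _ _ hctx (P i) hInE
      have heq : y ^ 2 = ff (eval p A2) (eval p A4) (eval p A6) (X i) := by
        have := hns.1
        rw [WeierstrassCurve.Affine.equation_iff] at this
        simp only [zero_mul, add_zero] at this
        exact this
      obtain ⟨hz1, hz2⟩ := zz_sq hna (v s ^ m) _ _ _ (X i) y hctx.one_le hctx.h2 hctx.h4 hctx.h6
        hxR heq
      have hzP : zz (P i) = X i / y := by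
        rw [hPi]
        rfl
      have hxi : 0 < v (X i) := by rw [hXS i hi]; positivity
      refine ⟨hn1 2, ?_, ?_⟩
      · rw [map_inv₀, hXS i hi]
      · have h6 := hn3 2 two_ne_zero hne
        rw [hzP] at h6
        have h7 := zz_two hna (X i / y) (zz (2 • P i)) (X i) hxi hz1 hz2
          (by exact_mod_cast h6) hv2pos
        rw [hXS i hi] at h7
        exact h7)
  obtain ⟨J, w, hJS, hcard, hw, hsum⟩ := hloc
  refine ⟨fun j => r (q j), S, J, fun j i => if h : v (w j i) ≤ 1 then r ⟨w j i, (hO _).2 h⟩ else 0,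
    hJS, hcard, ⟨j0, ?_⟩, ?_, ?_, ?_, ?_⟩
  · have : q j0 = 1 := Subtype.ext (div_self hs0)
    change r (q j0) = 1
    rw [this, map_one]
  · intro i hi
    rw [← topVal_map r (fun α => c (i, α)) q, hr]
    exact (Finset.mem_filter.1 hi).2
  · intro i hi
    rw [← topVal_map r (fun α => c (i, α)) q, Ne, hr]
    exact fun h => hi (Finset.mem_filter.2 ⟨Finset.mem_univ i, h⟩)
  · intro j hj i
    obtain ⟨hw1, hw2⟩ := hw j hj i
    simp only [dif_pos hw1]
    rw [← map_pow, ← sub_eq_zero, ← map_sub, hr]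
    exact hw2
  · intro j hj
    have hjS : j ∉ S := fun h => (Finset.disjoint_left.1 hJS) hj h
    -- inverses in `O`
    have hTinv : ∀ i, i ∉ S → ((T i : K))⁻¹ ∈ O := fun i hi => by
      rw [hO, map_inv₀, hTS i hi, inv_one]
    set U : Fin g → O := fun i => if h : i ∉ S then ⟨(T i : K)⁻¹, hTinv i h⟩ else 0 with hU
    have hUK : ∀ i, i ∉ S → (U i : K) = (T i : K)⁻¹ := fun i hi => by
      rw [hU]
      simp only [dif_pos hi]
    have hrU : ∀ i, i ∉ S → r (U i) = (r (T i))⁻¹ := by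
      intro i hi
      refine eq_inv_of_mul_eq_one_left ?_
      rw [← map_mul]
      have : U i * T i = 1 := by
        refine Subtype.ext ?_
        change (U i : K) * (T i : K) = 1
        rw [hUK i hi]
        refine inv_mul_cancel₀ ?_
        intro h0
        have := hTS i hi
        rw [h0, map_zero] at this
        norm_num at this
      rw [this, map_one]
    have htop : ∀ i, topVal (fun α => r (c (i, α))) (fun j => r (q j)) = r (T i) := fun i =>
      (topVal_map r (fun α => c (i, α)) q).symm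
    have hmem : ∀ i, i ∈ (J ∪ S)ᶜ → i ∉ S := fun i hi h => by
      rw [Finset.mem_compl, Finset.mem_union] at hi
      exact hi (Or.inr h)
    simp only [htop]
    rw [← hrU j hjS]
    have e1 : ∑ i ∈ (J ∪ S)ᶜ, (if h : v (w j i) ≤ 1 then r ⟨w j i, (hO _).2 h⟩ else 0)
        * (r (T i))⁻¹ = r (∑ i ∈ (J ∪ S)ᶜ, (⟨w j i, (hO _).2 (hw j hj i).1⟩ : O) * U i) := by
      rw [map_sum]
      refine Finset.sum_congr rfl fun i hi => ?_
      rw [map_mul, hrU i (hmem i hi), dif_pos (hw j hj i).1]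
    rw [e1, ← sub_eq_zero, ← map_sub, hr]
    -- the estimate
    have hclose : ∀ i, i ∉ S → v (s ^ D * (X i)⁻¹ - (T i : K)⁻¹) < 1 := by
      intro i hi
      have h8 := inv_close hna (X i / s ^ D) (T i : K) (hTS i hi) (hXT i)
      rwa [inv_div, div_eq_mul_inv] at h8
    have e2 : ((U j - ∑ i ∈ (J ∪ S)ᶜ, (⟨w j i, (hO _).2 (hw j hj i).1⟩ : O) * U i : O) : K)
        = (U j : K) - ∑ i ∈ (J ∪ S)ᶜ, w j i * (U i : K) := by
      push_cast
      rfl
    rw [e2, hUK j hjS]
    have e3 : ∑ i ∈ (J ∪ S)ᶜ, w j i * (U i : K) = ∑ i ∈ (J ∪ S)ᶜ, w j i * (T i : K)⁻¹ :=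
      Finset.sum_congr rfl fun i hi => by rw [hUK i (hmem i hi)]
    rw [e3]
    have e4 : (T j : K)⁻¹ - ∑ i ∈ (J ∪ S)ᶜ, w j i * (T i : K)⁻¹
        = s ^ D * ((X j)⁻¹ - ∑ i ∈ (J ∪ S)ᶜ, w j i * (X i)⁻¹)
          - (s ^ D * (X j)⁻¹ - (T j : K)⁻¹)
          + ∑ i ∈ (J ∪ S)ᶜ, w j i * (s ^ D * (X i)⁻¹ - (T i : K)⁻¹) := by
      simp only [mul_sub, Finset.sum_sub_distrib, Finset.mul_sum]
      have e5 : ∑ i ∈ (J ∪ S)ᶜ, s ^ D * (w j i * (X i)⁻¹)
          = ∑ i ∈ (J ∪ S)ᶜ, w j i * (s ^ D * (X i)⁻¹) :=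
        Finset.sum_congr rfl fun i _ => by ring
      rw [e5]
      ring
    rw [e4]
    refine add_lt hna (sub_lt hna ?_ (hclose j hjS)) ?_
    · rw [map_mul, map_pow]
      have h9 := hsum j hj
      have h10 : 0 < v s ^ D := by positivity
      calc v s ^ D * v ((X j)⁻¹ - ∑ i ∈ (J ∪ S)ᶜ, w j i * (X i)⁻¹)
          < v s ^ D * (v s ^ D)⁻¹ := mul_lt_mul_of_pos_left h9 h10
        _ = 1 := mul_inv_cancel₀ h10.ne'
    · refine sum_lt hna _ _ _ one_pos fun i hi => ?_
      rw [map_mul]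
      calc v (w j i) * v (s ^ D * (X i)⁻¹ - (T i : K)⁻¹)
          ≤ 1 * v (s ^ D * (X i)⁻¹ - (T i : K)⁻¹) :=
            mul_le_mul_of_nonneg_right (hw j hj i).1 (v.nonneg _)
        _ < 1 := by rw [one_mul]; exact hclose i (hmem i hi)

end RD
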