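import Pool.Agent.RD.Targets2
import Pool.Agent.RD.INF

set_option autoImplicit false

/-!
# The stratum at infinity, general base (T_INF2)
-/

namespace RD

open MvPolynomial WeierstrassCurve.Affine

universe u

namespace INF2_

open INF_

variable {K : Type u} [Field K] {v : AbsoluteValue K ℝ}

/-- The local part of the proof: from abscissas of the same size to a pivot system. -/
theorem core (h1 : T_NSM.{u}) (h2 : T_LOC.{u}) [CharZero K] [DecidableEq K]
    (hna : IsNonarchimedean v) (O : Subring K) (k : Type u) [Field k]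
    (r : O →+* k) (hO : ∀ x, x ∈ O ↔ v x ≤ 1) (hr : ∀ x : O, r x = 0 ↔ v (x : K) < 1)
    (m D g e : ℕ) (hmD : m < D) (a2 a4 a6 s : K) (hs1 : 1 < v s)
    (hctx : Ctx v (v s ^ m) a2 a4 a6) (X : Fin g → K) (T : Fin g → O)
    (hXT : ∀ i, v (X i / s ^ D - T i) < 1) (P : Fin g → (curve a2 a4 a6).Point)
    (hP : ∀ i, ∃ y h, P i = WeierstrassCurve.Affine.Point.some (X i) y h)
    (hrel : IntRel (curve a2 a4 a6) e P ∨ CMRel (curve a2 a4 a6) e P) :
    ∃ (S J : Finset (Fin g)) (w : Fin g → Fin g → k), Disjoint J S ∧ e ≤ J.card + S.card ∧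
      (∀ i ∈ S, r (T i) = 0) ∧ (∀ i, i ∉ S → r (T i) ≠ 0) ∧
      (∀ j ∈ J, ∀ i, w j i ^ 4 = w j i) ∧
      ∀ j ∈ J, (r (T j))⁻¹ = ∑ i ∈ (J ∪ S)ᶜ, w j i * (r (T i))⁻¹ := by
  classical
  have hV0 : 0 < v s := by linarith
  have hs0 : s ≠ 0 := v.pos_iff.1 hV0
  have hv2pos : 0 < v (2 : K) := v.pos two_ne_zero
  have hTv : ∀ i, v (T i : K) ≤ 1 := fun i => (hO _).1 (T i).2
  set S : Finset (Fin g) := Finset.univ.filter fun i => v (T i : K) < 1 with hS
  have hTS : ∀ i, i ∉ S → v (T i : K) = 1 := by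
    intro i hi
    rw [hS, Finset.mem_filter] at hi
    push Not at hi
    exact le_antisymm (hTv i) (hi (Finset.mem_univ i))
  have hXS : ∀ i, i ∉ S → v (X i) = v s ^ D := by
    intro i hi
    have h5 : v (X i / s ^ D) = 1 := by
      rw [← hTS i hi]
      refine eq_of_sub_lt hna ?_
      rw [hTS i hi]
      exact hXT i
    rw [map_div₀, map_pow, div_eq_one_iff_eq (by positivity)] at h5
    exact h5
  have hRD : v s ^ m < v s ^ D := pow_lt_pow_right₀ hs1 hmD
  have hloc := h2 K v (v s ^ m) _ _ _ hctx g e P hrel S (fun i => (X i)⁻¹) ((v s ^ D)⁻¹)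
    (by positivity) (by
      intro i hi
      obtain ⟨y, hns, hPi⟩ := hP i
      have hxR : v s ^ m < v (X i) := by rw [hXS i hi]; exact hRD
      have hInE : InE v (v s ^ m) (P i) := by
        rw [hPi]
        exact hxR
      have hne : P i ≠ 0 := by
        rw [hPi]
        exact WeierstrassCurve.Affine.Point.some_ne_zero _
      obtain ⟨hn1, -, hn3⟩ := h1 K v (v s ^ m) _ _ _ hctx (P i) hInE
      have heq : y ^ 2 = ff a2 a4 a6 (X i) := by
        have := hns.1
        rw [WeierstrassCurve.Affine.equation_iff] at this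
        simp only [zero_mul, add_zero] at this
        exact this
      obtain ⟨hz1, hz2⟩ := zz_sq hna (v s ^ m) _ _ _ (X i) y hctx.one_le hctx.h2 hctx.h4 hctx.h6
        hxR heq
      have hzP : zz (P i) = X i / y := by
        rw [hPi]
        rfl
      have hxi : 0 < v (X i) := by rw [hXS i hi]; positivity
      refine ⟨hn1 2, ?_, ?_⟩
      · rw [map_inv₀, hXS i hi]
      · have h6 := hn3 2 two_ne_zero hne
        rw [hzP] at h6
        have h7 := zz_two hna (X i / y) (zz (2 • P i)) (X i) hxi hz1 hz2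
          (by exact_mod_cast h6) hv2pos
        rw [hXS i hi] at h7
        exact h7)
  obtain ⟨J, w, hJS, hcard, hw, hsum⟩ := hloc
  refine ⟨S, J, fun j i => if h : v (w j i) ≤ 1 then r ⟨w j i, (hO _).2 h⟩ else 0,
    hJS, hcard, ?_, ?_, ?_, ?_⟩
  · intro i hi
    rw [hr]
    exact (Finset.mem_filter.1 hi).2
  · intro i hi
    rw [Ne, hr]
    exact fun h => hi (Finset.mem_filter.2 ⟨Finset.mem_univ i, h⟩)
  · intro j hj i
    obtain ⟨hw1, hw2⟩ := hw j hj i
    simp only [dif_pos hw1]
    rw [← map_pow, ← sub_eq_zero, ← map_sub, hr]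
    exact hw2
  · intro j hj
    have hjS : j ∉ S := fun h => (Finset.disjoint_left.1 hJS) hj h
    -- inverses in `O`
    have hTinv : ∀ i, i ∉ S → ((T i : K))⁻¹ ∈ O := fun i hi => by
      rw [hO, map_inv₀, hTS i hi, inv_one]
    set U : Fin g → O := fun i => if h : i ∉ S then ⟨(T i : K)⁻¹, hTinv i h⟩ else 0 with hU
    have hUK : ∀ i, i ∉ S → (U i : K) = (T i : K)⁻¹ := fun i hi => by
      rw [hU]
      simp only [dif_pos hi]
    have hrU : ∀ i, i ∉ S → r (U i) = (r (T i))⁻¹ := by
      intro i hi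
      refine eq_inv_of_mul_eq_one_left ?_
      rw [← map_mul]
      have : U i * T i = 1 := by
        refine Subtype.ext ?_
        change (U i : K) * (T i : K) = 1
        rw [hUK i hi]
        refine inv_mul_cancel₀ ?_
        intro h0
        have := hTS i hi
        rw [h0, map_zero] at this
        norm_num at this
      rw [this, map_one]
    have hmem : ∀ i, i ∈ (J ∪ S)ᶜ → i ∉ S := fun i hi h => by
      rw [Finset.mem_compl, Finset.mem_union] at hi
      exact hi (Or.inr h)
    rw [← hrU j hjS]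
    have e1 : ∑ i ∈ (J ∪ S)ᶜ, (if h : v (w j i) ≤ 1 then r ⟨w j i, (hO _).2 h⟩ else 0)
        * (r (T i))⁻¹ = r (∑ i ∈ (J ∪ S)ᶜ, (⟨w j i, (hO _).2 (hw j hj i).1⟩ : O) * U i) := by
      rw [map_sum]
      refine Finset.sum_congr rfl fun i hi => ?_
      rw [map_mul, hrU i (hmem i hi), dif_pos (hw j hj i).1]
    rw [e1, ← sub_eq_zero, ← map_sub, hr]
    -- the estimate
    have hclose : ∀ i, i ∉ S → v (s ^ D * (X i)⁻¹ - (T i : K)⁻¹) < 1 := by
      intro i hi
      have h8 := inv_close hna (X i / s ^ D) (T i : K) (hTS i hi) (hXT i)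
      rwa [inv_div, div_eq_mul_inv] at h8
    have e2 : ((U j - ∑ i ∈ (J ∪ S)ᶜ, (⟨w j i, (hO _).2 (hw j hj i).1⟩ : O) * U i : O) : K)
        = (U j : K) - ∑ i ∈ (J ∪ S)ᶜ, w j i * (U i : K) := by
      push_cast
      rfl
    rw [e2, hUK j hjS]
    have e3 : ∑ i ∈ (J ∪ S)ᶜ, w j i * (U i : K) = ∑ i ∈ (J ∪ S)ᶜ, w j i * (T i : K)⁻¹ :=
      Finset.sum_congr rfl fun i hi => by rw [hUK i (hmem i hi)]
    rw [e3]
    have e4 : (T j : K)⁻¹ - ∑ i ∈ (J ∪ S)ᶜ, w j i * (T i : K)⁻¹
        = s ^ D * ((X j)⁻¹ - ∑ i ∈ (J ∪ S)ᶜ, w j i * (X i)⁻¹)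
          - (s ^ D * (X j)⁻¹ - (T j : K)⁻¹)
          + ∑ i ∈ (J ∪ S)ᶜ, w j i * (s ^ D * (X i)⁻¹ - (T i : K)⁻¹) := by
      simp only [mul_sub, Finset.sum_sub_distrib, Finset.mul_sum]
      have e5 : ∑ i ∈ (J ∪ S)ᶜ, s ^ D * (w j i * (X i)⁻¹)
          = ∑ i ∈ (J ∪ S)ᶜ, w j i * (s ^ D * (X i)⁻¹) :=
        Finset.sum_congr rfl fun i _ => by ring
      rw [e5]
      ring
    rw [e4]
    refine add_lt hna (sub_lt hna ?_ (hclose j hjS)) ?_
    · rw [map_mul, map_pow]
      have h9 := hsum j hj
      have h10 : 0 < v s ^ D := by positivity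
      calc v s ^ D * v ((X j)⁻¹ - ∑ i ∈ (J ∪ S)ᶜ, w j i * (X i)⁻¹)
          < v s ^ D * (v s ^ D)⁻¹ := mul_lt_mul_of_pos_left h9 h10
        _ = 1 := mul_inv_cancel₀ h10.ne'
    · refine sum_lt hna _ _ _ one_pos fun i hi => ?_
      rw [map_mul]
      calc v (w j i) * v (s ^ D * (X i)⁻¹ - (T i : K)⁻¹)
          ≤ 1 * v (s ^ D * (X i)⁻¹ - (T i : K)⁻¹) :=
            mul_le_mul_of_nonneg_right (hw j hj i).1 (v.nonneg _)
        _ < 1 := by rw [one_mul]; exact hclose i (hmem i hi)

theorem eval_sub {O : Subring K} {σ : Type} [Fintype σ] (A : MvPolynomial σ O) (x : σ → K) :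
    eval x (map O.subtype A) = ∑ d ∈ A.support, ((A.coeff d : O) : K) * ∏ i, x i ^ d i := by
  rw [eval_map, eval₂_eq']
  rfl

theorem deg_eq {σ : Type} [Fintype σ] (d : σ →₀ ℕ) : d.degree = ∑ i, d i := by
  rw [Finsupp.degree]
  change ∑ i ∈ d.support, d i = _
  refine Finset.sum_subset (Finset.subset_univ _) fun i _ hi => ?_
  simpa using hi

theorem deg_le {O : Subring K} {σ : Type} [Fintype σ] {A : MvPolynomial σ O} {n : ℕ}
    (hA : A.totalDegree ≤ n) {d : σ →₀ ℕ} (hd : d ∈ A.support) : ∑ i, d i ≤ n := by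
  have h2 := MvPolynomial.le_totalDegree hd
  rw [Finsupp.sum_fintype _ _ (fun _ => rfl)] at h2
  exact h2.trans hA

/-- size of the values -/
theorem eval_le2 (hna : IsNonarchimedean v) {O : Subring K} (hO : ∀ x, x ∈ O ↔ v x ≤ 1)
    {σ : Type} [Fintype σ] (A : MvPolynomial σ O) (n : ℕ)
    (hdeg : A.totalDegree ≤ n) (x : σ → K) (V : ℝ) (hV : 1 ≤ V) (hx : ∀ j, v (x j) ≤ V) :
    v (eval x (map O.subtype A)) ≤ V ^ n := by
  rw [eval_sub]
  refine sum_le hna _ _ _ (by positivity) fun s hs => ?_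
  rw [map_mul, map_prod]
  have h1 : ∏ i, v (x i ^ s i) ≤ V ^ n := by
    calc ∏ i, v (x i ^ s i) ≤ ∏ i, V ^ s i := by
          refine Finset.prod_le_prod (fun i _ => v.nonneg _) fun i _ => ?_
          rw [map_pow]
          exact pow_le_pow_left₀ (v.nonneg _) (hx i) _
      _ = V ^ (∑ i, s i) := by rw [Finset.prod_pow_eq_pow_sum]
      _ ≤ V ^ n := pow_le_pow_right₀ hV (deg_le hdeg hs)
  calc v ((A.coeff s : O) : K) * ∏ i, v (x i ^ s i) ≤ 1 * V ^ n :=
        mul_le_mul ((hO _).1 (A.coeff s).2) h1 (Finset.prod_nonneg fun i _ => v.nonneg _)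
          zero_le_one
    _ = V ^ n := one_mul _

/-- the leading part of the values -/
theorem eval_top (hna : IsNonarchimedean v) {O : Subring K} (hO : ∀ x, x ∈ O ↔ v x ≤ 1)
    {σ : Type} [Fintype σ] (A : MvPolynomial σ O) (n : ℕ)
    (hdeg : A.totalDegree ≤ n) (x x' : σ → K) (u : K) (hu : 1 < v u) (hx : ∀ j, x j = u * x' j)
    (hx' : ∀ j, v (x' j) ≤ 1) :
    v (eval x (map O.subtype A) / u ^ n - eval x' (map O.subtype (homogeneousComponent n A)))
      ≤ (v u)⁻¹ := by
  classical
  have hV : 0 < v u := by linarith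
  have hu0 : u ≠ 0 := v.pos_iff.1 hV
  have e1 : eval x' (map O.subtype (homogeneousComponent n A)) =
      ∑ d ∈ A.support, if d.degree = n then ((A.coeff d : O) : K) * ∏ i, x' i ^ d i else 0 := by
    rw [homogeneousComponent_apply, map_sum, map_sum, Finset.sum_filter]
    refine Finset.sum_congr rfl fun d _ => ?_
    split_ifs
    · rw [map_monomial, eval_monomial, Finsupp.prod_fintype _ _ (fun i => pow_zero _)]
      rfl
    · rfl
  rw [e1, eval_sub, Finset.sum_div, ← Finset.sum_sub_distrib]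
  refine sum_le hna _ _ _ (inv_nonneg.2 hV.le) fun d hd => ?_
  have h1 : ∏ j, x j ^ d j = u ^ (∑ j, d j) * ∏ j, x' j ^ d j := by
    simp only [hx, mul_pow, Finset.prod_mul_distrib, Finset.prod_pow_eq_pow_sum]
  rw [deg_eq]
  split_ifs with h
  · rw [h1, h]
    have h2 : ((A.coeff d : O) : K) * (u ^ n * ∏ j, x' j ^ d j) / u ^ n
        - ((A.coeff d : O) : K) * ∏ j, x' j ^ d j = 0 := by
      field_simp
      ring
    rw [h2, map_zero]
    exact inv_nonneg.2 hV.le
  · have h3 : (∑ j, d j) + 1 ≤ n := by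
      have := deg_le hdeg hd
      omega
    rw [sub_zero, h1, map_div₀, map_mul, map_mul, map_pow, map_pow, map_prod]
    have h4 : ∏ j, v (x' j ^ d j) ≤ 1 := by
      refine Finset.prod_le_one (fun i _ => v.nonneg _) fun i _ => ?_
      rw [map_pow]
      exact pow_le_one₀ (v.nonneg _) (hx' i)
    have h5 : 0 ≤ ∏ j, v (x' j ^ d j) := Finset.prod_nonneg fun i _ => v.nonneg _
    rw [div_le_iff₀ (by positivity)]
    calc v ((A.coeff d : O) : K) * (v u ^ (∑ j, d j) * ∏ j, v (x' j ^ d j))
        ≤ 1 * (v u ^ (∑ j, d j) * 1) := by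
          refine mul_le_mul ((hO _).1 (A.coeff d).2) ?_ (by positivity) zero_le_one
          exact mul_le_mul_of_nonneg_left h4 (by positivity)
      _ = v u ^ (∑ j, d j) := by ring
      _ ≤ (v u)⁻¹ * v u ^ n := by
          rw [← div_eq_inv_mul, le_div_iff₀ hV, ← pow_succ]
          exact pow_le_pow_right₀ hu.le h3

theorem homog_map {R S : Type*} [CommSemiring R] [CommSemiring S] (f : R →+* S) {σ : Type}
    (n : ℕ) (A : MvPolynomial σ R) :
    homogeneousComponent n (map f A) = map f (homogeneousComponent n A) := by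
  ext d
  rw [coeff_homogeneousComponent, coeff_map, coeff_map, coeff_homogeneousComponent]
  split_ifs
  · rfl
  · rw [map_zero]

theorem eval_red {R S : Type*} [CommSemiring R] [CommSemiring S] (f : R →+* S) {σ : Type}
    (A : MvPolynomial σ R) (x : σ → R) :
    eval (fun j => f (x j)) (map f A) = f (eval x A) := by
  exact (map_eval f x A).symm

theorem elim_comp {R S : Type*} {α β : Type} (f : R → S) (p : α → R) (s : β → R) :
    Sum.elim (fun j => f (p j)) (fun j => f (s j)) = fun j => f (Sum.elim p s j) := by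
  funext j
  cases j <;> rfl

end INF2_

open INF_ INF2_ in
theorem p_INF2 (h1 : T_NSM.{u}) (h2 : T_LOC.{u}) : T_INF2.{u} := by
  intro K _ _ _ v hna hv2 O k _ _ r hO hr d n m D g hmD ρ b hb A2 A4 A6 F hd2 hd4 hd6 hF c p s
    hbase P hbig hP hrel
  classical
  -- the largest coordinate
  obtain ⟨j1, hj1⟩ := hbig
  obtain ⟨j0, -, hj0⟩ := Finset.exists_max_image Finset.univ (fun j => v (p j))
    ⟨j1, Finset.mem_univ j1⟩
  have hu1 : 1 < v (p j0) := lt_of_lt_of_le hj1 (hj0 j1 (Finset.mem_univ j1))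
  set u : K := p j0 with hudef
  have hV0 : 0 < v u := by linarith
  have hu0 : u ≠ 0 := v.pos_iff.1 hV0
  have hple : ∀ j, v (p j) ≤ v u := fun j => hj0 j (Finset.mem_univ j)
  -- the integral coordinates
  have hsle : ∀ j, v (s j) ≤ v u := by
    intro j
    by_contra hlt
    push Not at hlt
    have hs0 : 0 < v (s j) := hV0.trans hlt
    have h3 := hbase j
    have h4 : v (∑ l ∈ Finset.range (ρ j), eval p (map O.subtype (b j l)) * s j ^ l)
        < v (s j) ^ ρ j := by
      refine sum_lt hna _ _ _ (by positivity) fun l hl => ?_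
      rw [Finset.mem_range] at hl
      rw [map_mul, map_pow]
      have h5 := eval_le2 hna hO (b j l) (ρ j - l) (hb j l hl) p (v u) hu1.le hple
      calc v (eval p (map O.subtype (b j l))) * v (s j) ^ l
          ≤ v u ^ (ρ j - l) * v (s j) ^ l := mul_le_mul_of_nonneg_right h5 (by positivity)
        _ < v (s j) ^ (ρ j - l) * v (s j) ^ l :=
            mul_lt_mul_of_pos_right (pow_lt_pow_left₀ hlt hV0.le (by omega)) (by positivity)
        _ = v (s j) ^ ρ j := by rw [← pow_add, Nat.sub_add_cancel hl.le]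
    have h6 : s j ^ ρ j = -∑ l ∈ Finset.range (ρ j), eval p (map O.subtype (b j l)) * s j ^ l :=
      eq_neg_of_add_eq_zero_left h3
    have h7 := congrArg v h6
    rw [v.map_neg, map_pow] at h7
    rw [← h7] at h4
    exact lt_irrefl _ h4
  have hp'O : ∀ j, p j / u ∈ O := by
    intro j
    rw [hO, map_div₀, div_le_one hV0]
    exact hple j
  have hs'O : ∀ j, s j / u ∈ O := by
    intro j
    rw [hO, map_div₀, div_le_one hV0]
    exact hsle j
  set p' : Fin d → O := fun j => ⟨p j / u, hp'O j⟩ with hp'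
  set s' : Fin n → O := fun j => ⟨s j / u, hs'O j⟩ with hs'
  have hpq : ∀ j, p j = u * (p' j : K) := fun j => by
    change p j = u * (p j / u)
    field_simp
  have hsq : ∀ j, s j = u * (s' j : K) := fun j => by
    change s j = u * (s j / u)
    field_simp
  have hx : ∀ j, Sum.elim p s j = u * Sum.elim (fun j => (p' j : K)) (fun j => (s' j : K)) j := by
    rintro (j | j)
    · exact hpq j
    · exact hsq j
  have hxv : ∀ j, v (Sum.elim p s j) ≤ v u := by
    rintro (j | j)
    · exact hple j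
    · exact hsle j
  have hxv' : ∀ j, v (Sum.elim (fun j => (p' j : K)) (fun j => (s' j : K)) j) ≤ 1 := by
    rintro (j | j)
    · exact (hO _).1 (p' j).2
    · exact (hO _).1 (s' j).2
  -- the context
  have hctx : Ctx v (v u ^ m) (eval (Sum.elim p s) (map O.subtype A2))
      (eval (Sum.elim p s) (map O.subtype A4)) (eval (Sum.elim p s) (map O.subtype A6)) := by
    refine ⟨hna, hv2, one_le_pow₀ hu1.le, ?_, ?_, ?_⟩
    · exact eval_le2 hna hO A2 m hd2 _ _ hu1.le hxv
    · rw [← pow_mul, mul_comm m 2]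
      exact eval_le2 hna hO A4 _ hd4 _ _ hu1.le hxv
    · rw [← pow_mul, mul_comm m 3]
      exact eval_le2 hna hO A6 _ hd6 _ _ hu1.le hxv
  -- the abscissas
  set T : Fin g → O := fun i => absc0 D (fun i => homogeneousComponent D (F i)) c p' s' i with hT
  have hTK : ∀ i, (T i : K) = eval (Sum.elim (fun j => (p' j : K)) (fun j => (s' j : K)))
      (map O.subtype (homogeneousComponent D (F i))) + ∑ l : Fin d, (c (i, l.succ) : K) *
        (p' l : K) ^ D := by
    intro i
    rw [elim_comp (fun x : O => (x : K)) p' s']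
    have h3 := eval_red O.subtype (homogeneousComponent D (F i)) (Sum.elim p' s')
    change eval (fun j => ((Sum.elim p' s' j : O) : K)) _ = _ at h3
    rw [h3]
    change ((absc0 D (fun i => homogeneousComponent D (F i)) c p' s' i : O) : K) = _
    unfold absc0
    push_cast
    rfl
  have hlt1 : (v u)⁻¹ < 1 := inv_lt_one_of_one_lt₀ hu1
  have hXT : ∀ i, v (absc D (fun i => map O.subtype (F i)) (fun w => (c w : K)) p s i / u ^ D
      - T i) < 1 := by
    intro i
    rw [hTK i]
    have h3 := eval_top hna hO (F i) D (hF i) _ _ u hu1 hx hxv'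
    have h4 : absc D (fun i => map O.subtype (F i)) (fun w => (c w : K)) p s i / u ^ D
        - (eval (Sum.elim (fun j => (p' j : K)) (fun j => (s' j : K)))
        (map O.subtype (homogeneousComponent D (F i))) + ∑ l : Fin d, (c (i, l.succ) : K) *
        (p' l : K) ^ D)
        = (eval (Sum.elim p s) (map O.subtype (F i)) / u ^ D -
          eval (Sum.elim (fun j => (p' j : K)) (fun j => (s' j : K)))
            (map O.subtype (homogeneousComponent D (F i)))) + (c (i, 0) : K) / u ^ D := by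
      unfold absc
      have h5 : ∑ l : Fin d, (c (i, l.succ) : K) * p l ^ D
          = u ^ D * ∑ l : Fin d, (c (i, l.succ) : K) * (p' l : K) ^ D := by
        rw [Finset.mul_sum]
        refine Finset.sum_congr rfl fun l _ => ?_
        rw [hpq l, mul_pow]
        ring
      rw [h5]
      field_simp
      ring
    rw [h4]
    refine add_lt hna (h3.trans_lt hlt1) ?_
    rw [map_div₀, map_pow, div_lt_one (by positivity)]
    exact ((hO _).1 (c (i, 0)).2).trans_lt (one_lt_pow₀ hu1 (by omega))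
  obtain ⟨S, J, w, hJS, hcard, hS, hnS, hw, hsum⟩ := core h1 h2 hna O k r hO hr m D g (d + 1)
    hmD _ _ _ u hu1 hctx _ T hXT P hP hrel
  -- the reduction
  have hred : ∀ i, absc0 D (fun i => homogeneousComponent D (map r (F i))) (fun w => r (c w))
      (fun j => r (p' j)) (fun j => r (s' j)) i = r (T i) := by
    intro i
    change _ = r (absc0 D (fun i => homogeneousComponent D (F i)) c p' s' i)
    unfold absc0
    rw [elim_comp r p' s', map_add, map_sum]
    simp only [homog_map, eval_red, map_mul, map_pow]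
  refine ⟨fun j => r (p' j), fun j => r (s' j), S, J, w, ?_, hJS, hcard, ⟨j0, ?_⟩, ?_, ?_, hw, ?_⟩
  · intro j
    have h3 : r (s' j) ^ ρ j + ∑ l ∈ Finset.range (ρ j),
        eval (fun j => r (p' j)) (homogeneousComponent (ρ j - l) (map r (b j l))) * r (s' j) ^ l
        = r (s' j ^ ρ j + ∑ l ∈ Finset.range (ρ j),
          eval p' (homogeneousComponent (ρ j - l) (b j l)) * s' j ^ l) := by
      rw [map_add, map_pow, map_sum]
      congr 1
      refine Finset.sum_congr rfl fun l _ => ?_
      rw [map_mul, map_pow, homog_map, eval_red]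
    rw [h3, hr]
    have h4 : ((s' j ^ ρ j + ∑ l ∈ Finset.range (ρ j),
          eval p' (homogeneousComponent (ρ j - l) (b j l)) * s' j ^ l : O) : K)
        = (s' j : K) ^ ρ j + ∑ l ∈ Finset.range (ρ j),
          eval (fun j => (p' j : K)) (map O.subtype (homogeneousComponent (ρ j - l) (b j l))) *
            (s' j : K) ^ l := by
      push_cast
      congr 1
      refine Finset.sum_congr rfl fun l _ => ?_
      rw [show (fun j => (p' j : K)) = fun j => O.subtype (p' j) from rfl, eval_red]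
      rfl
    have h5 := hbase j
    have h6 : (s' j : K) ^ ρ j + ∑ l ∈ Finset.range (ρ j),
        eval p (map O.subtype (b j l)) / u ^ (ρ j - l) * (s' j : K) ^ l = 0 := by
      have h7 : u ^ ρ j * ((s' j : K) ^ ρ j + ∑ l ∈ Finset.range (ρ j),
          eval p (map O.subtype (b j l)) / u ^ (ρ j - l) * (s' j : K) ^ l) = 0 := by
        rw [← h5, mul_add, Finset.mul_sum, ← mul_pow, ← hsq j]
        congr 1
        refine Finset.sum_congr rfl fun l hl => ?_
        rw [Finset.mem_range] at hl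
        have h8 : u ^ ρ j = u ^ (ρ j - l) * u ^ l := by
          rw [← pow_add, Nat.sub_add_cancel hl.le]
        have h10 : s j ^ l = u ^ l * (s' j : K) ^ l := by rw [← mul_pow, ← hsq j]
        rw [h8, h10]
        change _ = eval p (map O.subtype (b j l)) * _
        field_simp
      exact (mul_eq_zero.1 h7).resolve_left (pow_ne_zero _ hu0)
    have h9 : (s' j : K) ^ ρ j + ∑ l ∈ Finset.range (ρ j),
          eval (fun j => (p' j : K)) (map O.subtype (homogeneousComponent (ρ j - l) (b j l))) *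
            (s' j : K) ^ l = -∑ l ∈ Finset.range (ρ j), (eval p (map O.subtype (b j l)) /
              u ^ (ρ j - l) - eval (fun j => (p' j : K))
                (map O.subtype (homogeneousComponent (ρ j - l) (b j l)))) * (s' j : K) ^ l := by
      have h10 := h6
      simp only [sub_mul, Finset.sum_sub_distrib]
      linear_combination h10
    rw [h4, h9, v.map_neg]
    refine sum_lt hna _ _ _ one_pos fun l hl => ?_
    rw [Finset.mem_range] at hl
    rw [map_mul, map_pow]
    have h11 := eval_top hna hO (b j l) (ρ j - l) (hb j l hl) p (fun j => (p' j : K)) u hu1 hpq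
      (fun j => (hO _).1 (p' j).2)
    calc _ ≤ (v u)⁻¹ * 1 := mul_le_mul h11 (pow_le_one₀ (v.nonneg _) ((hO _).1 (s' j).2))
          (by positivity) (by positivity)
      _ < 1 := by rw [mul_one]; exact hlt1
  · have : p' j0 = 1 := Subtype.ext (div_self hu0)
    change r (p' j0) = 1
    rw [this, map_one]
  · intro i hi
    rw [hred i]
    exact hS i hi
  · intro i hi
    rw [hred i]
    exact hnS i hi
  · intro j hj
    simp only [hred]
    exact hsum j hj

end RD
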