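import Mathlib
import Pool.Agent.RD.Targets

set_option autoImplicit false

/-! RD-DBL: duplication of a point which is not near the critical set of the cubic modulo 2. -/

namespace RD

open WeierstrassCurve.Affine

universe u

namespace DBL_

variable {K : Type u} [Field K] {v : AbsoluteValue K ℝ}

lemma vadd_le (h : IsNonarchimedean v) {x y : K} {r : ℝ} (hx : v x ≤ r) (hy : v y ≤ r) :
    v (x + y) ≤ r := (h x y).trans (max_le hx hy)

lemma vadd_lt (h : IsNonarchimedean v) {x y : K} {r : ℝ} (hx : v x < r) (hy : v y < r) :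
    v (x + y) < r := (h x y).trans_lt (max_lt hx hy)

lemma vsub_lt (h : IsNonarchimedean v) {x y : K} {r : ℝ} (hx : v x < r) (hy : v y < r) :
    v (x - y) < r := by
  rw [sub_eq_add_neg]
  exact vadd_lt h hx (by rwa [v.map_neg])

lemma vsub_eq (h : IsNonarchimedean v) {x y : K} (hxy : v y < v x) : v (x - y) = v x := by
  apply le_antisymm
  · rw [sub_eq_add_neg]
    exact vadd_le h le_rfl (by rw [v.map_neg]; exact hxy.le)
  · by_contra hc
    push Not at hc
    have h1 : v ((x - y) + y) < v x := vadd_lt h hc hxy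
    rw [sub_add_cancel] at h1
    exact lt_irrefl _ h1

lemma core [CharZero K] {R : ℝ} {a2 a4 a6 : K} (H : Ctx v R a2 a4 a6) {x y m x3 y3 : K}
    (hy : y ^ 2 = ff a2 a4 a6 x) (hy0 : y ≠ 0)
    (hyp : v (4 * ff a2 a4 a6 x) * max R (v x) < v (fd a2 a4 x) ^ 2)
    (hm : m = fd a2 a4 x / (2 * y)) (hx3 : x3 = m ^ 2 - a2 - x - x)
    (hy3 : y3 = -(m * (x3 - x) + y)) :
    R < v x3 ∧ v (x3 / y3 + 2 * y / fd a2 a4 x) < v (2 * y / fd a2 a4 x) := by
  have hna := H.na
  have h2y : (2 : K) * y ≠ 0 := mul_ne_zero two_ne_zero hy0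
  obtain ⟨A, hA⟩ : ∃ A, A = max R (v x) := ⟨_, rfl⟩
  have hRA : R ≤ A := hA ▸ le_max_left _ _
  have hxA : v x ≤ A := hA ▸ le_max_right _ _
  have hA1 : 1 ≤ A := H.one_le.trans hRA
  have hR0 : 0 ≤ R := zero_le_one.trans H.one_le
  have hA0 : 0 ≤ A := hR0.trans hRA
  have hvx : 0 ≤ v x := v.nonneg x
  have e1 : v (4 * ff a2 a4 a6 x) = v (2 * y) ^ 2 := by
    rw [← hy, ← map_pow]
    congr 1
    ring
  have hv2y : 0 < v (2 * y) := v.pos h2y
  have hm2 : A < v m ^ 2 := by
    rw [e1, ← hA] at hyp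
    rw [hm, map_div₀, div_pow, lt_div_iff₀ (by positivity)]
    linarith
  have hm0 : m ≠ 0 := by
    intro h0
    rw [h0] at hm2
    simp at hm2
    linarith
  have hvm : 0 < v m := v.pos hm0
  have hfd : fd a2 a4 x ≠ 0 := by
    intro h0
    rw [h0, zero_div] at hm
    exact hm0 hm
  have hinv : 2 * y / fd a2 a4 x = 1 / m := by
    rw [hm]
    field_simp
  -- x3
  have hx3v : v x3 = v m ^ 2 := by
    have h1 : x3 = m ^ 2 - (a2 + (x + x)) := by rw [hx3]; ring
    have h2 : v (m ^ 2) = v m ^ 2 := map_pow _ _ _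
    rw [h1, ← h2]
    apply vsub_eq hna
    rw [h2]
    exact (vadd_le hna (H.h2.trans hRA) (vadd_le hna hxA hxA)).trans_lt hm2
  -- y
  have hy2 : v y ^ 2 ≤ A ^ 3 := by
    rw [← map_pow, hy, ff]
    refine vadd_le hna (vadd_le hna (vadd_le hna ?_ ?_) ?_) ?_
    · rw [map_pow]
      exact pow_le_pow_left₀ hvx hxA 3
    · rw [map_mul, map_pow]
      calc v a2 * v x ^ 2 ≤ A * A ^ 2 := by
            apply mul_le_mul (H.h2.trans hRA) (pow_le_pow_left₀ hvx hxA 2) (by positivity) hA0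
        _ = A ^ 3 := by ring
    · rw [map_mul]
      calc v a4 * v x ≤ A ^ 2 * A := by
            apply mul_le_mul (H.h4.trans (pow_le_pow_left₀ hR0 hRA 2)) hxA hvx (by positivity)
        _ = A ^ 3 := by ring
    · exact H.h6.trans (pow_le_pow_left₀ hR0 hRA 3)
  have hyv : v y < v m ^ 3 := by
    apply lt_of_pow_lt_pow_left₀ 2 (by positivity)
    calc v y ^ 2 ≤ A ^ 3 := hy2
      _ < (v m ^ 2) ^ 3 := pow_lt_pow_left₀ hm2 hA0 (by norm_num)
      _ = (v m ^ 3) ^ 2 := by ring
  have hmx : v (m * x) < v m ^ 3 := by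
    rw [map_mul]
    calc v m * v x ≤ v m * A := mul_le_mul_of_nonneg_left hxA hvm.le
      _ < v m * v m ^ 2 := mul_lt_mul_of_pos_left hm2 hvm
      _ = v m ^ 3 := by ring
  have hnum : v (m * x - y) < v m ^ 3 := vsub_lt hna hmx hyv
  have hmx3 : v (m * x3) = v m ^ 3 := by
    rw [map_mul, hx3v]
    ring
  have hy3v : v y3 = v m ^ 3 := by
    have h1 : y3 = -(m * x3 - (m * x - y)) := by rw [hy3]; ring
    rw [h1, v.map_neg, vsub_eq hna (by rw [hmx3]; exact hnum), hmx3]
  have hy30 : y3 ≠ 0 := by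
    intro h0
    rw [h0, map_zero] at hy3v
    have : 0 < v m ^ 3 := by positivity
    linarith
  refine ⟨by rw [hx3v]; exact hRA.trans_lt hm2, ?_⟩
  rw [hinv]
  have h1 : x3 / y3 + 1 / m = (m * x - y) / (m * y3) := by
    have h2 : m * x - y = m * x3 + y3 := by rw [hy3]; ring
    rw [h2]
    field_simp
  rw [h1, map_div₀, map_div₀, map_one, map_mul, hy3v, div_lt_div_iff₀ (by positivity) hvm, one_mul]
  calc v (m * x - y) * v m < v m ^ 3 * v m := mul_lt_mul_of_pos_right hnum hvm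
    _ = v m * v m ^ 3 := by ring

end DBL_

open DBL_ in
theorem p_DBL : T_DBL.{u} := by
  intro K _ _ _ v R a2 a4 a6 H x y h hyp
  have heq : y ^ 2 = ff a2 a4 a6 x := by
    have h1 := (equation_iff _ _).1 h.1
    simpa [ff] using h1
  by_cases hy0 : y = 0
  · have h1 : 2 • Point.some x y h = (0 : (curve a2 a4 a6).Point) := by
      rw [two_nsmul]
      apply Point.add_self_of_Y_eq
      simp [negY, hy0]
    rw [h1]
    exact ⟨trivial, Or.inl ⟨hy0, rfl⟩⟩
  · have hne : y ≠ (curve a2 a4 a6).negY x y := by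
      intro h1
      simp only [negY, zero_mul, sub_zero] at h1
      apply hy0
      have h2 : (2 : K) * y = 0 := by linear_combination h1
      exact (mul_eq_zero.1 h2).resolve_left two_ne_zero
    have hsl : (curve a2 a4 a6).slope x x y y = fd a2 a4 x / (2 * y) := by
      rw [slope_of_Y_ne rfl hne]
      simp only [negY, zero_mul, sub_zero, fd]
      congr 1
      ring
    rw [two_nsmul, Point.add_self_of_Y_ne hne]
    obtain ⟨h1, h2⟩ := core (x3 := (curve a2 a4 a6).addX x x ((curve a2 a4 a6).slope x x y y))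
      (y3 := (curve a2 a4 a6).addY x x y ((curve a2 a4 a6).slope x x y y)) H heq hy0 hyp hsl
      (by simp only [addX]; ring) (by simp only [addY, negAddY, negY]; ring)
    exact ⟨h1, Or.inr h2⟩

end RD
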