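import Pool.Agent.RD.Targets

set_option autoImplicit false

/-! END: the multiplier of an algebraic endomorphism. -/

namespace RD

open Polynomial WeierstrassCurve.Affine

universe u

namespace END_

variable {K : Type u} [Field K]

theorem pbound (v : AbsoluteValue K ℝ) (F : K[X]) :
    ∃ M : ℝ, 0 ≤ M ∧ ∀ x, 1 ≤ v x → v (F.eval x) ≤ M * v x ^ F.natDegree := by
  refine ⟨∑ i ∈ Finset.range (F.natDegree + 1), v (F.coeff i),
    Finset.sum_nonneg fun i _ => v.nonneg _, fun x hx => ?_⟩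
  rw [eval_eq_sum_range, Finset.sum_mul]
  refine (v.sum_le _ _).trans (Finset.sum_le_sum fun i hi => ?_)
  rw [v.map_mul, v.map_pow]
  refine mul_le_mul_of_nonneg_left ?_ (v.nonneg _)
  exact pow_le_pow_right₀ hx (Nat.lt_succ_iff.1 (Finset.mem_range.1 hi))

theorem lead (v : AbsoluteValue K ℝ) (F : K[X]) :
    ∃ M : ℝ, 0 ≤ M ∧ ∀ x, 1 ≤ v x →
      v (F.eval x - F.leadingCoeff * x ^ F.natDegree) * v x ≤ M * v x ^ F.natDegree := by
  obtain ⟨M, hM, h⟩ := pbound v F.eraseLead
  refine ⟨M, hM, fun x hx => ?_⟩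
  have e : F.eval x - F.leadingCoeff * x ^ F.natDegree = F.eraseLead.eval x := by
    have h1 := congrArg (eval x) F.eraseLead_add_C_mul_X_pow
    simp only [eval_add, eval_mul, eval_C, eval_pow, eval_X] at h1
    linear_combination -h1
  rw [e]
  have hx0 : (0 : ℝ) < v x := lt_of_lt_of_le one_pos hx
  rcases Nat.eq_zero_or_pos F.natDegree with h0 | h0
  · have : F.eraseLead = 0 := by
      rw [eq_C_of_natDegree_eq_zero h0]
      simp
    rw [this]
    simp only [eval_zero, v.map_zero, zero_mul]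
    positivity
  · have h1 : F.eraseLead.natDegree + 1 ≤ F.natDegree := by
      have := F.eraseLead_natDegree_le
      omega
    calc v (F.eraseLead.eval x) * v x ≤ (M * v x ^ F.eraseLead.natDegree) * v x :=
          mul_le_mul_of_nonneg_right (h x hx) hx0.le
      _ = M * v x ^ (F.eraseLead.natDegree + 1) := by ring
      _ ≤ M * v x ^ F.natDegree :=
          mul_le_mul_of_nonneg_left (pow_le_pow_right₀ hx h1) hM

theorem eq_of_close {v : AbsoluteValue K ℝ} (hv : IsNonarchimedean v) {a b : K}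
    (h : v (a - b) < v b) : v a = v b := by
  have h1 : v a ≤ max (v (a - b)) (v b) := by
    have := hv (a - b) b
    rwa [sub_add_cancel] at this
  have h2 : v b ≤ max (v (b - a)) (v a) := by
    have := hv (b - a) a
    rwa [sub_add_cancel] at this
  rw [v.map_sub] at h2
  rw [max_eq_right h.le] at h1
  rcases le_max_iff.1 h2 with h3 | h3
  · exact absurd h3 (not_le.2 h)
  · exact le_antisymm h1 h3

theorem big {v : AbsoluteValue K ℝ} (hv : IsNonarchimedean v) (F : K[X]) (hF : F ≠ 0) :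
    ∃ M : ℝ, 1 ≤ M ∧ ∀ x, M < v x → v (F.eval x) = v F.leadingCoeff * v x ^ F.natDegree ∧
      v (F.eval x - F.leadingCoeff * x ^ F.natDegree) * v x ≤ M * v x ^ F.natDegree := by
  obtain ⟨M, hM, h⟩ := lead v F
  have hl : 0 < v F.leadingCoeff := v.pos (leadingCoeff_ne_zero.2 hF)
  refine ⟨max (max 1 M) (M / v F.leadingCoeff), (le_max_left 1 M).trans (le_max_left _ _),
    fun x hx => ?_⟩
  have h1 : 1 < v x := lt_of_le_of_lt ((le_max_left 1 M).trans (le_max_left _ _)) hx
  have h2 : M / v F.leadingCoeff < v x := lt_of_le_of_lt (le_max_right _ _) hx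
  have hx0 : (0 : ℝ) < v x := lt_trans one_pos h1
  have h3 := h x h1.le
  have h4 : (0 : ℝ) < v x ^ F.natDegree := by positivity
  refine ⟨?_, h3.trans (mul_le_mul_of_nonneg_right
    ((le_max_right 1 M).trans (le_max_left _ _)) h4.le)⟩
  have h5 : v (F.eval x - F.leadingCoeff * x ^ F.natDegree) <
      v (F.leadingCoeff * x ^ F.natDegree) := by
    rw [v.map_mul, v.map_pow]
    rw [div_lt_iff₀ hl] at h2
    have h6 : v (F.eval x - F.leadingCoeff * x ^ F.natDegree) * v x <
        (v F.leadingCoeff * v x ^ F.natDegree) * v x := by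
      calc _ ≤ M * v x ^ F.natDegree := h3
        _ < (v x * v F.leadingCoeff) * v x ^ F.natDegree := mul_lt_mul_of_pos_right h2 h4
        _ = _ := by ring
    exact lt_of_mul_lt_mul_right h6 hx0.le
  rw [eq_of_close hv h5, v.map_mul, v.map_pow]

theorem ycube {v : AbsoluteValue K ℝ} {R : ℝ} {a2 a4 a6 : K} (hc : Ctx v R a2 a4 a6) {x y : K}
    (h : (curve a2 a4 a6).Nonsingular x y) (hx : R < v x) : v y ^ 2 = v x ^ 3 := by
  have hE := (WeierstrassCurve.Affine.equation_iff _ _).1 h.1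
  simp only at hE
  have hE' : y ^ 2 = x ^ 3 + a2 * x ^ 2 + a4 * x + a6 := by linear_combination hE
  have hR0 : 0 < R := lt_of_lt_of_le one_pos hc.one_le
  have hx0 : 0 < v x := lt_trans hR0 hx
  have h1 : v (a2 * x ^ 2) < v x ^ 3 := by
    rw [v.map_mul, v.map_pow]
    calc v a2 * v x ^ 2 ≤ R * v x ^ 2 := mul_le_mul_of_nonneg_right hc.h2 (by positivity)
      _ < v x * v x ^ 2 := mul_lt_mul_of_pos_right hx (by positivity)
      _ = v x ^ 3 := by ring
  have h2 : v (a4 * x) < v x ^ 3 := by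
    rw [v.map_mul]
    calc v a4 * v x ≤ R ^ 2 * v x := mul_le_mul_of_nonneg_right hc.h4 hx0.le
      _ < v x ^ 2 * v x := mul_lt_mul_of_pos_right (pow_lt_pow_left₀ hx hR0.le two_ne_zero) hx0
      _ = v x ^ 3 := by ring
  have h3 : v a6 < v x ^ 3 := lt_of_le_of_lt hc.h6 (pow_lt_pow_left₀ hx hR0.le three_ne_zero)
  have h4 : v (y ^ 2 - x ^ 3) < v (x ^ 3) := by
    have e : y ^ 2 - x ^ 3 = (a2 * x ^ 2 + a4 * x) + a6 := by rw [hE']; ring
    rw [e, v.map_pow]
    refine lt_of_le_of_lt (hc.na _ _) (max_lt ?_ h3)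
    exact lt_of_le_of_lt (hc.na _ _) (max_lt h1 h2)
  have h5 := eq_of_close hc.na h4
  rw [v.map_pow, v.map_pow] at h5
  exact h5

/-- basic facts on a point of `E_R` -/
theorem facts {v : AbsoluteValue K ℝ} {R : ℝ} {a2 a4 a6 : K} (hc : Ctx v R a2 a4 a6) {x y : K}
    (h : (curve a2 a4 a6).Nonsingular x y) (hx : R < v x) :
    0 < v x ∧ 0 < v y ∧ x ≠ 0 ∧ y ≠ 0 ∧ v (x / y) ^ 2 * v x = 1 := by
  have hR0 : 0 < R := lt_of_lt_of_le one_pos hc.one_le
  have hx0 : 0 < v x := lt_trans hR0 hx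
  have hy := ycube hc h hx
  have hy0 : 0 < v y := by
    rcases (v.nonneg y).lt_or_eq with h1 | h1
    · exact h1
    · rw [← h1] at hy
      have : (0 : ℝ) < v x ^ 3 := by positivity
      rw [← hy] at this
      norm_num at this
  refine ⟨hx0, hy0, (v.pos_iff).1 hx0, (v.pos_iff).1 hy0, ?_⟩
  rw [map_div₀, div_pow, hy]
  field_simp

theorem zz_some {a2 a4 a6 x y : K} (h : (curve a2 a4 a6).Nonsingular x y) :
    zz (WeierstrassCurve.Affine.Point.some x y h) = x / y := rfl

/-- points with large abscissa -/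
theorem large [CharZero K] [DecidableEq K] {v : AbsoluteValue K ℝ} {R : ℝ} {a2 a4 a6 : K}
    (h1 : T_NSM.{u}) (hc : Ctx v R a2 a4 a6)
    (hP : ∃ P : (curve a2 a4 a6).Point, P ≠ 0 ∧ InE v R P) (N : ℝ) :
    ∃ (x y : K) (_ : (curve a2 a4 a6).Nonsingular x y), N < v x ∧ R < v x := by
  obtain ⟨P, hP0, hPE⟩ := hP
  obtain ⟨n1, -, n3⟩ := h1 K v R a2 a4 a6 hc P hPE
  rcases P with _ | ⟨x, y, h⟩
  · exact absurd rfl hP0
  have hx : R < v x := hPE
  obtain ⟨hx0, hy0, hx', hy', hz⟩ := facts hc h hx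
  have hzp : 0 < v (x / y) := v.pos (div_ne_zero hx' hy')
  have h2 : (2 : K) ≠ 0 := two_ne_zero
  have h2p : 0 < v 2 := v.pos h2
  have hzl : ∀ l : ℕ, v (zz ((2 ^ l) • (Point.some x y h : (curve a2 a4 a6).Point))) =
      v 2 ^ l * v (x / y) := by
    intro l
    have h3 := n3 (2 ^ l) (by positivity) hP0
    rw [zz_some] at h3
    have h4 : v (zz ((2 ^ l) • (Point.some x y h : (curve a2 a4 a6).Point)) -
        ((2 ^ l : ℕ) : K) * (x / y)) < v (((2 ^ l : ℕ) : K) * (x / y)) := by
      rw [v.map_mul]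
      exact h3
    rw [eq_of_close hc.na h4, v.map_mul]
    push_cast
    rw [v.map_pow]
  obtain ⟨l, hl⟩ := exists_pow_lt_of_lt_one (y := v 2)
    (x := 1 / ((max N 1) * v (x / y) ^ 2)) (by positivity) hc.two
  have hQE := n1 (2 ^ l)
  have hzQ := hzl l
  rcases hQ : (2 ^ l) • (Point.some x y h : (curve a2 a4 a6).Point) with _ | ⟨x', y', h'⟩
  · rw [hQ] at hzQ
    have e : v (zz (Point.zero : (curve a2 a4 a6).Point)) = 0 := v.map_zero
    rw [e] at hzQ
    have : 0 < v 2 ^ l * v (x / y) := by positivity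
    rw [← hzQ] at this
    exact absurd this (lt_irrefl _)
  · rw [hQ] at hQE hzQ
    have hx1 : R < v x' := hQE
    rw [zz_some] at hzQ
    obtain ⟨hx0', -, -, -, hz'⟩ := facts hc h' hx1
    refine ⟨x', y', h', ?_, hx1⟩
    have hN : 0 < max N 1 := lt_of_lt_of_le one_pos (le_max_right _ _)
    have h2l : v 2 ^ l ≤ 1 := pow_le_one₀ h2p.le hc.two.le
    have h5 : v (x' / y') ^ 2 * max N 1 < 1 := by
      rw [hzQ]
      rw [lt_div_iff₀ (by positivity)] at hl
      calc (v 2 ^ l * v (x / y)) ^ 2 * max N 1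
          = v 2 ^ l * (v 2 ^ l * (max N 1 * v (x / y) ^ 2)) := by ring
        _ < v 2 ^ l * 1 := mul_lt_mul_of_pos_left hl (by positivity)
        _ ≤ 1 := by rw [mul_one]; exact h2l
    have h6 : max N 1 < v x' := by
      by_contra h7
      push Not at h7
      have : v (x' / y') ^ 2 * v x' ≤ v (x' / y') ^ 2 * max N 1 :=
        mul_le_mul_of_nonneg_left h7 (by positivity)
      linarith
    exact lt_of_le_of_lt (le_max_left _ _) h6

end END_

open END_ in
theorem p_END (h1 : T_NSM.{u}) : T_END.{u} := by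
  intro K _ _ _ v R a2 a4 a6 hc ω hω hex
  obtain ⟨A, B, C, D, s, hB, hD, hdeg, hs⟩ := hω
  have hA : A ≠ 0 := by
    rintro rfl
    simp at hdeg
  obtain ⟨MA, hMA1, hMA⟩ := big hc.na A hA
  obtain ⟨MB, hMB1, hMB⟩ := big hc.na B hB
  have hlA : 0 < v A.leadingCoeff := v.pos (leadingCoeff_ne_zero.2 hA)
  have hlB : 0 < v B.leadingCoeff := v.pos (leadingCoeff_ne_zero.2 hB)
  have hR0 : 0 < R := lt_of_lt_of_le one_pos hc.one_le
  -- the first bound
  obtain ⟨B0, hB0R, hB0A, hB0B, hB0q, hB0s⟩ : ∃ B0 : ℝ, R ≤ B0 ∧ MA ≤ B0 ∧ MB ≤ B0 ∧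
      R * v B.leadingCoeff / v A.leadingCoeff ≤ B0 ∧ ∀ x ∈ s, v x ≤ B0 := by
    refine ⟨max (max R (max MA (max MB (R * v B.leadingCoeff / v A.leadingCoeff))))
      (∑ x ∈ s, v x), ?_, ?_, ?_, ?_, ?_⟩
    · exact (le_max_left _ _).trans (le_max_left _ _)
    · exact ((le_max_left _ _).trans (le_max_right _ _)).trans (le_max_left _ _)
    · exact (((le_max_left _ _).trans (le_max_right _ _)).trans (le_max_right _ _)).trans
        (le_max_left _ _)
    · exact (((le_max_right _ _).trans (le_max_right _ _)).trans (le_max_right _ _)).trans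
        (le_max_left _ _)
    · intro x hx
      exact (Finset.single_le_sum (f := fun x => v x) (fun i _ => v.nonneg i) hx).trans
        (le_max_right _ _)
  have main : ∀ (x y : K) (h : (curve a2 a4 a6).Nonsingular x y), B0 < v x →
      ∃ (x' y' : K) (h' : (curve a2 a4 a6).Nonsingular x' y'),
        ω (Point.some x y h) = Point.some x' y' h' ∧ R < v x' ∧
        A.eval x ≠ 0 ∧ B.eval x ≠ 0 ∧ C.eval x ≠ 0 ∧ D.eval x ≠ 0 ∧
        x' / y' = (A * D).eval x / (X * B * C).eval x * (x / y) := by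
    intro x y h hx
    have hxs : x ∉ s := fun hmem => absurd (hB0s x hmem) (not_le.2 hx)
    obtain ⟨h', he⟩ := hs x y h hxs
    have hx0 : 0 < v x := lt_trans hR0 (lt_of_le_of_lt hB0R hx)
    have hx1 : 1 ≤ v x := hc.one_le.trans (hB0R.trans hx.le)
    have eA := (hMA x (lt_of_le_of_lt hB0A hx)).1
    have eB := (hMB x (lt_of_le_of_lt hB0B hx)).1
    have hBx : 0 < v (B.eval x) := by rw [eB]; positivity
    have hAx : 0 < v (A.eval x) := by rw [eA]; positivity
    have hR' : R < v (A.eval x / B.eval x) := by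
      rw [map_div₀, lt_div_iff₀ hBx, eA, eB]
      have h3 : v x ^ (B.natDegree + 1) ≤ v x ^ A.natDegree := pow_le_pow_right₀ hx1 hdeg
      have h4 : R * v B.leadingCoeff < v x * v A.leadingCoeff := by
        have := lt_of_le_of_lt hB0q hx
        rwa [div_lt_iff₀ hlA] at this
      have h5 : 0 < v x ^ B.natDegree := by positivity
      calc R * (v B.leadingCoeff * v x ^ B.natDegree)
          = (R * v B.leadingCoeff) * v x ^ B.natDegree := by ring
        _ < (v x * v A.leadingCoeff) * v x ^ B.natDegree := mul_lt_mul_of_pos_right h4 h5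
        _ = v A.leadingCoeff * v x ^ (B.natDegree + 1) := by ring
        _ ≤ v A.leadingCoeff * v x ^ A.natDegree := mul_le_mul_of_nonneg_left h3 hlA.le
    obtain ⟨-, -, hx'0, hy'0, -⟩ := facts hc h' hR'
    obtain ⟨-, -, hxx, hyy, -⟩ := facts hc h (lt_of_le_of_lt hB0R hx)
    have hCD : C.eval x / D.eval x ≠ 0 := right_ne_zero_of_mul hy'0
    have hC : C.eval x ≠ 0 := fun h0 => hCD (by rw [h0, zero_div])
    have hD' : D.eval x ≠ 0 := fun h0 => hCD (by rw [h0, div_zero])
    have hB' : B.eval x ≠ 0 := (v.pos_iff).1 hBx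
    refine ⟨_, _, h', he, hR', (v.pos_iff).1 hAx, hB', hC, hD', ?_⟩
    simp only [eval_mul, eval_X]
    field_simp
  -- the polynomials
  have hC0 : C ≠ 0 := by
    obtain ⟨x, y, h, hx, -⟩ := large h1 hc hex B0
    obtain ⟨-, -, -, -, -, -, -, hC, -⟩ := main x y h hx
    rintro rfl
    exact hC eval_zero
  set F1 := A * D with hF1
  set F2 := X * B * C with hF2
  have hF10 : F1 ≠ 0 := mul_ne_zero hA hD
  have hF20 : F2 ≠ 0 := mul_ne_zero (mul_ne_zero X_ne_zero hB) hC0
  obtain ⟨M1, hM11, hM1⟩ := big hc.na F1 hF10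
  obtain ⟨M2, hM21, hM2⟩ := big hc.na F2 hF20
  have hl1 : 0 < v F1.leadingCoeff := v.pos (leadingCoeff_ne_zero.2 hF10)
  have hl2 : 0 < v F2.leadingCoeff := v.pos (leadingCoeff_ne_zero.2 hF20)
  have h2p : 0 < v 2 := v.pos two_ne_zero
  set B1 := max B0 (max M1 M2) with hB1
  have hB10 : B0 ≤ B1 := le_max_left _ _
  have hB11 : M1 ≤ B1 := (le_max_left _ _).trans (le_max_right _ _)
  have hB12 : M2 ≤ B1 := (le_max_right _ _).trans (le_max_right _ _)
  have hval : ∀ x, B1 < v x → v (F1.eval x / F2.eval x) =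
      (v F1.leadingCoeff * v x ^ F1.natDegree) / (v F2.leadingCoeff * v x ^ F2.natDegree) := by
    intro x hx
    rw [map_div₀, (hM1 x (lt_of_le_of_lt hB11 hx)).1, (hM2 x (lt_of_le_of_lt hB12 hx)).1]
  have hdouble : ∀ (P : (curve a2 a4 a6).Point), P ≠ 0 → InE v R P →
      InE v R (2 • P) ∧ v (zz (2 • P)) = v 2 * v (zz P) := by
    intro P hP hPE
    obtain ⟨n1, -, n3⟩ := h1 K v R a2 a4 a6 hc P hPE
    refine ⟨n1 2, ?_⟩
    have h3 := n3 2 two_ne_zero hP
    have h4 : v (zz (2 • P) - ((2 : ℕ) : K) * zz P) < v (((2 : ℕ) : K) * zz P) := by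
      rw [v.map_mul]
      exact h3
    rw [eq_of_close hc.na h4, v.map_mul]
    push_cast
    rfl
  have hn : F1.natDegree = F2.natDegree := by
    obtain ⟨x, y, h, hx, hxR⟩ := large h1 hc hex B1
    obtain ⟨hx0, hy0, hx', hy', hz⟩ := facts hc h hxR
    have hP0 : (Point.some x y h : (curve a2 a4 a6).Point) ≠ 0 := Point.some_ne_zero h
    obtain ⟨hE2, hz2⟩ := hdouble _ hP0 hxR
    have hzp : 0 < v (x / y) := v.pos (div_ne_zero hx' hy')
    obtain ⟨x', y', h', he, hR', -, -, -, -, hρ⟩ := main x y h (lt_of_le_of_lt hB10 hx)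
    have hω0 : ω (Point.some x y h) ≠ 0 := by rw [he]; exact Point.some_ne_zero h'
    have hωE : InE v R (ω (Point.some x y h)) := by rw [he]; exact hR'
    obtain ⟨-, hz3⟩ := hdouble _ hω0 hωE
    rw [← map_nsmul] at hz3
    rcases hQ : 2 • (Point.some x y h : (curve a2 a4 a6).Point) with _ | ⟨u, w, hu⟩
    · rw [hQ] at hz2
      have e : v (zz (Point.zero : (curve a2 a4 a6).Point)) = 0 := v.map_zero
      rw [e, zz_some] at hz2
      have : 0 < v 2 * v (x / y) := by positivity
      rw [← hz2] at this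
      exact absurd this (lt_irrefl _)
    · rw [hQ] at hE2 hz2 hz3
      have huR : R < v u := hE2
      obtain ⟨hu0, hw0, hu', hw', hzu⟩ := facts hc hu huR
      rw [zz_some, zz_some] at hz2
      have hvu : v u * v 2 ^ 2 = v x := by
        have e1 : (v 2 * v (x / y)) ^ 2 * v u = v (x / y) ^ 2 * v x := by
          rw [← hz2, hzu, hz]
        have e2 : v (x / y) ^ 2 * (v u * v 2 ^ 2) = v (x / y) ^ 2 * v x := by
          rw [← e1]; ring
        exact mul_left_cancel₀ (by positivity) e2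
      have h2sq : v 2 ^ 2 < 1 := pow_lt_one₀ h2p.le hc.two two_ne_zero
      have hux : v x < v u := by
        rw [← hvu]
        calc v u * v 2 ^ 2 < v u * 1 := mul_lt_mul_of_pos_left h2sq hu0
          _ = v u := mul_one _
      obtain ⟨u', w', hu'', heu, hRu, -, -, -, -, hρu⟩ :=
        main u w hu (lt_of_le_of_lt hB10 (lt_trans hx hux))
      rw [heu, he, zz_some, zz_some, hρ, hρu, v.map_mul, v.map_mul, hz2,
        hval x hx, hval u (lt_trans hx hux)] at hz3
      have e3 : (v F1.leadingCoeff * v u ^ F1.natDegree) / (v F2.leadingCoeff *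
          v u ^ F2.natDegree) = (v F1.leadingCoeff * v x ^ F1.natDegree) /
          (v F2.leadingCoeff * v x ^ F2.natDegree) := by
        have e4 : v 2 * v (x / y) ≠ 0 := by positivity
        apply mul_right_cancel₀ e4
        rw [hz3]
        ring
      rw [div_eq_div_iff (by positivity) (by positivity)] at e3
      have e5 : v u ^ F1.natDegree * v x ^ F2.natDegree =
          v x ^ F1.natDegree * v u ^ F2.natDegree := by
        have e6 : v F1.leadingCoeff * v F2.leadingCoeff ≠ 0 := by positivity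
        apply mul_left_cancel₀ e6
        linear_combination e3
      have hq : 1 < v u / v x := by
        rw [one_lt_div hx0]
        exact hux
      have e7 : (v u / v x) ^ F1.natDegree = (v u / v x) ^ F2.natDegree := by
        rw [div_pow, div_pow, div_eq_div_iff (by positivity) (by positivity)]
        linear_combination e5
      exact (pow_right_strictMono₀ hq).injective e7
  -- the multiplier
  refine ⟨F1.leadingCoeff / F2.leadingCoeff, B1,
    max (M1 * v F2.leadingCoeff) (M2 * v F1.leadingCoeff) /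
      (v F2.leadingCoeff * v F2.leadingCoeff),
    div_ne_zero (leadingCoeff_ne_zero.2 hF10) (leadingCoeff_ne_zero.2 hF20),
    hB0R.trans hB10, by positivity, fun P hP hPB => ?_⟩
  rcases P with _ | ⟨x, y, h⟩
  · exact absurd rfl hP
  have hx : B1 < v x := hPB
  obtain ⟨x', y', h', he, hR', -, -, -, -, hρ⟩ := main x y h (lt_of_le_of_lt hB10 hx)
  obtain ⟨hx0, hy0, hx', hy', hz⟩ := facts hc h (lt_of_le_of_lt (hB0R.trans hB10) hx)
  refine ⟨by rw [he]; exact hR', by rw [he]; exact Point.some_ne_zero h', ?_⟩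
  rw [he, zz_some, zz_some, hρ]
  obtain ⟨q1, q2⟩ := hM1 x (lt_of_le_of_lt hB11 hx)
  obtain ⟨q3, q4⟩ := hM2 x (lt_of_le_of_lt hB12 hx)
  rw [hn] at q1 q2
  set n := F2.natDegree with hndef
  have hxn : 0 < v x ^ n := by positivity
  have hF2x : 0 < v (F2.eval x) := by rw [q3]; positivity
  have hF2x' : F2.eval x ≠ 0 := (v.pos_iff).1 hF2x
  have hl2' : F2.leadingCoeff ≠ 0 := leadingCoeff_ne_zero.2 hF20
  have e1 : F1.eval x / F2.eval x * (x / y) - F1.leadingCoeff / F2.leadingCoeff * (x / y) =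
      (((F1.eval x - F1.leadingCoeff * x ^ n) * F2.leadingCoeff +
        (-((F2.eval x - F2.leadingCoeff * x ^ n) * F1.leadingCoeff))) /
        (F2.eval x * F2.leadingCoeff)) * (x / y) := by
    field_simp
    ring
  rw [e1, v.map_mul, map_div₀, v.map_mul (F2.eval x), q3]
  have hzp : 0 < v (x / y) := v.pos (div_ne_zero hx' hy')
  have e2 : v ((F1.eval x - F1.leadingCoeff * x ^ n) * F2.leadingCoeff +
      (-((F2.eval x - F2.leadingCoeff * x ^ n) * F1.leadingCoeff))) * v x ≤
      max (M1 * v F2.leadingCoeff) (M2 * v F1.leadingCoeff) * v x ^ n := by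
    have e3 := hc.na ((F1.eval x - F1.leadingCoeff * x ^ n) * F2.leadingCoeff)
      (-((F2.eval x - F2.leadingCoeff * x ^ n) * F1.leadingCoeff))
    rw [v.map_neg, v.map_mul, v.map_mul] at e3
    refine (mul_le_mul_of_nonneg_right e3 hx0.le).trans ?_
    rw [max_mul_of_nonneg _ _ hx0.le, max_mul_of_nonneg _ _ hxn.le]
    refine max_le_max ?_ ?_
    · calc v (F1.eval x - F1.leadingCoeff * x ^ n) * v F2.leadingCoeff * v x
          = (v (F1.eval x - F1.leadingCoeff * x ^ n) * v x) * v F2.leadingCoeff := by ring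
        _ ≤ (M1 * v x ^ n) * v F2.leadingCoeff := mul_le_mul_of_nonneg_right q2 hl2.le
        _ = _ := by ring
    · calc v (F2.eval x - F2.leadingCoeff * x ^ n) * v F1.leadingCoeff * v x
          = (v (F2.eval x - F2.leadingCoeff * x ^ n) * v x) * v F1.leadingCoeff := by ring
        _ ≤ (M2 * v x ^ n) * v F1.leadingCoeff := mul_le_mul_of_nonneg_right q4 hl1.le
        _ = _ := by ring
  have e4 : v ((F1.eval x - F1.leadingCoeff * x ^ n) * F2.leadingCoeff +
      (-((F2.eval x - F2.leadingCoeff * x ^ n) * F1.leadingCoeff))) ≤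
      max (M1 * v F2.leadingCoeff) (M2 * v F1.leadingCoeff) * v x ^ n * v (x / y) ^ 2 := by
    have e5 : v ((F1.eval x - F1.leadingCoeff * x ^ n) * F2.leadingCoeff +
      (-((F2.eval x - F2.leadingCoeff * x ^ n) * F1.leadingCoeff))) =
      v ((F1.eval x - F1.leadingCoeff * x ^ n) * F2.leadingCoeff +
      (-((F2.eval x - F2.leadingCoeff * x ^ n) * F1.leadingCoeff))) * v x * v (x / y) ^ 2 := by
      calc _ = _ * 1 := (mul_one _).symm
        _ = _ * (v (x / y) ^ 2 * v x) := by rw [hz]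
        _ = _ := by ring
    rw [e5]
    exact mul_le_mul_of_nonneg_right e2 (by positivity)
  calc _ ≤ (max (M1 * v F2.leadingCoeff) (M2 * v F1.leadingCoeff) * v x ^ n * v (x / y) ^ 2) /
        (v F2.leadingCoeff * v x ^ n * v F2.leadingCoeff) * v (x / y) := by
        refine mul_le_mul_of_nonneg_right ?_ hzp.le
        exact div_le_div_of_nonneg_right e4 (by positivity)
    _ = _ := by
        field_simp

end RD
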