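import Mathlib
import Pool.Agent.RD.Targets

namespace RD

open MvPolynomial WeierstrassCurve.Affine

universe u

namespace FIN_

lemma eval_hom {R S : Type*} [CommRing R] [CommRing S] {σ : Type*} (r : R →+* S)
    (A : MvPolynomial σ R) (p : σ → R) : eval (fun j => r (p j)) (map r A) = r (eval p A) := by
  have h := eval₂_comp_right r (RingHom.id R) p A
  rw [map_id] at h
  rw [eval_map]
  exact h.symm

lemma exists_lift {K : Type u} [Field K] {v : AbsoluteValue K ℝ} {O : Subring K}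
    (hO : ∀ x, x ∈ O ↔ v x ≤ 1) {σ : Type*} (A : MvPolynomial σ K)
    (hA : ∀ s, v (A.coeff s) ≤ 1) : ∃ A' : MvPolynomial σ O, map O.subtype A' = A := by
  have : A ∈ Set.range (map O.subtype : MvPolynomial σ O →+* MvPolynomial σ K) := by
    rw [MvPolynomial.mem_range_map_iff_coeffs_subset]
    intro y hy
    obtain ⟨s, _, rfl⟩ := MvPolynomial.mem_coeffs_iff.1 (Finset.mem_coe.1 hy)
    exact ⟨⟨A.coeff s, (hO _).2 (hA s)⟩, rfl⟩
  exact this

end FIN_

open FIN_ in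
theorem p_FIN (h1 : T_RFD.{u}) (h2 : T_MAI.{u}) (h3 : T_INF.{u}) (h4 : T_PHM.{u})
    (h5 : T_PHI.{u}) : T_FIN.{u} := by
  intro K _ _ _ v hna hv2 d m D g hmD A2 A4 A6 hint d2 d4 d6
  obtain ⟨O, k, _, _, r, hO, hsurj, hr⟩ := h1 K v hna hv2
  obtain ⟨A2', e2⟩ := exists_lift hO A2 (fun s => (hint s).1)
  obtain ⟨A4', e4⟩ := exists_lift hO A4 (fun s => (hint s).2.1)
  obtain ⟨A6', e6⟩ := exists_lift hO A6 (fun s => (hint s).2.2)
  obtain ⟨Φ1, hΦ1, H1⟩ := h4 k d D g (map r A2') (map r A4') (map r A6')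
  obtain ⟨Φ2, hΦ2, H2⟩ := h5 k d D g
  obtain ⟨Φo, hΦo⟩ := MvPolynomial.map_surjective r hsurj (Φ1 * Φ2)
  have hle : ∀ x : O, v (x : K) ≤ 1 := fun x => (hO x).1 x.2
  refine ⟨map O.subtype Φo, ?_, ?_, ?_⟩
  · intro s
    rw [coeff_map]
    exact hle _
  · have hne : Φ1 * Φ2 ≠ 0 := mul_ne_zero hΦ1 hΦ2
    obtain ⟨s, hs⟩ := MvPolynomial.ne_zero_iff.1 hne
    refine ⟨s, ?_⟩
    rw [coeff_map]
    rw [← hΦo, coeff_map] at hs
    refine le_antisymm (hle _) (not_lt.1 ?_)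
    intro hlt
    exact hs ((hr _).2 hlt)
  · intro c hc hv p P hP hrel
    set c' : Fin g × Mon d D → O := fun u => ⟨c u, (hO _).2 (hc u)⟩ with hc'
    have hev : eval c (map O.subtype Φo) = ((eval c' Φo : O) : K) := eval_hom O.subtype Φo c'
    have hne : r (eval c' Φo) ≠ 0 := by
      intro h0
      rw [hr] at h0
      rw [hev] at hv
      rw [hv] at h0
      exact lt_irrefl _ h0
    rw [← eval_hom r Φo c', hΦo, map_mul] at hne
    have n1 : eval (fun u => r (c' u)) Φ1 ≠ 0 := left_ne_zero_of_mul hne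
    have n2 : eval (fun u => r (c' u)) Φ2 ≠ 0 := right_ne_zero_of_mul hne
    by_cases hp : ∀ j, v (p j) ≤ 1
    · have key : ∀ (p' : Fin d → O) (b2 b4 b6 : K), b2 = ((eval p' A2' : O) : K) →
          b4 = ((eval p' A4' : O) : K) → b6 = ((eval p' A6' : O) : K) →
          ∀ (Q : Fin g → (curve b2 b4 b6).Point),
          (∀ i, ∃ y h, Q i = Point.some (polyVal (fun α => (c' (i, α) : K))
            (fun j => (p' j : K))) y h) →
          (IntRel _ (d + 1) Q ∨ CMRel _ (d + 1) Q) → False := by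
        rintro p' _ _ _ rfl rfl rfl Q hQ hrel'
        obtain ⟨S, J, w, hb⟩ := h2 K v hna hv2 O k r hO hr d D g A2' A4' A6' c' p' Q hQ hrel'
        exact H1 _ n1 _ _ _ _ hb
      refine key (fun j => ⟨p j, (hO _).2 (hp j)⟩) _ _ _ ?_ ?_ ?_ P hP hrel
      · rw [← e2]; exact eval_hom O.subtype A2' (fun j => (⟨p j, (hO _).2 (hp j)⟩ : O))
      · rw [← e4]; exact eval_hom O.subtype A4' (fun j => (⟨p j, (hO _).2 (hp j)⟩ : O))
      · rw [← e6]; exact eval_hom O.subtype A6' (fun j => (⟨p j, (hO _).2 (hp j)⟩ : O))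
    · push Not at hp
      obtain ⟨p', S, J, w, hb⟩ := h3 K v hna hv2 O k r hO hr d m D g hmD A2 A4 A6 hint d2 d4 d6
        c' p P hp hP hrel
      exact H2 _ n2 _ _ _ _ hb

end RD
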