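import Mathlib
import Pool.Agent.RD.Targets

namespace RD

open MvPolynomial WeierstrassCurve.Affine

universe u

namespace MAI_

lemma map_polyVal {R S : Type*} [CommSemiring R] [CommSemiring S] (f : R →+* S) {d D : ℕ}
    (c : Mon d D → R) (p : Fin d → R) :
    f (polyVal c p) = polyVal (fun α => f (c α)) (fun j => f (p j)) := by
  simp [polyVal, map_sum, map_prod]

variable {K : Type u} [Field K] {v : AbsoluteValue K ℝ}

lemma vneg (x : K) : v (-x) = v x := v.map_neg x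

lemma vadd_lt (h : IsNonarchimedean v) {x y : K} {r : ℝ} (hx : v x < r) (hy : v y < r) :
    v (x + y) < r := (h x y).trans_lt (max_lt hx hy)

lemma vadd_le (h : IsNonarchimedean v) {x y : K} {r : ℝ} (hx : v x ≤ r) (hy : v y ≤ r) :
    v (x + y) ≤ r := (h x y).trans (max_le hx hy)

lemma vsub_lt (h : IsNonarchimedean v) {x y : K} {r : ℝ} (hx : v x < r) (hy : v y < r) :
    v (x - y) < r := by
  rw [sub_eq_add_neg]; exact vadd_lt h hx (by rwa [vneg])

lemma vadd_eq (h : IsNonarchimedean v) {x y : K} (hxy : v y < v x) : v (x + y) = v x := by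
  apply le_antisymm
  · exact vadd_le h le_rfl hxy.le
  · by_contra hc
    push Not at hc
    have : v ((x + y) - y) < v x := vsub_lt h hc hxy
    rw [add_sub_cancel_right] at this
    exact lt_irrefl _ this

/-- the local computation at a point with `x ^ 2 + a4` a unit -/
lemma point [CharZero K] [DecidableEq K] (hD : T_DBL.{u}) (hna : IsNonarchimedean v)
    (h2 : v 2 < 1) {a2 a4 a6 : K} (H2 : v a2 ≤ 1) (H4 : v a4 ≤ 1) (H6 : v a6 ≤ 1) {x y : K}
    (h : (curve a2 a4 a6).Nonsingular x y) (hx : v x ≤ 1) (hm : v (x ^ 2 + a4) = 1) :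
    InE v 1 (2 • Point.some x y h) ∧ v (ff a2 a4 a6 x / (x ^ 2 + a4) ^ 2) ≤ 1 ∧
      v (zz (2 • Point.some x y h) ^ 2 - 4 * (ff a2 a4 a6 x / (x ^ 2 + a4) ^ 2)) < v 4 * 1 := by
  have H : Ctx v 1 a2 a4 a6 := ⟨hna, h2, le_rfl, H2, by simpa using H4, by simpa using H6⟩
  have v2pos : 0 < v (2 : K) := v.pos two_ne_zero
  have v4 : v (4 : K) = v 2 * v 2 := by rw [← map_mul]; norm_num
  have v4pos : 0 < v (4 : K) := by rw [v4]; positivity
  have v4lt : v (4 : K) < 1 := by rw [v4]; nlinarith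
  have hu : v (x ^ 2 + a2 * x) ≤ 1 := by
    refine vadd_le hna ?_ ?_
    · rw [map_pow]; exact pow_le_one₀ (v.nonneg _) hx
    · rw [map_mul]; exact mul_le_one₀ H2 (v.nonneg _) hx
  have hfd : fd a2 a4 x = (x ^ 2 + a4) + 2 * (x ^ 2 + a2 * x) := by rw [fd]; ring
  have v2u : v (2 * (x ^ 2 + a2 * x)) < 1 := by
    rw [map_mul]
    calc v 2 * v (x ^ 2 + a2 * x) ≤ v 2 * 1 := by gcongr
      _ < 1 := by linarith
  have hfd1 : v (fd a2 a4 x) = 1 := by
    rw [hfd, vadd_eq hna (by rw [hm]; exact v2u), hm]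
  have hff : v (ff a2 a4 a6 x) ≤ 1 := by
    rw [ff]
    refine vadd_le hna (vadd_le hna (vadd_le hna ?_ ?_) ?_) H6
    · rw [map_pow]; exact pow_le_one₀ (v.nonneg _) hx
    · rw [map_mul, map_pow]
      exact mul_le_one₀ H2 (by positivity) (pow_le_one₀ (v.nonneg _) hx)
    · rw [map_mul]; exact mul_le_one₀ H4 (v.nonneg _) hx
  have hm0 : x ^ 2 + a4 ≠ 0 := by
    intro h0; rw [h0, map_zero] at hm; exact zero_ne_one hm
  have hf0 : fd a2 a4 x ≠ 0 := by
    intro h0; rw [h0, map_zero] at hfd1; exact zero_ne_one hfd1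
  have hG : v (ff a2 a4 a6 x / (x ^ 2 + a4) ^ 2) ≤ 1 := by
    rw [map_div₀, map_pow, hm]; simpa using hff
  have hcond : v (4 * ff a2 a4 a6 x) * max 1 (v x) < v (fd a2 a4 x) ^ 2 := by
    rw [max_eq_left hx, hfd1, map_mul]
    calc v 4 * v (ff a2 a4 a6 x) * 1 ≤ v 4 * 1 * 1 := by gcongr
      _ < 1 ^ 2 := by linarith
  obtain ⟨hE, hcase⟩ := hD K v 1 a2 a4 a6 H x y h hcond
  refine ⟨hE, hG, ?_⟩
  have hyy : y ^ 2 = ff a2 a4 a6 x := by
    have := (equation_iff _ _).1 h.1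
    rw [ff]
    simpa using this
  rcases hcase with ⟨hy, h0⟩ | hest
  · rw [h0]
    have : ff a2 a4 a6 x = 0 := by rw [← hyy, hy]; ring
    rw [this]
    have hz : zz (0 : (curve a2 a4 a6).Point) = 0 := rfl
    rw [hz]
    simp [v.pos_iff]
  · set z := zz (2 • Point.some x y h) with hz
    set δ := z + 2 * y / fd a2 a4 x with hδ
    have hy1 : v y ≤ 1 := by
      have : v y ^ 2 ≤ 1 := by rw [← map_pow, hyy]; exact hff
      nlinarith [v.nonneg y]
    have hq : v (2 * y / fd a2 a4 x) ≤ v 2 := by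
      rw [map_div₀, hfd1, map_mul, div_one]
      calc v 2 * v y ≤ v 2 * 1 := by gcongr
        _ = v 2 := mul_one _
    have hδlt : v δ < v 2 := hest.trans_le hq
    have hexp : z ^ 2 - 4 * (ff a2 a4 a6 x / (x ^ 2 + a4) ^ 2) =
        δ ^ 2 - 2 * δ * (2 * y / fd a2 a4 x) +
          4 * (ff a2 a4 a6 x * (1 / fd a2 a4 x ^ 2 - 1 / (x ^ 2 + a4) ^ 2)) := by
      have : z = δ - 2 * y / fd a2 a4 x := by rw [hδ]; ring
      rw [this, ← hyy]
      field_simp
      ring
    rw [hexp, mul_one]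
    refine vadd_lt hna (vsub_lt hna ?_ ?_) ?_
    · rw [map_pow, v4]
      nlinarith [v.nonneg δ]
    · rw [map_mul, map_mul, v4]
      calc v 2 * v δ * v (2 * y / fd a2 a4 x) ≤ v 2 * v δ * v 2 := by gcongr
        _ = v δ * (v 2 * v 2) := by ring
        _ < 1 * (v 2 * v 2) := by
          have : v δ < 1 := hδlt.trans h2
          gcongr
        _ = v 2 * v 2 := one_mul _
    · rw [map_mul, map_mul]
      have hd1 : v (1 / fd a2 a4 x ^ 2 - 1 / (x ^ 2 + a4) ^ 2) < 1 := by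
        have : 1 / fd a2 a4 x ^ 2 - 1 / (x ^ 2 + a4) ^ 2 =
            -(2 * (x ^ 2 + a2 * x)) * (fd a2 a4 x + (x ^ 2 + a4)) /
              (fd a2 a4 x ^ 2 * (x ^ 2 + a4) ^ 2) := by
          rw [div_sub_div _ _ (pow_ne_zero 2 hf0) (pow_ne_zero 2 hm0)]
          congr 1
          rw [hfd]; ring
        rw [this, map_div₀, map_mul, map_mul, map_pow, map_pow, hfd1, hm, vneg]
        have hs : v (fd a2 a4 x + (x ^ 2 + a4)) ≤ 1 := vadd_le hna hfd1.le hm.le
        calc v (2 * (x ^ 2 + a2 * x)) * v (fd a2 a4 x + (x ^ 2 + a4)) / (1 ^ 2 * 1 ^ 2)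
            = v (2 * (x ^ 2 + a2 * x)) * v (fd a2 a4 x + (x ^ 2 + a4)) := by norm_num
          _ ≤ v (2 * (x ^ 2 + a2 * x)) * 1 := by gcongr
          _ < 1 := by linarith
      calc v 4 * (v (ff a2 a4 a6 x) * v (1 / fd a2 a4 x ^ 2 - 1 / (x ^ 2 + a4) ^ 2))
          ≤ v 4 * (1 * v (1 / fd a2 a4 x ^ 2 - 1 / (x ^ 2 + a4) ^ 2)) := by gcongr
        _ < v 4 * (1 * 1) := by gcongr
        _ = v 4 := by ring


theorem core (h1 : T_DBL.{u}) (h2 : T_LOC.{u}) [CharZero K] [DecidableEq K]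
    (hna : IsNonarchimedean v) (hv2 : v 2 < 1) (O : Subring K) (k : Type u) [Field k]
    (r : O →+* k) (hO : ∀ x, x ∈ O ↔ v x ≤ 1) (hr : ∀ x : O, r x = 0 ↔ v (x : K) < 1)
    (e g : ℕ) (a2 a4 a6 : O) (x : Fin g → O)
    (P : Fin g → (curve (a2 : K) (a4 : K) (a6 : K)).Point)
    (hP : ∀ i, ∃ y h, P i = Point.some (x i : K) y h)
    (hrel : IntRel _ e P ∨ CMRel _ e P) :
    ∃ (S J : Finset (Fin g)) (w : Fin g → Fin g → k), Disjoint J S ∧ e ≤ J.card + S.card ∧
      (∀ i ∈ S, r (x i) ^ 2 + r a4 = 0) ∧ (∀ i, i ∉ S → r (x i) ^ 2 + r a4 ≠ 0) ∧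
      (∀ j ∈ J, ∀ i, w j i ^ 4 = w j i) ∧
      ∀ j ∈ J, ff (r a2) (r a4) (r a6) (r (x j)) / (r (x j) ^ 2 + r a4) ^ 2 =
        ∑ i ∈ (J ∪ S)ᶜ, w j i *
          (ff (r a2) (r a4) (r a6) (r (x i)) / (r (x i) ^ 2 + r a4) ^ 2) := by
  classical
  have hle : ∀ x : O, v (x : K) ≤ 1 := fun x => (hO x).1 x.2
  set S : Finset (Fin g) := Finset.univ.filter (fun i => v ((x i : K) ^ 2 + (a4 : K)) < 1) with hS
  set G : Fin g → K := fun i => ff (a2 : K) a4 a6 (x i : K) / ((x i : K) ^ 2 + a4) ^ 2 with hG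
  have hm : ∀ i, i ∉ S → v ((x i : K) ^ 2 + (a4 : K)) = 1 := by
    intro i hi
    have h' : ¬ v ((x i : K) ^ 2 + (a4 : K)) < 1 := by
      intro hlt; exact hi (by simp [hS, hlt])
    have : v (((x i ^ 2 + a4 : O) : K)) ≤ 1 := hle _
    push_cast at this
    exact le_antisymm this (not_lt.1 h')
  have hpt : ∀ i, i ∉ S → InE v 1 (2 • P i) ∧ v (G i) ≤ 1 ∧
      v (zz (2 • P i) ^ 2 - 4 * G i) < v 4 * 1 := by
    intro i hi
    obtain ⟨y, h, hPi⟩ := hP i
    rw [hPi]
    exact point (v := v) h1 hna hv2 (hle a2) (hle a4) (hle a6) h (hle _) (hm i hi)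
  have Hctx : Ctx v 1 (a2 : K) (a4 : K) (a6 : K) :=
    ⟨hna, hv2, le_rfl, hle a2, by simpa using hle a4, by simpa using hle a6⟩
  obtain ⟨J, w, hdis, hcard, hw, heq⟩ := h2 K v 1 a2 a4 a6 Hctx g e P hrel S G 1 one_pos hpt
  have hGO : ∀ i, i ∉ S → G i ∈ O := fun i hi => (hO _).2 (hpt i hi).2.1
  set w' : Fin g → Fin g → k := fun j i =>
    if h : v (w j i) ≤ 1 then r ⟨w j i, (hO _).2 h⟩ else 0 with hw'
  have hw'eq : ∀ j (hj : j ∈ J), ∀ i, w' j i = r ⟨w j i, (hO _).2 (hw j hj i).1⟩ := by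
    intro j hj i
    simp only [hw']
    rw [dif_pos (hw j hj i).1]
  have hrG : ∀ i (hi : i ∉ S), r ⟨G i, hGO i hi⟩ =
      ff (r a2) (r a4) (r a6) (r (x i)) / (r (x i) ^ 2 + r a4) ^ 2 := by
    intro i hi
    have hne : r (x i) ^ 2 + r a4 ≠ 0 := by
      intro h0
      have : r (x i ^ 2 + a4) = 0 := by rw [map_add, map_pow]; exact h0
      rw [hr] at this
      push_cast at this
      rw [hm i hi] at this
      exact lt_irrefl _ this
    rw [eq_div_iff (pow_ne_zero 2 hne)]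
    have hK : ((⟨G i, hGO i hi⟩ : O) * (x i ^ 2 + a4) ^ 2 : O) =
        x i ^ 3 + a2 * x i ^ 2 + a4 * x i + a6 := by
      apply Subtype.ext
      push_cast
      simp only [hG, ff]
      have : (x i : K) ^ 2 + (a4 : K) ≠ 0 := by
        intro h0
        have := hm i hi
        rw [h0, map_zero] at this
        exact zero_ne_one this
      field_simp
    have := congrArg r hK
    simp only [map_mul, map_pow, map_add] at this
    rw [ff]
    exact this
  refine ⟨S, J, w', hdis, hcard, ?_, ?_, ?_, ?_⟩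
  · intro i hi
    rw [← map_pow, ← map_add, hr]
    push_cast
    exact (Finset.mem_filter.1 hi).2
  · intro i hi
    rw [← map_pow, ← map_add, Ne, hr]
    push_cast
    intro hlt
    rw [hm i hi] at hlt
    exact lt_irrefl _ hlt
  · intro j hj i
    rw [hw'eq j hj i, ← map_pow, ← sub_eq_zero, ← map_sub, hr]
    push_cast
    exact (hw j hj i).2
  · intro j hj
    have hjS : j ∉ S := Finset.disjoint_left.1 hdis hj
    rw [← hrG j hjS]
    have hiS : ∀ i : {i // i ∈ (J ∪ S)ᶜ}, (i : Fin g) ∉ S := by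
      intro i
      have := i.2
      simp only [Finset.mem_compl, Finset.mem_union, not_or] at this
      exact this.2
    have hsum : ∑ i ∈ (J ∪ S)ᶜ, w' j i * (ff (r a2) (r a4) (r a6) (r (x i)) /
        (r (x i) ^ 2 + r a4) ^ 2) =
        r (∑ i ∈ ((J ∪ S)ᶜ).attach, (⟨w j i, (hO _).2 (hw j hj i).1⟩ : O) *
          ⟨G i, hGO i (hiS i)⟩) := by
      rw [map_sum, ← Finset.sum_attach]
      apply Finset.sum_congr rfl
      intro i _
      rw [map_mul, hrG _ (hiS i), hw'eq j hj i]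
    rw [hsum, ← sub_eq_zero, ← map_sub, hr]
    push_cast
    have := heq j hj
    rw [← Finset.sum_attach] at this
    exact this

end MAI_

open MAI_ in
theorem p_MAI (h1 : T_DBL.{u}) (h2 : T_LOC.{u}) : T_MAI.{u} := by
  intro K _ _ _ v hna hv2 O k _ _ r hO hr d D g A2 A4 A6 c p P hP hrel
  have hxK : ∀ i, ((polyVal (fun α => c (i, α)) p : O) : K) =
      polyVal (fun α => (c (i, α) : K)) (fun j => (p j : K)) :=
    fun i => map_polyVal O.subtype (fun α => c (i, α)) p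
  have hxk : ∀ i, r (polyVal (fun α => c (i, α)) p) =
      polyVal (fun α => r (c (i, α))) (fun j => r (p j)) :=
    fun i => map_polyVal r (fun α => c (i, α)) p
  have hev : ∀ A : MvPolynomial (Fin d) O, eval (fun j => r (p j)) (map r A) = r (eval p A) := by
    intro A
    have h := eval₂_comp_right r (RingHom.id O) p A
    rw [map_id] at h
    rw [eval_map]
    exact h.symm
  obtain ⟨S, J, w, q1, q2, q3, q4, q5, q6⟩ := core (v := v) h1 h2 hna hv2 O k r hO hr (d + 1) g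
    (eval p A2) (eval p A4) (eval p A6) (fun i => polyVal (fun α => c (i, α)) p) P
    (by
      intro i
      obtain ⟨y, h, hPi⟩ := hP i
      simp only [hxK]
      exact ⟨y, h, hPi⟩) hrel
  refine ⟨S, J, w, q1, q2, ?_, ?_, q5, ?_⟩
  · intro i hi
    rw [← hxk, hev]
    exact q3 i hi
  · intro i hi
    rw [← hxk, hev]
    exact q4 i hi
  · intro j hj
    simp only [← hxk, hev]
    exact q6 j hj

end RD
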