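import Pool.Agent.RD.Targets

set_option autoImplicit false

/-!
# PHI: generic coefficients have no bad system at infinity
-/

namespace RD

open MvPolynomial WeierstrassCurve.Affine

universe u

namespace PHI_

/-- the coefficient variables -/
abbrev Iv (d D g : ℕ) : Type := Fin g × Mon d D

/-- the other variables: the parameters, the inverses, the weights -/
abbrev Kv (d g : ℕ) : Type := Fin d ⊕ (Fin g ⊕ (Fin g × Fin g))

theorem map_topVal {R L : Type*} [CommSemiring R] [CommSemiring L] {d D : ℕ} (φ : R →+* L)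
    (c : Mon d D → R) (p : Fin d → R) :
    φ (topVal c p) = topVal (fun α => φ (c α)) (fun j => φ (p j)) := by
  unfold topVal
  rw [map_sum]
  refine Finset.sum_congr rfl fun α _ => ?_
  split_ifs
  · rw [map_mul, map_prod]
    simp only [map_pow]
  · rw [map_zero]

/-- the conditions -/
structure Sol {L : Type*} [Field L] {d D g : ℕ} (S J : Finset (Fin g)) (m : Fin d)
    (c : Iv d D g → L) (p : Fin d → L) (h : Fin g → L) (w : Fin g → Fin g → L) : Prop where
  pm : p m = 1
  hS : ∀ i ∈ S, topVal (fun α => c (i, α)) p = 0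
  hN : ∀ i, i ∉ S → h i * topVal (fun α => c (i, α)) p = 1
  w4 : ∀ j ∈ J, ∀ i, w j i ^ 4 = w j i
  hJ : ∀ j ∈ J, h j = ∑ i ∈ (J ∪ S)ᶜ, w j i * h i

variable {k : Type u} [Field k] {d D g : ℕ}

/-- the form -/
noncomputable def FP (k : Type u) [Field k] (d D g : ℕ) (i : Fin g) :
    MvPolynomial (Iv d D g ⊕ Kv d g) k :=
  topVal (fun α => X (Sum.inl (i, α))) (fun j => X (Sum.inr (Sum.inl j)))

/-- the system of equations -/
def sys (k : Type u) [Field k] (d D g : ℕ) (S J : Finset (Fin g)) (m : Fin d) :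
    Set (MvPolynomial (Iv d D g ⊕ Kv d g) k) :=
  {f | f = X (Sum.inr (Sum.inl m)) - 1 ∨ (∃ i ∈ S, f = FP k d D g i) ∨
    (∃ i, i ∉ S ∧ f = X (Sum.inr (Sum.inr (Sum.inl i))) * FP k d D g i - 1) ∨
    (∃ j ∈ J, ∃ i, f = X (Sum.inr (Sum.inr (Sum.inr (j, i)))) ^ 4 -
      X (Sum.inr (Sum.inr (Sum.inr (j, i))))) ∨
    (∃ j ∈ J, f = X (Sum.inr (Sum.inr (Sum.inl j))) - ∑ i ∈ (J ∪ S)ᶜ,
      X (Sum.inr (Sum.inr (Sum.inr (j, i)))) * X (Sum.inr (Sum.inr (Sum.inl i))))}

theorem sol_of_sys {L : Type*} [Field L] {S J : Finset (Fin g)} {m : Fin d}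
    (φ : MvPolynomial (Iv d D g ⊕ Kv d g) k →+* L)
    (h : ∀ f ∈ sys k d D g S J m, φ f = 0) :
    Sol S J m (fun u => φ (X (Sum.inl u))) (fun j => φ (X (Sum.inr (Sum.inl j))))
      (fun i => φ (X (Sum.inr (Sum.inr (Sum.inl i)))))
      (fun j i => φ (X (Sum.inr (Sum.inr (Sum.inr (j, i)))))) := by
  refine ⟨?_, ?_, ?_, ?_, ?_⟩
  · have := h _ (Or.inl rfl)
    rw [map_sub, map_one, sub_eq_zero] at this
    exact this
  · intro i hi
    have := h _ (Or.inr (Or.inl ⟨i, hi, rfl⟩))
    unfold FP at this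
    rw [map_topVal] at this
    exact this
  · intro i hi
    have := h _ (Or.inr (Or.inr (Or.inl ⟨i, hi, rfl⟩)))
    unfold FP at this
    rw [map_sub, map_one, sub_eq_zero, map_mul, map_topVal] at this
    exact this
  · intro j hj i
    have := h _ (Or.inr (Or.inr (Or.inr (Or.inl ⟨j, hj, i, rfl⟩))))
    rw [map_sub, map_pow, sub_eq_zero] at this
    exact this
  · intro j hj
    have := h _ (Or.inr (Or.inr (Or.inr (Or.inr ⟨j, hj, rfl⟩))))
    rw [map_sub, sub_eq_zero, map_sum] at this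
    simp only [map_mul] at this
    exact this

theorem sys_of_sol {L : Type*} [Field L] {S J : Finset (Fin g)} {m : Fin d}
    (φ : MvPolynomial (Iv d D g ⊕ Kv d g) k →+* L)
    (h : Sol S J m (fun u => φ (X (Sum.inl u))) (fun j => φ (X (Sum.inr (Sum.inl j))))
      (fun i => φ (X (Sum.inr (Sum.inr (Sum.inl i)))))
      (fun j i => φ (X (Sum.inr (Sum.inr (Sum.inr (j, i))))))) :
    ∀ f ∈ sys k d D g S J m, φ f = 0 := by
  intro f hf
  rcases hf with rfl | ⟨i, hi, rfl⟩ | ⟨i, hi, rfl⟩ | ⟨j, hj, i, rfl⟩ | ⟨j, hj, rfl⟩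
  · rw [map_sub, map_one, sub_eq_zero]
    exact h.pm
  · unfold FP
    rw [map_topVal]
    exact h.hS i hi
  · unfold FP
    rw [map_sub, map_one, sub_eq_zero, map_mul, map_topVal]
    exact h.hN i hi
  · rw [map_sub, map_pow, sub_eq_zero]
    exact h.w4 j hj i
  · rw [map_sub, sub_eq_zero, map_sum]
    simp only [map_mul]
    exact h.hJ j hj

/-- the exponent `D e_m` -/
def em (d D : ℕ) (m : Fin d) : Mon d D :=
  ⟨fun j => if j = m then Fin.last D else 0, by
    rw [Finset.sum_eq_single m]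
    · simp
    · intro j _ hj
      simp [hj]
    · intro h; exact absurd (Finset.mem_univ m) h⟩

theorem em_deg (m : Fin d) : ∑ j, ((em d D m).1 j : ℕ) = D := by
  rw [Finset.sum_eq_single m]
  · show (((if m = m then Fin.last D else 0 : Fin (D + 1))) : ℕ) = D
    rw [if_pos rfl]; exact Fin.val_last D
  · intro j _ hj
    show (((if j = m then Fin.last D else 0 : Fin (D + 1))) : ℕ) = 0
    rw [if_neg hj]; rfl
  · intro h; exact absurd (Finset.mem_univ m) h

theorem em_prod {L : Type*} [Field L] (m : Fin d) (p : Fin d → L) (hp : p m = 1) :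
    ∏ j, p j ^ ((em d D m).1 j : ℕ) = 1 := by
  refine Finset.prod_eq_one fun j _ => ?_
  by_cases hj : j = m
  · rw [hj, hp, one_pow]
  · have : (((em d D m).1 j : Fin (D + 1)) : ℕ) = 0 := by
      show (((if j = m then Fin.last D else 0 : Fin (D + 1))) : ℕ) = 0
      rw [if_neg hj]; rfl
    rw [this, pow_zero]

open Classical in
/-- the rest of the form -/
noncomputable def rest {L : Type*} [Field L] (m : Fin d) (c : Mon d D → L) (p : Fin d → L) : L :=
  ∑ α ∈ Finset.univ.erase (em d D m),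
    if (∑ j, (α.1 j : ℕ)) = D then c α * ∏ j, p j ^ (α.1 j : ℕ) else 0

theorem topVal_eq {L : Type*} [Field L] (m : Fin d) (c : Mon d D → L) (p : Fin d → L)
    (hp : p m = 1) : topVal c p = c (em d D m) + rest m c p := by
  classical
  unfold topVal rest
  rw [← Finset.add_sum_erase _ _ (Finset.mem_univ (em d D m)), if_pos (em_deg m), em_prod m p hp,
    mul_one]

theorem isAlg_sum {K L : Type*} [Field K] [Field L] [Algebra K L] {ι : Type*} (s : Finset ι)
    (f : ι → L) (h : ∀ i ∈ s, IsAlgebraic K (f i)) : IsAlgebraic K (∑ i ∈ s, f i) := by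
  classical
  induction s using Finset.induction_on with
  | empty => rw [Finset.sum_empty]; exact isAlgebraic_zero
  | insert a s ha ih =>
    rw [Finset.sum_insert ha]
    exact (h a (Finset.mem_insert_self a s)).add
      (ih fun i hi => h i (Finset.mem_insert_of_mem hi))

/-- the generic system is unsolvable -/
theorem no_sol (hT : T_TRD.{u}) (S J : Finset (Fin g)) (m : Fin d)
    (hcard : d + 1 ≤ J.card + S.card) (hdis : Disjoint J S) (L : Type u) [Field L] [Algebra k L]
    (c : Iv d D g → L) (hc : AlgebraicIndependent k c) (p : Fin d → L) (h : Fin g → L)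
    (w : Fin g → Fin g → L) (hs : Sol S J m c p h w) : False := by
  classical
  set B : Finset (Iv d D g) := (S ∪ J).image (fun i => (i, em d D m)) with hB
  have hBcard : d < B.card := by
    rw [hB, Finset.card_image_of_injective _ (fun i j hij => (Prod.ext_iff.1 hij).1),
      Finset.card_union_of_disjoint hdis.symm]
    omega
  have hmem : ∀ i α, (i, α) ∈ B ↔ (i ∈ S ∪ J ∧ α = em d D m) := by
    intro i α
    rw [hB, Finset.mem_image]
    constructor
    · rintro ⟨i', hi', he⟩
      obtain ⟨rfl, rfl⟩ := Prod.ext_iff.1 he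
      exact ⟨hi', rfl⟩
    · rintro ⟨hi, rfl⟩
      exact ⟨i, hi, rfl⟩
  apply hT k L (Iv d D g) c hc d p B hBcard
  set L0 := IntermediateField.adjoin k (Set.range p ∪ c '' {w | w ∉ B}) with hL0
  have hp0 : ∀ j, p j ∈ L0 := fun j =>
    IntermediateField.subset_adjoin _ _ (Or.inl ⟨j, rfl⟩)
  have hc0 : ∀ u, u ∉ B → c u ∈ L0 := fun u hu =>
    IntermediateField.subset_adjoin _ _ (Or.inr ⟨u, hu, rfl⟩)
  have hrest : ∀ i, rest m (fun α => c (i, α)) p ∈ L0 := by
    intro i
    unfold rest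
    refine sum_mem fun α hα => ?_
    split_ifs
    · refine mul_mem (hc0 _ ?_) (prod_mem fun j _ => pow_mem (hp0 j) _)
      rw [hmem]
      exact fun h => (Finset.ne_of_mem_erase hα) h.2
    · exact zero_mem _
  have halg : ∀ x ∈ L0, IsAlgebraic L0 x := fun x hx =>
    isAlgebraic_algebraMap (⟨x, hx⟩ : L0)
  have htop : ∀ i, topVal (fun α => c (i, α)) p =
      c (i, em d D m) + rest m (fun α => c (i, α)) p := fun i => topVal_eq m _ p hs.pm
  -- the inverses outside `S` and `J`
  have hh : ∀ i, i ∈ (J ∪ S)ᶜ → h i ∈ L0 := by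
    intro i hi
    rw [Finset.mem_compl, Finset.mem_union, not_or] at hi
    have h1 := hs.hN i hi.2
    have h2 : topVal (fun α => c (i, α)) p ∈ L0 := by
      rw [htop i]
      refine add_mem (hc0 _ ?_) (hrest i)
      rw [hmem, Finset.mem_union]
      rintro ⟨h3 | h3, _⟩
      · exact hi.2 h3
      · exact hi.1 h3
    rw [eq_inv_of_mul_eq_one_left h1]
    exact inv_mem h2
  intro u hu
  obtain ⟨i, α⟩ := u
  obtain ⟨hi, rfl⟩ := (hmem i α).1 hu
  rcases Finset.mem_union.1 hi with hiS | hiJ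
  · have h1 := hs.hS i hiS
    rw [htop i] at h1
    rw [eq_neg_of_add_eq_zero_left h1]
    exact halg _ (neg_mem (hrest i))
  · have hw : ∀ i', IsAlgebraic L0 (w i i') := by
      intro i'
      refine ⟨Polynomial.X ^ 4 - Polynomial.X, ?_, ?_⟩
      · intro h0
        have h2 := congrArg (fun q => Polynomial.coeff q 4) h0
        simp [Polynomial.coeff_X] at h2
      · rw [map_sub, map_pow, Polynomial.aeval_X, hs.w4 i hiJ i', sub_self]
    have h1 : IsAlgebraic L0 (h i) := by
      rw [hs.hJ i hiJ]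
      exact isAlg_sum _ _ fun i' hi' => (hw i').mul (halg _ (hh i' hi'))
    have hiS : i ∉ S := fun h => Finset.disjoint_left.1 hdis hiJ h
    have h2 := hs.hN i hiS
    have h3 : topVal (fun α => c (i, α)) p = (h i)⁻¹ := eq_inv_of_mul_eq_one_right h2
    rw [htop i] at h3
    have h4 : c (i, em d D m) = (h i)⁻¹ - rest m (fun α => c (i, α)) p := by
      rw [← h3]; ring
    rw [h4]
    exact h1.inv.sub (halg _ (hrest i))

end PHI_

open PHI_ in
theorem p_PHI (h1 : T_TRD.{u}) (h2 : T_ELM.{u}) : T_PHI.{u} := by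
  classical
  intro k _ d D g
  have key : ∀ t : Finset (Fin g) × Finset (Fin g) × Fin d,
      ∃ Φ : MvPolynomial (Iv d D g) k, Φ ≠ 0 ∧ (Disjoint t.2.1 t.1 →
        d + 1 ≤ t.2.1.card + t.1.card → ∀ c : Iv d D g → k, eval c Φ ≠ 0 →
        ∀ y : Kv d g → k, ∃ f ∈ sys k d D g t.1 t.2.1 t.2.2, eval (Sum.elim c y) f ≠ 0) := by
    rintro ⟨S, J, m⟩
    by_cases hd : Disjoint J S ∧ d + 1 ≤ J.card + S.card
    · obtain ⟨Φ, hΦ, hprop⟩ := h2 k (Iv d D g) (Kv d g) (sys k d D g S J m) (by
        intro L _ _ c y hc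
        by_contra hcon
        push Not at hcon
        have hs := sol_of_sys (aeval (R := k) (Sum.elim c y)).toRingHom hcon
        refine no_sol (k := k) h1 S J m hd.2 hd.1 L c hc (fun j => y (Sum.inl j))
          (fun i => y (Sum.inr (Sum.inl i))) (fun j i => y (Sum.inr (Sum.inr (j, i)))) ?_
        convert hs using 1
        · funext u
          show c u = aeval (Sum.elim c y) (X (Sum.inl u))
          rw [aeval_X]; rfl
        · funext j
          show _ = aeval (Sum.elim c y) (X (Sum.inr (Sum.inl j)))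
          rw [aeval_X]; rfl
        · funext i
          show _ = aeval (Sum.elim c y) (X (Sum.inr (Sum.inr (Sum.inl i))))
          rw [aeval_X]; rfl
        · funext j i
          show _ = aeval (Sum.elim c y) (X (Sum.inr (Sum.inr (Sum.inr (j, i)))))
          rw [aeval_X]; rfl)
      exact ⟨Φ, hΦ, fun _ _ => hprop⟩
    · exact ⟨1, one_ne_zero, fun ha hb => absurd ⟨ha, hb⟩ hd⟩
  choose Φ hΦ hprop using key
  refine ⟨∏ t, Φ t, Finset.prod_ne_zero_iff.2 fun t _ => hΦ t, ?_⟩
  intro c hc p S J w hbad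
  obtain ⟨b1, b2, ⟨m, hm⟩, b3, b4, b5, b6⟩ := hbad
  rw [map_prod] at hc
  have hc' := Finset.prod_ne_zero_iff.1 hc (S, J, m) (Finset.mem_univ _)
  obtain ⟨f, hf, hne⟩ := hprop (S, J, m) b1 b2 c hc'
    (Sum.elim p (Sum.elim (fun i => (topVal (fun α => c (i, α)) p)⁻¹) (fun ji => w ji.1 ji.2)))
  apply hne
  refine sys_of_sol (eval (Sum.elim c (Sum.elim p (Sum.elim
    (fun i => (topVal (fun α => c (i, α)) p)⁻¹) (fun ji => w ji.1 ji.2))))) ?_ f hf
  simp only [eval_X, Sum.elim_inl, Sum.elim_inr]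
  exact ⟨hm, b3, fun i hi => inv_mul_cancel₀ (b4 i hi), b5, b6⟩

end RD
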