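import Pool.Agent.RD.Targets

set_option autoImplicit false

/-!
Generic coefficients: no bad main system over the residue field.
-/

namespace RD

open MvPolynomial

universe u

namespace PHM_

theorem map_polyVal {R S F : Type*} [CommSemiring R] [CommSemiring S] [FunLike F R S]
    [RingHomClass F R S] (φ : F) {d D : ℕ} (c : Mon d D → R) (p : Fin d → R) :
    φ (polyVal c p) = polyVal (fun α => φ (c α)) (fun j => φ (p j)) := by
  unfold polyVal
  simp only [map_sum, map_mul, map_prod, map_pow]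

/-- the cubic over a commutative ring -/
def gg {R : Type*} [CommRing R] (a2 a4 a6 x : R) : R := x ^ 3 + a2 * x ^ 2 + a4 * x + a6

/-- a root of a quartic polynomial with coefficient `1` at the cube is algebraic -/
theorem alg_of_eq {F K : Type*} [Field F] [Field K] [Algebra F K] (a b c e : F) (x : K)
    (h : x ^ 3 + (algebraMap F K a * x ^ 4 + algebraMap F K b * x ^ 2 + algebraMap F K c * x +
      algebraMap F K e) = 0) : IsAlgebraic F x := by
  refine ⟨Polynomial.X ^ 3 + (Polynomial.C a * Polynomial.X ^ 4 +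
    Polynomial.C b * Polynomial.X ^ 2 + Polynomial.C c * Polynomial.X + Polynomial.C e), ?_, ?_⟩
  · intro h0
    have h3 := congrArg (fun q => Polynomial.coeff q 3) h0
    simp at h3
  · simp only [map_add, map_mul, map_pow, Polynomial.aeval_X, Polynomial.aeval_C]
    exact h

section sol

variable {k L : Type u} [Field k] [Field L] [Algebra k L] {d D g : ℕ}

/-- the zero exponent -/
def z0 (d D : ℕ) : Mon d D := ⟨fun _ => 0, by simp⟩

theorem polyVal_eq {R : Type*} [CommSemiring R] (c : Mon d D → R) (p : Fin d → R) :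
    polyVal c p = c (z0 d D) + ∑ α ∈ Finset.univ.erase (z0 d D), c α * ∏ j, p j ^ (α.1 j : ℕ) := by
  unfold polyVal
  rw [← Finset.add_sum_erase _ _ (Finset.mem_univ (z0 d D))]
  congr 1
  simp [z0]

theorem no_sol (h1 : T_TRD.{u}) (b2 b4 b6 : MvPolynomial (Fin d) k) (S J : Finset (Fin g))
    (hdis : Disjoint J S) (hcard : d + 1 ≤ J.card + S.card) (c : Fin g × Mon d D → L)
    (hc : AlgebraicIndependent k c) (p : Fin d → L) (h : Fin g → L) (w : Fin g → Fin g → L)
    (H1 : ∀ i ∈ S, polyVal (fun α => c (i, α)) p ^ 2 + aeval p b4 = 0)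
    (H2 : ∀ i, i ∉ S → h i * (polyVal (fun α => c (i, α)) p ^ 2 + aeval p b4) = 1)
    (H3 : ∀ j ∈ J, ∀ i, w j i ^ 4 = w j i)
    (H4 : ∀ j ∈ J, gg (aeval p b2) (aeval p b4) (aeval p b6) (polyVal (fun α => c (j, α)) p) *
        h j ^ 2 = ∑ i ∈ (J ∪ S)ᶜ, w j i * (gg (aeval p b2) (aeval p b4) (aeval p b6)
          (polyVal (fun α => c (i, α)) p) * h i ^ 2)) : False := by
  classical
  set B : Finset (Fin g × Mon d D) :=
    (J ∪ S).map ⟨fun i => (i, z0 d D), fun a b hab => (Prod.mk.inj hab).1⟩ with hB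
  have hBcard : B.card = J.card + S.card := by
    rw [hB, Finset.card_map, Finset.card_union_of_disjoint hdis]
  have hBmem : ∀ i α, (i, α) ∈ B ↔ i ∈ J ∪ S ∧ α = z0 d D := by
    intro i α
    rw [hB, Finset.mem_map]
    constructor
    · rintro ⟨a, ha, hab⟩
      have := Prod.mk.inj hab
      exact ⟨this.1 ▸ ha, this.2.symm⟩
    · rintro ⟨ha, rfl⟩
      exact ⟨i, ha, rfl⟩
  set L0 := IntermediateField.adjoin k (Set.range p ∪ c '' {w | w ∉ B}) with hL0
  refine h1 k L _ c hc d p B (by omega) ?_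
  rw [← hL0]
  set L1 : IntermediateField L0 L := algebraicClosure L0 L with hL1
  have hin : ∀ z : L, z ∈ L0 → z ∈ L1 := fun z hz => L1.algebraMap_mem ⟨z, hz⟩
  have hp : ∀ m, p m ∈ L1 := fun m =>
    hin _ (IntermediateField.subset_adjoin k _ (Or.inl ⟨m, rfl⟩))
  have hcB : ∀ v, v ∉ B → c v ∈ L1 := fun v hv =>
    hin _ (IntermediateField.subset_adjoin k _ (Or.inr ⟨v, hv, rfl⟩))
  have hb : ∀ b : MvPolynomial (Fin d) k, aeval p b ∈ L1 := by
    intro b
    induction b using MvPolynomial.induction_on with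
    | C a =>
      rw [MvPolynomial.algHom_C]
      exact hin _ (L0.algebraMap_mem a)
    | add b b' hb hb' =>
      rw [map_add]
      exact add_mem hb hb'
    | mul_X b m hb =>
      rw [map_mul, aeval_X]
      exact mul_mem hb (hp m)
  have hx : ∀ i, ∃ e ∈ L1, polyVal (fun α => c (i, α)) p = c (i, z0 d D) + e := by
    intro i
    refine ⟨_, ?_, polyVal_eq _ _⟩
    refine sum_mem fun α hα => mul_mem (hcB _ ?_) (prod_mem fun j _ => pow_mem (hp j) _)
    rw [hBmem]
    intro hh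
    exact (Finset.mem_erase.1 hα).1 hh.2
  have hx' : ∀ i, i ∈ (J ∪ S)ᶜ → polyVal (fun α => c (i, α)) p ∈ L1 := by
    intro i hi
    obtain ⟨e, he, hxe⟩ := hx i
    rw [hxe]
    refine add_mem (hcB _ ?_) he
    rw [hBmem]
    intro hh
    exact Finset.mem_compl.1 hi hh.1
  have halg : ∀ i, polyVal (fun α => c (i, α)) p ∈ L1 → IsAlgebraic L0 (c (i, z0 d D)) := by
    intro i hi
    obtain ⟨e, he, hxe⟩ := hx i
    have h2 : c (i, z0 d D) ∈ L1 := by
      have : c (i, z0 d D) = polyVal (fun α => c (i, α)) p - e := by rw [hxe]; ring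
      rw [this]
      exact sub_mem hi he
    exact mem_algebraicClosure_iff.1 h2
  rintro ⟨i, α⟩ hiα
  obtain ⟨hi, rfl⟩ := (hBmem i α).1 hiα
  apply halg
  rcases Finset.mem_union.1 hi with hiJ | hiS
  · -- `i ∈ J`
    set x := polyVal (fun α => c (i, α)) p with hxdef
    have hiS : i ∉ S := Finset.disjoint_left.1 hdis hiJ
    have hγ : ∑ i' ∈ (J ∪ S)ᶜ, w i i' * (gg (aeval p b2) (aeval p b4) (aeval p b6)
          (polyVal (fun α => c (i', α)) p) * h i' ^ 2) ∈ L1 := by
      refine sum_mem fun i' hi' => mul_mem ?_ (mul_mem ?_ (pow_mem ?_ _))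
      · -- `w` is algebraic
        have e := H3 i hiJ i'
        have e2 : w i i' * (w i i' ^ 3 - 1) = 0 := by
          have : w i i' * (w i i' ^ 3 - 1) = w i i' ^ 4 - w i i' := by ring
          rw [this, e, sub_self]
        rcases mul_eq_zero.1 e2 with e3 | e3
        · rw [e3]; exact zero_mem _
        · refine mem_algebraicClosure_iff.2 ?_
          refine IsAlgebraic.of_pow (n := 3) (by norm_num) ?_
          rw [sub_eq_zero.1 e3]
          exact isAlgebraic_one
      · unfold gg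
        exact add_mem (add_mem (add_mem (pow_mem (hx' i' hi') _)
          (mul_mem (hb _) (pow_mem (hx' i' hi') _))) (mul_mem (hb _) (hx' i' hi'))) (hb _)
      · have hi'S : i' ∉ S := fun hh => Finset.mem_compl.1 hi' (Finset.mem_union_right _ hh)
        rw [eq_inv_of_mul_eq_one_left (H2 i' hi'S)]
        exact inv_mem (add_mem (pow_mem (hx' i' hi') _) (hb _))
    have hH4 := H4 i hiJ
    rw [← hxdef] at hH4
    obtain ⟨γ, hγdef⟩ : ∃ γ, γ = ∑ i' ∈ (J ∪ S)ᶜ, w i i' * (gg (aeval p b2) (aeval p b4)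
      (aeval p b6) (polyVal (fun α => c (i', α)) p) * h i' ^ 2) := ⟨_, rfl⟩
    rw [← hγdef] at hγ hH4
    have hH2 := H2 i hiS
    rw [← hxdef] at hH2
    have hroot : gg (aeval p b2) (aeval p b4) (aeval p b6) x = γ * (x ^ 2 + aeval p b4) ^ 2 := by
      calc gg (aeval p b2) (aeval p b4) (aeval p b6) x
          = gg (aeval p b2) (aeval p b4) (aeval p b6) x * (h i * (x ^ 2 + aeval p b4)) ^ 2 := by
            rw [hH2]; ring
        _ = (gg (aeval p b2) (aeval p b4) (aeval p b6) x * h i ^ 2) * (x ^ 2 + aeval p b4) ^ 2 := by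
            ring
        _ = _ := by rw [hH4]
    obtain ⟨B2, hB2⟩ : ∃ z : L1, (z : L) = aeval p b2 := ⟨⟨_, hb b2⟩, rfl⟩
    obtain ⟨B4, hB4⟩ : ∃ z : L1, (z : L) = aeval p b4 := ⟨⟨_, hb b4⟩, rfl⟩
    obtain ⟨B6, hB6⟩ : ∃ z : L1, (z : L) = aeval p b6 := ⟨⟨_, hb b6⟩, rfl⟩
    obtain ⟨G, hG⟩ : ∃ z : L1, (z : L) = γ := ⟨⟨_, hγ⟩, rfl⟩
    rw [← hB2, ← hB4, ← hB6, ← hG] at hroot
    unfold gg at hroot
    have hxalg : IsAlgebraic L1 x := by
      refine alg_of_eq (-G) (B2 - (G * B4 + G * B4)) B4 (B6 - G * B4 ^ 2) x ?_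
      have e1 : ∀ z : L1, algebraMap L1 L z = (z : L) := fun z => rfl
      simp only [e1]
      push_cast
      linear_combination hroot
    exact mem_algebraicClosure_iff.2 (hxalg.restrictScalars L0)
  · -- `i ∈ S`
    refine mem_algebraicClosure_iff.2 ?_
    refine IsAlgebraic.of_pow (n := 2) (by norm_num) ?_
    rw [eq_neg_of_add_eq_zero_left (H1 i hiS)]
    exact mem_algebraicClosure_iff.1 (neg_mem (hb b4))

end sol

section system

variable {k : Type u} [Field k] {d D g : ℕ}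

/-- the variables besides the coefficients -/
abbrev Kap (d g : ℕ) : Type := Fin d ⊕ (Fin g ⊕ (Fin g × Fin g))

/-- the polynomial ring -/
abbrev PP (k : Type u) [Field k] (d D g : ℕ) : Type u :=
  MvPolynomial ((Fin g × Mon d D) ⊕ Kap d g) k

noncomputable def vh (i : Fin g) : PP k d D g := X (Sum.inr (Sum.inr (Sum.inl i)))

noncomputable def vw (j i : Fin g) : PP k d D g := X (Sum.inr (Sum.inr (Sum.inr (j, i))))

noncomputable def vx (i : Fin g) : PP k d D g :=
  polyVal (fun α => X (Sum.inl (i, α))) (fun m => X (Sum.inr (Sum.inl m)))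

noncomputable def vb (b : MvPolynomial (Fin d) k) : PP k d D g :=
  rename (fun m => Sum.inr (Sum.inl m)) b

/-- the system of equations -/
def sys (b2 b4 b6 : MvPolynomial (Fin d) k) (S J : Finset (Fin g)) : Set (PP k d D g) :=
  {f | (∃ i ∈ S, f = vx i ^ 2 + vb b4) ∨ (∃ i, i ∉ S ∧ f = vh i * (vx i ^ 2 + vb b4) - 1) ∨
    (∃ j ∈ J, ∃ i, f = vw j i ^ 4 - vw j i) ∨
    ∃ j ∈ J, f = gg (vb b2) (vb b4) (vb b6) (vx j) * vh j ^ 2 -
      ∑ i ∈ (J ∪ S)ᶜ, vw j i * (gg (vb b2) (vb b4) (vb b6) (vx i) * vh i ^ 2)}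

variable {L : Type u} [Field L] [Algebra k L]

theorem aeval_vx (c : Fin g × Mon d D → L) (y : Kap d g → L) (i : Fin g) :
    aeval (Sum.elim c y) (vx i : PP k d D g) =
      polyVal (fun α => c (i, α)) (fun m => y (Sum.inl m)) := by
  unfold vx
  rw [map_polyVal]
  simp only [aeval_X, Sum.elim_inl, Sum.elim_inr]

theorem aeval_vb (c : Fin g × Mon d D → L) (y : Kap d g → L) (b : MvPolynomial (Fin d) k) :
    aeval (Sum.elim c y) (vb b : PP k d D g) = aeval (fun m => y (Sum.inl m)) b := by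
  unfold vb
  rw [aeval_rename]
  rfl

theorem aeval_vh (c : Fin g × Mon d D → L) (y : Kap d g → L) (i : Fin g) :
    aeval (Sum.elim c y) (vh i : PP k d D g) = y (Sum.inr (Sum.inl i)) := by
  unfold vh
  rw [aeval_X]
  rfl

theorem aeval_vw (c : Fin g × Mon d D → L) (y : Kap d g → L) (j i : Fin g) :
    aeval (Sum.elim c y) (vw j i : PP k d D g) = y (Sum.inr (Sum.inr (j, i))) := by
  unfold vw
  rw [aeval_X]
  rfl

theorem aeval_gg (c : Fin g × Mon d D → L) (y : Kap d g → L) (b2 b4 b6 : MvPolynomial (Fin d) k)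
    (i : Fin g) :
    aeval (Sum.elim c y) (gg (vb b2) (vb b4) (vb b6) (vx i) : PP k d D g) =
      gg (aeval (fun m => y (Sum.inl m)) b2) (aeval (fun m => y (Sum.inl m)) b4)
        (aeval (fun m => y (Sum.inl m)) b6)
        (polyVal (fun α => c (i, α)) (fun m => y (Sum.inl m))) := by
  unfold gg
  simp only [map_add, map_mul, map_pow, aeval_vx, aeval_vb]

/-- all equations of the system hold at `(c, y)` -/
theorem vanish_iff (b2 b4 b6 : MvPolynomial (Fin d) k) (S J : Finset (Fin g))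
    (c : Fin g × Mon d D → L) (y : Kap d g → L) :
    (∀ f ∈ sys b2 b4 b6 S J, aeval (Sum.elim c y) (f : PP k d D g) = 0) ↔
    (∀ i ∈ S, polyVal (fun α => c (i, α)) (fun m => y (Sum.inl m)) ^ 2 +
      aeval (fun m => y (Sum.inl m)) b4 = 0) ∧
    (∀ i, i ∉ S → y (Sum.inr (Sum.inl i)) * (polyVal (fun α => c (i, α))
      (fun m => y (Sum.inl m)) ^ 2 + aeval (fun m => y (Sum.inl m)) b4) = 1) ∧
    (∀ j ∈ J, ∀ i, y (Sum.inr (Sum.inr (j, i))) ^ 4 = y (Sum.inr (Sum.inr (j, i)))) ∧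
    (∀ j ∈ J, gg (aeval (fun m => y (Sum.inl m)) b2) (aeval (fun m => y (Sum.inl m)) b4)
        (aeval (fun m => y (Sum.inl m)) b6)
        (polyVal (fun α => c (j, α)) (fun m => y (Sum.inl m))) * y (Sum.inr (Sum.inl j)) ^ 2 =
      ∑ i ∈ (J ∪ S)ᶜ, y (Sum.inr (Sum.inr (j, i))) *
        (gg (aeval (fun m => y (Sum.inl m)) b2) (aeval (fun m => y (Sum.inl m)) b4)
        (aeval (fun m => y (Sum.inl m)) b6)
        (polyVal (fun α => c (i, α)) (fun m => y (Sum.inl m))) *
          y (Sum.inr (Sum.inl i)) ^ 2)) := by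
  constructor
  · intro H
    refine ⟨fun i hi => ?_, fun i hi => ?_, fun j hj i => ?_, fun j hj => ?_⟩
    · have := H _ (Or.inl ⟨i, hi, rfl⟩)
      rwa [map_add, map_pow, aeval_vx, aeval_vb] at this
    · have := H _ (Or.inr (Or.inl ⟨i, hi, rfl⟩))
      rw [map_sub, map_mul, map_add, map_pow, aeval_vx, aeval_vb, aeval_vh, map_one] at this
      exact sub_eq_zero.1 this
    · have := H _ (Or.inr (Or.inr (Or.inl ⟨j, hj, i, rfl⟩)))
      rw [map_sub, map_pow, aeval_vw] at this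
      exact sub_eq_zero.1 this
    · have := H _ (Or.inr (Or.inr (Or.inr ⟨j, hj, rfl⟩)))
      rw [map_sub, map_mul, map_pow, aeval_gg, aeval_vh, map_sum] at this
      simp only [map_mul, map_pow, aeval_gg, aeval_vh, aeval_vw] at this
      exact sub_eq_zero.1 this
  · rintro ⟨H1, H2, H3, H4⟩ f (⟨i, hi, rfl⟩ | ⟨i, hi, rfl⟩ | ⟨j, hj, i, rfl⟩ | ⟨j, hj, rfl⟩)
    · rw [map_add, map_pow, aeval_vx, aeval_vb]
      exact H1 i hi
    · rw [map_sub, map_mul, map_add, map_pow, aeval_vx, aeval_vb, aeval_vh, map_one, H2 i hi,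
        sub_self]
    · rw [map_sub, map_pow, aeval_vw, H3 j hj i, sub_self]
    · rw [map_sub, map_mul, map_pow, aeval_gg, aeval_vh, map_sum]
      simp only [map_mul, map_pow, aeval_gg, aeval_vh, aeval_vw]
      rw [H4 j hj, sub_self]

end system

theorem fixed (h1 : T_TRD.{u}) (h2 : T_ELM.{u}) (k : Type u) [Field k] (d D g : ℕ)
    (b2 b4 b6 : MvPolynomial (Fin d) k) (S J : Finset (Fin g)) :
    ∃ Φ : MvPolynomial (Fin g × Mon d D) k, Φ ≠ 0 ∧ ∀ c : Fin g × Mon d D → k, eval c Φ ≠ 0 →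
      ∀ p w, ¬ BadMain b2 b4 b6 c p S J w := by
  classical
  by_cases hcase : Disjoint J S ∧ d + 1 ≤ J.card + S.card
  swap
  · exact ⟨1, one_ne_zero, fun c _ p w hbad => hcase ⟨hbad.1, hbad.2.1⟩⟩
  obtain ⟨Φ, hΦ, hΦ2⟩ := h2 k (Fin g × Mon d D) (Kap d g) (sys b2 b4 b6 S J) (by
    intro L _ _ c y hc
    by_contra hcon
    push Not at hcon
    obtain ⟨H1, H2, H3, H4⟩ := (vanish_iff b2 b4 b6 S J c y).1 hcon
    exact no_sol h1 b2 b4 b6 S J hcase.1 hcase.2 c hc (fun m => y (Sum.inl m))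
      (fun i => y (Sum.inr (Sum.inl i))) (fun j i => y (Sum.inr (Sum.inr (j, i)))) H1 H2 H3 H4)
  refine ⟨Φ, hΦ, fun c hc p w hbad => ?_⟩
  obtain ⟨-, -, G1, G2, G3, G4⟩ := hbad
  obtain ⟨f, hf, hne⟩ := hΦ2 c hc (Sum.elim p (Sum.elim
    (fun i => (polyVal (fun α => c (i, α)) p ^ 2 + eval p b4)⁻¹) (fun ji => w ji.1 ji.2)))
  apply hne
  have key := (vanish_iff (L := k) b2 b4 b6 S J c (Sum.elim p (Sum.elim
    (fun i => (polyVal (fun α => c (i, α)) p ^ 2 + eval p b4)⁻¹)
      (fun ji => w ji.1 ji.2)))).2 (by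
    simp only [Sum.elim_inl, Sum.elim_inr]
    refine ⟨G1, fun i hi => inv_mul_cancel₀ (G2 i hi), G3, fun j hj => ?_⟩
    have := G4 j hj
    simp only [ff, div_eq_mul_inv] at this
    simp only [gg, inv_pow]
    exact this)
  exact key f hf

end PHM_

open PHM_ in
theorem p_PHM (h1 : T_TRD.{u}) (h2 : T_ELM.{u}) : T_PHM.{u} := by
  classical
  intro k _ d D g b2 b4 b6
  choose Φ hΦ hΦ2 using fixed h1 h2 k d D g b2 b4 b6
  refine ⟨∏ S : Finset (Fin g), ∏ J : Finset (Fin g), Φ S J, ?_, ?_⟩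
  · exact Finset.prod_ne_zero_iff.2 fun S _ => Finset.prod_ne_zero_iff.2 fun J _ => hΦ S J
  · intro c hc p S J w
    rw [map_prod] at hc
    have h3 := Finset.prod_ne_zero_iff.1 hc S (Finset.mem_univ S)
    rw [map_prod] at h3
    exact hΦ2 S J c (Finset.prod_ne_zero_iff.1 h3 J (Finset.mem_univ J)) p w

end RD
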