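import Pool.Agent.RD.Targets

/-!
The multiplier of an endomorphism satisfies the quadratic equation.
-/

namespace RD

open WeierstrassCurve.Affine

universe u

namespace QUA_

variable {K : Type u} [Field K] {v : AbsoluteValue K ℝ}

lemma vneg (x : K) : v (-x) = v x := v.map_neg x

lemma vadd (h : IsNonarchimedean v) (x y : K) : v (x + y) ≤ max (v x) (v y) := h x y

lemma vsub (h : IsNonarchimedean v) (x y : K) : v (x - y) ≤ max (v x) (v y) := by
  rw [sub_eq_add_neg, ← vneg y]; exact h x (-y)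

lemma vadd_le (h : IsNonarchimedean v) {x y : K} {r : ℝ} (hx : v x ≤ r) (hy : v y ≤ r) :
    v (x + y) ≤ r := (vadd h x y).trans (max_le hx hy)

lemma vadd_lt (h : IsNonarchimedean v) {x y : K} {r : ℝ} (hx : v x < r) (hy : v y < r) :
    v (x + y) < r := (vadd h x y).trans_lt (max_lt hx hy)

lemma vsub_le (h : IsNonarchimedean v) {x y : K} {r : ℝ} (hx : v x ≤ r) (hy : v y ≤ r) :
    v (x - y) ≤ r := (vsub h x y).trans (max_le hx hy)

lemma vsub_lt (h : IsNonarchimedean v) {x y : K} {r : ℝ} (hx : v x < r) (hy : v y < r) :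
    v (x - y) < r := (vsub h x y).trans_lt (max_lt hx hy)

lemma vadd_eq (h : IsNonarchimedean v) {x y : K} (hxy : v y < v x) : v (x + y) = v x := by
  apply le_antisymm
  · exact vadd_le h le_rfl hxy.le
  · by_contra hc
    push Not at hc
    have : v ((x + y) - y) < v x := vsub_lt h hc hxy
    rw [add_sub_cancel_right] at this
    exact lt_irrefl _ this

lemma vnat (h : IsNonarchimedean v) (n : ℕ) : v (n : K) ≤ 1 := by
  induction n with
  | zero => simp
  | succ n ih => push_cast; exact vadd_le h ih (by simp)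

lemma vint (h : IsNonarchimedean v) (n : ℤ) : v (n : K) ≤ 1 := by
  rcases n.eq_nat_or_neg with ⟨m, rfl | rfl⟩
  · simpa using vnat h m
  · push_cast; rw [vneg]; exact vnat h m

lemma vy {R : ℝ} {a2 a4 a6 : K} (H : Ctx v R a2 a4 a6) {x y : K} (hx : R < v x)
    (hy : y ^ 2 = ff a2 a4 a6 x) : v y ^ 2 = v x ^ 3 := by
  have h1 := H.one_le
  have hx0 : 0 < v x := by linarith
  have hna := H.na
  have hd : v (a2 * x ^ 2 + a4 * x + a6) < v (x ^ 3) := by
    have hX : v (x ^ 3) = v x ^ 3 := map_pow _ _ _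
    rw [hX]
    have b1 : v (a2 * x ^ 2) < v x ^ 3 := by
      rw [map_mul, map_pow]
      calc v a2 * v x ^ 2 ≤ R * v x ^ 2 := by gcongr; exact H.h2
        _ < v x * v x ^ 2 := by gcongr
        _ = v x ^ 3 := by ring
    have b2 : v (a4 * x) < v x ^ 3 := by
      rw [map_mul]
      calc v a4 * v x ≤ R ^ 2 * v x := by gcongr; exact H.h4
        _ < v x ^ 2 * v x := by gcongr
        _ = v x ^ 3 := by ring
    have b3 : v a6 < v x ^ 3 := H.h6.trans_lt (by gcongr)
    exact vadd_lt hna (vadd_lt hna b1 b2) b3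
  have : v (y ^ 2) = v (x ^ 3) := by
    rw [hy, ff, show x ^ 3 + a2 * x ^ 2 + a4 * x + a6 = x ^ 3 + (a2 * x ^ 2 + a4 * x + a6) by ring]
    exact vadd_eq hna hd
  rwa [map_pow, map_pow] at this

lemma eqn {a2 a4 a6 x y : K} (h : (curve a2 a4 a6).Nonsingular x y) :
    y ^ 2 = ff a2 a4 a6 x := by
  have := (equation_iff (W := curve a2 a4 a6) x y).1 h.1
  simp only [ff]
  linear_combination this

/-- nonzero points of E_R -/
lemma pt {R : ℝ} {a2 a4 a6 : K} (H : Ctx v R a2 a4 a6) {P : (curve a2 a4 a6).Point}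
    (hP : P ≠ 0) (h : InE v R P) : 0 < v (zz P) ∧ R * v (zz P) ^ 2 < 1 ∧
      ∀ B : ℝ, B * v (zz P) ^ 2 < 1 → InE v B P := by
  have h1 := H.one_le
  rcases P with _ | ⟨x, y, hns⟩
  · exact absurd rfl hP
  · have hx : R < v x := h
    have hx0 : 0 < v x := by linarith
    have hy := vy H hx (eqn hns)
    have hy0 : v y ≠ 0 := by
      intro h0
      rw [h0] at hy
      have : 0 < v x ^ 3 := by positivity
      rw [← hy] at this
      simp at this
    have hz : v (zz (Point.some x y hns)) ^ 2 = 1 / v x := by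
      simp only [zz]
      rw [map_div₀, div_pow, hy]
      field_simp
    have hz0 : 0 < v (zz (Point.some x y hns)) := by
      have : 0 < v (zz (Point.some x y hns)) ^ 2 := by rw [hz]; positivity
      have h2 := v.nonneg (zz (Point.some x y hns))
      rcases h2.lt_or_eq with h3 | h3
      · exact h3
      · rw [← h3] at this; simp at this
    refine ⟨hz0, ?_, ?_⟩
    · rw [hz, mul_one_div, div_lt_one hx0]
      exact hx
    · intro B hB
      rw [hz, mul_one_div, div_lt_one hx0] at hB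
      exact hB

end QUA_

open QUA_

theorem p_QUA (h1 : T_NSM.{u}) (h2 : T_ADD.{u}) : T_QUA.{u} := by
  intro K _ _ _ v R a2 a4 a6 H ω t n hω ⟨P0, hP0, hP0E⟩ a B C ha hRB hC hlin
  have hna := H.na
  have hR1 := H.one_le
  obtain ⟨n1, n2, n3⟩ := h1 K v R a2 a4 a6 H P0 hP0E
  obtain ⟨hz0, hz1, -⟩ := pt H hP0 hP0E
  have hz01 : v (zz P0) < 1 := by
    by_contra hc
    push Not at hc
    have : (1 : ℝ) ≤ v (zz P0) ^ 2 := one_le_pow₀ hc
    nlinarith
  -- the points 2^l P0
  have hne : ∀ l : ℕ, v (zz ((2 ^ l : ℕ) • P0)) = v 2 ^ l * v (zz P0) ∧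
      (2 ^ l : ℕ) • P0 ≠ 0 := by
    intro l
    have e1 := n3 (2 ^ l) (pow_ne_zero _ two_ne_zero) hP0
    have e0 : v (((2 ^ l : ℕ) : K) * zz P0) = v 2 ^ l * v (zz P0) := by
      rw [map_mul]; push_cast; rw [map_pow]
    have h20 : 0 < v (2 : K) := v.pos two_ne_zero
    have e2 : v (zz ((2 ^ l : ℕ) • P0)) = v 2 ^ l * v (zz P0) := by
      rw [← e0]
      have : zz ((2 ^ l : ℕ) • P0) = ((2 ^ l : ℕ) : K) * zz P0 +
        (zz ((2 ^ l : ℕ) • P0) - ((2 ^ l : ℕ) : K) * zz P0) := by ring
      rw [this]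
      apply vadd_eq hna
      rw [map_mul]
      exact e1
    refine ⟨e2, fun h0 => ?_⟩
    rw [h0] at e2
    have : 0 < v 2 ^ l * v (zz P0) := by positivity
    rw [← e2] at this
    have hzz : zz (0 : (curve a2 a4 a6).Point) = 0 := rfl
    rw [hzz, map_zero] at this
    exact lt_irrefl _ this
  have h20 : 0 < v (2 : K) := v.pos two_ne_zero
  have h21 := H.two
  -- constants
  set D : ℝ := max (v a) C with hD
  have hDa : v a ≤ D := le_max_left _ _
  have hDC : C ≤ D := le_max_right _ _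
  have hD0 : 0 ≤ D := (v.nonneg a).trans hDa
  set D1 : ℝ := D + 1 with hD1
  have hB0 : 0 < B := by linarith
  -- estimate for small z
  have key : ∀ P : (curve a2 a4 a6).Point, P ≠ 0 → InE v R P → v (zz P) ≤ 1 →
      B * (D1 * v (zz P)) ^ 2 < 1 → v (a ^ 2 - t * a + n) ≤ (R + C + 1) * (D1 ^ 3) * D1 *
        v (zz P) ^ 2 := by
    intro P hP hPE hPz hPB
    obtain ⟨p1, p2, p3⟩ := pt H hP hPE
    set z := v (zz P) with hz
    have hPB' : InE v B P := by
      apply p3
      refine lt_of_le_of_lt ?_ hPB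
      have : z ≤ D1 * z := by nlinarith
      gcongr
    obtain ⟨q1, q2, q3⟩ := hlin P hP hPB'
    obtain ⟨r1, r2, r3⟩ := pt H q2 q1
    have hz1' : v (zz (ω P)) ≤ D * z := by
      have : zz (ω P) = a * zz P + (zz (ω P) - a * zz P) := by ring
      rw [this]
      apply vadd_le hna
      · rw [map_mul]; gcongr
      · refine q3.trans ?_
        have : z ^ 3 ≤ z := by
          calc z ^ 3 = z * z ^ 2 := by ring
            _ ≤ z * 1 := by gcongr; exact pow_le_one₀ p1.le hPz
            _ = z := by ring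
        exact mul_le_mul hDC this (by positivity) hD0
    have hz1D : v (zz (ω P)) ≤ D1 * z := hz1'.trans (by nlinarith)
    have hzD : z ≤ D1 * z := by nlinarith
    have hωB : InE v B (ω P) := by
      apply r3
      refine lt_of_le_of_lt ?_ hPB
      gcongr
    obtain ⟨s1, s2, s3⟩ := hlin (ω P) q2 hωB
    -- multiples
    obtain ⟨-, m1, -⟩ := h1 K v R a2 a4 a6 H (ω P) q1
    obtain ⟨-, m2, -⟩ := h1 K v R a2 a4 a6 H P hPE
    obtain ⟨t1, t2⟩ := m1 t
    obtain ⟨u1, u2⟩ := m2 (-n)
    have hsum := (h2 K v R a2 a4 a6 H (t • ω P) ((-n) • P) t1 u1).2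
    have hrel : t • ω P + (-n) • P = ω (ω P) := by
      rw [hω, neg_smul, sub_eq_add_neg]
    rw [hrel] at hsum
    have hA : v (zz (t • ω P)) ≤ D1 * z := by
      have : zz (t • ω P) = (t : K) * zz (ω P) + (zz (t • ω P) - (t : K) * zz (ω P)) := by ring
      rw [this]
      apply vadd_le hna
      · rw [map_mul]
        calc v (t : K) * v (zz (ω P)) ≤ 1 * v (zz (ω P)) := by gcongr; exact vint hna t
          _ ≤ D1 * z := by rw [one_mul]; exact hz1D
      · refine t2.trans ?_
        calc R * v (zz (ω P)) ^ 3 = (R * v (zz (ω P)) ^ 2) * v (zz (ω P)) := by ring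
          _ ≤ 1 * v (zz (ω P)) := by gcongr
          _ ≤ D1 * z := by rw [one_mul]; exact hz1D
    have hBq : v (zz ((-n) • P)) ≤ D1 * z := by
      have : zz ((-n) • P) = ((-n : ℤ) : K) * zz P + (zz ((-n) • P) - ((-n : ℤ) : K) * zz P) := by
        ring
      rw [this]
      apply vadd_le hna
      · rw [map_mul]
        calc v ((-n : ℤ) : K) * v (zz P) ≤ 1 * v (zz P) := by gcongr; exact vint hna (-n)
          _ ≤ D1 * z := by rw [one_mul]; exact hzD
      · refine u2.trans ?_
        calc R * v (zz P) ^ 3 = (R * v (zz P) ^ 2) * v (zz P) := by ring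
          _ ≤ 1 * v (zz P) := by gcongr
          _ ≤ D1 * z := by rw [one_mul]; exact hzD
    have hD1' : 1 ≤ D1 := by linarith
    have hD1p : (1 : ℝ) ≤ D1 ^ 3 := one_le_pow₀ hD1'
    have hbig : ∀ E : ℝ, 0 ≤ E → E ≤ R + C + 1 → E * (D1 * z) ^ 3 ≤
        (R + C + 1) * (D1 ^ 3) * D1 * z ^ 3 := by
      intro E hE0 hE
      calc E * (D1 * z) ^ 3 = E * D1 ^ 3 * 1 * z ^ 3 := by ring
        _ ≤ (R + C + 1) * (D1 ^ 3) * D1 * z ^ 3 := by gcongr
    have hid : (a ^ 2 - t * a + n) * zz P =
        (((zz (ω (ω P)) - zz (t • ω P) - zz ((-n) • P)) +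
        (zz (t • ω P) - (t : K) * zz (ω P))) + ((zz ((-n) • P) - ((-n : ℤ) : K) * zz P) +
        (t : K) * (zz (ω P) - a * zz P))) -
        ((zz (ω (ω P)) - a * zz (ω P)) + a * (zz (ω P) - a * zz P)) := by
      push_cast
      ring
    have hfin : v ((a ^ 2 - t * a + n) * zz P) ≤ (R + C + 1) * (D1 ^ 3) * D1 * z ^ 3 := by
      rw [hid]
      have c1 : v (zz (ω (ω P)) - zz (t • ω P) - zz ((-n) • P)) ≤
          (R + C + 1) * (D1 ^ 3) * D1 * z ^ 3 := by
        refine hsum.trans ((?_ : _ ≤ R * (D1 * z) ^ 3).trans (hbig R (by linarith) (by linarith)))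
        gcongr
        exact max_le hA hBq
      have c2 : v (zz (t • ω P) - (t : K) * zz (ω P)) ≤
          (R + C + 1) * (D1 ^ 3) * D1 * z ^ 3 := by
        refine t2.trans ((?_ : _ ≤ R * (D1 * z) ^ 3).trans (hbig R (by linarith) (by linarith)))
        gcongr
      have c3 : v (zz ((-n) • P) - ((-n : ℤ) : K) * zz P) ≤
          (R + C + 1) * (D1 ^ 3) * D1 * z ^ 3 := by
        refine u2.trans ((?_ : _ ≤ R * (D1 * z) ^ 3).trans (hbig R (by linarith) (by linarith)))
        gcongr
      have c4' : v (zz (ω P) - a * zz P) ≤ C * (D1 * z) ^ 3 := by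
        refine q3.trans ?_
        gcongr
      have c4 : v ((t : K) * (zz (ω P) - a * zz P)) ≤
          (R + C + 1) * (D1 ^ 3) * D1 * z ^ 3 := by
        rw [map_mul]
        calc v (t : K) * v (zz (ω P) - a * zz P) ≤ 1 * (C * (D1 * z) ^ 3) := by
              gcongr
              exact vint hna t
          _ ≤ _ := by rw [one_mul]; exact hbig C hC (by linarith)
      have c5 : v (zz (ω (ω P)) - a * zz (ω P)) ≤
          (R + C + 1) * (D1 ^ 3) * D1 * z ^ 3 := by
        refine s3.trans ((?_ : _ ≤ C * (D1 * z) ^ 3).trans (hbig C hC (by linarith)))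
        gcongr
      have c6 : v (a * (zz (ω P) - a * zz P)) ≤
          (R + C + 1) * (D1 ^ 3) * D1 * z ^ 3 := by
        rw [map_mul]
        calc v a * v (zz (ω P) - a * zz P) ≤ D1 * (C * z ^ 3) := by
              gcongr
              linarith
          _ ≤ D1 * ((R + C + 1) * D1 ^ 3 * z ^ 3) := by
              gcongr
              calc C ≤ (R + C + 1) * 1 := by linarith
                _ ≤ (R + C + 1) * D1 ^ 3 := by gcongr
          _ = _ := by ring
      exact vsub_le hna (vadd_le hna (vadd_le hna c1 c2) (vadd_le hna c3 c4)) (vadd_le hna c5 c6)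
    rw [map_mul] at hfin
    have : v (a ^ 2 - t * a + n) * z ≤ ((R + C + 1) * (D1 ^ 3) * D1 * z ^ 2) * z := by
      refine hfin.trans (le_of_eq ?_)
      ring
    exact le_of_mul_le_mul_right this p1
  -- limit
  have hlim : Filter.Tendsto (fun l : ℕ => v 2 ^ l * v (zz P0)) Filter.atTop (nhds 0) := by
    have := (tendsto_pow_atTop_nhds_zero_of_lt_one h20.le h21).mul_const (v (zz P0))
    simpa using this
  have hzero : v (a ^ 2 - t * a + n) ≤ 0 := by
    have hl1 : Filter.Tendsto (fun l : ℕ => (R + C + 1) * (D1 ^ 3) * D1 *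
        (v 2 ^ l * v (zz P0)) ^ 2) Filter.atTop (nhds 0) := by
      have := (hlim.pow 2).const_mul ((R + C + 1) * (D1 ^ 3) * D1)
      simpa using this
    have hl2 : Filter.Tendsto (fun l : ℕ => B * (D1 * (v 2 ^ l * v (zz P0))) ^ 2)
        Filter.atTop (nhds 0) := by
      have := ((hlim.const_mul D1).pow 2).const_mul B
      simpa using this
    refine ge_of_tendsto hl1 ?_
    filter_upwards [hl2.eventually_lt_const (show (0 : ℝ) < 1 by norm_num)] with l hl
    obtain ⟨e1, e2⟩ := hne l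
    have := key ((2 ^ l : ℕ) • P0) e2 (n1 _) ?_ ?_
    · rw [e1] at this
      exact this
    · rw [e1]
      calc v 2 ^ l * v (zz P0) ≤ 1 * 1 := by
            gcongr
            exact pow_le_one₀ h20.le h21.le
        _ = 1 := by norm_num
    · rw [e1]
      exact hl
  have : a ^ 2 - t * a + n = 0 := by
    have h3 := le_antisymm hzero (v.nonneg _)
    exact (v.eq_zero).1 h3
  linear_combination this

end RD
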