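import Pool.Agent.RD.Targets

/-!
RES: integral elements of a quadratic field have residues in the field with four elements.
-/

namespace RD

universe u

namespace RES_

variable {K : Type u} [Field K] {v : AbsoluteValue K ℝ}

lemma add_lt (hv : IsNonarchimedean v) {x y : K} (hx : v x < 1) (hy : v y < 1) :
    v (x + y) < 1 := (hv x y).trans_lt (max_lt hx hy)

lemma add_le (hv : IsNonarchimedean v) {x y : K} (hx : v x ≤ 1) (hy : v y ≤ 1) :
    v (x + y) ≤ 1 := (hv x y).trans (max_le hx hy)

lemma mul_lt {x y : K} (hx : v x < 1) (hy : v y ≤ 1) : v (x * y) < 1 := by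
  rw [map_mul]
  have h0 := v.nonneg x
  have h1 := v.nonneg y
  nlinarith

lemma nat_le (hv : IsNonarchimedean v) (n : ℕ) : v (n : K) ≤ 1 := by
  induction n with
  | zero => simp
  | succ n ih =>
    push_cast
    exact add_le hv ih (by simp)

lemma int_le (hv : IsNonarchimedean v) (n : ℤ) : v (n : K) ≤ 1 := by
  rcases n.eq_nat_or_neg with ⟨m, rfl | rfl⟩
  · simpa using nat_le hv m
  · have := nat_le (K := K) hv m
    simpa using this

lemma even_lt (hv : IsNonarchimedean v) (h2 : v 2 < 1) {n : ℤ} (hn : Even n) :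
    v (n : K) < 1 := by
  obtain ⟨k, rfl⟩ := hn
  have : (((k + k : ℤ)) : K) = 2 * (k : K) := by
    push_cast
    ring
  rw [this]
  exact mul_lt h2 (int_le hv k)

lemma odd_sub (hv : IsNonarchimedean v) (h2 : v 2 < 1) {n : ℤ} (hn : Odd n) :
    v ((n : K) - 1) < 1 := by
  have h : Even (n - 1) := hn.sub_odd odd_one
  have := even_lt (K := K) hv h2 h
  push_cast at this
  exact this

/-- an integral quadratic equation with not all coefficients even -/
lemma exists_eq [CharZero K] (w : K) : ∀ (m : ℕ) (A B C : ℤ), A.natAbs = m → A ≠ 0 →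
    (A : K) * w ^ 2 + B * w + C = 0 →
    ∃ A' B' C' : ℤ, (A' : K) * w ^ 2 + B' * w + C' = 0 ∧ (Odd A' ∨ Odd B' ∨ Odd C') := by
  intro m
  induction m using Nat.strong_induction_on with
  | _ m ih =>
    intro A B C hm hA h
    by_cases hodd : Odd A ∨ Odd B ∨ Odd C
    · exact ⟨A, B, C, h, hodd⟩
    · push Not at hodd
      obtain ⟨h1, h2, h3⟩ := hodd
      rw [Int.not_odd_iff_even] at h1 h2 h3
      obtain ⟨a, rfl⟩ := h1
      obtain ⟨b, rfl⟩ := h2
      obtain ⟨c, rfl⟩ := h3
      refine ih a.natAbs (by omega) a b c rfl (by omega) ?_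
      have h4 : (2 : K) * ((a : K) * w ^ 2 + b * w + c) = 0 := by
        rw [← h]
        push_cast
        ring
      exact (mul_eq_zero.1 h4).resolve_left two_ne_zero

/-- the conclusion from one small factor -/
lemma fin {w : K} (hw : v w ≤ 1) (hv : IsNonarchimedean v)
    (h : v (w * (w - 1)) < 1 ∨ v (w ^ 2 + w + 1) < 1) : v (w ^ 4 - w) < 1 := by
  have e : w ^ 4 - w = (w * (w - 1)) * (w ^ 2 + w + 1) := by ring
  have h1 : v (w - 1) ≤ 1 := by
    rw [sub_eq_add_neg]
    exact add_le hv hw (by simp)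
  have h2 : v (w * (w - 1)) ≤ 1 := by
    rw [map_mul]
    exact mul_le_one₀ hw (v.nonneg _) h1
  have h3 : v (w ^ 2 + w + 1) ≤ 1 := by
    refine add_le hv (add_le hv ?_ hw) (by simp)
    rw [map_pow]
    exact pow_le_one₀ (v.nonneg _) hw
  rw [e]
  rcases h with h | h
  · exact mul_lt h h3
  · rw [mul_comm]
    exact mul_lt h h2

end RES_

open RES_ in
theorem p_RES : T_RES.{u} := by
  intro K _ _ v hv h2 a w t n q r s ha hq hw hw1
  have hsub : ∀ {x y : K}, v x < 1 → v y < 1 → v (x - y) < 1 := by
    intro x y hx hy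
    rw [sub_eq_add_neg]
    exact add_lt hv hx (by simpa using hy)
  have hw2 : v (w ^ 2) ≤ 1 := by
    rw [map_pow]
    exact pow_le_one₀ (v.nonneg _) hw1
  -- the equation
  obtain ⟨A, B, C, hE, hodd⟩ := exists_eq w _ (q ^ 2) (-(2 * q * r + s * t * q))
    (r ^ 2 + s * t * r + s ^ 2 * n) rfl (pow_ne_zero 2 hq) (by
      have e : (s : K) * a = q * w - r := by rw [hw]; ring
      have e2 : (q * w - r : K) ^ 2 = s * t * (q * w - r) - s ^ 2 * n := by
        rw [← e, mul_pow, ha]
        ring
      push_cast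
      linear_combination e2)
  -- parities
  have key : ∀ m : ℤ, ∃ e : K, (e = 0 ∨ e = 1) ∧ v ((m : K) - e) < 1 ∧ (Odd m → e = 1) ∧
      (Even m → e = 0) := by
    intro m
    rcases Int.even_or_odd m with h | h
    · exact ⟨0, Or.inl rfl, by simpa using even_lt (K := K) hv h2 h,
        fun h' => absurd h' (Int.not_odd_iff_even.2 h), fun _ => rfl⟩
    · exact ⟨1, Or.inr rfl, odd_sub hv h2 h, fun _ => rfl,
        fun h' => absurd h (Int.not_odd_iff_even.2 h')⟩
  obtain ⟨α, hα, hA, hAo, hAe⟩ := key A
  obtain ⟨β, hβ, hB, hBo, hBe⟩ := key B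
  obtain ⟨γ, hγ, hC, hCo, hCe⟩ := key C
  have hmain : v (α * w ^ 2 + β * w + γ) < 1 := by
    have e : α * w ^ 2 + β * w + γ =
        0 - (((A : K) - α) * w ^ 2 + ((B : K) - β) * w + ((C : K) - γ)) := by
      linear_combination hE
    rw [e]
    exact hsub (by simp) (add_lt hv (add_lt hv (mul_lt hA hw2) (mul_lt hB hw1)) hC)
  have h2w : v (2 * w) < 1 := mul_lt h2 hw1
  have hw1' : v (w - 1) ≤ 1 := by
    rw [sub_eq_add_neg]
    exact add_le hv hw1 (by simp)
  refine fin hw1 hv ?_
  -- small w or small w - 1 suffices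
  have c1 : v w < 1 → v (w * (w - 1)) < 1 := fun h => mul_lt h hw1'
  have c2 : v (w + 1) < 1 → v (w * (w - 1)) < 1 := by
    intro h
    rw [mul_comm]
    refine mul_lt ?_ hw1
    have : w - 1 = (w + 1) - 2 := by ring
    rw [this]
    exact hsub h h2
  have hsq : ∀ x : K, v (x ^ 2) < 1 → v x < 1 := by
    intro x hx
    rw [map_pow] at hx
    by_contra hcon
    push Not at hcon
    have := one_le_pow₀ hcon (n := 2)
    linarith
  rcases hα with rfl | rfl
  · rcases hβ with rfl | rfl
    · rcases hγ with rfl | rfl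
      · exfalso
        rcases hodd with h | h | h
        · exact zero_ne_one (hAo h)
        · exact zero_ne_one (hBo h)
        · exact zero_ne_one (hCo h)
      · exfalso
        simp at hmain
    · rcases hγ with rfl | rfl
      · left; exact c1 (by simpa using hmain)
      · left; exact c2 (by simpa using hmain)
  · rcases hβ with rfl | rfl
    · rcases hγ with rfl | rfl
      · left; exact c1 (hsq w (by simpa using hmain))
      · left
        refine c2 (hsq (w + 1) ?_)
        have : (w + 1) ^ 2 = (1 * w ^ 2 + 0 * w + 1) + 2 * w := by ring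
        rw [this]
        exact add_lt hv hmain h2w
    · rcases hγ with rfl | rfl
      · left
        have : w * (w - 1) = (1 * w ^ 2 + 1 * w + 0) - 2 * w := by ring
        rw [this]
        exact hsub hmain h2w
      · right
        simpa using hmain

end RD
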