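import Pool.Agent.RD.SYM
import Pool.Agent.RD.EST
import Pool.Agent.RD.ADD
import Pool.Agent.RD.DBL
import Pool.Agent.RD.NSM
import Pool.Agent.RD.SUM
import Pool.Agent.RD.END
import Pool.Agent.RD.QUA
import Pool.Agent.RD.LEM
import Pool.Agent.RD.PIV
import Pool.Agent.RD.DIM
import Pool.Agent.RD.RES
import Pool.Agent.RD.QFD
import Pool.Agent.RD.CNJ
import Pool.Agent.RD.ZLI
import Pool.Agent.RD.LOCU
import Pool.Agent.RD.LOC
import Pool.Agent.RD.TRD
import Pool.Agent.RD.ELM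
import Pool.Agent.RD.PHM
import Pool.Agent.RD.PHI
import Pool.Agent.RD.RFD
import Pool.Agent.RD.MAI
import Pool.Agent.RD.INF
import Pool.Agent.RD.FIN

/-! Assembly of the first version. -/

namespace RD

universe u

theorem all_ADD : T_ADD.{u} := p_ADD p_SYM p_EST
theorem all_NSM : T_NSM.{u} := p_NSM all_ADD p_DBL
theorem all_SUM : T_SUM.{u} := p_SUM all_ADD
theorem all_LEM : T_LEM.{u} := p_LEM all_NSM all_SUM
theorem all_LOCU : T_LOCU.{u} := p_LOCU all_LEM p_PIV p_DIM p_RES p_QFD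
theorem all_LOC : T_LOC.{u} :=
  p_LOC all_LOCU (p_END all_NSM) (p_QUA all_NSM all_ADD) (p_CNJ p_QFD) p_ZLI
theorem all_MAI : T_MAI.{u} := p_MAI p_DBL all_LOC
theorem all_INF : T_INF.{u} := p_INF all_NSM all_LOC
theorem all_FIN : T_FIN.{u} := p_FIN p_RFD all_MAI all_INF (p_PHM p_TRD p_ELM) (p_PHI p_TRD p_ELM)

end RD
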