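import Mathlib
import Pool.Agent.RD.Targets2
import Pool.Agent.RD.MAI

namespace RD

open MvPolynomial WeierstrassCurve.Affine

universe u

namespace MAI2_

lemma eval_hom {R S : Type*} [CommRing R] [CommRing S] {σ : Type*} (r : R →+* S)
    (A : MvPolynomial σ R) (p : σ → R) : eval (fun j => r (p j)) (map r A) = r (eval p A) := by
  have h := eval₂_comp_right r (RingHom.id R) p A
  rw [map_id] at h
  rw [eval_map]
  exact h.symm

lemma elim_hom {R S : Type*} [CommRing R] [CommRing S] {α β : Type*} (r : R →+* S)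
    (p : α → R) (s : β → R) :
    Sum.elim (fun j => r (p j)) (fun j => r (s j)) = fun x => r (Sum.elim p s x) := by
  funext x
  cases x <;> rfl

lemma absc_hom {R S : Type*} [CommRing R] [CommRing S] (r : R →+* S) {d n g : ℕ} (D : ℕ)
    (F : Fin g → MvPolynomial (Fin d ⊕ Fin n) R) (c : Fin g × Fin (d + 1) → R)
    (p : Fin d → R) (s : Fin n → R) (i : Fin g) :
    absc D (fun i => map r (F i)) (fun u => r (c u)) (fun j => r (p j)) (fun j => r (s j)) i =
      r (absc D F c p s i) := by
  simp only [absc, elim_hom, eval_hom, map_add, map_sum, map_mul, map_pow]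

lemma onBase_hom {R S : Type*} [CommRing R] [CommRing S] (r : R →+* S) {d n : ℕ}
    {ρ : Fin n → ℕ} {b : Fin n → ℕ → MvPolynomial (Fin d) R} {p : Fin d → R} {s : Fin n → R}
    (h : OnBase ρ b p s) :
    OnBase ρ (fun j l => map r (b j l)) (fun j => r (p j)) (fun j => r (s j)) := by
  intro j
  have := congrArg r (h j)
  simp only [map_add, map_sum, map_mul, map_pow, map_zero] at this
  simp only [eval_hom]
  exact this

end MAI2_

open MAI2_ in
theorem p_MAI2 (h1 : T_DBL.{u}) (h2 : T_LOC.{u}) : T_MAI2.{u} := by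
  intro K _ _ _ v hna hv2 O k _ _ r hO hr d n D g ρ b A2 A4 A6 F c p s hb P hP hrel
  obtain ⟨S, J, w, q1, q2, q3, q4, q5, q6⟩ := MAI_.core (v := v) h1 h2 hna hv2 O k r hO hr
    (d + 1) g (eval (Sum.elim p s) A2) (eval (Sum.elim p s) A4) (eval (Sum.elim p s) A6)
    (fun i => absc D F c p s i) P hP hrel
  refine ⟨S, J, w, onBase_hom r hb, q1, q2, ?_, ?_, q5, ?_⟩
  · intro i hi
    rw [absc_hom, elim_hom, eval_hom]
    exact q3 i hi
  · intro i hi
    rw [absc_hom, elim_hom, eval_hom]
    exact q4 i hi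
  · intro j hj
    simp only [absc_hom, elim_hom, eval_hom]
    exact q6 j hj

end RD
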