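import Mathlib
import Pool.Agent.RD.Targets2
import Pool.Agent.RD.FIN
import Pool.Agent.RD.MAI2

namespace RD

open MvPolynomial WeierstrassCurve.Affine

universe u

namespace FIN2_

lemma vsum_le {K : Type u} [Field K] {v : AbsoluteValue K ℝ} (hna : IsNonarchimedean v)
    {ι : Type*} (S : Finset ι) (f : ι → K) {C : ℝ} (hC : 0 ≤ C) (h : ∀ i ∈ S, v (f i) ≤ C) :
    v (∑ i ∈ S, f i) ≤ C := by
  classical
  induction S using Finset.induction_on with
  | empty => simpa using hC
  | insert a S ha ih =>
    rw [Finset.sum_insert ha]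
    exact (hna _ _).trans (max_le (h a (Finset.mem_insert_self _ _))
      (ih fun i hi => h i (Finset.mem_insert_of_mem hi)))

/-- an element satisfying a monic equation with integral coefficients is integral -/
lemma integral {K : Type u} [Field K] {v : AbsoluteValue K ℝ} (hna : IsNonarchimedean v)
    (ρ : ℕ) (e : ℕ → K) (x : K) (he : ∀ l, l < ρ → v (e l) ≤ 1)
    (hx : x ^ ρ + ∑ l ∈ Finset.range ρ, e l * x ^ l = 0) : v x ≤ 1 := by
  by_contra hc
  push Not at hc
  have hx0 : 0 < v x := by linarith
  rcases Nat.eq_zero_or_pos ρ with h0 | hpos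
  · subst h0; simp at hx
  have h1 : x ^ ρ = -∑ l ∈ Finset.range ρ, e l * x ^ l := by
    rw [eq_neg_iff_add_eq_zero]; exact hx
  have h2 : v (∑ l ∈ Finset.range ρ, e l * x ^ l) ≤ v x ^ (ρ - 1) := by
    apply vsum_le hna _ _ (by positivity)
    intro l hl
    have hl' := Finset.mem_range.1 hl
    rw [map_mul, map_pow]
    calc v (e l) * v x ^ l ≤ 1 * v x ^ (ρ - 1) := by
          apply mul_le_mul (he l hl') _ (by positivity) zero_le_one
          exact pow_le_pow_right₀ hc.le (by omega)
      _ = v x ^ (ρ - 1) := one_mul _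
  have h3 : v x ^ ρ ≤ v x ^ (ρ - 1) := by
    rw [← map_pow, h1, v.map_neg]; exact h2
  have h4 : v x ^ (ρ - 1) < v x ^ ρ := pow_lt_pow_right₀ hc (by omega)
  linarith

end FIN2_

open FIN_ FIN2_ in
theorem p_FIN2 (h1 : T_RFD.{u}) (h2 : T_MAI2.{u}) (h3 : T_INF2.{u}) (h4 : T_PHM2.{u})
    (h5 : T_PHI2.{u}) : T_FIN2.{u} := by
  intro K _ _ _ v hna hv2 d n m D g hmD ρ b hb A2 A4 A6 F hint d2 d4 d6 hF
  obtain ⟨O, k, _, _, r, hO, hsurj, hr⟩ := h1 K v hna hv2
  have hle : ∀ x : O, v (x : K) ≤ 1 := fun x => (hO x).1 x.2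
  have hinj : Function.Injective (O.subtype : O →+* K) := Subtype.val_injective
  have hdeg : ∀ {σ : Type} (A : MvPolynomial σ O), (map O.subtype A).totalDegree = A.totalDegree :=
    fun A => by rw [totalDegree, totalDegree, support_map_of_injective _ hinj]
  obtain ⟨A2', e2⟩ := exists_lift hO A2 (fun s => (hint s).1)
  obtain ⟨A4', e4⟩ := exists_lift hO A4 (fun s => (hint s).2.1)
  obtain ⟨A6', e6⟩ := exists_lift hO A6 (fun s => (hint s).2.2)
  have hFl : ∀ i, ∃ F' : MvPolynomial (Fin d ⊕ Fin n) O, map O.subtype F' = F i :=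
    fun i => exists_lift hO (F i) (hF i).2
  choose F' hF' using hFl
  have hbl : ∀ j l, ∃ b' : MvPolynomial (Fin d) O, l < ρ j → map O.subtype b' = b j l := by
    intro j l
    by_cases hl : l < ρ j
    · obtain ⟨b', hb'⟩ := exists_lift hO (b j l) (hb j l hl).2
      exact ⟨b', fun _ => hb'⟩
    · exact ⟨0, fun h => absurd h hl⟩
  choose b' hb' using hbl
  obtain ⟨Φ1, hΦ1, H1⟩ := h4 k d n D g ρ (fun j l => map r (b' j l)) (map r A2') (map r A4')
    (map r A6') (fun i => map r (F' i))
  obtain ⟨Φ2, hΦ2, H2⟩ := h5 k d n D g ρ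
    (fun j l => homogeneousComponent (ρ j - l) (map r (b' j l)))
    (fun i => homogeneousComponent D (map r (F' i)))
  obtain ⟨Φo, hΦo⟩ := MvPolynomial.map_surjective r hsurj (Φ1 * Φ2)
  refine ⟨map O.subtype Φo, ?_, ?_, ?_⟩
  · intro s
    rw [coeff_map]
    exact hle _
  · have hne : Φ1 * Φ2 ≠ 0 := mul_ne_zero hΦ1 hΦ2
    obtain ⟨s, hs⟩ := MvPolynomial.ne_zero_iff.1 hne
    refine ⟨s, ?_⟩
    rw [coeff_map]
    rw [← hΦo, coeff_map] at hs
    refine le_antisymm (hle _) (not_lt.1 ?_)
    intro hlt
    exact hs ((hr _).2 hlt)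
  · intro c hc hv p s hbase P hP hrel
    set c' : Fin g × Fin (d + 1) → O := fun u => ⟨c u, (hO _).2 (hc u)⟩ with hc'
    have hev : eval c (map O.subtype Φo) = ((eval c' Φo : O) : K) := eval_hom O.subtype Φo c'
    have hne : r (eval c' Φo) ≠ 0 := by
      intro h0
      rw [hr] at h0
      rw [hev] at hv
      rw [hv] at h0
      exact lt_irrefl _ h0
    rw [← eval_hom r Φo c', hΦo, map_mul] at hne
    have n1 : eval (fun u => r (c' u)) Φ1 ≠ 0 := left_ne_zero_of_mul hne
    have n2 : eval (fun u => r (c' u)) Φ2 ≠ 0 := right_ne_zero_of_mul hne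
    have hbase' : OnBase ρ (fun j l => map O.subtype (b' j l)) p s := by
      intro j
      rw [← hbase j]
      congr 1
      apply Finset.sum_congr rfl
      intro l hl
      simp only
      rw [hb' j l (Finset.mem_range.1 hl)]
    by_cases hp : ∀ j, v (p j) ≤ 1
    · -- all coordinates are integral
      have hs : ∀ j, v (s j) ≤ 1 := by
        intro j
        apply integral hna (ρ j) (fun l => eval p (map O.subtype (b' j l))) (s j) _ (hbase' j)
        intro l _
        have := eval_hom O.subtype (b' j l) (fun i => (⟨p i, (hO _).2 (hp i)⟩ : O))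
        have e : (fun i => O.subtype (⟨p i, (hO _).2 (hp i)⟩ : O)) = p := rfl
        rw [e] at this
        rw [this]
        exact hle _
      have key : ∀ (p' : Fin d → O) (s' : Fin n → O), OnBase ρ b' p' s' →
          ∀ (b2 b4 b6 : K), b2 = ((eval (Sum.elim p' s') A2' : O) : K) →
          b4 = ((eval (Sum.elim p' s') A4' : O) : K) →
          b6 = ((eval (Sum.elim p' s') A6' : O) : K) →
          ∀ (Q : Fin g → (curve b2 b4 b6).Point),
          (∀ i, ∃ y h, Q i = Point.some ((absc D F' c' p' s' i : O) : K) y h) →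
          (IntRel _ (d + 1) Q ∨ CMRel _ (d + 1) Q) → False := by
        rintro p' s' hb0 _ _ _ rfl rfl rfl Q hQ hrel'
        obtain ⟨S, J, w, hbad⟩ := h2 K v hna hv2 O k r hO hr d n D g ρ b' A2' A4' A6' F' c' p' s'
          hb0 Q hQ hrel'
        exact H1 _ n1 _ _ _ _ _ hbad
      set p' : Fin d → O := fun j => ⟨p j, (hO _).2 (hp j)⟩ with hp'
      set s' : Fin n → O := fun j => ⟨s j, (hO _).2 (hs j)⟩ with hs'
      have ep : (fun j => O.subtype (p' j)) = p := rfl
      have es : (fun j => O.subtype (s' j)) = s := rfl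
      have eel : (fun x => O.subtype (Sum.elim p' s' x)) = Sum.elim p s := by
        funext x
        cases x <;> rfl
      refine key p' s' ?_ _ _ _ ?_ ?_ ?_ P ?_ hrel
      · intro j
        apply hinj
        have := hbase' j
        rw [map_zero, map_add, map_sum, map_pow]
        simp only [map_mul, map_pow]
        simp only [← eval_hom O.subtype, ep]
        exact this
      · rw [← e2]
        have := eval_hom O.subtype A2' (Sum.elim p' s')
        rw [eel] at this
        exact this
      · rw [← e4]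
        have := eval_hom O.subtype A4' (Sum.elim p' s')
        rw [eel] at this
        exact this
      · rw [← e6]
        have := eval_hom O.subtype A6' (Sum.elim p' s')
        rw [eel] at this
        exact this
      · intro i
        obtain ⟨y, h, hPi⟩ := hP i
        have ha : ((absc D F' c' p' s' i : O) : K) = absc D F c p s i := by
          have := MAI2_.absc_hom O.subtype D F' c' p' s' i
          simp only [hF', ep, es] at this
          exact this.symm
        rw [ha]
        exact ⟨y, h, hPi⟩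
    · push Not at hp
      have hFeq : (fun i => map O.subtype (F' i)) = F := funext hF'
      have key : ∀ (B2 B4 B6 : MvPolynomial (Fin d ⊕ Fin n) K), B2 = map O.subtype A2' →
          B4 = map O.subtype A4' → B6 = map O.subtype A6' →
          ∀ (Q : Fin g → (curve (eval (Sum.elim p s) B2) (eval (Sum.elim p s) B4)
            (eval (Sum.elim p s) B6)).Point),
          (∀ i, ∃ y h, Q i = Point.some (absc D F c p s i) y h) →
          (IntRel _ (d + 1) Q ∨ CMRel _ (d + 1) Q) → False := by
        rintro _ _ _ rfl rfl rfl Q hQ hrel'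
        obtain ⟨p', s', S, J, w, hbad⟩ := h3 K v hna hv2 O k r hO hr d n m D g hmD ρ b'
          (by
            intro j l hl
            rw [← hdeg, hb' j l hl]
            exact (hb j l hl).1) A2' A4' A6' F'
          (by rw [← hdeg, e2]; exact d2) (by rw [← hdeg, e4]; exact d4)
          (by rw [← hdeg, e6]; exact d6) (by intro i; rw [← hdeg, hF']; exact (hF i).1)
          c' p s hbase' Q hp (by rw [hFeq]; exact hQ) hrel'
        exact H2 _ n2 _ _ _ _ _ hbad
      exact key _ _ _ e2.symm e4.symm e6.symm P hP hrel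

end RD
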