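import Mathlib
import Pool.Agent.RD.Targets2
import Pool.Agent.RD.FIN
import Pool.Agent.RD.FIN2
import Pool.Agent.RD.RFD

/-!
Non-vacuity: over an algebraically closed field every polynomial with integral coefficients, one of
them a unit, takes a unit value at some integral point.
-/

namespace RD

open MvPolynomial

universe u

theorem exists_unit_value {K : Type u} [Field K] [CharZero K] [IsAlgClosed K]
    (v : AbsoluteValue K ℝ) (hna : IsNonarchimedean v) (h2 : v 2 < 1) {σ : Type} [Finite σ]
    (Φ : MvPolynomial σ K) (hΦ : ∀ t, v (Φ.coeff t) ≤ 1) (hu : ∃ t, v (Φ.coeff t) = 1) :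
    ∃ c : σ → K, (∀ u, v (c u) ≤ 1) ∧ v (eval c Φ) = 1 := by
  obtain ⟨O, k, _, _, r, hO, hsurj, hr⟩ := p_RFD K v hna h2
  have hle : ∀ x : O, v (x : K) ≤ 1 := fun x => (hO x).1 x.2
  have hinf : Infinite k := by
    by_contra hfin
    have hfin' : Finite k := not_infinite_iff_finite.1 hfin
    have : Fintype k := Fintype.ofFinite k
    set q := Fintype.card k with hq
    have hq2 : 2 ≤ q := Fintype.one_lt_card
    obtain ⟨x, hx⟩ := IsAlgClosed.exists_root
      ((Polynomial.X ^ q - Polynomial.X - 1 : Polynomial K)) (by
        have hd : (Polynomial.X ^ q - Polynomial.X - 1 : Polynomial K).degree = q := by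
          rw [sub_sub]
          rw [Polynomial.degree_sub_eq_left_of_degree_lt]
          · simp
          · rw [Polynomial.degree_X_pow]
            refine lt_of_le_of_lt (Polynomial.degree_add_le _ _) ?_
            rw [max_lt_iff]
            constructor
            · rw [Polynomial.degree_X]
              exact_mod_cast hq2
            · rw [Polynomial.degree_one]
              exact_mod_cast (by omega : 0 < q)
        rw [hd]
        exact_mod_cast (by omega : q ≠ 0))
    have hx' : x ^ q - x - 1 = 0 := by
      simpa [Polynomial.IsRoot] using hx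
    have hxle : v x ≤ 1 := by
      by_contra hc
      push Not at hc
      have h1 : x ^ q = x + 1 := by linear_combination hx'
      have h3 : v x ^ q ≤ v x := by
        rw [← map_pow, h1]
        refine (hna _ _).trans (max_le le_rfl ?_)
        rw [map_one]; exact hc.le
      have h4 : v x ^ 1 < v x ^ q := pow_lt_pow_right₀ hc (by omega)
      rw [pow_one] at h4
      linarith
    set y : O := ⟨x, (hO x).2 hxle⟩ with hy
    have hyy : y ^ q - y - 1 = 0 := by
      apply Subtype.ext
      push_cast
      exact hx'
    have := congrArg r hyy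
    rw [map_sub, map_sub, map_pow, map_one, map_zero, hq, FiniteField.pow_card] at this
    simp at this
  obtain ⟨Φo, hΦo⟩ := FIN_.exists_lift hO Φ hΦ
  have hne : map r Φo ≠ 0 := by
    obtain ⟨t, ht⟩ := hu
    intro h0
    have h1 := congrArg (coeff t) h0
    rw [coeff_map, coeff_zero, hr] at h1
    have h3 : Φ.coeff t = ((Φo.coeff t : O) : K) := by
      rw [← hΦo, coeff_map]; rfl
    rw [h3] at ht
    rw [ht] at h1
    exact lt_irrefl _ h1
  obtain ⟨c, hc⟩ : ∃ c : σ → k, eval c (map r Φo) ≠ 0 := by
    by_contra hcon
    push Not at hcon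
    exact hne (MvPolynomial.funext (fun c => by rw [hcon c, map_zero]))
  choose c' hc' using fun u => hsurj (c u)
  refine ⟨fun u => (c' u : K), fun u => hle _, ?_⟩
  have e1 : eval (fun u => (c' u : K)) Φ = ((eval c' Φo : O) : K) := by
    rw [← hΦo]
    exact FIN_.eval_hom O.subtype Φo c'
  rw [e1]
  refine le_antisymm (hle _) (not_lt.1 ?_)
  intro hlt
  rw [← hr, ← FIN_.eval_hom r Φo c'] at hlt
  apply hc
  rw [← hlt]
  congr 2
  funext u
  exact (hc' u).symm

end RD
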