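import Pool.Agent.RD.Targets2

set_option autoImplicit false

/-!
# PHI2: generic coefficients have no bad system at infinity, general base
-/

namespace RD

open MvPolynomial WeierstrassCurve.Affine

universe u

namespace PHI2_

/-- the coefficient variables -/
abbrev Iv (d g : ℕ) : Type := Fin g × Fin (d + 1)

/-- the other variables: the parameters, the integral functions, the inverses, the weights -/
abbrev Kv (d n g : ℕ) : Type := (Fin d ⊕ Fin n) ⊕ (Fin g ⊕ (Fin g × Fin g))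

variable {k : Type u} [Field k] {d n D g : ℕ}

/-- the abscissas, in an algebra -/
noncomputable def av {L : Type*} [Field L] [Algebra k L] (D : ℕ)
    (F : Fin g → MvPolynomial (Fin d ⊕ Fin n) k) (c : Iv d g → L) (p : Fin d → L) (s : Fin n → L)
    (i : Fin g) : L :=
  aeval (Sum.elim p s) (F i) + ∑ m : Fin d, c (i, m.succ) * p m ^ D

/-- the conditions -/
structure Sol {L : Type*} [Field L] [Algebra k L] (D : ℕ) (r : Fin n → ℕ)
    (b : Fin n → ℕ → MvPolynomial (Fin d) k) (F : Fin g → MvPolynomial (Fin d ⊕ Fin n) k)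
    (S J : Finset (Fin g)) (m : Fin d)
    (c : Iv d g → L) (p : Fin d → L) (s : Fin n → L) (h : Fin g → L) (w : Fin g → Fin g → L) :
    Prop where
  pm : p m = 1
  base : ∀ j, s j ^ r j + ∑ l ∈ Finset.range (r j), aeval p (b j l) * s j ^ l = 0
  hS : ∀ i ∈ S, av D F c p s i = 0
  hN : ∀ i, i ∉ S → h i * av D F c p s i = 1
  w4 : ∀ j ∈ J, ∀ i, w j i ^ 4 = w j i
  hJ : ∀ j ∈ J, h j = ∑ i ∈ (J ∪ S)ᶜ, w j i * h i

/-- the form -/
noncomputable def FP (D : ℕ) (F : Fin g → MvPolynomial (Fin d ⊕ Fin n) k) (i : Fin g) :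
    MvPolynomial (Iv d g ⊕ Kv d n g) k :=
  rename (fun v => Sum.inr (Sum.inl v)) (F i) +
    ∑ m : Fin d, X (Sum.inl (i, m.succ)) * X (Sum.inr (Sum.inl (Sum.inl m))) ^ D

/-- the equation of the base -/
noncomputable def BP (g : ℕ) (r : Fin n → ℕ) (b : Fin n → ℕ → MvPolynomial (Fin d) k) (j : Fin n) :
    MvPolynomial (Iv d g ⊕ Kv d n g) k :=
  X (Sum.inr (Sum.inl (Sum.inr j))) ^ r j + ∑ l ∈ Finset.range (r j),
    rename (fun v => Sum.inr (Sum.inl (Sum.inl v))) (b j l) *
      X (Sum.inr (Sum.inl (Sum.inr j))) ^ l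

/-- the system of equations -/
def sys (D : ℕ) (r : Fin n → ℕ) (b : Fin n → ℕ → MvPolynomial (Fin d) k)
    (F : Fin g → MvPolynomial (Fin d ⊕ Fin n) k) (S J : Finset (Fin g)) (m : Fin d) :
    Set (MvPolynomial (Iv d g ⊕ Kv d n g) k) :=
  {f | f = X (Sum.inr (Sum.inl (Sum.inl m))) - 1 ∨ (∃ j, f = BP g r b j) ∨
    (∃ i ∈ S, f = FP D F i) ∨
    (∃ i, i ∉ S ∧ f = X (Sum.inr (Sum.inr (Sum.inl i))) * FP D F i - 1) ∨
    (∃ j ∈ J, ∃ i, f = X (Sum.inr (Sum.inr (Sum.inr (j, i)))) ^ 4 -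
      X (Sum.inr (Sum.inr (Sum.inr (j, i))))) ∨
    (∃ j ∈ J, f = X (Sum.inr (Sum.inr (Sum.inl j))) - ∑ i ∈ (J ∪ S)ᶜ,
      X (Sum.inr (Sum.inr (Sum.inr (j, i)))) * X (Sum.inr (Sum.inr (Sum.inl i))))}

section

variable {L : Type*} [Field L] [Algebra k L] (r : Fin n → ℕ)
    (b : Fin n → ℕ → MvPolynomial (Fin d) k) (F : Fin g → MvPolynomial (Fin d ⊕ Fin n) k)
    (c : Iv d g → L) (p : Fin d → L) (s : Fin n → L) (h : Fin g → L) (w : Fin g → Fin g → L)

/-- the point -/
def pt : Iv d g ⊕ Kv d n g → L :=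
  Sum.elim c (Sum.elim (Sum.elim p s) (Sum.elim h (fun ji => w ji.1 ji.2)))

theorem aeval_FP (i : Fin g) : aeval (pt c p s h w) (FP D F i) = av D F c p s i := by
  unfold FP av
  rw [map_add, aeval_rename, map_sum]
  congr 1
  refine Finset.sum_congr rfl fun m _ => ?_
  rw [map_mul, map_pow, aeval_X, aeval_X]
  rfl

theorem aeval_BP (j : Fin n) : aeval (pt c p s h w) (BP g r b j) =
    s j ^ r j + ∑ l ∈ Finset.range (r j), aeval p (b j l) * s j ^ l := by
  unfold BP
  rw [map_add, map_pow, aeval_X, map_sum]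
  congr 1
  refine Finset.sum_congr rfl fun m _ => ?_
  rw [map_mul, map_pow, aeval_X, aeval_rename]
  rfl

theorem sol_of_sys {S J : Finset (Fin g)} {m : Fin d}
    (hh : ∀ f ∈ sys D r b F S J m, aeval (pt c p s h w) f = 0) :
    Sol D r b F S J m c p s h w := by
  refine ⟨?_, ?_, ?_, ?_, ?_, ?_⟩
  · have := hh _ (Or.inl rfl)
    rw [map_sub, map_one, sub_eq_zero, aeval_X] at this
    exact this
  · intro j
    have := hh _ (Or.inr (Or.inl ⟨j, rfl⟩))
    rw [aeval_BP] at this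
    exact this
  · intro i hi
    have := hh _ (Or.inr (Or.inr (Or.inl ⟨i, hi, rfl⟩)))
    rw [aeval_FP] at this
    exact this
  · intro i hi
    have := hh _ (Or.inr (Or.inr (Or.inr (Or.inl ⟨i, hi, rfl⟩))))
    rw [map_sub, map_one, sub_eq_zero, map_mul, aeval_FP, aeval_X] at this
    exact this
  · intro j hj i
    have := hh _ (Or.inr (Or.inr (Or.inr (Or.inr (Or.inl ⟨j, hj, i, rfl⟩)))))
    rw [map_sub, map_pow, sub_eq_zero, aeval_X] at this
    exact this
  · intro j hj
    have := hh _ (Or.inr (Or.inr (Or.inr (Or.inr (Or.inr ⟨j, hj, rfl⟩)))))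
    rw [map_sub, sub_eq_zero, map_sum, aeval_X] at this
    simp only [map_mul, aeval_X] at this
    exact this

theorem sys_of_sol {S J : Finset (Fin g)} {m : Fin d} (hh : Sol D r b F S J m c p s h w) :
    ∀ f ∈ sys D r b F S J m, aeval (pt c p s h w) f = 0 := by
  intro f hf
  rcases hf with rfl | ⟨j, rfl⟩ | ⟨i, hi, rfl⟩ | ⟨i, hi, rfl⟩ | ⟨j, hj, i, rfl⟩ | ⟨j, hj, rfl⟩
  · rw [map_sub, map_one, sub_eq_zero, aeval_X]
    exact hh.pm
  · rw [aeval_BP]
    exact hh.base j
  · rw [aeval_FP]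
    exact hh.hS i hi
  · rw [map_sub, map_one, sub_eq_zero, map_mul, aeval_FP, aeval_X]
    exact hh.hN i hi
  · rw [map_sub, map_pow, sub_eq_zero, aeval_X]
    exact hh.w4 j hj i
  · rw [map_sub, sub_eq_zero, map_sum, aeval_X]
    simp only [map_mul, aeval_X]
    exact hh.hJ j hj

end

/-- the generic system is unsolvable -/
theorem no_sol (hT : T_TRD.{u}) (r : Fin n → ℕ)
    (b : Fin n → ℕ → MvPolynomial (Fin d) k) (F : Fin g → MvPolynomial (Fin d ⊕ Fin n) k)
    (S J : Finset (Fin g)) (m : Fin d)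
    (hcard : d + 1 ≤ J.card + S.card) (hdis : Disjoint J S) (L : Type u) [Field L] [Algebra k L]
    (c : Iv d g → L) (hc : AlgebraicIndependent k c) (p : Fin d → L) (s : Fin n → L)
    (h : Fin g → L)
    (w : Fin g → Fin g → L) (hs : Sol D r b F S J m c p s h w) : False := by
  classical
  set B : Finset (Iv d g) := (S ∪ J).image (fun i => (i, m.succ)) with hB
  have hBcard : d < B.card := by
    rw [hB, Finset.card_image_of_injective _ (fun i j hij => (Prod.ext_iff.1 hij).1),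
      Finset.card_union_of_disjoint hdis.symm]
    omega
  have hmem : ∀ i α, (i, α) ∈ B ↔ (i ∈ S ∪ J ∧ α = m.succ) := by
    intro i α
    rw [hB, Finset.mem_image]
    constructor
    · rintro ⟨i', hi', he⟩
      obtain ⟨rfl, rfl⟩ := Prod.ext_iff.1 he
      exact ⟨hi', rfl⟩
    · rintro ⟨hi, rfl⟩
      exact ⟨i, hi, rfl⟩
  apply hT k L (Iv d g) c hc d p B hBcard
  set L0 := IntermediateField.adjoin k (Set.range p ∪ c '' {w | w ∉ B}) with hL0
  have halg : ∀ x ∈ L0, IsAlgebraic L0 x := fun x hx =>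
    isAlgebraic_algebraMap (⟨x, hx⟩ : L0)
  set A := algebraicClosure L0 L with hA
  have hAi : ∀ x : L, x ∈ A ↔ IsAlgebraic L0 x := fun x => mem_algebraicClosure_iff
  have hpL : ∀ j, p j ∈ L0 := fun j => IntermediateField.subset_adjoin _ _ (Or.inl ⟨j, rfl⟩)
  have hp0 : ∀ j, p j ∈ A := fun j => (hAi _).2 (halg _ (hpL j))
  have hc0 : ∀ u, u ∉ B → c u ∈ A := fun u hu => (hAi _).2 (halg _
    (IntermediateField.subset_adjoin _ _ (Or.inr ⟨u, hu, rfl⟩)))
  have hk0 : ∀ x : k, algebraMap k L x ∈ A := fun x => (hAi _).2 (halg _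
    (IntermediateField.algebraMap_mem L0 x))
  -- polynomial expressions
  have hbL : ∀ f : MvPolynomial (Fin d) k, aeval p f ∈ L0 := by
    intro f
    rw [aeval_def, eval₂_eq]
    exact sum_mem fun e _ => mul_mem (IntermediateField.algebraMap_mem L0 _)
      (prod_mem fun j _ => pow_mem (hpL j) _)
  have hs0 : ∀ j, s j ∈ A := by
    intro j
    rw [hAi]
    have hb := hs.base j
    have hr : r j ≠ 0 := by
      intro h0
      rw [h0] at hb
      simp at hb
    refine ⟨Polynomial.X ^ r j + ∑ l ∈ Finset.range (r j),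
      Polynomial.C (⟨aeval p (b j l), hbL _⟩ : L0) * Polynomial.X ^ l, ?_, ?_⟩
    · apply Polynomial.Monic.ne_zero
      apply Polynomial.monic_X_pow_add
      refine lt_of_le_of_lt (Polynomial.degree_sum_le _ _) ?_
      rw [Finset.sup_lt_iff (by exact_mod_cast WithBot.bot_lt_coe (r j))]
      intro l hl
      refine lt_of_le_of_lt (Polynomial.degree_C_mul_X_pow_le _ _) ?_
      exact_mod_cast Finset.mem_range.1 hl
    · rw [map_add, map_pow, Polynomial.aeval_X, map_sum]
      rw [← hb]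
      congr 1
      refine Finset.sum_congr rfl fun l _ => ?_
      rw [map_mul, map_pow, Polynomial.aeval_X, Polynomial.aeval_C]
      rfl
  have hF0 : ∀ i, aeval (Sum.elim p s) (F i) ∈ A := by
    intro i
    rw [aeval_def, eval₂_eq]
    refine sum_mem fun e _ => mul_mem (hk0 _) (prod_mem fun j _ => pow_mem ?_ _)
    rcases j with j | j
    · exact hp0 j
    · exact hs0 j
  set rest : Fin g → L := fun i => aeval (Sum.elim p s) (F i) +
    ∑ m' ∈ Finset.univ.erase m, c (i, m'.succ) * p m' ^ D with hrest_def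
  have hrest : ∀ i, rest i ∈ A := by
    intro i
    refine add_mem (hF0 i) (sum_mem fun m' hm' => mul_mem (hc0 _ ?_) (pow_mem (hp0 _) _))
    rw [hmem]
    rintro ⟨_, h2⟩
    exact (Finset.ne_of_mem_erase hm') (Fin.succ_injective _ h2)
  have htop : ∀ i, av D F c p s i = c (i, m.succ) + rest i := by
    intro i
    rw [hrest_def]
    unfold av
    rw [← Finset.add_sum_erase _ _ (Finset.mem_univ m), hs.pm, one_pow, mul_one]
    ring
  -- the inverses outside `S` and `J`
  have hh : ∀ i, i ∈ (J ∪ S)ᶜ → h i ∈ A := by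
    intro i hi
    rw [Finset.mem_compl, Finset.mem_union, not_or] at hi
    have h1 := hs.hN i hi.2
    have h2 : av D F c p s i ∈ A := by
      rw [htop i]
      refine add_mem (hc0 _ ?_) (hrest i)
      rw [hmem, Finset.mem_union]
      rintro ⟨h3 | h3, _⟩
      · exact hi.2 h3
      · exact hi.1 h3
    rw [eq_inv_of_mul_eq_one_left h1]
    exact inv_mem h2
  intro u hu
  obtain ⟨i, α⟩ := u
  obtain ⟨hi, rfl⟩ := (hmem i α).1 hu
  rw [← hAi]
  rcases Finset.mem_union.1 hi with hiS | hiJ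
  · have h1 := hs.hS i hiS
    rw [htop i] at h1
    rw [eq_neg_of_add_eq_zero_left h1]
    exact neg_mem (hrest i)
  · have hw : ∀ i', w i i' ∈ A := by
      intro i'
      rw [hAi]
      refine ⟨Polynomial.X ^ 4 - Polynomial.X, ?_, ?_⟩
      · intro h0
        have h2 := congrArg (fun q => Polynomial.coeff q 4) h0
        simp [Polynomial.coeff_X] at h2
      · rw [map_sub, map_pow, Polynomial.aeval_X, hs.w4 i hiJ i', sub_self]
    have h1 : h i ∈ A := by
      rw [hs.hJ i hiJ]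
      exact sum_mem fun i' hi' => mul_mem (hw i') (hh i' hi')
    have hiS : i ∉ S := fun h => Finset.disjoint_left.1 hdis hiJ h
    have h2 := hs.hN i hiS
    have h3 : av D F c p s i = (h i)⁻¹ := eq_inv_of_mul_eq_one_right h2
    rw [htop i] at h3
    have h4 : c (i, m.succ) = (h i)⁻¹ - rest i := by
      rw [← h3]; ring
    rw [h4]
    exact sub_mem (inv_mem h1) (hrest i)

end PHI2_

open PHI2_ in
theorem p_PHI2 (h1 : T_TRD.{u}) (h2 : T_ELM.{u}) : T_PHI2.{u} := by
  classical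
  intro k _ d n D g r b F
  have key : ∀ t : Finset (Fin g) × Finset (Fin g) × Fin d,
      ∃ Φ : MvPolynomial (Iv d g) k, Φ ≠ 0 ∧ (Disjoint t.2.1 t.1 →
        d + 1 ≤ t.2.1.card + t.1.card → ∀ c : Iv d g → k, eval c Φ ≠ 0 →
        ∀ y : Kv d n g → k, ∃ f ∈ sys D r b F t.1 t.2.1 t.2.2, eval (Sum.elim c y) f ≠ 0) := by
    rintro ⟨S, J, m⟩
    by_cases hd : Disjoint J S ∧ d + 1 ≤ J.card + S.card
    · obtain ⟨Φ, hΦ, hprop⟩ := h2 k (Iv d g) (Kv d n g) (sys D r b F S J m) (by
        intro L _ _ c y hc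
        by_contra hcon
        push Not at hcon
        have hpt : (pt c (fun j => y (Sum.inl (Sum.inl j))) (fun j => y (Sum.inl (Sum.inr j)))
            (fun i => y (Sum.inr (Sum.inl i))) (fun j i => y (Sum.inr (Sum.inr (j, i)))) :
            Iv d g ⊕ Kv d n g → L) = Sum.elim c y := by
          funext x
          rcases x with x | (x | x) | x | x <;> rfl
        rw [← hpt] at hcon
        exact no_sol h1 r b F S J m hd.2 hd.1 L c hc _ _ _ _
          (sol_of_sys r b F c _ _ _ _ hcon))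
      exact ⟨Φ, hΦ, fun _ _ => hprop⟩
    · exact ⟨1, one_ne_zero, fun ha hb => absurd ⟨ha, hb⟩ hd⟩
  choose Φ hΦ hprop using key
  refine ⟨∏ t, Φ t, Finset.prod_ne_zero_iff.2 fun t _ => hΦ t, ?_⟩
  intro c hc p s S J w hbad
  obtain ⟨b0, b1, b2, ⟨m, hm⟩, b3, b4, b5, b6⟩ := hbad
  rw [map_prod] at hc
  have hc' := Finset.prod_ne_zero_iff.1 hc (S, J, m) (Finset.mem_univ _)
  have hav : ∀ i, av D F c p s i = absc0 D F c p s i := by
    intro i
    unfold av absc0
    rw [← coe_aeval_eq_eval]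
    rfl
  obtain ⟨f, hf, hne⟩ := hprop (S, J, m) b1 b2 c hc'
    (Sum.elim (Sum.elim p s) (Sum.elim (fun i => (absc0 D F c p s i)⁻¹) (fun ji => w ji.1 ji.2)))
  apply hne
  have := sys_of_sol (k := k) (L := k) r b F c p s (fun i => (absc0 D F c p s i)⁻¹) w
    (S := S) (J := J) (m := m) (D := D) ?_ f hf
  · rw [← coe_aeval_eq_eval]
    exact this
  · refine ⟨hm, ?_, ?_, ?_, b5, b6⟩
    · intro j
      have := b0 j
      rw [← this]
      congr 1
    · intro i hi
      rw [hav]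
      exact b3 i hi
    · intro i hi
      rw [hav]
      exact inv_mul_cancel₀ (b4 i hi)

end RD
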