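import Pool.Agent.RD.Targets2
import Pool.Agent.RD.PHM

set_option autoImplicit false

/-!
Generic coefficients: no bad main system over the residue field, general base.
-/

namespace RD

open MvPolynomial

universe u

namespace PHM2_

open PHM_ (gg alg_of_eq)

section sol

variable {k L : Type u} [Field k] [Field L] [Algebra k L] {d n D g : ℕ}

/-- the abscissas -/
noncomputable def xv (D : ℕ) (F : Fin g → MvPolynomial (Fin d ⊕ Fin n) k) (c : Fin g × Fin (d + 1) → L)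
    (q : Fin d ⊕ Fin n → L) (i : Fin g) : L :=
  aeval q (F i) + c (i, 0) + ∑ m : Fin d, c (i, m.succ) * q (Sum.inl m) ^ D

/-- a root of a monic polynomial is algebraic -/
theorem alg_monic {K M : Type*} [Field K] [Field M] [Algebra K M] (r : ℕ) (β : ℕ → K) (x : M)
    (h : x ^ r + ∑ l ∈ Finset.range r, algebraMap K M (β l) * x ^ l = 0) : IsAlgebraic K x := by
  refine ⟨Polynomial.X ^ r + ∑ l ∈ Finset.range r, Polynomial.C (β l) * Polynomial.X ^ l, ?_, ?_⟩
  · intro h0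
    have h1 := congrArg (fun q => Polynomial.coeff q r) h0
    simp only [Polynomial.coeff_add, Polynomial.coeff_X_pow, if_true, Polynomial.finsetSum_coeff,
      Polynomial.coeff_C_mul, Polynomial.coeff_zero] at h1
    rw [Finset.sum_eq_zero, add_zero] at h1
    · exact one_ne_zero h1
    · intro l hl
      rw [if_neg (Finset.mem_range.1 hl).ne', mul_zero]
  · simp only [map_add, map_sum, map_mul, map_pow, Polynomial.aeval_X, Polynomial.aeval_C]
    exact h

theorem no_sol (h1 : T_TRD.{u}) (r : Fin n → ℕ) (b : Fin n → ℕ → MvPolynomial (Fin d) k)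
    (b2 b4 b6 : MvPolynomial (Fin d ⊕ Fin n) k) (F : Fin g → MvPolynomial (Fin d ⊕ Fin n) k)
    (S J : Finset (Fin g))
    (hdis : Disjoint J S) (hcard : d + 1 ≤ J.card + S.card) (c : Fin g × Fin (d + 1) → L)
    (hc : AlgebraicIndependent k c) (q : Fin d ⊕ Fin n → L) (h : Fin g → L)
    (w : Fin g → Fin g → L)
    (H0 : ∀ j, q (Sum.inr j) ^ r j + ∑ l ∈ Finset.range (r j),
      aeval (fun m => q (Sum.inl m)) (b j l) * q (Sum.inr j) ^ l = 0)
    (H1 : ∀ i ∈ S, xv D F c q i ^ 2 + aeval q b4 = 0)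
    (H2 : ∀ i, i ∉ S → h i * (xv D F c q i ^ 2 + aeval q b4) = 1)
    (H3 : ∀ j ∈ J, ∀ i, w j i ^ 4 = w j i)
    (H4 : ∀ j ∈ J, gg (aeval q b2) (aeval q b4) (aeval q b6) (xv D F c q j) *
        h j ^ 2 = ∑ i ∈ (J ∪ S)ᶜ, w j i * (gg (aeval q b2) (aeval q b4) (aeval q b6)
          (xv D F c q i) * h i ^ 2)) : False := by
  classical
  set B : Finset (Fin g × Fin (d + 1)) :=
    (J ∪ S).map ⟨fun i => (i, 0), fun a b hab => (Prod.mk.inj hab).1⟩ with hB
  have hBcard : B.card = J.card + S.card := by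
    rw [hB, Finset.card_map, Finset.card_union_of_disjoint hdis]
  have hBmem : ∀ i α, (i, α) ∈ B ↔ i ∈ J ∪ S ∧ α = 0 := by
    intro i α
    rw [hB, Finset.mem_map]
    constructor
    · rintro ⟨a, ha, hab⟩
      have := Prod.mk.inj hab
      exact ⟨this.1 ▸ ha, this.2.symm⟩
    · rintro ⟨ha, rfl⟩
      exact ⟨i, ha, rfl⟩
  set p : Fin d → L := fun m => q (Sum.inl m) with hpdef
  set L0 := IntermediateField.adjoin k (Set.range p ∪ c '' {w | w ∉ B}) with hL0
  refine h1 k L _ c hc d p B (by omega) ?_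
  rw [← hL0]
  set L1 : IntermediateField L0 L := algebraicClosure L0 L with hL1
  have hp0 : ∀ m, p m ∈ L0 := fun m =>
    IntermediateField.subset_adjoin k _ (Or.inl ⟨m, rfl⟩)
  have hin : ∀ z : L, z ∈ L0 → z ∈ L1 := fun z hz => L1.algebraMap_mem ⟨z, hz⟩
  have hp : ∀ m, p m ∈ L1 := fun m => hin _ (hp0 m)
  have hcB : ∀ v, v ∉ B → c v ∈ L1 := fun v hv =>
    hin _ (IntermediateField.subset_adjoin k _ (Or.inr ⟨v, hv, rfl⟩))
  have hb0 : ∀ b : MvPolynomial (Fin d) k, aeval p b ∈ L0 := by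
    intro b
    induction b using MvPolynomial.induction_on with
    | C a =>
      rw [MvPolynomial.algHom_C]
      exact L0.algebraMap_mem a
    | add b b' hb hb' =>
      rw [map_add]
      exact add_mem hb hb'
    | mul_X b m hb =>
      rw [map_mul, aeval_X]
      exact mul_mem hb (hp0 m)
  have hs : ∀ j, q (Sum.inr j) ∈ L1 := by
    intro j
    refine mem_algebraicClosure_iff.2 ?_
    exact alg_monic (r j) (fun l => (⟨aeval p (b j l), hb0 _⟩ : L0)) _ (H0 j)
  have hb : ∀ b : MvPolynomial (Fin d ⊕ Fin n) k, aeval q b ∈ L1 := by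
    intro b
    induction b using MvPolynomial.induction_on with
    | C a =>
      rw [MvPolynomial.algHom_C]
      exact hin _ (L0.algebraMap_mem a)
    | add b b' hb hb' =>
      rw [map_add]
      exact add_mem hb hb'
    | mul_X b m hb =>
      rw [map_mul, aeval_X]
      rcases m with m | j
      · exact mul_mem hb (hp m)
      · exact mul_mem hb (hs j)
  have hx : ∀ i, ∃ e ∈ L1, xv D F c q i = c (i, 0) + e := by
    intro i
    refine ⟨aeval q (F i) + ∑ m : Fin d, c (i, m.succ) * q (Sum.inl m) ^ D, ?_, ?_⟩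
    · refine add_mem (hb _) (sum_mem fun m _ => mul_mem (hcB _ ?_) (pow_mem (hp m) _))
      rw [hBmem]
      intro hh
      exact Fin.succ_ne_zero m hh.2
    · unfold xv
      ring
  have hx' : ∀ i, i ∈ (J ∪ S)ᶜ → xv D F c q i ∈ L1 := by
    intro i hi
    obtain ⟨e, he, hxe⟩ := hx i
    rw [hxe]
    refine add_mem (hcB _ ?_) he
    rw [hBmem]
    intro hh
    exact Finset.mem_compl.1 hi hh.1
  have halg : ∀ i, xv D F c q i ∈ L1 → IsAlgebraic L0 (c (i, 0)) := by
    intro i hi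
    obtain ⟨e, he, hxe⟩ := hx i
    have h2 : c (i, 0) ∈ L1 := by
      have : c (i, 0) = xv D F c q i - e := by rw [hxe]; ring
      rw [this]
      exact sub_mem hi he
    exact mem_algebraicClosure_iff.1 h2
  rintro ⟨i, α⟩ hiα
  obtain ⟨hi, rfl⟩ := (hBmem i α).1 hiα
  apply halg
  rcases Finset.mem_union.1 hi with hiJ | hiS
  · -- `i ∈ J`
    set x := xv D F c q i with hxdef
    have hiS : i ∉ S := Finset.disjoint_left.1 hdis hiJ
    have hγ : ∑ i' ∈ (J ∪ S)ᶜ, w i i' * (gg (aeval q b2) (aeval q b4) (aeval q b6)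
          (xv D F c q i') * h i' ^ 2) ∈ L1 := by
      refine sum_mem fun i' hi' => mul_mem ?_ (mul_mem ?_ (pow_mem ?_ _))
      · -- `w` is algebraic
        have e := H3 i hiJ i'
        have e2 : w i i' * (w i i' ^ 3 - 1) = 0 := by
          have : w i i' * (w i i' ^ 3 - 1) = w i i' ^ 4 - w i i' := by ring
          rw [this, e, sub_self]
        rcases mul_eq_zero.1 e2 with e3 | e3
        · rw [e3]; exact zero_mem _
        · refine mem_algebraicClosure_iff.2 ?_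
          refine IsAlgebraic.of_pow (n := 3) (by norm_num) ?_
          rw [sub_eq_zero.1 e3]
          exact isAlgebraic_one
      · unfold gg
        exact add_mem (add_mem (add_mem (pow_mem (hx' i' hi') _)
          (mul_mem (hb _) (pow_mem (hx' i' hi') _))) (mul_mem (hb _) (hx' i' hi'))) (hb _)
      · have hi'S : i' ∉ S := fun hh => Finset.mem_compl.1 hi' (Finset.mem_union_right _ hh)
        rw [eq_inv_of_mul_eq_one_left (H2 i' hi'S)]
        exact inv_mem (add_mem (pow_mem (hx' i' hi') _) (hb _))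
    have hH4 := H4 i hiJ
    rw [← hxdef] at hH4
    obtain ⟨γ, hγdef⟩ : ∃ γ, γ = ∑ i' ∈ (J ∪ S)ᶜ, w i i' * (gg (aeval q b2) (aeval q b4)
      (aeval q b6) (xv D F c q i') * h i' ^ 2) := ⟨_, rfl⟩
    rw [← hγdef] at hγ hH4
    have hH2 := H2 i hiS
    rw [← hxdef] at hH2
    have hroot : gg (aeval q b2) (aeval q b4) (aeval q b6) x = γ * (x ^ 2 + aeval q b4) ^ 2 := by
      calc gg (aeval q b2) (aeval q b4) (aeval q b6) x
          = gg (aeval q b2) (aeval q b4) (aeval q b6) x * (h i * (x ^ 2 + aeval q b4)) ^ 2 := by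
            rw [hH2]; ring
        _ = (gg (aeval q b2) (aeval q b4) (aeval q b6) x * h i ^ 2) * (x ^ 2 + aeval q b4) ^ 2 := by
            ring
        _ = _ := by rw [hH4]
    obtain ⟨B2, hB2⟩ : ∃ z : L1, (z : L) = aeval q b2 := ⟨⟨_, hb b2⟩, rfl⟩
    obtain ⟨B4, hB4⟩ : ∃ z : L1, (z : L) = aeval q b4 := ⟨⟨_, hb b4⟩, rfl⟩
    obtain ⟨B6, hB6⟩ : ∃ z : L1, (z : L) = aeval q b6 := ⟨⟨_, hb b6⟩, rfl⟩
    obtain ⟨G, hG⟩ : ∃ z : L1, (z : L) = γ := ⟨⟨_, hγ⟩, rfl⟩
    rw [← hB2, ← hB4, ← hB6, ← hG] at hroot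
    unfold gg at hroot
    have hxalg : IsAlgebraic L1 x := by
      refine alg_of_eq (-G) (B2 - (G * B4 + G * B4)) B4 (B6 - G * B4 ^ 2) x ?_
      have e1 : ∀ z : L1, algebraMap L1 L z = (z : L) := fun z => rfl
      simp only [e1]
      push_cast
      linear_combination hroot
    exact mem_algebraicClosure_iff.2 (hxalg.restrictScalars L0)
  · -- `i ∈ S`
    refine mem_algebraicClosure_iff.2 ?_
    refine IsAlgebraic.of_pow (n := 2) (by norm_num) ?_
    rw [eq_neg_of_add_eq_zero_left (H1 i hiS)]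
    exact mem_algebraicClosure_iff.1 (neg_mem (hb b4))

end sol

section system

variable {k : Type u} [Field k] {d n D g : ℕ}

/-- the variables besides the coefficients -/
abbrev Kap (d n g : ℕ) : Type := (Fin d ⊕ Fin n) ⊕ (Fin g ⊕ (Fin g × Fin g))

/-- the polynomial ring -/
abbrev PP (k : Type u) [Field k] (d n g : ℕ) : Type u :=
  MvPolynomial ((Fin g × Fin (d + 1)) ⊕ Kap d n g) k

noncomputable def vh (i : Fin g) : PP k d n g := X (Sum.inr (Sum.inr (Sum.inl i)))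

noncomputable def vw (j i : Fin g) : PP k d n g := X (Sum.inr (Sum.inr (Sum.inr (j, i))))

noncomputable def vb (b : MvPolynomial (Fin d ⊕ Fin n) k) : PP k d n g :=
  rename (fun m => Sum.inr (Sum.inl m)) b

noncomputable def vx (D : ℕ) (F : Fin g → MvPolynomial (Fin d ⊕ Fin n) k) (i : Fin g) :
    PP k d n g :=
  vb (F i) + X (Sum.inl (i, 0)) +
    ∑ m : Fin d, X (Sum.inl (i, m.succ)) * X (Sum.inr (Sum.inl (Sum.inl m))) ^ D

noncomputable def vs (r : Fin n → ℕ) (b : Fin n → ℕ → MvPolynomial (Fin d) k) (j : Fin n) :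
    PP k d n g :=
  X (Sum.inr (Sum.inl (Sum.inr j))) ^ r j + ∑ l ∈ Finset.range (r j),
    rename (fun m => Sum.inr (Sum.inl (Sum.inl m))) (b j l) *
      X (Sum.inr (Sum.inl (Sum.inr j))) ^ l

/-- the system of equations -/
def sys (D : ℕ) (r : Fin n → ℕ) (b : Fin n → ℕ → MvPolynomial (Fin d) k)
    (b2 b4 b6 : MvPolynomial (Fin d ⊕ Fin n) k) (F : Fin g → MvPolynomial (Fin d ⊕ Fin n) k)
    (S J : Finset (Fin g)) : Set (PP k d n g) :=
  {f | (∃ j, f = vs r b j) ∨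
    (∃ i ∈ S, f = vx D F i ^ 2 + vb b4) ∨
    (∃ i, i ∉ S ∧ f = vh i * (vx D F i ^ 2 + vb b4) - 1) ∨
    (∃ j ∈ J, ∃ i, f = vw j i ^ 4 - vw j i) ∨
    ∃ j ∈ J, f = gg (vb b2) (vb b4) (vb b6) (vx D F j) * vh j ^ 2 -
      ∑ i ∈ (J ∪ S)ᶜ, vw j i * (gg (vb b2) (vb b4) (vb b6) (vx D F i) * vh i ^ 2)}

variable {L : Type u} [Field L] [Algebra k L]

theorem aeval_vb (c : Fin g × Fin (d + 1) → L) (y : Kap d n g → L)
    (b : MvPolynomial (Fin d ⊕ Fin n) k) :
    aeval (Sum.elim c y) (vb b : PP k d n g) = aeval (fun m => y (Sum.inl m)) b := by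
  unfold vb
  rw [aeval_rename]
  rfl

theorem aeval_vx (D : ℕ) (F : Fin g → MvPolynomial (Fin d ⊕ Fin n) k)
    (c : Fin g × Fin (d + 1) → L) (y : Kap d n g → L) (i : Fin g) :
    aeval (Sum.elim c y) (vx D F i : PP k d n g) = xv D F c (fun m => y (Sum.inl m)) i := by
  unfold vx xv
  simp only [map_add, map_sum, map_mul, map_pow, aeval_vb, aeval_X, Sum.elim_inl, Sum.elim_inr]

theorem aeval_vs (r : Fin n → ℕ) (b : Fin n → ℕ → MvPolynomial (Fin d) k)
    (c : Fin g × Fin (d + 1) → L) (y : Kap d n g → L) (j : Fin n) :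
    aeval (Sum.elim c y) (vs r b j : PP k d n g) =
      y (Sum.inl (Sum.inr j)) ^ r j + ∑ l ∈ Finset.range (r j),
        aeval (fun m => y (Sum.inl (Sum.inl m))) (b j l) * y (Sum.inl (Sum.inr j)) ^ l := by
  unfold vs
  simp only [map_add, map_sum, map_mul, map_pow, aeval_X, Sum.elim_inr, aeval_rename]
  rfl

theorem aeval_vh (c : Fin g × Fin (d + 1) → L) (y : Kap d n g → L) (i : Fin g) :
    aeval (Sum.elim c y) (vh i : PP k d n g) = y (Sum.inr (Sum.inl i)) := by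
  unfold vh
  rw [aeval_X]
  rfl

theorem aeval_vw (c : Fin g × Fin (d + 1) → L) (y : Kap d n g → L) (j i : Fin g) :
    aeval (Sum.elim c y) (vw j i : PP k d n g) = y (Sum.inr (Sum.inr (j, i))) := by
  unfold vw
  rw [aeval_X]
  rfl

theorem aeval_gg (D : ℕ) (F : Fin g → MvPolynomial (Fin d ⊕ Fin n) k)
    (c : Fin g × Fin (d + 1) → L) (y : Kap d n g → L)
    (b2 b4 b6 : MvPolynomial (Fin d ⊕ Fin n) k) (i : Fin g) :
    aeval (Sum.elim c y) (gg (vb b2) (vb b4) (vb b6) (vx D F i) : PP k d n g) =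
      gg (aeval (fun m => y (Sum.inl m)) b2) (aeval (fun m => y (Sum.inl m)) b4)
        (aeval (fun m => y (Sum.inl m)) b6) (xv D F c (fun m => y (Sum.inl m)) i) := by
  unfold gg
  simp only [map_add, map_mul, map_pow, aeval_vx, aeval_vb]

/-- all equations of the system hold at `(c, y)` -/
theorem vanish_iff (D : ℕ) (r : Fin n → ℕ) (b : Fin n → ℕ → MvPolynomial (Fin d) k)
    (b2 b4 b6 : MvPolynomial (Fin d ⊕ Fin n) k) (F : Fin g → MvPolynomial (Fin d ⊕ Fin n) k)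
    (S J : Finset (Fin g)) (c : Fin g × Fin (d + 1) → L) (y : Kap d n g → L) :
    (∀ f ∈ sys D r b b2 b4 b6 F S J, aeval (Sum.elim c y) (f : PP k d n g) = 0) ↔
    (∀ j, y (Sum.inl (Sum.inr j)) ^ r j + ∑ l ∈ Finset.range (r j),
        aeval (fun m => y (Sum.inl (Sum.inl m))) (b j l) * y (Sum.inl (Sum.inr j)) ^ l = 0) ∧
    (∀ i ∈ S, xv D F c (fun m => y (Sum.inl m)) i ^ 2 +
      aeval (fun m => y (Sum.inl m)) b4 = 0) ∧
    (∀ i, i ∉ S → y (Sum.inr (Sum.inl i)) * (xv D F c (fun m => y (Sum.inl m)) i ^ 2 +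
      aeval (fun m => y (Sum.inl m)) b4) = 1) ∧
    (∀ j ∈ J, ∀ i, y (Sum.inr (Sum.inr (j, i))) ^ 4 = y (Sum.inr (Sum.inr (j, i)))) ∧
    (∀ j ∈ J, gg (aeval (fun m => y (Sum.inl m)) b2) (aeval (fun m => y (Sum.inl m)) b4)
        (aeval (fun m => y (Sum.inl m)) b6)
        (xv D F c (fun m => y (Sum.inl m)) j) * y (Sum.inr (Sum.inl j)) ^ 2 =
      ∑ i ∈ (J ∪ S)ᶜ, y (Sum.inr (Sum.inr (j, i))) *
        (gg (aeval (fun m => y (Sum.inl m)) b2) (aeval (fun m => y (Sum.inl m)) b4)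
        (aeval (fun m => y (Sum.inl m)) b6)
        (xv D F c (fun m => y (Sum.inl m)) i) *
          y (Sum.inr (Sum.inl i)) ^ 2)) := by
  constructor
  · intro H
    refine ⟨fun j => ?_, fun i hi => ?_, fun i hi => ?_, fun j hj i => ?_, fun j hj => ?_⟩
    · have := H _ (Or.inl ⟨j, rfl⟩)
      rwa [aeval_vs] at this
    · have := H _ (Or.inr (Or.inl ⟨i, hi, rfl⟩))
      rwa [map_add, map_pow, aeval_vx, aeval_vb] at this
    · have := H _ (Or.inr (Or.inr (Or.inl ⟨i, hi, rfl⟩)))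
      rw [map_sub, map_mul, map_add, map_pow, aeval_vx, aeval_vb, aeval_vh, map_one] at this
      exact sub_eq_zero.1 this
    · have := H _ (Or.inr (Or.inr (Or.inr (Or.inl ⟨j, hj, i, rfl⟩))))
      rw [map_sub, map_pow, aeval_vw] at this
      exact sub_eq_zero.1 this
    · have := H _ (Or.inr (Or.inr (Or.inr (Or.inr ⟨j, hj, rfl⟩))))
      rw [map_sub, map_mul, map_pow, aeval_gg, aeval_vh, map_sum] at this
      simp only [map_mul, map_pow, aeval_gg, aeval_vh, aeval_vw] at this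
      exact sub_eq_zero.1 this
  · rintro ⟨H0, H1, H2, H3, H4⟩ f
      (⟨j, rfl⟩ | ⟨i, hi, rfl⟩ | ⟨i, hi, rfl⟩ | ⟨j, hj, i, rfl⟩ | ⟨j, hj, rfl⟩)
    · rw [aeval_vs]
      exact H0 j
    · rw [map_add, map_pow, aeval_vx, aeval_vb]
      exact H1 i hi
    · rw [map_sub, map_mul, map_add, map_pow, aeval_vx, aeval_vb, aeval_vh, map_one, H2 i hi,
        sub_self]
    · rw [map_sub, map_pow, aeval_vw, H3 j hj i, sub_self]
    · rw [map_sub, map_mul, map_pow, aeval_gg, aeval_vh, map_sum]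
      simp only [map_mul, map_pow, aeval_gg, aeval_vh, aeval_vw]
      rw [H4 j hj, sub_self]

end system

theorem xv_eq {k : Type u} [Field k] {d n g : ℕ} (D : ℕ)
    (F : Fin g → MvPolynomial (Fin d ⊕ Fin n) k) (c : Fin g × Fin (d + 1) → k)
    (p : Fin d → k) (s : Fin n → k) (i : Fin g) :
    xv D F c (Sum.elim p s) i = absc D F c p s i := by
  unfold xv absc
  simp only [aeval_eq_eval, Sum.elim_inl]

theorem fixed (h1 : T_TRD.{u}) (h2 : T_ELM.{u}) (k : Type u) [Field k] (d n D g : ℕ)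
    (r : Fin n → ℕ) (b : Fin n → ℕ → MvPolynomial (Fin d) k)
    (b2 b4 b6 : MvPolynomial (Fin d ⊕ Fin n) k) (F : Fin g → MvPolynomial (Fin d ⊕ Fin n) k)
    (S J : Finset (Fin g)) :
    ∃ Φ : MvPolynomial (Fin g × Fin (d + 1)) k, Φ ≠ 0 ∧
      ∀ c : Fin g × Fin (d + 1) → k, eval c Φ ≠ 0 →
      ∀ p s w, ¬ BadMain2 D r b b2 b4 b6 F c p s S J w := by
  classical
  by_cases hcase : Disjoint J S ∧ d + 1 ≤ J.card + S.card
  swap
  · exact ⟨1, one_ne_zero, fun c _ p s w hbad => hcase ⟨hbad.2.1, hbad.2.2.1⟩⟩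
  obtain ⟨Φ, hΦ, hΦ2⟩ := h2 k (Fin g × Fin (d + 1)) (Kap d n g) (sys D r b b2 b4 b6 F S J) (by
    intro L _ _ c y hc
    by_contra hcon
    push Not at hcon
    obtain ⟨H0, H1, H2, H3, H4⟩ := (vanish_iff D r b b2 b4 b6 F S J c y).1 hcon
    exact no_sol h1 r b b2 b4 b6 F S J hcase.1 hcase.2 c hc (fun m => y (Sum.inl m))
      (fun i => y (Sum.inr (Sum.inl i))) (fun j i => y (Sum.inr (Sum.inr (j, i))))
      H0 H1 H2 H3 H4)
  refine ⟨Φ, hΦ, fun c hc p s w hbad => ?_⟩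
  obtain ⟨G0, -, -, G1, G2, G3, G4⟩ := hbad
  obtain ⟨f, hf, hne⟩ := hΦ2 c hc (Sum.elim (Sum.elim p s) (Sum.elim
    (fun i => (absc D F c p s i ^ 2 + eval (Sum.elim p s) b4)⁻¹) (fun ji => w ji.1 ji.2)))
  apply hne
  have key := (vanish_iff (L := k) D r b b2 b4 b6 F S J c (Sum.elim (Sum.elim p s) (Sum.elim
    (fun i => (absc D F c p s i ^ 2 + eval (Sum.elim p s) b4)⁻¹)
      (fun ji => w ji.1 ji.2)))).2 (by
    have e1 : (fun m => (Sum.elim (Sum.elim p s) (Sum.elim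
      (fun i => (absc D F c p s i ^ 2 + eval (Sum.elim p s) b4)⁻¹)
      (fun ji : Fin g × Fin g => w ji.1 ji.2)) : Kap d n g → k) (Sum.inl m)) = Sum.elim p s := rfl
    rw [e1]
    simp only [Sum.elim_inl, Sum.elim_inr, xv_eq]
    refine ⟨G0, G1, fun i hi => inv_mul_cancel₀ (G2 i hi), G3, fun j hj => ?_⟩
    have := G4 j hj
    simp only [ff, div_eq_mul_inv] at this
    simp only [gg, inv_pow]
    exact this)
  exact key f hf

end PHM2_

open PHM2_ in
theorem p_PHM2 (h1 : T_TRD.{u}) (h2 : T_ELM.{u}) : T_PHM2.{u} := by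
  classical
  intro k _ d n D g r b b2 b4 b6 F
  choose Φ hΦ hΦ2 using fixed h1 h2 k d n D g r b b2 b4 b6 F
  refine ⟨∏ S : Finset (Fin g), ∏ J : Finset (Fin g), Φ S J, ?_, ?_⟩
  · exact Finset.prod_ne_zero_iff.2 fun S _ => Finset.prod_ne_zero_iff.2 fun J _ => hΦ S J
  · intro c hc p s S J w
    rw [map_prod] at hc
    have h3 := Finset.prod_ne_zero_iff.1 hc S (Finset.mem_univ S)
    rw [map_prod] at h3
    exact hΦ2 S J c (Finset.prod_ne_zero_iff.1 h3 J (Finset.mem_univ J)) p s w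

end RD
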