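import Pool.Agent.RD.All
import Pool.Agent.RD.PHM2
import Pool.Agent.RD.PHI2
import Pool.Agent.RD.INF2
import Pool.Agent.RD.MAI2
import Pool.Agent.RD.FIN2
import Pool.Agent.RD.NVC

/-! Assembly of the second version. -/

namespace RD

universe u

theorem all_FIN2 : T_FIN2.{u} :=
  p_FIN2 p_RFD (p_MAI2 p_DBL all_LOC) (p_INF2 all_NSM all_LOC) (p_PHM2 p_TRD p_ELM)
    (p_PHI2 p_TRD p_ELM)

end RD
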