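import Mathlib
import Pool.Agent.RD.Defs
import Pool.Agent.RD.All2

/-!
Pink's conjecture for generic (modulo 2) multisections of the fibre powers of an elliptic scheme
over an arbitrary affine base of dimension `d`.

The base is the set of points `(p, s)` of `K ^ d x K ^ n` where every `s_j` satisfies a monic
equation over `p` (Noether coordinates). The elliptic scheme is
`y ^ 2 = x ^ 3 + A2 x ^ 2 + A4 x + A6` with `A2, A4, A6` functions on the base. The `g` abscissas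
are `F_i(p, s) + c_{i,0} + sum_m c_{i,m+1} p_m ^ D` with arbitrary functions `F_i` of degree at
most `D`.
-/

namespace Pool.Agent.Results.MP_28d749_ag.GenericMultisections

open MvPolynomial RD

theorem result {K : Type*} [Field K] [CharZero K] [DecidableEq K] (v : AbsoluteValue K ℝ)
    (hna : IsNonarchimedean v) (hv : v 2 < 1) (d n m D g : ℕ) (hmD : m < D)
    (ρ : Fin n → ℕ) (b : Fin n → ℕ → MvPolynomial (Fin d) K)
    (hb : ∀ j l, l < ρ j → (b j l).totalDegree ≤ ρ j - l ∧ ∀ t, v ((b j l).coeff t) ≤ 1)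
    (A2 A4 A6 : MvPolynomial (Fin d ⊕ Fin n) K)
    (hA : ∀ t, v (A2.coeff t) ≤ 1 ∧ v (A4.coeff t) ≤ 1 ∧ v (A6.coeff t) ≤ 1)
    (h2 : A2.totalDegree ≤ m) (h4 : A4.totalDegree ≤ 2 * m) (h6 : A6.totalDegree ≤ 3 * m)
    (F : Fin g → MvPolynomial (Fin d ⊕ Fin n) K)
    (hF : ∀ i, (F i).totalDegree ≤ D ∧ ∀ t, v ((F i).coeff t) ≤ 1) :
    ∃ Φ : MvPolynomial (Fin g × Fin (d + 1)) K,
      (∀ t, v (Φ.coeff t) ≤ 1) ∧ (∃ t, v (Φ.coeff t) = 1) ∧
      (IsAlgClosed K → ∃ c : Fin g × Fin (d + 1) → K, (∀ u, v (c u) ≤ 1) ∧ v (eval c Φ) = 1) ∧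
      ∀ c : Fin g × Fin (d + 1) → K, (∀ u, v (c u) ≤ 1) → v (eval c Φ) = 1 →
        ∀ (p : Fin d → K) (s : Fin n → K),
          (∀ j, s j ^ ρ j + ∑ l ∈ Finset.range (ρ j), eval p (b j l) * s j ^ l = 0) →
          ∀ P : Fin g → (curve (eval (Sum.elim p s) A2) (eval (Sum.elim p s) A4)
              (eval (Sum.elim p s) A6)).Point,
            (∀ i, ∃ y h, P i = WeierstrassCurve.Affine.Point.some
              (eval (Sum.elim p s) (F i) + c (i, 0) + ∑ r : Fin d, c (i, r.succ) * p r ^ D) y h) →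
            ¬ IntRel _ (d + 1) P ∧ ¬ CMRel _ (d + 1) P := by
  obtain ⟨Φ, q1, q2, q3⟩ := all_FIN2 K v hna hv d n m D g hmD ρ b hb A2 A4 A6 F hA h2 h4 h6 hF
  refine ⟨Φ, q1, q2, ?_, ?_⟩
  · intro _
    exact exists_unit_value v hna hv Φ q1 q2
  · intro c hc hvc p s hs P hP
    have := q3 c hc hvc p s hs P hP
    exact not_or.1 this

end Pool.Agent.Results.MP_28d749_ag.GenericMultisections
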